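import Pool.Agent.H78.L2.Q0
import Pool.Agent.H8.JD.Crit

set_option autoImplicit false
set_option linter.unusedSectionVars false
set_option linter.unusedVariables false

/-!
# JD: no critical algebra of class 8 with at least four generators and an element `x` with `x^8 ≠ 0`
-/

namespace JD

universe u

variable {F : Type u} [Field F] {J : Type u} [NonUnitalNonAssocCommRing J] [Module F J]
  [IsScalarTower F J J] [SMulCommClass F J J]

open L2 in
theorem crit_c8 {e : J} (h : Crit F J 8 e) (hn : 4 ≤ ngen F J) {x : J}
    (hx : L2.xp x 8 ≠ 0) : False := by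
  haveI := h.fin
  have hdim := h.dim
  have hbot : jpow F J 9 = ⊥ := h.bot
  -- `x^i ∉ J^(i+1)`
  have hpow : ∀ n j k, 1 ≤ j → L2.xp x j ∈ jpow F J k → L2.xp x (n + j) ∈ jpow F J (n + k) := by
    intro n
    induction n with
    | zero => intro j k _ hk; simpa using hk
    | succ n ih =>
      intro j k hj hk
      have h1 := ih (j + 1) (k + 1) (by omega) (by
        rw [xp_succ x hj]
        exact lmul_mem (by omega) x hk)
      rw [show n + 1 + j = n + (j + 1) by omega, show n + 1 + k = n + (k + 1) by omega]
      exact h1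
  have hnot : ∀ i, 1 ≤ i → i ≤ 8 → L2.xp x i ∉ jpow F J (i + 1) := by
    intro i hi hi8 hmem
    have h1 := hpow (8 - i) i (i + 1) hi hmem
    rw [show 8 - i + i = 8 by omega, show 8 - i + (i + 1) = 9 by omega, hbot,
      Submodule.mem_bot] at h1
    exact hx h1
  have hlt : ∀ i, 1 ≤ i → i ≤ 8 →
      Module.finrank F (jpow F J (i + 1)) + 1 ≤ Module.finrank F (jpow F J i) := by
    intro i hi hi8
    refine Submodule.finrank_lt_finrank_of_lt (lt_of_le_of_ne (jpow_succ_le i) ?_)
    intro heq
    exact hnot i hi hi8 (heq ▸ xp_mem x i)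
  have hq : Module.finrank F J = ngen F J + Module.finrank F (jpow F J 2) := by
    have := (jpow F J 2).finrank_quotient_add_finrank
    unfold ngen
    omega
  have h0 : Module.finrank F (jpow F J 9) = 0 := by rw [hbot]; exact finrank_bot F J
  have l2 := hlt 2 (by omega) (by omega)
  have l3 := hlt 3 (by omega) (by omega)
  have l4 := hlt 4 (by omega) (by omega)
  have l5 := hlt 5 (by omega) (by omega)
  have l6 := hlt 6 (by omega) (by omega)
  have l7 := hlt 7 (by omega) (by omega)
  have l8 := hlt 8 (by omega) (by omega)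
  simp only [Nat.reduceAdd] at l2 l3 l4 l5 l6 l7 l8
  have hle : ∀ i, 2 ≤ i → i ≤ 8 →
      Module.finrank F (jpow F J i) ≤ Module.finrank F (jpow F J (i + 1)) + 1 := by
    intro i hi hi8
    interval_cases i <;> simp only [Nat.reduceAdd] <;> omega
  -- the layers are spanned by the powers
  have hlay : ∀ i, 2 ≤ i → i ≤ 8 →
      jpow F J i ≤ Submodule.span F {L2.xp x i} ⊔ jpow F J (i + 1) := by
    intro i hi hi8
    have hsub : Submodule.span F {L2.xp x i} ⊔ jpow F J (i + 1) ≤ jpow F J i := by
      refine sup_le ?_ (jpow_succ_le i)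
      rw [Submodule.span_singleton_le_iff_mem]
      exact xp_mem x i
    have hlt' : jpow F J (i + 1) < Submodule.span F {L2.xp x i} ⊔ jpow F J (i + 1) := by
      refine lt_of_le_of_ne le_sup_right ?_
      intro heq
      apply hnot i (by omega) hi8
      rw [heq]
      exact Submodule.mem_sup_left (Submodule.mem_span_singleton_self _)
    have h1 := Submodule.finrank_lt_finrank_of_lt hlt'
    have h3 := hle i hi hi8
    rw [← Submodule.eq_of_le_of_finrank_le hsub (by omega)]
  have hlayx : Lay F x := by
    refine ⟨h.two, h.jordan, ⟨9, hbot⟩, ?_⟩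
    have := hlay 2 (by omega) (by omega)
    rwa [xp_two] at this
  obtain ⟨φ, M, hs⟩ := exists_Spl hlayx (by omega) hbot hx
  -- `J^n = C_{≥ n}`
  have hC : ∀ d n, 2 ≤ n → n + d = 9 → jpow F J n ≤ Cg F x n := by
    intro d
    induction d with
    | zero =>
      intro n _ hn9
      obtain rfl : n = 9 := by omega
      rw [hbot]
      exact bot_le
    | succ d ih =>
      intro n hn2 hn9
      refine (hlay n hn2 (by omega)).trans (sup_le ?_ ?_)
      · rw [Submodule.span_singleton_le_iff_mem]
        exact xp_mem_Cg x le_rfl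
      · exact (ih (n + 1) (by omega) (by omega)).trans (Cg_anti x (by omega))
  refine h.exc (special_Q0 hs ?_)
  intro m hm hm2
  exact hs.inter (Cg_anti x (by omega) (hC 7 2 le_rfl rfl hm2)) hm

end JD
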