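import Pool.Agent.H78.L2.LA

set_option autoImplicit false
set_option linter.unusedSectionVars false
set_option linter.unusedVariables false

/-!
# JD L2: the splitting `J = C ⊕ M`

`C_{≥ j} = Cg F x j = span {x^i | i ≥ j}`, `kap F x φ i v = φ (L_x^i v)`, `M = {m | kap i m = 0 for all i}`.
`cp v = Σ_{i < c} kap i v • x^(c - i)` is the `C`-part of `v`, `v - cp v ∈ M`.
-/

namespace JD
namespace L2

universe u v w

variable {F : Type u} [Field F] {J : Type v} [NonUnitalNonAssocCommRing J] [Module F J]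
  [IsScalarTower F J J] [SMulCommClass F J J]

/-- span of the powers `x^i`, `i ≥ j` -/
def Cg (F : Type u) [Field F] {J : Type v} [NonUnitalNonAssocCommRing J] [Module F J]
    (x : J) (j : ℕ) : Submodule F J := Submodule.span F {v | ∃ i, j ≤ i ∧ v = xp x i}

theorem xp_mem_Cg (x : J) {i j : ℕ} (h : j ≤ i) : xp x i ∈ Cg F x j :=
  Submodule.subset_span ⟨i, h, rfl⟩

theorem Cg_anti (x : J) {i j : ℕ} (h : i ≤ j) : Cg F x j ≤ Cg F x i := by
  refine Submodule.span_mono ?_
  rintro _ ⟨k, hk, rfl⟩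
  exact ⟨k, h.trans hk, rfl⟩

theorem Cg_le (x : J) {j : ℕ} {T : Submodule F J} (h : ∀ i, j ≤ i → xp x i ∈ T) :
    Cg F x j ≤ T := by
  unfold Cg
  rw [Submodule.span_le]
  rintro _ ⟨i, hi, rfl⟩
  exact h i hi

theorem Cg_zero (x : J) : Cg F x 0 = Cg F x 1 := by
  refine le_antisymm (Cg_le x fun i _ => ?_) (Cg_anti x (by omega))
  rcases Nat.eq_zero_or_pos i with rfl | h
  · rw [xp_zero]; exact zero_mem _
  · exact xp_mem_Cg x h

theorem Cg_le_jpow (x : J) (j : ℕ) : Cg F x j ≤ jpow F J j :=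
  Cg_le x fun i hi => jpow_anti hi (xp_mem x i)

/-- the functionals `φ ∘ L_x^i` -/
def kap (F : Type u) [Field F] {J : Type v} [NonUnitalNonAssocCommRing J] [Module F J]
    [IsScalarTower F J J] [SMulCommClass F J J] (x : J) (φ : J →ₗ[F] F) (i : ℕ) : J →ₗ[F] F :=
  φ ∘ₗ (LinearMap.mulLeft F x) ^ i

theorem kap_zero (x : J) (φ : J →ₗ[F] F) (v : J) : kap F x φ 0 v = φ v := by
  simp [kap]

theorem kap_succ (x : J) (φ : J →ₗ[F] F) (i : ℕ) (v : J) :
    kap F x φ (i + 1) v = kap F x φ i (x * v) := by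
  simp only [kap, LinearMap.comp_apply, pow_succ, Module.End.mul_apply, LinearMap.mulLeft_apply]

theorem kap_xp (x : J) (φ : J →ₗ[F] F) (i : ℕ) {j : ℕ} (hj : 1 ≤ j) :
    kap F x φ i (xp x j) = φ (xp x (i + j)) := by
  induction i generalizing j with
  | zero => rw [kap_zero, Nat.zero_add]
  | succ i ih =>
    rw [kap_succ, ← xp_succ x hj, ih (by omega)]
    congr 2
    omega

/-- the setting -/
structure Spl (F : Type u) [Field F] {J : Type v} [NonUnitalNonAssocCommRing J] [Module F J]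
    [IsScalarTower F J J] [SMulCommClass F J J] (x : J) (c : ℕ) (φ : J →ₗ[F] F)
    (M : Submodule F J) : Prop extends Lay F x where
  hc : 7 ≤ c
  bot : jpow F J (c + 1) = ⊥
  top : φ (xp x c) = 1
  low : ∀ i, i < c → φ (xp x i) = 0
  mem : ∀ m, m ∈ M ↔ ∀ i, kap F x φ i m = 0

theorem xp_eq_zero {x : J} {c i : ℕ} (bot : jpow F J (c + 1) = ⊥) (hi : c + 1 ≤ i) :
    xp x i = 0 := by
  have := jpow_anti (F := F) (J := J) hi (xp_mem x i)
  rwa [bot, Submodule.mem_bot] at this

theorem exists_Spl {x : J} {c : ℕ} (h : Lay F x) (hc : 7 ≤ c) (bot : jpow F J (c + 1) = ⊥)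
    (hx : xp x c ≠ 0) : ∃ (φ : J →ₗ[F] F) (M : Submodule F J), Spl F x c φ M := by
  let Cr : ℕ → Submodule F J := fun k => Submodule.span F {v | ∃ i, k ≤ i ∧ i < c ∧ v = xp x i}
  have hsplit : ∀ k, 1 ≤ k → ∀ v ∈ Cr k, ∃ a : F, ∃ w ∈ Cr (k + 1), v = a • xp x k + w := by
    intro k hk v hv
    induction hv using Submodule.span_induction with
    | mem v hv =>
      obtain ⟨i, hi, hic, rfl⟩ := hv
      rcases eq_or_lt_of_le hi with rfl | hlt
      · exact ⟨1, 0, zero_mem _, by simp⟩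
      · exact ⟨0, xp x i, Submodule.subset_span ⟨i, hlt, hic, rfl⟩, by simp⟩
    | zero => exact ⟨0, 0, zero_mem _, by simp⟩
    | add v v' _ _ hv hv' =>
      obtain ⟨a, w, hw, rfl⟩ := hv
      obtain ⟨a', w', hw', rfl⟩ := hv'
      exact ⟨a + a', w + w', add_mem hw hw', by rw [add_smul]; abel⟩
    | smul r v _ hv =>
      obtain ⟨a, w, hw, rfl⟩ := hv
      exact ⟨r * a, r • w, Submodule.smul_mem _ _ hw, by rw [smul_add, mul_smul]⟩
  have hL : ∀ n j, 1 ≤ j → ((LinearMap.mulLeft F x) ^ n) (xp x j) = xp x (n + j) := by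
    intro n
    induction n with
    | zero => intro j _; simp
    | succ n ih =>
      intro j hj
      rw [pow_succ, Module.End.mul_apply, LinearMap.mulLeft_apply, ← xp_succ x hj,
        ih (j + 1) (by omega)]
      congr 1
      omega
  have hz : ∀ k, 1 ≤ k → k ≤ c → ∀ w ∈ Cr (k + 1),
      ((LinearMap.mulLeft F x) ^ (c - k)) w = 0 := by
    intro k hk hkc w hw
    induction hw using Submodule.span_induction with
    | mem v hv =>
      obtain ⟨i, hi, hic, rfl⟩ := hv
      rw [hL _ _ (by omega)]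
      exact xp_eq_zero bot (by omega)
    | zero => rw [map_zero]
    | add v v' _ _ hv hv' => rw [map_add, hv, hv', add_zero]
    | smul r v _ hv => rw [map_smul, hv, smul_zero]
  have hnot : ∀ k, 1 ≤ k → k ≤ c → xp x c ∈ Cr 1 → xp x c ∈ Cr k := by
    intro k hk
    induction k, hk using Nat.le_induction with
    | base => intro _ h1; exact h1
    | succ k hk ih =>
      intro hkc h1
      obtain ⟨a, w, hw, hw'⟩ := hsplit k hk _ (ih (by omega) h1)
      have h3 := congrArg (((LinearMap.mulLeft F x) ^ (c - k))) hw'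
      rw [map_add, map_smul, hL _ _ (by omega), hL _ _ hk] at h3
      have h4 : ((LinearMap.mulLeft F x) ^ (c - k)) w = 0 := hz k hk (by omega) w hw
      rw [h4, add_zero, xp_eq_zero bot (by omega), show c - k + k = c by omega] at h3
      have ha : a = 0 := by
        rcases smul_eq_zero.mp h3.symm with h5 | h5
        · exact h5
        · exact absurd h5 hx
      rw [hw', ha, zero_smul, zero_add]
      exact hw
  have hnot' : xp x c ∉ Cr 1 := by
    intro h1
    have h3 := hnot c (by omega) le_rfl h1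
    have h4 : Cr c = ⊥ := by
      rw [eq_bot_iff]
      simp only [Cr]
      rw [Submodule.span_le]
      rintro _ ⟨i, hi, hic, rfl⟩
      omega
    rw [h4, Submodule.mem_bot] at h3
    exact hx h3
  obtain ⟨g, hg, hg'⟩ := Submodule.exists_le_ker_of_notMem hnot'
  refine ⟨(g (xp x c))⁻¹ • g, ⨅ i, LinearMap.ker (kap F x ((g (xp x c))⁻¹ • g) i),
    h, hc, bot, ?_, ?_, ?_⟩
  · simp [hg]
  · intro i hi
    rcases Nat.eq_zero_or_pos i with rfl | hi0
    · rw [xp_zero, map_zero]
    · have : xp x i ∈ Cr 1 := Submodule.subset_span ⟨i, hi0, hi, rfl⟩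
      have := hg' this
      rw [LinearMap.mem_ker] at this
      simp [this]
  · intro m
    simp only [Submodule.mem_iInf, LinearMap.mem_ker]

namespace Spl

variable {x : J} {c : ℕ} {φ : J →ₗ[F] F} {M : Submodule F J} (h : Spl F x c φ M)
include h

theorem xp_zero' {i : ℕ} (hi : c + 1 ≤ i) : xp x i = 0 := xp_eq_zero h.bot hi

theorem zero_of_mem {n : ℕ} (hn : c + 1 ≤ n) {v : J} (hv : v ∈ jpow F J n) : v = 0 := by
  have := jpow_anti (F := F) (J := J) hn hv
  rwa [h.bot, Submodule.mem_bot] at this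

theorem phi_xp (i : ℕ) : φ (xp x i) = if i = c then 1 else 0 := by
  split_ifs with hi
  · rw [hi, h.top]
  · rcases Nat.lt_or_ge i c with h1 | h1
    · exact h.low i h1
    · rw [h.xp_zero' (by omega), map_zero]

theorem kap_xp' (i j : ℕ) (hj : 1 ≤ j) : kap F x φ i (xp x j) = if i + j = c then 1 else 0 := by
  rw [kap_xp x φ i hj, h.phi_xp]

theorem kap_zero_of_mem {n i : ℕ} (hn : c + 1 ≤ n + i) {v : J} (hv : v ∈ jpow F J n) :
    kap F x φ i v = 0 := by
  induction i generalizing n v with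
  | zero => rw [kap_zero, h.zero_of_mem (by omega) hv, map_zero]
  | succ i ih =>
    rw [kap_succ]
    exact ih (n := n + 1) (by omega) (lmul_mem (by omega) x hv)

theorem kap_big {i : ℕ} (hi : c ≤ i) (v : J) : kap F x φ i v = 0 :=
  h.kap_zero_of_mem (n := 1) (by omega) (mem_one v)

end Spl

/-- the `C`-part -/
def cp (F : Type u) [Field F] {J : Type v} [NonUnitalNonAssocCommRing J] [Module F J]
    [IsScalarTower F J J] [SMulCommClass F J J] (x : J) (c : ℕ) (φ : J →ₗ[F] F) : J →ₗ[F] J :=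
  ∑ i ∈ Finset.range c, (kap F x φ i).smulRight (xp x (c - i))

theorem cp_apply (x : J) (c : ℕ) (φ : J →ₗ[F] F) (v : J) :
    cp F x c φ v = ∑ i ∈ Finset.range c, kap F x φ i v • xp x (c - i) := by
  simp [cp, LinearMap.sum_apply]

theorem cp_mem (x : J) (c : ℕ) (φ : J →ₗ[F] F) (v : J) : cp F x c φ v ∈ Cg F x 1 := by
  rw [cp_apply]
  refine Submodule.sum_mem _ fun i hi => Submodule.smul_mem _ _ (xp_mem_Cg x ?_)
  rw [Finset.mem_range] at hi
  omega

/-- if `kap i v = 0` for `i ≥ k` then the `C`-part is in `C_{≥ j}` -/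
theorem cp_mem_of {x : J} {c : ℕ} {φ : J →ₗ[F] F} {v : J} {j k : ℕ} (hj : j + k ≤ c + 1)
    (hv : ∀ i, k ≤ i → kap F x φ i v = 0) : cp F x c φ v ∈ Cg F x j := by
  rw [cp_apply]
  refine Submodule.sum_mem _ fun i hi => ?_
  rw [Finset.mem_range] at hi
  rcases Nat.lt_or_ge i k with h1 | h1
  · exact Submodule.smul_mem _ _ (xp_mem_Cg x (by omega))
  · rw [hv i h1, zero_smul]; exact zero_mem _

namespace Spl

variable {x : J} {c : ℕ} {φ : J →ₗ[F] F} {M : Submodule F J} (h : Spl F x c φ M)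
include h

theorem cp_xp {j : ℕ} (hj : 1 ≤ j) : cp F x c φ (xp x j) = xp x j := by
  rw [cp_apply]
  rcases Nat.lt_or_ge c j with h1 | h1
  · rw [h.xp_zero' h1]
    refine Finset.sum_eq_zero fun i _ => ?_
    rw [map_zero, zero_smul]
  · rw [Finset.sum_eq_single (c - j)]
    · rw [h.kap_xp' _ _ hj, if_pos (by omega), one_smul]
      congr 1
      omega
    · intro i _ hi
      rw [h.kap_xp' _ _ hj, if_neg (by omega), zero_smul]
    · intro hi
      rw [Finset.mem_range] at hi
      omega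

theorem cp_of_Cg {v : J} (hv : v ∈ Cg F x 1) : cp F x c φ v = v := by
  unfold Cg at hv
  induction hv using Submodule.span_induction with
  | mem v hv =>
    obtain ⟨i, hi, rfl⟩ := hv
    exact h.cp_xp hi
  | zero => rw [map_zero]
  | add v w _ _ hv hw => rw [map_add, hv, hw]
  | smul r v _ hv => rw [map_smul, hv]

theorem cp_of_M {m : J} (hm : m ∈ M) : cp F x c φ m = 0 := by
  rw [cp_apply]
  refine Finset.sum_eq_zero fun i _ => ?_
  rw [(h.mem m).mp hm i, zero_smul]

theorem inter {v : J} (hv : v ∈ Cg F x 1) (hm : v ∈ M) : v = 0 := by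
  rw [← h.cp_of_Cg hv, h.cp_of_M hm]

theorem kap_cp (i : ℕ) (v : J) : kap F x φ i (cp F x c φ v) = kap F x φ i v := by
  rw [cp_apply, map_sum]
  rcases Nat.lt_or_ge i c with h1 | h1
  · rw [Finset.sum_eq_single i]
    · rw [map_smul, h.kap_xp' _ _ (by omega), if_pos (by omega), smul_eq_mul, mul_one]
    · intro j hj hji
      rw [Finset.mem_range] at hj
      rw [map_smul, h.kap_xp' _ _ (by omega), if_neg (by omega), smul_zero]
    · intro hi
      rw [Finset.mem_range] at hi
      omega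
  · rw [h.kap_big h1 v]
    refine Finset.sum_eq_zero fun j hj => ?_
    rw [h.kap_big h1]

theorem pi_mem (v : J) : v - cp F x c φ v ∈ M := by
  rw [h.mem]
  intro i
  rw [map_sub, h.kap_cp, sub_self]

/-- every element is the sum of its `C`-part and an element of `M` -/
theorem exists_dec (v : J) : ∃ m ∈ M, v = cp F x c φ v + m :=
  ⟨_, h.pi_mem v, by abel⟩

theorem M_mul {m : J} (hm : m ∈ M) : x * m ∈ M := by
  rw [h.mem] at hm ⊢
  intro i
  rw [← kap_succ]
  exact hm (i + 1)

/-- an element of `C` with `kap i v = 0` for `i ≥ k` is in `C_{≥ j}`, `j + k ≤ c + 1` -/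
theorem Cg_of_kap {v : J} (hv : v ∈ Cg F x 1) {j k : ℕ} (hj : j + k ≤ c + 1)
    (hk : ∀ i, k ≤ i → kap F x φ i v = 0) : v ∈ Cg F x j := by
  rw [← h.cp_of_Cg hv]
  exact cp_mem_of hj hk

theorem kap_Cg {v : J} {i j : ℕ} (hj : 1 ≤ j) (hij : c < i + j) (hv : v ∈ Cg F x j) :
    kap F x φ i v = 0 := by
  unfold Cg at hv
  induction hv using Submodule.span_induction with
  | mem v hv =>
    obtain ⟨k, hk, rfl⟩ := hv
    rw [h.kap_xp' _ _ (by omega), if_neg (by omega)]
  | zero => rw [map_zero]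
  | add v w _ _ hv hw => rw [map_add, hv, hw, add_zero]
  | smul r v _ hv => rw [map_smul, hv, smul_zero]

/-- `L_x^i` commutes with `b` -/
theorem kap_b (i : ℕ) (v : J) :
    kap F x φ i ((x * x) * v) = φ ((x * x) * (((LinearMap.mulLeft F x) ^ i) v)) := by
  induction i generalizing v with
  | zero => simp [kap_zero]
  | succ i ih =>
    rw [kap_succ, ← comm1 F h.two h.jordan, ih, pow_succ, Module.End.mul_apply,
      LinearMap.mulLeft_apply]

theorem kap_b_Cg {v : J} (hv : v ∈ Cg F x 1) (i : ℕ) :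
    kap F x φ i ((x * x) * v) = kap F x φ (i + 2) v := by
  unfold Cg at hv
  induction hv using Submodule.span_induction with
  | mem v hv =>
    obtain ⟨k, hk, rfl⟩ := hv
    rw [b_xp F h.two h.jordan x hk rfl, h.kap_xp' _ _ (by omega), h.kap_xp' _ _ hk]
    congr 1
    rw [eq_iff_iff]
    omega
  | zero => rw [mul_zero, map_zero, map_zero]
  | add v w _ _ hv hw => rw [mul_add, map_add, hv, hw, map_add]
  | smul r v _ hv => rw [mul_smul_comm, map_smul, hv, map_smul]

/-- products in `C` -/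
theorem Cg_mul_Cg {v w : J} {i j k : ℕ} (hk : k ≤ i + j) (hi : 1 ≤ i) (hj : 1 ≤ j)
    (hv : v ∈ Cg F x i) (hw : w ∈ Cg F x j) : v * w ∈ Cg F x k := by
  unfold Cg at hv
  induction hv using Submodule.span_induction with
  | mem v hv =>
    obtain ⟨n, hn, rfl⟩ := hv
    unfold Cg at hw
    induction hw using Submodule.span_induction with
    | mem w hw =>
      obtain ⟨m, hm, rfl⟩ := hw
      rw [xp_mul F h.two h.jordan x (by omega) (by omega)]
      exact xp_mem_Cg x (by omega)
    | zero => rw [mul_zero]; exact zero_mem _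
    | add v w _ _ hv hw => rw [mul_add]; exact add_mem hv hw
    | smul r v _ hv => rw [mul_smul_comm]; exact Submodule.smul_mem _ _ hv
  | zero => rw [zero_mul]; exact zero_mem _
  | add v w _ _ hv hw => rw [add_mul]; exact add_mem hv hw
  | smul r v _ hv => rw [smul_mul_assoc]; exact Submodule.smul_mem _ _ hv

theorem b_Cg {v : J} {i j : ℕ} (hi : 1 ≤ i) (hj : j ≤ i + 2) (hv : v ∈ Cg F x i) :
    (x * x) * v ∈ Cg F x j :=
  h.Cg_mul_Cg (i := 2) (j := i) (by omega) (by omega) hi (xp_mem_Cg x le_rfl) hv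

theorem x_Cg {v : J} {i j : ℕ} (hi : 1 ≤ i) (hj : j ≤ i + 1) (hv : v ∈ Cg F x i) :
    x * v ∈ Cg F x j :=
  h.Cg_mul_Cg (i := 1) (j := i) (by omega) (by omega) hi (xp_mem_Cg x (i := 1) le_rfl) hv

theorem Cg_top : Cg F x (c + 1) = ⊥ := by
  rw [eq_bot_iff]
  refine Cg_le x fun i hi => ?_
  rw [h.xp_zero' hi]
  exact zero_mem _

theorem Cg_c {v : J} (hv : v ∈ Cg F x c) : v = φ v • xp x c := by
  have hv1 : v ∈ Cg F x 1 := Cg_anti x (by have := h.hc; omega) hv
  have h1 : cp F x c φ v = kap F x φ 0 v • xp x c := by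
    rw [cp_apply, Finset.sum_eq_single 0]
    · rw [Nat.sub_zero]
    · intro i hi hi0
      rw [h.kap_Cg (i := i) (j := c) (by have := h.hc; omega) (by omega) hv, zero_smul]
    · intro h0
      rw [Finset.mem_range] at h0
      have := h.hc
      omega
  rw [h.cp_of_Cg hv1, kap_zero] at h1
  exact h1

end Spl

end L2
end JD
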