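import Pool.Agent.H78.L2.LA
import Pool.Agent.H8.JD.SExist
import Pool.Agent.H8.JD.SSysEx

set_option autoImplicit false
set_option linter.unusedSectionVars false
set_option linter.unusedVariables false

/-!
# JD L2: S-systems for longer words

`S w = S7 x w` for `|w| ≤ 7`; for `|w| ≥ 8`: `S w = xp (x 0) |w|` if all letters of `w` are `0`, and `S w = 0` otherwise.
* `S7 x (replicate k 0) = xp (x 0) k` for `k ≤ 7` (induction with `S7_mul` for `v = [0]`, `w = replicate k 0`, and `S7_single`;
  `S7_nil` for `k = 0`).
* `mul` for `|v| + |w| ≤ 7`: `S7_mul`. For `|v| + |w| ≥ 8`: if all letters of `v` and `w` are `0`: power associativity `xp_mul`.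
  Otherwise the right hand side is `0`, and `S v * S w ∈ Φ (wt a v + wt a w) = Φ (wt a (v ++ w)) = ⊥` (`hbig`; `S7_mem_filt`;
  if `v` (or `w`) has length `≥ 8`: `S v = 0` or `v = replicate _ 0` and `S v = xp (x 0) |v| ∈ Φ (|v| * a 0)`).
* `bdd`: `xp (x 0) n ∈ J^n = 0` for `n ≥ N`.
* the last statement as in `exists_SSys7`.
-/

namespace JD
namespace L2

universe u v

variable {F : Type u} [Field F] {J : Type v} [NonUnitalNonAssocCommRing J] [Module F J]
  [IsScalarTower F J J] [SMulCommClass F J J]

theorem SExt_xp_filt (x : Fin 3 → J) (a : Fin 3 → ℕ) (Φ : ℕ → Submodule F J)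
    (hΦ : Filt F x a Φ) (n : ℕ) : xp (x 0) n ∈ Φ (n * a 0) := by
  rcases Nat.eq_zero_or_pos n with rfl | hn
  · rw [xp_zero]; exact zero_mem _
  induction n, hn using Nat.le_induction with
  | base =>
    rw [xp_one, Nat.one_mul]
    exact hΦ.mem 0
  | succ n hn ih =>
    rw [xp_succ (x 0) hn]
    have := hΦ.mul_mem _ _ _ (hΦ.mem 0) _ ih
    rwa [show a 0 + n * a 0 = (n + 1) * a 0 by ring] at this

theorem SExt_replicate (h2 : (2 : F) ≠ 0) (hJ : IsJordan J) (x : Fin 3 → J) (k : ℕ)
    (hk : k ≤ 7) : S7 x (List.replicate k 0) = xp (x 0) k := by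
  have h4 : (4 : F) ≠ 0 := by
    have : (4 : F) = 2 * 2 := by norm_num
    rw [this]; exact mul_ne_zero h2 h2
  rcases Nat.eq_zero_or_pos k with rfl | hk0
  · rw [List.replicate_zero, S7_nil, xp_zero]
  induction k, hk0 using Nat.le_induction with
  | base =>
    rw [xp_one]
    exact S7_single x 0
  | succ k hk0 ih =>
    have ih' := ih (by omega)
    have hne : List.replicate k (0 : Fin 3) ≠ [] := by
      intro h
      have := congrArg List.length h
      rw [List.length_replicate, List.length_nil] at this
      omega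
    have hm := S7_mul h2 hJ x [0] (List.replicate k 0) (List.cons_ne_nil _ _) hne
      (by rw [List.length_replicate, List.length_singleton]; omega)
    have e1 : [(0 : Fin 3)] ++ List.replicate k 0 = List.replicate (k + 1) 0 := rfl
    have e2 : List.replicate k (0 : Fin 3) ++ [0] = List.replicate (k + 1) 0 := by
      rw [List.replicate_succ']
    rw [List.reverse_replicate, List.reverse_singleton, e1, e2, S7_single, ih'] at hm
    rw [xp_succ (x 0) hk0]
    have e3 : (4 : F) • S7 x (List.replicate (k + 1) 0) = (4 : F) • (x 0 * xp (x 0) k) := by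
      rw [hm]
      module
    have e4 := congrArg (fun y => (4 : F)⁻¹ • y) e3
    simpa [smul_smul, inv_mul_cancel₀ h4] using e4

theorem SExt_eq_replicate {w : List (Fin 3)} (h : ∀ i ∈ w, i = 0) :
    w = List.replicate w.length 0 :=
  List.eq_replicate_iff.2 ⟨rfl, h⟩

theorem SExt_wt (a : Fin 3 → ℕ) {w : List (Fin 3)} (h : ∀ i ∈ w, i = 0) :
    wt a w = w.length * a 0 := by
  rw [SExt_eq_replicate h]
  simp [wt]

theorem exists_SSysExt (h2 : (2 : F) ≠ 0) (hJ : IsJordan J) {N : ℕ} (hN : jpow F J N = ⊥)
    (x : Fin 3 → J) (a : Fin 3 → ℕ) (Φ : ℕ → Submodule F J) (hΦ : Filt F x a Φ)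
    (hbig : ∀ w : List (Fin 3), 8 ≤ w.length → (∃ i ∈ w, i ≠ 0) → Φ (wt a w) = ⊥) :
    ∃ S : List (Fin 3) → J, SSys F x S ∧
      ((∀ T : Submodule F J, (∀ i, x i ∈ T) → (∀ a ∈ T, ∀ b ∈ T, a * b ∈ T) → T = ⊤) →
        Submodule.span F (Set.range S) = ⊤) := by
  classical
  let S : List (Fin 3) → J := fun w =>
    if w.length ≤ 7 then S7 x w else if ∀ i ∈ w, i = 0 then xp (x 0) w.length else 0
  have hSle : ∀ w : List (Fin 3), w.length ≤ 7 → S w = S7 x w := fun w h => if_pos h
  have hz : ∀ w : List (Fin 3), (∀ i ∈ w, i = 0) → S w = xp (x 0) w.length := by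
    intro w h
    by_cases h7 : w.length ≤ 7
    · rw [hSle w h7]
      conv_lhs => rw [SExt_eq_replicate h]
      exact SExt_replicate h2 hJ x w.length h7
    · change (if w.length ≤ 7 then _ else _) = _
      rw [if_neg h7, if_pos h]
  have hnz : ∀ w : List (Fin 3), 8 ≤ w.length → (∃ i ∈ w, i ≠ 0) → S w = 0 := by
    intro w h7 h
    change (if w.length ≤ 7 then _ else _) = _
    rw [if_neg (by omega), if_neg]
    intro hall
    obtain ⟨i, hi, hi0⟩ := h
    exact hi0 (hall i hi)
  have hmem : ∀ w : List (Fin 3), w ≠ [] → S w ∈ Φ (wt a w) := by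
    intro w hw
    by_cases h7 : w.length ≤ 7
    · rw [hSle w h7]; exact S7_mem_filt x a Φ hΦ w hw h7
    · by_cases h : ∀ i ∈ w, i = 0
      · rw [hz w h, SExt_wt a h]
        exact SExt_xp_filt x a Φ hΦ _
      · push Not at h
        rw [hnz w (by omega) h]; exact zero_mem _
  have hS : SSys F x S := by
    refine ⟨?_, ?_, ?_, ?_, max 8 N, ?_⟩
    · rw [hSle [] (by simp)]; exact S7_nil x
    · intro i
      rw [hSle [i] (by simp)]; exact S7_single x i
    · intro w
      by_cases h : w.length ≤ 7
      · rw [hSle w h, hSle _ (by simpa using h)]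
        exact S7_rev h2 hJ x w h
      · by_cases h0 : ∀ i ∈ w, i = 0
        · rw [hz w h0, hz w.reverse (by simpa using h0), List.length_reverse]
        · push Not at h0
          rw [hnz w (by omega) h0, hnz _ (by simp; omega) (by simpa using h0)]
    · intro v w hv hw
      by_cases h : v.length + w.length ≤ 7
      · rw [hSle v (by omega), hSle w (by omega), hSle (v ++ w) (by simpa using h),
          hSle (v ++ w.reverse) (by simpa using h), hSle (v.reverse ++ w) (by simpa using h),
          hSle (w ++ v) (by simp; omega)]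
        exact S7_mul h2 hJ x v w hv hw h
      · by_cases h0 : (∀ i ∈ v, i = 0) ∧ (∀ i ∈ w, i = 0)
        · obtain ⟨hv0, hw0⟩ := h0
          have hvl := List.length_pos_of_ne_nil hv
          have hwl := List.length_pos_of_ne_nil hw
          have m1 : ∀ i ∈ v ++ w, i = 0 := fun i hi =>
            (List.mem_append.1 hi).elim (hv0 i) (hw0 i)
          have m2 : ∀ i ∈ v ++ w.reverse, i = 0 := fun i hi =>
            (List.mem_append.1 hi).elim (hv0 i) fun h => hw0 i (List.mem_reverse.1 h)
          have m3 : ∀ i ∈ v.reverse ++ w, i = 0 := fun i hi =>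
            (List.mem_append.1 hi).elim (fun h => hv0 i (List.mem_reverse.1 h)) (hw0 i)
          have m4 : ∀ i ∈ w ++ v, i = 0 := fun i hi =>
            (List.mem_append.1 hi).elim (hw0 i) (hv0 i)
          rw [hz v hv0, hz w hw0, hz _ m1, hz _ m2, hz _ m3, hz _ m4]
          simp only [List.length_append, List.length_reverse]
          rw [xp_mul F h2 hJ (x 0) hvl hwl, Nat.add_comm w.length v.length]
          module
        · have hex : ∃ i ∈ v ++ w, i ≠ 0 := by
            by_contra hcon
            push Not at hcon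
            exact h0 ⟨fun i hi => hcon i (List.mem_append_left _ hi),
              fun i hi => hcon i (List.mem_append_right _ hi)⟩
          obtain ⟨i, hi, hi0⟩ := hex
          have hi' := List.mem_append.1 hi
          have h1 := hΦ.mul_mem _ _ _ (hmem v hv) _ (hmem w hw)
          rw [← wt_append, hbig (v ++ w) (by simp; omega) ⟨i, hi, hi0⟩, Submodule.mem_bot] at h1
          rw [h1, hnz (v ++ w) (by simp; omega) ⟨i, hi, hi0⟩,
            hnz (v ++ w.reverse) (by simp; omega) ⟨i, by simpa using hi', hi0⟩,
            hnz (v.reverse ++ w) (by simp; omega) ⟨i, by simpa using hi', hi0⟩,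
            hnz (w ++ v) (by simp; omega) ⟨i, by simpa using hi'.symm, hi0⟩]
          simp
    · intro w hw
      by_cases h0 : ∀ i ∈ w, i = 0
      · rw [hz w h0]
        have h1 := xp_mem (F := F) (x 0) w.length
        have h3 : jpow F J w.length ≤ jpow F J N := jpow_anti ((le_max_right _ _).trans hw)
        have := h3 h1
        rwa [hN, Submodule.mem_bot] at this
      · push Not at h0
        exact hnz w ((le_max_left _ _).trans hw) h0
  refine ⟨S, hS, ?_⟩
  intro hgen
  have h4 : (4 : F) ≠ 0 := by
    have : (4 : F) = 2 * 2 := by norm_num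
    rw [this]; exact mul_ne_zero h2 h2
  apply hgen
  · intro i
    rw [← hS.single i]
    exact Submodule.subset_span ⟨[i], rfl⟩
  · intro a ha b hb
    induction ha using Submodule.span_induction with
    | mem a ha =>
      obtain ⟨v, rfl⟩ := ha
      induction hb using Submodule.span_induction with
      | mem b hb =>
        obtain ⟨w, rfl⟩ := hb
        by_cases hv : v = []
        · subst hv; rw [hS.nil, zero_mul]; exact zero_mem _
        · by_cases hw : w = []
          · subst hw; rw [hS.nil, mul_zero]; exact zero_mem _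
          · have := hS.mul v w hv hw
            have e : S v * S w = (4 : F)⁻¹ • (S (v ++ w) + S (v ++ w.reverse) +
                S (v.reverse ++ w) + S (w ++ v)) := by
              rw [← this, smul_smul, inv_mul_cancel₀ h4, one_smul]
            rw [e]
            have hm : ∀ w, S w ∈ Submodule.span F (Set.range S) := fun w =>
              Submodule.subset_span ⟨w, rfl⟩
            exact Submodule.smul_mem _ _ (add_mem (add_mem (add_mem (hm _) (hm _)) (hm _)) (hm _))
      | zero => rw [mul_zero]; exact zero_mem _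
      | add b c _ _ hb hc => rw [mul_add]; exact add_mem hb hc
      | smul r b _ hb => rw [mul_smul_comm]; exact Submodule.smul_mem _ _ hb
    | zero => rw [zero_mul]; exact zero_mem _
    | add a c _ _ ha hc => rw [add_mul]; exact add_mem ha hc
    | smul r a _ ha => rw [smul_mul_assoc]; exact Submodule.smul_mem _ _ ha

end L2
end JD
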