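import Pool.Agent.H78.L2.Spl
import Pool.Agent.H8.JD.Crit

set_option autoImplicit false
set_option linter.unusedSectionVars false
set_option linter.unusedVariables false

/-!
# JD L2: the case `b b M ⊄ C`, change of `x`

`C = Cg F x 1`, `J⁷ = F x⁷` (`e ∈ J⁷ = F e`, and `xp x 7 ∈ J⁷` nonzero), `J⁶ = F x⁶ + J⁷ ⊆ C` (`Lay.mem_even'`).
`x' = x - a1 x² - a2 x⁴`.
* `x' x' - x x ∈ J³`, so `x' x' ∉ J³` and `J² ⊆ F x' x' + J³` (`Lay F x'`). `xp x' n - xp x n ∈ J^(n+1)` (induction), so `xp x' 7 = xp x 7 ≠ 0`.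
* `Cg F x' 1 ≤ Cg F x 1` (`x' ∈ Cg F x 1`, closed under products: `Spl.Cg_mul_Cg`). Equality: both have dimension 7 (`exists_Spl` for `x'`; basis `x'^1, …, x'^7`,
  independent by `kap`), or show directly by downward induction on `k` that `xp x k ∈ Cg F x' k` for `k = 8, 7, …, 1`: `xp x' k - xp x k ∈ Cg F x (k+1)`
  (by induction on `k`, `Spl.Cg_mul_Cg`), and `Cg F x (k+1) ≤ Cg F x' (k+1)`.
* `x' y = x y - a1 x² y - a2 x⁴ y`; by `hxy` `≡ a2 (b b y - x⁴ y) mod C`, in `J⁶ ⊆ C` by `Chi.x4_mul` (`Lay.exists_chi`). So `x' y ∈ C = Cg F x' 1`.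
* `b' = L_(x' x')`: `b' J^n - b J^n` : `(x' x' - x x) w ∈ J^(n+3)` for `w ∈ J^n`. `b' y - b y ∈ J⁴`, `b' (b' y) - b' (b y) ∈ J⁶`, `b' (b y) - b (b y) ∈ J⁶`,
  so `b' (b' y) - b (b y) ∈ J⁶ ⊆ C`, so `b' (b' y) ∉ C = Cg F x' 1`.
-/

namespace JD
namespace L2

universe u

variable {F : Type u} [Field F] {J : Type u} [NonUnitalNonAssocCommRing J] [Module F J]
  [IsScalarTower F J J] [SMulCommClass F J J]

section

variable {x : J} {c : ℕ} {φ : J →ₗ[F] F} {M : Submodule F J}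

/-- a change of generator by higher powers does not change the leading terms of the powers -/
theorem NonB_xp_sub (h : Spl F x c φ M) {x' : J} (hx' : x' - x ∈ Cg F x 2) {n : ℕ}
    (hn : 1 ≤ n) : xp x' n - xp x n ∈ Cg F x (n + 1) := by
  have hx1 : x' ∈ Cg F x 1 := by
    have h1 := add_mem (Cg_anti x (by omega : 1 ≤ 2) hx') (xp_mem_Cg (F := F) x (i := 1) le_rfl)
    rwa [xp_one, sub_add_cancel] at h1
  induction n, hn using Nat.le_induction with
  | base => exact hx'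
  | succ n hn ih =>
    rw [xp_succ x' hn, xp_succ x hn]
    have e : x' * xp x' n - x * xp x n =
        x' * (xp x' n - xp x n) + (x' - x) * xp x n := by
      rw [mul_sub, sub_mul]; abel
    rw [e]
    exact add_mem (h.Cg_mul_Cg (i := 1) (j := n + 1) (by omega) (by omega) (by omega) hx1 ih)
      (h.Cg_mul_Cg (i := 2) (j := n) (by omega) (by omega) hn hx' (xp_mem_Cg x le_rfl))

theorem NonB_Cg_eq (h : Spl F x c φ M) {x' : J} (hx' : x' - x ∈ Cg F x 2) :
    Cg F x' 1 = Cg F x 1 := by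
  apply le_antisymm
  · refine Cg_le x' fun i hi => ?_
    have h1 := add_mem (Cg_anti x (by omega : 1 ≤ i + 1) (NonB_xp_sub h hx' hi))
      (xp_mem_Cg (F := F) x hi)
    rwa [sub_add_cancel] at h1
  · have key : ∀ d k, 1 ≤ k → c + 1 ≤ k + d → Cg F x k ≤ Cg F x' k := by
      intro d
      induction d with
      | zero =>
        intro k hk hd
        have h1 : Cg F x k ≤ Cg F x (c + 1) := Cg_anti x (by omega)
        rw [h.Cg_top] at h1
        exact h1.trans bot_le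
      | succ d ih =>
        intro k hk hd
        have h1 : Cg F x (k + 1) ≤ Cg F x' k :=
          (ih (k + 1) (by omega) (by omega)).trans (Cg_anti x' (by omega))
        refine Cg_le x fun i hi => ?_
        rcases Nat.eq_or_lt_of_le hi with rfl | hlt
        · have h3 := sub_mem (xp_mem_Cg (F := F) x' (le_refl k)) (h1 (NonB_xp_sub h hx' hk))
          rwa [sub_sub_cancel] at h3
        · exact h1 (xp_mem_Cg x hlt)
    exact key (c + 1) 1 le_rfl (by omega)

end

theorem nonB {e : J} (hcr : Crit F J 7 e) {x : J} {φ : J →ₗ[F] F} {M : Submodule F J}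
    (h : Spl F x 7 φ M) (hx3 : x * x ∉ jpow F J 3) {y : J} {a1 a2 : F}
    (hxy : x * y - a1 • ((x * x) * y) - a2 • ((x * x) * ((x * x) * y)) ∈ Cg F x 1)
    (hyy : (x * x) * ((x * x) * y) ∉ Cg F x 1) :
    ∃ x' : J, Lay F x' ∧ x' * x' ∉ jpow F J 3 ∧ xp x' 7 ≠ 0 ∧ x' * y ∈ Cg F x' 1 ∧
      (x' * x') * ((x' * x') * y) ∉ Cg F x' 1 := by
  have hx7 : xp x 7 ≠ 0 := by
    intro h0
    have h1 := h.top
    rw [h0, map_zero] at h1
    exact zero_ne_one h1
  have h7 : ∀ v ∈ jpow F J 7, v ∈ Cg F x 1 := by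
    intro v hv
    have hxe := xp_mem (F := F) x 7
    rw [hcr.top] at hv hxe
    obtain ⟨r, rfl⟩ := Submodule.mem_span_singleton.mp hv
    obtain ⟨s, hs⟩ := Submodule.mem_span_singleton.mp hxe
    have hs0 : s ≠ 0 := by
      intro h0
      rw [h0, zero_smul] at hs
      exact hx7 hs.symm
    have e1 : e = s⁻¹ • xp x 7 := by
      rw [← hs, smul_smul, inv_mul_cancel₀ hs0, one_smul]
    rw [e1]
    exact Submodule.smul_mem _ _ (Submodule.smul_mem _ _ (xp_mem_Cg x (by omega)))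
  have h6 : ∀ v ∈ jpow F J 6, v ∈ Cg F x 1 := by
    intro v hv
    obtain ⟨r, q, hq, rfl⟩ := h.toLay.mem_even' 3 (by omega) (n := 6) (by omega) hv
    exact add_mem (Submodule.smul_mem _ _ (xp_mem_Cg x (by omega))) (h7 q hq)
  obtain ⟨χ, hχ1, hχ0⟩ := h.toLay.exists_chi hx3
  have hχ : Chi F x χ := ⟨h.toLay, hχ1, hχ0⟩
  obtain ⟨x', hx'⟩ : ∃ x' : J, x' = x - a1 • (x * x) - a2 • xp x 4 := ⟨_, rfl⟩
  have hd : x' - x ∈ Cg F x 2 := by
    have e1 : x' - x = -(a1 • xp x 2) - a2 • xp x 4 := by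
      rw [hx', xp_two]; abel
    rw [e1]
    exact sub_mem (neg_mem (Submodule.smul_mem _ _ (xp_mem_Cg x le_rfl)))
      (Submodule.smul_mem _ _ (xp_mem_Cg x (by omega)))
  have hC := NonB_Cg_eq h hd
  have hb : x' * x' - x * x ∈ jpow F J 3 :=
    Cg_le_jpow x 3 (NonB_xp_sub h hd (n := 2) (by omega))
  refine ⟨x', ⟨h.two, h.jordan, h.nil, ?_⟩, ?_, ?_, ?_, ?_⟩
  · intro p hp
    obtain ⟨r, q, hq, rfl⟩ := h.toLay.mem_two hp
    have e1 : r • (x * x) + q = r • (x' * x') + (q - r • (x' * x' - x * x)) := by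
      rw [smul_sub]; abel
    rw [e1]
    exact Submodule.add_mem_sup
      (Submodule.smul_mem _ _ (Submodule.mem_span_singleton_self _))
      (sub_mem hq (Submodule.smul_mem _ _ hb))
  · intro h0
    have h1 := sub_mem h0 hb
    rw [sub_sub_cancel] at h1
    exact hx3 h1
  · have h1 := NonB_xp_sub h hd (n := 7) (by omega)
    rw [h.Cg_top, Submodule.mem_bot, sub_eq_zero] at h1
    rw [h1]
    exact hx7
  · rw [hC]
    have h1 := h6 _ (hχ.x4_mul y)
    have e1 : x' * y = (x * y - a1 • ((x * x) * y) - a2 • ((x * x) * ((x * x) * y))) -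
        a2 • (xp x 4 * y - (x * x) * ((x * x) * y)) := by
      rw [hx', sub_mul, sub_mul, smul_mul_assoc, smul_mul_assoc, smul_sub]
      abel
    rw [e1]
    exact sub_mem hxy (Submodule.smul_mem _ _ h1)
  · rw [hC]
    intro h0
    have h1 : (x' * x') * ((x' * x' - x * x) * y) ∈ jpow F J 6 :=
      bmul_mem (k := 4) (by omega) x' (mul_mem_j (i := 3) (j := 1) (by omega) hb (mem_one y))
    have h3 : (x' * x' - x * x) * ((x * x) * y) ∈ jpow F J 6 :=
      mul_mem_j (i := 3) (j := 3) (by omega) hb (bmul_mem (k := 1) (by omega) x (mem_one y))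
    have e1 : (x * x) * ((x * x) * y) = (x' * x') * ((x' * x') * y) -
        ((x' * x') * ((x' * x' - x * x) * y) + (x' * x' - x * x) * ((x * x) * y)) := by
      simp only [sub_mul, mul_sub]
      abel
    refine hyy ?_
    rw [e1]
    exact sub_mem h0 (h6 _ (add_mem h1 h3))

end L2
end JD
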