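import Pool.Agent.H78.L2.Fin

set_option autoImplicit false
set_option linter.unusedSectionVars false
set_option linter.unusedVariables false

/-!
# JD L2, class 7, the case `B² M ≠ 0`

`J⁸ = 0`, basis `x, x², …, x⁷, y, q1, q2, z` (11 elements), `J² = <x²,…,x⁷,q1,q2>`, `x v = 0` for `v = y, q1, q2`, `x z = α q2`,
`x² y = q1 + f1 x⁷`, `x² q1 = q2 + f2 x⁷`, `x² q2 = f3 x⁷`, `x² z = f4 x⁷ + α f3 x⁶`. (`b = L_(x x)`; `v x⁷ = 0` for all `v`.)

Table (`x3m`, `x4m`, `xp_rec`):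
* `x³ y = x³ q1 = x³ q2 = 0`, `x³ z = 3 α f3 x⁷`; `x⁴ y = q2 + f2 x⁷`, `x⁴ q1 = f3 x⁷`, `x⁴ q2 = 0`, `x⁴ z = 0`;
* `x⁵ y = 0`, `x⁵ q1 = x⁵ q2 = x⁵ z = 0`; `x⁶ y = f3 x⁷`, `x⁶ q1 = x⁶ q2 = x⁶ z = 0`.
  (`xp_rec`: `x⁵ m = 2 x⁴ (x m) + b (x³ m) - x (x (x³ m)) - x³ (x (x m))`, `x⁶ m = 2 x⁵ (x m) + b (x⁴ m) - x (x (x⁴ m)) - x⁴ (x (x m))`;
  `x⁷ m = 0`.)
* `y y = c2 x² + c3 x³ + … + c7 x⁷ + μ q1 + ν q2`. Jordan identity `(y y)(y x) = y ((y y) x)` with `x y = 0`: `y (x (y y)) = 0`;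
  `x (y y) = c2 x³ + c3 x⁴ + c4 x⁵ + c5 x⁶ + c6 x⁷`, times `y`: `c3 (q2 + f2 x⁷) + c5 f3 x⁷ = 0`, so `c3 = 0`.
* `b` commutes with `L_y` (`comm2` with `v = y`, `x y = 0`) and with `L_(q1)`, `L_(q2)` (`x q1 = x q2 = 0`).
* `y q1 = y (b y) = b (y y) = c2 x⁴ + c4 x⁶ + c5 x⁷ + μ (q2 + f2 x⁷) + ν f3 x⁷` (`y x⁷ = 0`).
* `y q2 = y (b q1) = b (y q1) = c2 x⁶ + μ f3 x⁷`; `q1 q1 = q1 (b y) = b (q1 y) = c2 x⁶ + μ f3 x⁷`; `q1 q2 = q1 (b q1) = b (q1 q1) = 0`;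
  `q2 q2 = q2 (b q1) = b (q2 q1) = 0`.
* `y z ∈ <x⁵, x⁶, x⁷, q2>`: `b (y z) = y (b z) = α f3 (y x⁶) = α f3 f3 x⁷`; `y z = Σ_{i ≥ 2} d_i x^i + ρ1 q1 + ρ2 q2` gives
  `Σ d_i x^(i+2) + ρ1 (q2 + f2 x⁷) + ρ2 f3 x⁷ = α f3 f3 x⁷`, so `ρ1 = d2 = d3 = d4 = 0`.
* `z q1 ∈ F x⁷`: `comm2` with `v = z`, `w = y`: `b (z y) - z (b y) = 2 (x ((x z) y) - (x z)(x y)) = 2 α x (q2 y)`, `q2 y ∈ <x⁶, x⁷>`,
  `b (z y) ∈ F x⁷`; `z q1 = z (b y) - f1 (z x⁷)`.
* `z q2 = 0`: `z q2 = z (b q1) = b (z q1) - 2 (x ((x z) q1) - (x z)(x q1)) = 0 - 2 α x (q2 q1) = 0`.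
* `z z ∈ <x⁵, x⁶, x⁷, q2>`: `b (z z) - z (b z) = 2 (x ((x z) z) - (x z)(x z)) = 2 (α x (q2 z) - α² q2 q2) = 0`, `z (b z) = 0`, so
  `b (z z) = 0` and as for `y z`: only `x⁵, x⁶, x⁷, q2` occur.

Filtration `Fam G w`, `κ = Fin 11`, `G k = span {b k}`, `b = ![x, x², …, x⁷, y, q1, q2, z]`.

Case `c2 = 0`: weights `x^i : 2 i` (`i ≤ 6`), `x⁷ : 16`, `y : 4`, `q1 : 8`, `q2 : 12`, `z : 5`; `N = 16`. Products: `x z = α q2` (7 ≤ 12),
`x² y` (8), `x² q1` (12), `x² q2` (16), `x² z` (9 ≤ 12), `x³ z` (11), `x⁴ y` (12), `x⁴ q1` (16), `x⁶ y` (16), `y y ∈ <x⁴.., q1, q2>` (8),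
`y q1 ∈ <x⁶, x⁷, q2>` (12), `y q2, q1 q1 ∈ F x⁷` (16), `y z ∈ <x⁵.., q2>` (9 ≤ 10), `z q1 ∈ F x⁷` (13), `z z` (10).
Letters `x, y, z`: weights `2, 4, 5`, sum 11; steps `s = 2, 3, 4, 5` (`finish` with `m = 2`, `step2`): `s = 2`: `x`; `s = 3`: nothing;
`s = 4`: `y` and `x x` are independent modulo `Φ 5`; `s = 5`: `z ∉ Φ 6`. (`Φ s = span` of the basis vectors of weight `≥ s`: use `hind`.)

Case `c2 ≠ 0`: weights `x^i : 2 i` (`i ≤ 7`), `y : 2`, `q1 : 6`, `q2 : 10`, `z : 5`; `N = 14`. Products: `x z` (7 ≤ 10), `x² y` (6), `x² q1` (10),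
`x² q2` (14), `x² z` (9 ≤ 12), `x³ z` (11 ≤ 14), `x⁴ y` (10), `x⁴ q1` (14), `x⁶ y` (14), `y y ∈ <x²..>` (4), `y q1 ∈ <x⁴, x⁶, x⁷, q2>` (8),
`y q2, q1 q1 ∈ <x⁶, x⁷>` (12), `y z` (7 ≤ 10), `z q1 ∈ F x⁷` (11 ≤ 14), `z z` (10).
Letters `e = y + κ x`, `f = y - κ x` (`κ² = - c2`, `F` algebraically closed), `z`: weights `2, 2, 5`, sum 9; steps `s = 2, 3, 4, 5`:
`s = 2`: `r e + t f ∈ Φ 3` implies `r = t = 0`; `s = 4`: `e e = y y - c2 x x` (`x y = 0`) `∈ <x⁴.., q1, q2> ⊆ J³ ∩ Φ 6`, the same for `f f`,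
`e f = y y + c2 x x ≡ 2 c2 x x mod Φ 5`: so `c12 = 0`, and `X_e X_e ∈ ge 6 ⊆ ge 5` by `sq_mem` (`m = 2`, `n = 3`, `Φ (6 + 9) = ⊥`;
`e e ∈ J³`: `q1 = b y - f1 x⁷`, `q2 = b q1 - f2 x⁷`); `s = 5`: `z ∉ Φ 6`. `ge` is antitone: `EPic.ge_anti`.
`S`: `exists_SSys7` for the letters.
-/

namespace JD
namespace L2

universe u

variable {F : Type u} [Field F] {J : Type u} [NonUnitalNonAssocCommRing J] [Module F J]
  [IsScalarTower F J J] [SMulCommClass F J J]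

/-- the multiplication table -/
structure T2a_Tab (F : Type u) [Field F] {J : Type u} [NonUnitalNonAssocCommRing J] [Module F J]
    (x y q1 q2 z : J) (α f1 f2 f3 f4 c2 c4 c5 c6 c7 μ ν d5 d6 d7 ρ s e5 e6 e7 σ : F) : Prop where
  XX : ∀ i j k : ℕ, 1 ≤ i → 1 ≤ j → i + j = k → xp x i * xp x j = xp x k
  X8 : ∀ n : ℕ, 8 ≤ n → xp x n = 0
  y1 : xp x 1 * y = 0
  y2 : xp x 2 * y = q1 + f1 • xp x 7
  y3 : xp x 3 * y = 0
  y4 : xp x 4 * y = q2 + f2 • xp x 7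
  y5 : xp x 5 * y = 0
  y6 : xp x 6 * y = f3 • xp x 7
  y7 : xp x 7 * y = 0
  p1 : xp x 1 * q1 = 0
  p2 : xp x 2 * q1 = q2 + f2 • xp x 7
  p3 : xp x 3 * q1 = 0
  p4 : xp x 4 * q1 = f3 • xp x 7
  p5 : xp x 5 * q1 = 0
  p6 : xp x 6 * q1 = 0
  p7 : xp x 7 * q1 = 0
  r1 : xp x 1 * q2 = 0
  r2 : xp x 2 * q2 = f3 • xp x 7
  r3 : xp x 3 * q2 = 0
  r4 : xp x 4 * q2 = 0
  r5 : xp x 5 * q2 = 0
  r6 : xp x 6 * q2 = 0
  r7 : xp x 7 * q2 = 0
  z1 : xp x 1 * z = α • q2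
  z2 : xp x 2 * z = f4 • xp x 7 + (α * f3) • xp x 6
  z3 : xp x 3 * z = (3 * α * f3) • xp x 7
  z4 : xp x 4 * z = 0
  z5 : xp x 5 * z = 0
  z6 : xp x 6 * z = 0
  z7 : xp x 7 * z = 0
  yy : y * y = c2 • xp x 2 + c4 • xp x 4 + c5 • xp x 5 + c6 • xp x 6 + c7 • xp x 7 + μ • q1 + ν • q2
  yp : y * q1 = c2 • xp x 4 + c4 • xp x 6 + (c5 + μ * f2 + ν * f3) • xp x 7 + μ • q2
  yr : y * q2 = c2 • xp x 6 + (μ * f3) • xp x 7
  yz : y * z = d5 • xp x 5 + d6 • xp x 6 + d7 • xp x 7 + ρ • q2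
  pp : q1 * q1 = c2 • xp x 6 + (μ * f3) • xp x 7
  pr : q1 * q2 = 0
  pz : q1 * z = s • xp x 7
  rr : q2 * q2 = 0
  rz : q2 * z = 0
  zz : z * z = e5 • xp x 5 + e6 • xp x 6 + e7 • xp x 7 + σ • q2

theorem T2a_tab (h2 : (2 : F) ≠ 0) (hJ : IsJordan J) (h8 : jpow F J 8 = ⊥)
    {x y q1 q2 z : J} {α f1 f2 f3 f4 : F}
    (hxy : x * y = 0) (hxq1 : x * q1 = 0) (hxq2 : x * q2 = 0) (hxz : x * z = α • q2)
    (hby : (x * x) * y = q1 + f1 • xp x 7) (hbq1 : (x * x) * q1 = q2 + f2 • xp x 7)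
    (hbq2 : (x * x) * q2 = f3 • xp x 7) (hbz : (x * x) * z = f4 • xp x 7 + (α * f3) • xp x 6)
    (hind : ∀ c : Fin 11 → F,
      c 0 • x + c 1 • xp x 2 + c 2 • xp x 3 + c 3 • xp x 4 + c 4 • xp x 5 + c 5 • xp x 6
        + c 6 • xp x 7 + c 7 • y + c 8 • q1 + c 9 • q2 + c 10 • z = 0 → ∀ i, c i = 0)
    (hJ2 : ∀ p ∈ jpow F J 2, ∃ c2 c3 c4 c5 c6 c7 μ ν : F,
      p = c2 • xp x 2 + c3 • xp x 3 + c4 • xp x 4 + c5 • xp x 5 + c6 • xp x 6 + c7 • xp x 7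
        + μ • q1 + ν • q2) :
    ∃ c2 c4 c5 c6 c7 μ ν d5 d6 d7 ρ s e5 e6 e7 σ : F,
      T2a_Tab F x y q1 q2 z α f1 f2 f3 f4 c2 c4 c5 c6 c7 μ ν d5 d6 d7 ρ s e5 e6 e7 σ := by
  have hx7 : ∀ v : J, v * xp x 7 = 0 := by
    intro v
    have h := lmul_mem (F := F) (j := 7) (k := 8) (by omega) v (xp_mem x 7)
    rwa [h8, Submodule.mem_bot] at h
  have hX8 : ∀ n : ℕ, 8 ≤ n → xp x n = 0 := by
    intro n hn
    have h := jpow_anti (F := F) (J := J) hn (xp_mem x n)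
    rwa [h8, Submodule.mem_bot] at h
  have hXX : ∀ i j k : ℕ, 1 ≤ i → 1 ≤ j → i + j = k → xp x i * xp x j = xp x k :=
    fun i j k hi hj hk => xp_mul' F h2 hJ x hi hj hk
  have hb2 : x * x = xp x 2 := rfl
  have hX1 : ∀ j k : ℕ, 1 ≤ j → 1 + j = k → x * xp x j = xp x k := fun j k hj hk =>
    hXX 1 j k le_rfl hj hk
  have hB : ∀ j k : ℕ, 1 ≤ j → 2 + j = k → (x * x) * xp x j = xp x k := fun j k hj hk =>
    hXX 2 j k (by omega) hj hk
  -- the action of the powers of x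
  have hx7' : ∀ v : J, xp x 7 * v = 0 := fun v => by rw [mul_comm]; exact hx7 v
  have y3 : xp x 3 * y = 0 := by
    rw [x3m F h2 hJ, hxy]; simp
  have p3 : xp x 3 * q1 = 0 := by
    rw [x3m F h2 hJ, hxq1]; simp
  have r3 : xp x 3 * q2 = 0 := by
    rw [x3m F h2 hJ, hxq2]; simp
  have z3 : xp x 3 * z = (3 * α * f3) • xp x 7 := by
    rw [x3m F h2 hJ, hxz]
    simp only [mul_smul_comm, hxq2, hbq2, mul_zero, smul_zero, sub_zero, smul_smul]
    congr 1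
    ring
  have y4 : xp x 4 * y = q2 + f2 • xp x 7 := by
    rw [x4m F h2 hJ, hxy, hby, mul_add, hbq1, mul_smul_comm, hx7]; simp
  have p4 : xp x 4 * q1 = f3 • xp x 7 := by
    rw [x4m F h2 hJ, hxq1, hbq1, mul_add, hbq2, mul_smul_comm, hx7]; simp
  have r4 : xp x 4 * q2 = 0 := by
    rw [x4m F h2 hJ, hxq2, hbq2, mul_smul_comm, hx7]; simp
  have z4 : xp x 4 * z = 0 := by
    rw [x4m F h2 hJ, hxz, hbz]
    simp only [mul_add, mul_smul_comm, hx7, hxq2, hB 6 8 (by omega) (by omega), hX8 8 le_rfl,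
      mul_zero, smul_zero, add_zero, sub_zero]
  have rec5 := fun m : J => xp_rec F h2 hJ x (i := 3) (by omega) m
  have rec6 := fun m : J => xp_rec F h2 hJ x (i := 4) (by omega) m
  simp only [show 3 + 2 = 5 from rfl, show 3 + 1 = 4 from rfl] at rec5
  simp only [show 4 + 2 = 6 from rfl, show 4 + 1 = 5 from rfl] at rec6
  have y5 : xp x 5 * y = 0 := by
    rw [rec5, hxy, y3]; simp
  have p5 : xp x 5 * q1 = 0 := by
    rw [rec5, hxq1, p3]; simp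
  have r5 : xp x 5 * q2 = 0 := by
    rw [rec5, hxq2, r3]; simp
  have z5 : xp x 5 * z = 0 := by
    rw [rec5, hxz, z3]
    simp only [mul_smul_comm, hx7, hxq2, r4, mul_zero, smul_zero, add_zero, sub_zero]
  have y6 : xp x 6 * y = f3 • xp x 7 := by
    rw [rec6, hxy, y4]
    simp only [mul_add, mul_smul_comm, hx7, hxq2, hbq2, mul_zero, smul_zero, add_zero, sub_zero,
      zero_add]
  have p6 : xp x 6 * q1 = 0 := by
    rw [rec6, hxq1, p4]
    simp only [mul_smul_comm, hx7, mul_zero, smul_zero, add_zero, sub_zero]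
  have r6 : xp x 6 * q2 = 0 := by
    rw [rec6, hxq2, r4]; simp
  have z6 : xp x 6 * z = 0 := by
    rw [rec6, hxz, z4]
    simp only [mul_smul_comm, hxq2, r5, mul_zero, smul_zero, add_zero, sub_zero]
  -- independence
  have ind : ∀ a1 a2 a3 a4 a5 a6 a7 by' b1 b2 bz : F,
      a1 • x + a2 • xp x 2 + a3 • xp x 3 + a4 • xp x 4 + a5 • xp x 5 + a6 • xp x 6
        + a7 • xp x 7 + by' • y + b1 • q1 + b2 • q2 + bz • z = 0 →
      a2 = 0 ∧ a3 = 0 ∧ a4 = 0 ∧ a5 = 0 ∧ a6 = 0 ∧ a7 = 0 ∧ b1 = 0 ∧ b2 = 0 := by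
    intro a1 a2 a3 a4 a5 a6 a7 by' b1 b2 bz h
    have := hind ![a1, a2, a3, a4, a5, a6, a7, by', b1, b2, bz] h
    exact ⟨this 1, this 2, this 3, this 4, this 5, this 6, this 8, this 9⟩
  have c0 : ∀ v w : J, x * v = 0 → (x * x) * (v * w) = v * ((x * x) * w) := by
    intro v w hv
    have h := comm2 F h2 hJ x v w
    rw [hv, zero_mul, zero_mul, mul_zero, sub_zero, smul_zero, sub_eq_zero] at h
    exact h
  -- action of b on J²
  have bact : ∀ c2 c3 c4 c5 c6 c7 μ ν : F, (x * x) * (c2 • xp x 2 + c3 • xp x 3 + c4 • xp x 4 +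
      c5 • xp x 5 + c6 • xp x 6 + c7 • xp x 7 + μ • q1 + ν • q2) =
      c2 • xp x 4 + c3 • xp x 5 + c4 • xp x 6 + (c5 + μ * f2 + ν * f3) • xp x 7 + μ • q2 := by
    intro c2 c3 c4 c5 c6 c7 μ ν
    simp only [mul_add, mul_smul_comm, hx7, hbq1, hbq2, hB 2 4 (by omega) rfl,
      hB 3 5 (by omega) rfl, hB 4 6 (by omega) rfl, hB 5 7 (by omega) rfl, hB 6 8 (by omega) rfl,
      hX8 8 le_rfl, smul_zero]
    module
  -- y y
  obtain ⟨c2, c3, c4, c5, c6, c7, μ, ν, hyy⟩ := hJ2 _ (mul_mem_two y y)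
  have hc3 : c3 = 0 := by
    have h := hJ y x
    rw [hxy, mul_zero] at h
    have e : (y * y) * x = c2 • xp x 3 + c3 • xp x 4 + c4 • xp x 5 + c5 • xp x 6 +
        c6 • xp x 7 := by
      rw [mul_comm, hyy]
      simp only [mul_add, mul_smul_comm, hx7, hxq1, hxq2, hX1 2 3 (by omega) rfl,
        hX1 3 4 (by omega) rfl, hX1 4 5 (by omega) rfl, hX1 5 6 (by omega) rfl,
        hX1 6 7 (by omega) rfl, smul_zero, add_zero]
    rw [e] at h
    simp only [add_mul, smul_mul_assoc, y3, y4, y5, y6, hx7', smul_zero, add_zero, zero_add] at h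
    exact (ind 0 0 0 0 0 0 (c3 * f2 + c5 * f3) 0 0 c3 0
      (by linear_combination (norm := module) h)).2.2.2.2.2.2.2
  rw [hc3, zero_smul, add_zero] at hyy
  have yp : y * q1 = c2 • xp x 4 + c4 • xp x 6 + (c5 + μ * f2 + ν * f3) • xp x 7 + μ • q2 := by
    have h := c0 y y hxy
    rw [hby, mul_add, mul_smul_comm, hx7, smul_zero, add_zero] at h
    have h3 := bact c2 0 c4 c5 c6 c7 μ ν
    rw [zero_smul, add_zero, ← hyy, h, zero_smul, add_zero] at h3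
    exact h3
  have yr : y * q2 = c2 • xp x 6 + (μ * f3) • xp x 7 := by
    have h := c0 y q1 hxy
    rw [hbq1, mul_add, mul_smul_comm, hx7, smul_zero, add_zero, yp] at h
    rw [← h]
    simp only [mul_add, mul_smul_comm, hx7, hbq2, hB 4 6 (by omega) rfl, hB 6 8 (by omega) rfl,
      hX8 8 le_rfl, smul_zero]
    module
  have pp : q1 * q1 = c2 • xp x 6 + (μ * f3) • xp x 7 := by
    have h := c0 q1 y hxq1
    have h' := c0 y q1 hxy
    rw [hby, mul_add, mul_smul_comm, hx7, smul_zero, add_zero, mul_comm q1 y] at h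
    rw [hbq1, mul_add, mul_smul_comm, hx7, smul_zero, add_zero] at h'
    rw [← h, h', yr]
  have pr : q1 * q2 = 0 := by
    have h := c0 q1 q1 hxq1
    rw [hbq1, mul_add, mul_smul_comm, hx7, smul_zero, add_zero, pp] at h
    rw [← h]
    simp only [mul_add, mul_smul_comm, hx7, hB 6 8 (by omega) rfl, hX8 8 le_rfl, smul_zero,
      add_zero]
  have rr : q2 * q2 = 0 := by
    have h := c0 q2 q1 hxq2
    rw [hbq1, mul_add, mul_smul_comm, hx7, smul_zero, add_zero, mul_comm q2 q1, pr, mul_zero] at h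
    exact h.symm
  -- y z
  have hyX6 : y * xp x 6 = f3 • xp x 7 := by rw [mul_comm, y6]
  have hbyz : (x * x) * (y * z) = (α * f3 * f3) • xp x 7 := by
    rw [c0 y z hxy, hbz, mul_add, mul_smul_comm, mul_smul_comm, hx7, hyX6, smul_zero, zero_add,
      smul_smul]
  obtain ⟨d2, d3, d4, d5, d6, d7, ρ1, ρ, hyz⟩ := hJ2 _ (mul_mem_two y z)
  have hd : d2 = 0 ∧ d3 = 0 ∧ d4 = 0 ∧ ρ1 = 0 := by
    have h := bact d2 d3 d4 d5 d6 d7 ρ1 ρ
    rw [← hyz, hbyz] at h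
    have := ind 0 0 0 d2 d3 d4 (d5 + ρ1 * f2 + ρ * f3 - α * f3 * f3) 0 0 ρ1 0
      (by linear_combination (norm := module) - h)
    exact ⟨this.2.2.1, this.2.2.2.1, this.2.2.2.2.1, this.2.2.2.2.2.2.2⟩
  have yz : y * z = d5 • xp x 5 + d6 • xp x 6 + d7 • xp x 7 + ρ • q2 := by
    rw [hyz, hd.1, hd.2.1, hd.2.2.1, hd.2.2.2]
    module
  have hq2y : q2 * y = c2 • xp x 6 + (μ * f3) • xp x 7 := by rw [mul_comm, yr]
  have pz : q1 * z = (α * f3 * f3 - 2 * α * c2) • xp x 7 := by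
    have h := comm2 F h2 hJ x z y
    rw [hxz, hxy, mul_zero, sub_zero, smul_mul_assoc, hq2y, hby, mul_add, mul_smul_comm f1 z, hx7,
      smul_zero, add_zero, mul_comm z y, hbyz, mul_comm z q1] at h
    simp only [mul_add, mul_smul_comm, hx7, hX1 6 7 (by omega) rfl, smul_zero, add_zero] at h
    linear_combination (norm := module) - h
  have rz : q2 * z = 0 := by
    have h := comm2 F h2 hJ x z q1
    rw [hxz, hxq1, mul_zero, sub_zero, smul_mul_assoc, mul_comm q2 q1, pr, smul_zero, mul_zero,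
      smul_zero, hbq1, mul_add, mul_smul_comm f2 z, hx7, smul_zero, add_zero, mul_comm z q1, pz,
      mul_smul_comm, hx7, smul_zero, zero_sub, neg_eq_zero] at h
    rw [mul_comm]; exact h
  -- z z
  have hbzz : (x * x) * (z * z) = 0 := by
    have h := comm2 F h2 hJ x z z
    rw [hxz, smul_mul_assoc, rz, smul_zero, mul_zero, smul_mul_smul_comm, rr, smul_zero, sub_zero,
      smul_zero, hbz, mul_add, mul_smul_comm, mul_smul_comm, hx7, mul_comm z (xp x 6), z6,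
      smul_zero, smul_zero, add_zero, sub_zero] at h
    exact h
  obtain ⟨e2, e3, e4, e5, e6, e7, σ1, σ, hzz⟩ := hJ2 _ (mul_mem_two z z)
  have he : e2 = 0 ∧ e3 = 0 ∧ e4 = 0 ∧ σ1 = 0 := by
    have h := bact e2 e3 e4 e5 e6 e7 σ1 σ
    rw [← hzz, hbzz] at h
    have := ind 0 0 0 e2 e3 e4 (e5 + σ1 * f2 + σ * f3) 0 0 σ1 0
      (by linear_combination (norm := module) - h)
    exact ⟨this.2.2.1, this.2.2.2.1, this.2.2.2.2.1, this.2.2.2.2.2.2.2⟩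
  have zz : z * z = e5 • xp x 5 + e6 • xp x 6 + e7 • xp x 7 + σ • q2 := by
    rw [hzz, he.1, he.2.1, he.2.2.1, he.2.2.2]
    module
  exact ⟨c2, c4, c5, c6, c7, μ, ν, d5, d6, d7, ρ, α * f3 * f3 - 2 * α * c2, e5, e6, e7, σ,
    { XX := hXX, X8 := hX8
      y1 := hxy, y2 := hby, y3 := y3, y4 := y4, y5 := y5, y6 := y6, y7 := hx7' y
      p1 := hxq1, p2 := hbq1, p3 := p3, p4 := p4, p5 := p5, p6 := p6, p7 := hx7' q1
      r1 := hxq2, r2 := hbq2, r3 := r3, r4 := r4, r5 := r5, r6 := r6, r7 := hx7' q2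
      z1 := hxz, z2 := hbz, z3 := z3, z4 := z4, z5 := z5, z6 := z6, z7 := hx7' z
      yy := hyy, yp := yp, yr := yr, yz := yz, pp := pp, pr := pr, pz := pz, rr := rr, rz := rz
      zz := zz }⟩

/-- the basis -/
def T2a_B (x y q1 q2 z : J) : Fin 11 → J :=
  ![xp x 1, xp x 2, xp x 3, xp x 4, xp x 5, xp x 6, xp x 7, y, q1, q2, z]

/-- weights, case `c2 = 0` -/
def T2a_w1 : Fin 11 → ℕ := ![2, 4, 6, 8, 10, 12, 16, 4, 8, 12, 5]

/-- weights, case `c2 ≠ 0` -/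
def T2a_w2 : Fin 11 → ℕ := ![2, 4, 6, 8, 10, 12, 14, 2, 6, 10, 5]

/-- the filtration of a basis -/
def T2a_F (B : Fin 11 → J) (w : Fin 11 → ℕ) (s : ℕ) : Submodule F J :=
  Fam (fun k => Submodule.span F {B k}) w s

theorem T2a_mem (B : Fin 11 → J) (w : Fin 11 → ℕ) (k : Fin 11) {s : ℕ} (h : s ≤ w k) :
    B k ∈ T2a_F (F := F) B w s :=
  mem_Fam (G := fun k => Submodule.span F {B k}) k h (Submodule.mem_span_singleton_self _)

/-- coordinates -/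
def T2a_T (B : Fin 11 → J) (w : Fin 11 → ℕ) (s : ℕ) : Submodule F J where
  carrier := {v | ∃ c : Fin 11 → F, (∀ k, w k < s → c k = 0) ∧ v = ∑ k, c k • B k}
  add_mem' := by
    rintro a b ⟨c, hc, rfl⟩ ⟨d, hd, rfl⟩
    refine ⟨c + d, fun k hk => by rw [Pi.add_apply, hc k hk, hd k hk, add_zero], ?_⟩
    simp only [Pi.add_apply, add_smul, Finset.sum_add_distrib]
  zero_mem' := ⟨0, fun k _ => rfl, by simp⟩
  smul_mem' := by
    rintro r a ⟨c, hc, rfl⟩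
    refine ⟨r • c, fun k hk => by rw [Pi.smul_apply, hc k hk, smul_zero], ?_⟩
    simp only [Pi.smul_apply, smul_eq_mul, Finset.smul_sum, smul_smul]

theorem T2a_le (B : Fin 11 → J) (w : Fin 11 → ℕ) (s : ℕ) :
    T2a_F (F := F) B w s ≤ T2a_T B w s := by
  refine Fam_le fun k hk => ?_
  rw [Submodule.span_singleton_le_iff_mem]
  refine ⟨Pi.single k 1, fun l hl => ?_, ?_⟩
  · rw [Pi.single_eq_of_ne]
    rintro rfl
    omega
  · rw [Finset.sum_eq_single k]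
    · simp
    · intro l _ hl
      rw [Pi.single_eq_of_ne hl, zero_smul]
    · intro h
      exact absurd (Finset.mem_univ k) h

theorem T2a_coord {B : Fin 11 → J} (hB : ∀ c : Fin 11 → F, ∑ k, c k • B k = 0 → ∀ k, c k = 0)
    {w : Fin 11 → ℕ} {s : ℕ} (v : Fin 11 → F) (hv : ∑ k, v k • B k ∈ T2a_F (F := F) B w s)
    (k : Fin 11) (hk : w k < s) : v k = 0 := by
  obtain ⟨c, hc, e⟩ := T2a_le B w s hv
  have h := hB (v - c) (by
    simp only [Pi.sub_apply, sub_smul, Finset.sum_sub_distrib]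
    rw [e, sub_self]) k
  rw [Pi.sub_apply, hc k hk, sub_zero] at h
  exact h

theorem T2a_filt {ι : Type} (x : ι → J) (a : ι → ℕ) (B : Fin 11 → J) (w : Fin 11 → ℕ)
    (hx : ∀ i, x i ∈ T2a_F (F := F) B w (a i))
    (hmul : ∀ i j, i ≤ j → B i * B j ∈ T2a_F (F := F) B w (w i + w j)) :
    Filt F x a (T2a_F B w) := by
  have hmul' : ∀ i j, B i * B j ∈ T2a_F (F := F) B w (w i + w j) := by
    intro i j
    rcases le_total i j with h | h
    · exact hmul i j h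
    · rw [mul_comm, add_comm]
      exact hmul j i h
  refine filt_Fam x a hx fun k l p hp q hq => ?_
  obtain ⟨r, rfl⟩ := Submodule.mem_span_singleton.mp hp
  obtain ⟨t, rfl⟩ := Submodule.mem_span_singleton.mp hq
  rw [smul_mul_smul_comm]
  exact Submodule.smul_mem _ _ (hmul' k l)

theorem T2a_m1_0 {x y q1 q2 z : J} {α f1 f2 f3 f4 c2 c4 c5 c6 c7 μ ν d5 d6 d7 ρ s e5 e6 e7 σ : F}
    (T : T2a_Tab F x y q1 q2 z α f1 f2 f3 f4 c2 c4 c5 c6 c7 μ ν d5 d6 d7 ρ s e5 e6 e7 σ) (hc2 : c2 = 0)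
    (j : Fin 11) (hij : (0 : Fin 11) ≤ j) :
    T2a_B x y q1 q2 z 0 * T2a_B x y q1 q2 z j ∈
      T2a_F (F := F) (T2a_B x y q1 q2 z) T2a_w1 (T2a_w1 0 + T2a_w1 j) := by
  have m := fun (k : Fin 11) (s : ℕ) (h : s ≤ T2a_w1 k) =>
    T2a_mem (F := F) (T2a_B x y q1 q2 z) T2a_w1 k h
  fin_cases j
  · change (xp x 1) * (xp x 1) ∈ T2a_F (F := F) _ T2a_w1 4
    rw [T.XX 1 1 2 (by norm_num) (by norm_num) rfl]
    exact (m 1 4 (by decide))
  · change (xp x 1) * (xp x 2) ∈ T2a_F (F := F) _ T2a_w1 6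
    rw [T.XX 1 2 3 (by norm_num) (by norm_num) rfl]
    exact (m 2 6 (by decide))
  · change (xp x 1) * (xp x 3) ∈ T2a_F (F := F) _ T2a_w1 8
    rw [T.XX 1 3 4 (by norm_num) (by norm_num) rfl]
    exact (m 3 8 (by decide))
  · change (xp x 1) * (xp x 4) ∈ T2a_F (F := F) _ T2a_w1 10
    rw [T.XX 1 4 5 (by norm_num) (by norm_num) rfl]
    exact (m 4 10 (by decide))
  · change (xp x 1) * (xp x 5) ∈ T2a_F (F := F) _ T2a_w1 12
    rw [T.XX 1 5 6 (by norm_num) (by norm_num) rfl]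
    exact (m 5 12 (by decide))
  · change (xp x 1) * (xp x 6) ∈ T2a_F (F := F) _ T2a_w1 14
    rw [T.XX 1 6 7 (by norm_num) (by norm_num) rfl]
    exact (m 6 14 (by decide))
  · change (xp x 1) * (xp x 7) ∈ T2a_F (F := F) _ T2a_w1 18
    rw [T.XX 1 7 8 (by norm_num) (by norm_num) rfl, T.X8 _ (by norm_num)]
    exact zero_mem _
  · change (xp x 1) * y ∈ T2a_F (F := F) _ T2a_w1 6
    rw [T.y1]
    exact zero_mem _
  · change (xp x 1) * q1 ∈ T2a_F (F := F) _ T2a_w1 10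
    rw [T.p1]
    exact zero_mem _
  · change (xp x 1) * q2 ∈ T2a_F (F := F) _ T2a_w1 14
    rw [T.r1]
    exact zero_mem _
  · change (xp x 1) * z ∈ T2a_F (F := F) _ T2a_w1 7
    rw [T.z1]
    exact (Submodule.smul_mem _ _ (m 9 7 (by decide)))

theorem T2a_m1_1 {x y q1 q2 z : J} {α f1 f2 f3 f4 c2 c4 c5 c6 c7 μ ν d5 d6 d7 ρ s e5 e6 e7 σ : F}
    (T : T2a_Tab F x y q1 q2 z α f1 f2 f3 f4 c2 c4 c5 c6 c7 μ ν d5 d6 d7 ρ s e5 e6 e7 σ) (hc2 : c2 = 0)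
    (j : Fin 11) (hij : (1 : Fin 11) ≤ j) :
    T2a_B x y q1 q2 z 1 * T2a_B x y q1 q2 z j ∈
      T2a_F (F := F) (T2a_B x y q1 q2 z) T2a_w1 (T2a_w1 1 + T2a_w1 j) := by
  have m := fun (k : Fin 11) (s : ℕ) (h : s ≤ T2a_w1 k) =>
    T2a_mem (F := F) (T2a_B x y q1 q2 z) T2a_w1 k h
  fin_cases j
  · exact absurd hij (by decide)
  · change (xp x 2) * (xp x 2) ∈ T2a_F (F := F) _ T2a_w1 8
    rw [T.XX 2 2 4 (by norm_num) (by norm_num) rfl]
    exact (m 3 8 (by decide))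
  · change (xp x 2) * (xp x 3) ∈ T2a_F (F := F) _ T2a_w1 10
    rw [T.XX 2 3 5 (by norm_num) (by norm_num) rfl]
    exact (m 4 10 (by decide))
  · change (xp x 2) * (xp x 4) ∈ T2a_F (F := F) _ T2a_w1 12
    rw [T.XX 2 4 6 (by norm_num) (by norm_num) rfl]
    exact (m 5 12 (by decide))
  · change (xp x 2) * (xp x 5) ∈ T2a_F (F := F) _ T2a_w1 14
    rw [T.XX 2 5 7 (by norm_num) (by norm_num) rfl]
    exact (m 6 14 (by decide))
  · change (xp x 2) * (xp x 6) ∈ T2a_F (F := F) _ T2a_w1 16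
    rw [T.XX 2 6 8 (by norm_num) (by norm_num) rfl, T.X8 _ (by norm_num)]
    exact zero_mem _
  · change (xp x 2) * (xp x 7) ∈ T2a_F (F := F) _ T2a_w1 20
    rw [T.XX 2 7 9 (by norm_num) (by norm_num) rfl, T.X8 _ (by norm_num)]
    exact zero_mem _
  · change (xp x 2) * y ∈ T2a_F (F := F) _ T2a_w1 8
    rw [T.y2]
    exact (add_mem (m 8 8 (by decide)) (Submodule.smul_mem _ _ (m 6 8 (by decide))))
  · change (xp x 2) * q1 ∈ T2a_F (F := F) _ T2a_w1 12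
    rw [T.p2]
    exact (add_mem (m 9 12 (by decide)) (Submodule.smul_mem _ _ (m 6 12 (by decide))))
  · change (xp x 2) * q2 ∈ T2a_F (F := F) _ T2a_w1 16
    rw [T.r2]
    exact (Submodule.smul_mem _ _ (m 6 16 (by decide)))
  · change (xp x 2) * z ∈ T2a_F (F := F) _ T2a_w1 9
    rw [T.z2]
    exact (add_mem (Submodule.smul_mem _ _ (m 6 9 (by decide))) (Submodule.smul_mem _ _ (m 5 9 (by decide))))

theorem T2a_m1_2 {x y q1 q2 z : J} {α f1 f2 f3 f4 c2 c4 c5 c6 c7 μ ν d5 d6 d7 ρ s e5 e6 e7 σ : F}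
    (T : T2a_Tab F x y q1 q2 z α f1 f2 f3 f4 c2 c4 c5 c6 c7 μ ν d5 d6 d7 ρ s e5 e6 e7 σ) (hc2 : c2 = 0)
    (j : Fin 11) (hij : (2 : Fin 11) ≤ j) :
    T2a_B x y q1 q2 z 2 * T2a_B x y q1 q2 z j ∈
      T2a_F (F := F) (T2a_B x y q1 q2 z) T2a_w1 (T2a_w1 2 + T2a_w1 j) := by
  have m := fun (k : Fin 11) (s : ℕ) (h : s ≤ T2a_w1 k) =>
    T2a_mem (F := F) (T2a_B x y q1 q2 z) T2a_w1 k h
  fin_cases j
  · exact absurd hij (by decide)
  · exact absurd hij (by decide)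
  · change (xp x 3) * (xp x 3) ∈ T2a_F (F := F) _ T2a_w1 12
    rw [T.XX 3 3 6 (by norm_num) (by norm_num) rfl]
    exact (m 5 12 (by decide))
  · change (xp x 3) * (xp x 4) ∈ T2a_F (F := F) _ T2a_w1 14
    rw [T.XX 3 4 7 (by norm_num) (by norm_num) rfl]
    exact (m 6 14 (by decide))
  · change (xp x 3) * (xp x 5) ∈ T2a_F (F := F) _ T2a_w1 16
    rw [T.XX 3 5 8 (by norm_num) (by norm_num) rfl, T.X8 _ (by norm_num)]
    exact zero_mem _
  · change (xp x 3) * (xp x 6) ∈ T2a_F (F := F) _ T2a_w1 18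
    rw [T.XX 3 6 9 (by norm_num) (by norm_num) rfl, T.X8 _ (by norm_num)]
    exact zero_mem _
  · change (xp x 3) * (xp x 7) ∈ T2a_F (F := F) _ T2a_w1 22
    rw [T.XX 3 7 10 (by norm_num) (by norm_num) rfl, T.X8 _ (by norm_num)]
    exact zero_mem _
  · change (xp x 3) * y ∈ T2a_F (F := F) _ T2a_w1 10
    rw [T.y3]
    exact zero_mem _
  · change (xp x 3) * q1 ∈ T2a_F (F := F) _ T2a_w1 14
    rw [T.p3]
    exact zero_mem _
  · change (xp x 3) * q2 ∈ T2a_F (F := F) _ T2a_w1 18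
    rw [T.r3]
    exact zero_mem _
  · change (xp x 3) * z ∈ T2a_F (F := F) _ T2a_w1 11
    rw [T.z3]
    exact (Submodule.smul_mem _ _ (m 6 11 (by decide)))

theorem T2a_m1_3 {x y q1 q2 z : J} {α f1 f2 f3 f4 c2 c4 c5 c6 c7 μ ν d5 d6 d7 ρ s e5 e6 e7 σ : F}
    (T : T2a_Tab F x y q1 q2 z α f1 f2 f3 f4 c2 c4 c5 c6 c7 μ ν d5 d6 d7 ρ s e5 e6 e7 σ) (hc2 : c2 = 0)
    (j : Fin 11) (hij : (3 : Fin 11) ≤ j) :
    T2a_B x y q1 q2 z 3 * T2a_B x y q1 q2 z j ∈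
      T2a_F (F := F) (T2a_B x y q1 q2 z) T2a_w1 (T2a_w1 3 + T2a_w1 j) := by
  have m := fun (k : Fin 11) (s : ℕ) (h : s ≤ T2a_w1 k) =>
    T2a_mem (F := F) (T2a_B x y q1 q2 z) T2a_w1 k h
  fin_cases j
  · exact absurd hij (by decide)
  · exact absurd hij (by decide)
  · exact absurd hij (by decide)
  · change (xp x 4) * (xp x 4) ∈ T2a_F (F := F) _ T2a_w1 16
    rw [T.XX 4 4 8 (by norm_num) (by norm_num) rfl, T.X8 _ (by norm_num)]
    exact zero_mem _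
  · change (xp x 4) * (xp x 5) ∈ T2a_F (F := F) _ T2a_w1 18
    rw [T.XX 4 5 9 (by norm_num) (by norm_num) rfl, T.X8 _ (by norm_num)]
    exact zero_mem _
  · change (xp x 4) * (xp x 6) ∈ T2a_F (F := F) _ T2a_w1 20
    rw [T.XX 4 6 10 (by norm_num) (by norm_num) rfl, T.X8 _ (by norm_num)]
    exact zero_mem _
  · change (xp x 4) * (xp x 7) ∈ T2a_F (F := F) _ T2a_w1 24
    rw [T.XX 4 7 11 (by norm_num) (by norm_num) rfl, T.X8 _ (by norm_num)]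
    exact zero_mem _
  · change (xp x 4) * y ∈ T2a_F (F := F) _ T2a_w1 12
    rw [T.y4]
    exact (add_mem (m 9 12 (by decide)) (Submodule.smul_mem _ _ (m 6 12 (by decide))))
  · change (xp x 4) * q1 ∈ T2a_F (F := F) _ T2a_w1 16
    rw [T.p4]
    exact (Submodule.smul_mem _ _ (m 6 16 (by decide)))
  · change (xp x 4) * q2 ∈ T2a_F (F := F) _ T2a_w1 20
    rw [T.r4]
    exact zero_mem _
  · change (xp x 4) * z ∈ T2a_F (F := F) _ T2a_w1 13
    rw [T.z4]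
    exact zero_mem _

theorem T2a_m1_4 {x y q1 q2 z : J} {α f1 f2 f3 f4 c2 c4 c5 c6 c7 μ ν d5 d6 d7 ρ s e5 e6 e7 σ : F}
    (T : T2a_Tab F x y q1 q2 z α f1 f2 f3 f4 c2 c4 c5 c6 c7 μ ν d5 d6 d7 ρ s e5 e6 e7 σ) (hc2 : c2 = 0)
    (j : Fin 11) (hij : (4 : Fin 11) ≤ j) :
    T2a_B x y q1 q2 z 4 * T2a_B x y q1 q2 z j ∈
      T2a_F (F := F) (T2a_B x y q1 q2 z) T2a_w1 (T2a_w1 4 + T2a_w1 j) := by
  have m := fun (k : Fin 11) (s : ℕ) (h : s ≤ T2a_w1 k) =>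
    T2a_mem (F := F) (T2a_B x y q1 q2 z) T2a_w1 k h
  fin_cases j
  · exact absurd hij (by decide)
  · exact absurd hij (by decide)
  · exact absurd hij (by decide)
  · exact absurd hij (by decide)
  · change (xp x 5) * (xp x 5) ∈ T2a_F (F := F) _ T2a_w1 20
    rw [T.XX 5 5 10 (by norm_num) (by norm_num) rfl, T.X8 _ (by norm_num)]
    exact zero_mem _
  · change (xp x 5) * (xp x 6) ∈ T2a_F (F := F) _ T2a_w1 22
    rw [T.XX 5 6 11 (by norm_num) (by norm_num) rfl, T.X8 _ (by norm_num)]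
    exact zero_mem _
  · change (xp x 5) * (xp x 7) ∈ T2a_F (F := F) _ T2a_w1 26
    rw [T.XX 5 7 12 (by norm_num) (by norm_num) rfl, T.X8 _ (by norm_num)]
    exact zero_mem _
  · change (xp x 5) * y ∈ T2a_F (F := F) _ T2a_w1 14
    rw [T.y5]
    exact zero_mem _
  · change (xp x 5) * q1 ∈ T2a_F (F := F) _ T2a_w1 18
    rw [T.p5]
    exact zero_mem _
  · change (xp x 5) * q2 ∈ T2a_F (F := F) _ T2a_w1 22
    rw [T.r5]
    exact zero_mem _
  · change (xp x 5) * z ∈ T2a_F (F := F) _ T2a_w1 15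
    rw [T.z5]
    exact zero_mem _

theorem T2a_m1_5 {x y q1 q2 z : J} {α f1 f2 f3 f4 c2 c4 c5 c6 c7 μ ν d5 d6 d7 ρ s e5 e6 e7 σ : F}
    (T : T2a_Tab F x y q1 q2 z α f1 f2 f3 f4 c2 c4 c5 c6 c7 μ ν d5 d6 d7 ρ s e5 e6 e7 σ) (hc2 : c2 = 0)
    (j : Fin 11) (hij : (5 : Fin 11) ≤ j) :
    T2a_B x y q1 q2 z 5 * T2a_B x y q1 q2 z j ∈
      T2a_F (F := F) (T2a_B x y q1 q2 z) T2a_w1 (T2a_w1 5 + T2a_w1 j) := by
  have m := fun (k : Fin 11) (s : ℕ) (h : s ≤ T2a_w1 k) =>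
    T2a_mem (F := F) (T2a_B x y q1 q2 z) T2a_w1 k h
  fin_cases j
  · exact absurd hij (by decide)
  · exact absurd hij (by decide)
  · exact absurd hij (by decide)
  · exact absurd hij (by decide)
  · exact absurd hij (by decide)
  · change (xp x 6) * (xp x 6) ∈ T2a_F (F := F) _ T2a_w1 24
    rw [T.XX 6 6 12 (by norm_num) (by norm_num) rfl, T.X8 _ (by norm_num)]
    exact zero_mem _
  · change (xp x 6) * (xp x 7) ∈ T2a_F (F := F) _ T2a_w1 28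
    rw [T.XX 6 7 13 (by norm_num) (by norm_num) rfl, T.X8 _ (by norm_num)]
    exact zero_mem _
  · change (xp x 6) * y ∈ T2a_F (F := F) _ T2a_w1 16
    rw [T.y6]
    exact (Submodule.smul_mem _ _ (m 6 16 (by decide)))
  · change (xp x 6) * q1 ∈ T2a_F (F := F) _ T2a_w1 20
    rw [T.p6]
    exact zero_mem _
  · change (xp x 6) * q2 ∈ T2a_F (F := F) _ T2a_w1 24
    rw [T.r6]
    exact zero_mem _
  · change (xp x 6) * z ∈ T2a_F (F := F) _ T2a_w1 17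
    rw [T.z6]
    exact zero_mem _

theorem T2a_m1_6 {x y q1 q2 z : J} {α f1 f2 f3 f4 c2 c4 c5 c6 c7 μ ν d5 d6 d7 ρ s e5 e6 e7 σ : F}
    (T : T2a_Tab F x y q1 q2 z α f1 f2 f3 f4 c2 c4 c5 c6 c7 μ ν d5 d6 d7 ρ s e5 e6 e7 σ) (hc2 : c2 = 0)
    (j : Fin 11) (hij : (6 : Fin 11) ≤ j) :
    T2a_B x y q1 q2 z 6 * T2a_B x y q1 q2 z j ∈
      T2a_F (F := F) (T2a_B x y q1 q2 z) T2a_w1 (T2a_w1 6 + T2a_w1 j) := by
  have m := fun (k : Fin 11) (s : ℕ) (h : s ≤ T2a_w1 k) =>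
    T2a_mem (F := F) (T2a_B x y q1 q2 z) T2a_w1 k h
  fin_cases j
  · exact absurd hij (by decide)
  · exact absurd hij (by decide)
  · exact absurd hij (by decide)
  · exact absurd hij (by decide)
  · exact absurd hij (by decide)
  · exact absurd hij (by decide)
  · change (xp x 7) * (xp x 7) ∈ T2a_F (F := F) _ T2a_w1 32
    rw [T.XX 7 7 14 (by norm_num) (by norm_num) rfl, T.X8 _ (by norm_num)]
    exact zero_mem _
  · change (xp x 7) * y ∈ T2a_F (F := F) _ T2a_w1 20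
    rw [T.y7]
    exact zero_mem _
  · change (xp x 7) * q1 ∈ T2a_F (F := F) _ T2a_w1 24
    rw [T.p7]
    exact zero_mem _
  · change (xp x 7) * q2 ∈ T2a_F (F := F) _ T2a_w1 28
    rw [T.r7]
    exact zero_mem _
  · change (xp x 7) * z ∈ T2a_F (F := F) _ T2a_w1 21
    rw [T.z7]
    exact zero_mem _

theorem T2a_m1_7 {x y q1 q2 z : J} {α f1 f2 f3 f4 c2 c4 c5 c6 c7 μ ν d5 d6 d7 ρ s e5 e6 e7 σ : F}
    (T : T2a_Tab F x y q1 q2 z α f1 f2 f3 f4 c2 c4 c5 c6 c7 μ ν d5 d6 d7 ρ s e5 e6 e7 σ) (hc2 : c2 = 0)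
    (j : Fin 11) (hij : (7 : Fin 11) ≤ j) :
    T2a_B x y q1 q2 z 7 * T2a_B x y q1 q2 z j ∈
      T2a_F (F := F) (T2a_B x y q1 q2 z) T2a_w1 (T2a_w1 7 + T2a_w1 j) := by
  have m := fun (k : Fin 11) (s : ℕ) (h : s ≤ T2a_w1 k) =>
    T2a_mem (F := F) (T2a_B x y q1 q2 z) T2a_w1 k h
  fin_cases j
  · exact absurd hij (by decide)
  · exact absurd hij (by decide)
  · exact absurd hij (by decide)
  · exact absurd hij (by decide)
  · exact absurd hij (by decide)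
  · exact absurd hij (by decide)
  · exact absurd hij (by decide)
  · change y * y ∈ T2a_F (F := F) _ T2a_w1 8
    rw [T.yy]
    exact (add_mem (add_mem (add_mem (add_mem (add_mem (add_mem (by rw [hc2, zero_smul]; exact zero_mem _) (Submodule.smul_mem _ _ (m 3 8 (by decide)))) (Submodule.smul_mem _ _ (m 4 8 (by decide)))) (Submodule.smul_mem _ _ (m 5 8 (by decide)))) (Submodule.smul_mem _ _ (m 6 8 (by decide)))) (Submodule.smul_mem _ _ (m 8 8 (by decide)))) (Submodule.smul_mem _ _ (m 9 8 (by decide))))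
  · change y * q1 ∈ T2a_F (F := F) _ T2a_w1 12
    rw [T.yp]
    exact (add_mem (add_mem (add_mem (by rw [hc2, zero_smul]; exact zero_mem _) (Submodule.smul_mem _ _ (m 5 12 (by decide)))) (Submodule.smul_mem _ _ (m 6 12 (by decide)))) (Submodule.smul_mem _ _ (m 9 12 (by decide))))
  · change y * q2 ∈ T2a_F (F := F) _ T2a_w1 16
    rw [T.yr]
    exact (add_mem (by rw [hc2, zero_smul]; exact zero_mem _) (Submodule.smul_mem _ _ (m 6 16 (by decide))))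
  · change y * z ∈ T2a_F (F := F) _ T2a_w1 9
    rw [T.yz]
    exact (add_mem (add_mem (add_mem (Submodule.smul_mem _ _ (m 4 9 (by decide))) (Submodule.smul_mem _ _ (m 5 9 (by decide)))) (Submodule.smul_mem _ _ (m 6 9 (by decide)))) (Submodule.smul_mem _ _ (m 9 9 (by decide))))

theorem T2a_m1_8 {x y q1 q2 z : J} {α f1 f2 f3 f4 c2 c4 c5 c6 c7 μ ν d5 d6 d7 ρ s e5 e6 e7 σ : F}
    (T : T2a_Tab F x y q1 q2 z α f1 f2 f3 f4 c2 c4 c5 c6 c7 μ ν d5 d6 d7 ρ s e5 e6 e7 σ) (hc2 : c2 = 0)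
    (j : Fin 11) (hij : (8 : Fin 11) ≤ j) :
    T2a_B x y q1 q2 z 8 * T2a_B x y q1 q2 z j ∈
      T2a_F (F := F) (T2a_B x y q1 q2 z) T2a_w1 (T2a_w1 8 + T2a_w1 j) := by
  have m := fun (k : Fin 11) (s : ℕ) (h : s ≤ T2a_w1 k) =>
    T2a_mem (F := F) (T2a_B x y q1 q2 z) T2a_w1 k h
  fin_cases j
  · exact absurd hij (by decide)
  · exact absurd hij (by decide)
  · exact absurd hij (by decide)
  · exact absurd hij (by decide)
  · exact absurd hij (by decide)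
  · exact absurd hij (by decide)
  · exact absurd hij (by decide)
  · exact absurd hij (by decide)
  · change q1 * q1 ∈ T2a_F (F := F) _ T2a_w1 16
    rw [T.pp]
    exact (add_mem (by rw [hc2, zero_smul]; exact zero_mem _) (Submodule.smul_mem _ _ (m 6 16 (by decide))))
  · change q1 * q2 ∈ T2a_F (F := F) _ T2a_w1 20
    rw [T.pr]
    exact zero_mem _
  · change q1 * z ∈ T2a_F (F := F) _ T2a_w1 13
    rw [T.pz]
    exact (Submodule.smul_mem _ _ (m 6 13 (by decide)))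

theorem T2a_m1_9 {x y q1 q2 z : J} {α f1 f2 f3 f4 c2 c4 c5 c6 c7 μ ν d5 d6 d7 ρ s e5 e6 e7 σ : F}
    (T : T2a_Tab F x y q1 q2 z α f1 f2 f3 f4 c2 c4 c5 c6 c7 μ ν d5 d6 d7 ρ s e5 e6 e7 σ) (hc2 : c2 = 0)
    (j : Fin 11) (hij : (9 : Fin 11) ≤ j) :
    T2a_B x y q1 q2 z 9 * T2a_B x y q1 q2 z j ∈
      T2a_F (F := F) (T2a_B x y q1 q2 z) T2a_w1 (T2a_w1 9 + T2a_w1 j) := by
  have m := fun (k : Fin 11) (s : ℕ) (h : s ≤ T2a_w1 k) =>
    T2a_mem (F := F) (T2a_B x y q1 q2 z) T2a_w1 k h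
  fin_cases j
  · exact absurd hij (by decide)
  · exact absurd hij (by decide)
  · exact absurd hij (by decide)
  · exact absurd hij (by decide)
  · exact absurd hij (by decide)
  · exact absurd hij (by decide)
  · exact absurd hij (by decide)
  · exact absurd hij (by decide)
  · exact absurd hij (by decide)
  · change q2 * q2 ∈ T2a_F (F := F) _ T2a_w1 24
    rw [T.rr]
    exact zero_mem _
  · change q2 * z ∈ T2a_F (F := F) _ T2a_w1 17
    rw [T.rz]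
    exact zero_mem _

theorem T2a_m1_10 {x y q1 q2 z : J} {α f1 f2 f3 f4 c2 c4 c5 c6 c7 μ ν d5 d6 d7 ρ s e5 e6 e7 σ : F}
    (T : T2a_Tab F x y q1 q2 z α f1 f2 f3 f4 c2 c4 c5 c6 c7 μ ν d5 d6 d7 ρ s e5 e6 e7 σ) (hc2 : c2 = 0)
    (j : Fin 11) (hij : (10 : Fin 11) ≤ j) :
    T2a_B x y q1 q2 z 10 * T2a_B x y q1 q2 z j ∈
      T2a_F (F := F) (T2a_B x y q1 q2 z) T2a_w1 (T2a_w1 10 + T2a_w1 j) := by
  have m := fun (k : Fin 11) (s : ℕ) (h : s ≤ T2a_w1 k) =>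
    T2a_mem (F := F) (T2a_B x y q1 q2 z) T2a_w1 k h
  fin_cases j
  · exact absurd hij (by decide)
  · exact absurd hij (by decide)
  · exact absurd hij (by decide)
  · exact absurd hij (by decide)
  · exact absurd hij (by decide)
  · exact absurd hij (by decide)
  · exact absurd hij (by decide)
  · exact absurd hij (by decide)
  · exact absurd hij (by decide)
  · exact absurd hij (by decide)
  · change z * z ∈ T2a_F (F := F) _ T2a_w1 10
    rw [T.zz]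
    exact (add_mem (add_mem (add_mem (Submodule.smul_mem _ _ (m 4 10 (by decide))) (Submodule.smul_mem _ _ (m 5 10 (by decide)))) (Submodule.smul_mem _ _ (m 6 10 (by decide)))) (Submodule.smul_mem _ _ (m 9 10 (by decide))))

theorem T2a_mul1 {x y q1 q2 z : J} {α f1 f2 f3 f4 c2 c4 c5 c6 c7 μ ν d5 d6 d7 ρ s e5 e6 e7 σ : F}
    (T : T2a_Tab F x y q1 q2 z α f1 f2 f3 f4 c2 c4 c5 c6 c7 μ ν d5 d6 d7 ρ s e5 e6 e7 σ) (hc2 : c2 = 0)
    (i j : Fin 11) (hij : i ≤ j) :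
    T2a_B x y q1 q2 z i * T2a_B x y q1 q2 z j ∈
      T2a_F (F := F) (T2a_B x y q1 q2 z) T2a_w1 (T2a_w1 i + T2a_w1 j) := by
  fin_cases i
  · exact T2a_m1_0 T hc2 j hij
  · exact T2a_m1_1 T hc2 j hij
  · exact T2a_m1_2 T hc2 j hij
  · exact T2a_m1_3 T hc2 j hij
  · exact T2a_m1_4 T hc2 j hij
  · exact T2a_m1_5 T hc2 j hij
  · exact T2a_m1_6 T hc2 j hij
  · exact T2a_m1_7 T hc2 j hij
  · exact T2a_m1_8 T hc2 j hij
  · exact T2a_m1_9 T hc2 j hij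
  · exact T2a_m1_10 T hc2 j hij

theorem T2a_m2_0 {x y q1 q2 z : J} {α f1 f2 f3 f4 c2 c4 c5 c6 c7 μ ν d5 d6 d7 ρ s e5 e6 e7 σ : F}
    (T : T2a_Tab F x y q1 q2 z α f1 f2 f3 f4 c2 c4 c5 c6 c7 μ ν d5 d6 d7 ρ s e5 e6 e7 σ)
    (j : Fin 11) (hij : (0 : Fin 11) ≤ j) :
    T2a_B x y q1 q2 z 0 * T2a_B x y q1 q2 z j ∈
      T2a_F (F := F) (T2a_B x y q1 q2 z) T2a_w2 (T2a_w2 0 + T2a_w2 j) := by
  have m := fun (k : Fin 11) (s : ℕ) (h : s ≤ T2a_w2 k) =>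
    T2a_mem (F := F) (T2a_B x y q1 q2 z) T2a_w2 k h
  fin_cases j
  · change (xp x 1) * (xp x 1) ∈ T2a_F (F := F) _ T2a_w2 4
    rw [T.XX 1 1 2 (by norm_num) (by norm_num) rfl]
    exact (m 1 4 (by decide))
  · change (xp x 1) * (xp x 2) ∈ T2a_F (F := F) _ T2a_w2 6
    rw [T.XX 1 2 3 (by norm_num) (by norm_num) rfl]
    exact (m 2 6 (by decide))
  · change (xp x 1) * (xp x 3) ∈ T2a_F (F := F) _ T2a_w2 8
    rw [T.XX 1 3 4 (by norm_num) (by norm_num) rfl]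
    exact (m 3 8 (by decide))
  · change (xp x 1) * (xp x 4) ∈ T2a_F (F := F) _ T2a_w2 10
    rw [T.XX 1 4 5 (by norm_num) (by norm_num) rfl]
    exact (m 4 10 (by decide))
  · change (xp x 1) * (xp x 5) ∈ T2a_F (F := F) _ T2a_w2 12
    rw [T.XX 1 5 6 (by norm_num) (by norm_num) rfl]
    exact (m 5 12 (by decide))
  · change (xp x 1) * (xp x 6) ∈ T2a_F (F := F) _ T2a_w2 14
    rw [T.XX 1 6 7 (by norm_num) (by norm_num) rfl]
    exact (m 6 14 (by decide))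
  · change (xp x 1) * (xp x 7) ∈ T2a_F (F := F) _ T2a_w2 16
    rw [T.XX 1 7 8 (by norm_num) (by norm_num) rfl, T.X8 _ (by norm_num)]
    exact zero_mem _
  · change (xp x 1) * y ∈ T2a_F (F := F) _ T2a_w2 4
    rw [T.y1]
    exact zero_mem _
  · change (xp x 1) * q1 ∈ T2a_F (F := F) _ T2a_w2 8
    rw [T.p1]
    exact zero_mem _
  · change (xp x 1) * q2 ∈ T2a_F (F := F) _ T2a_w2 12
    rw [T.r1]
    exact zero_mem _
  · change (xp x 1) * z ∈ T2a_F (F := F) _ T2a_w2 7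
    rw [T.z1]
    exact (Submodule.smul_mem _ _ (m 9 7 (by decide)))

theorem T2a_m2_1 {x y q1 q2 z : J} {α f1 f2 f3 f4 c2 c4 c5 c6 c7 μ ν d5 d6 d7 ρ s e5 e6 e7 σ : F}
    (T : T2a_Tab F x y q1 q2 z α f1 f2 f3 f4 c2 c4 c5 c6 c7 μ ν d5 d6 d7 ρ s e5 e6 e7 σ)
    (j : Fin 11) (hij : (1 : Fin 11) ≤ j) :
    T2a_B x y q1 q2 z 1 * T2a_B x y q1 q2 z j ∈
      T2a_F (F := F) (T2a_B x y q1 q2 z) T2a_w2 (T2a_w2 1 + T2a_w2 j) := by
  have m := fun (k : Fin 11) (s : ℕ) (h : s ≤ T2a_w2 k) =>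
    T2a_mem (F := F) (T2a_B x y q1 q2 z) T2a_w2 k h
  fin_cases j
  · exact absurd hij (by decide)
  · change (xp x 2) * (xp x 2) ∈ T2a_F (F := F) _ T2a_w2 8
    rw [T.XX 2 2 4 (by norm_num) (by norm_num) rfl]
    exact (m 3 8 (by decide))
  · change (xp x 2) * (xp x 3) ∈ T2a_F (F := F) _ T2a_w2 10
    rw [T.XX 2 3 5 (by norm_num) (by norm_num) rfl]
    exact (m 4 10 (by decide))
  · change (xp x 2) * (xp x 4) ∈ T2a_F (F := F) _ T2a_w2 12
    rw [T.XX 2 4 6 (by norm_num) (by norm_num) rfl]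
    exact (m 5 12 (by decide))
  · change (xp x 2) * (xp x 5) ∈ T2a_F (F := F) _ T2a_w2 14
    rw [T.XX 2 5 7 (by norm_num) (by norm_num) rfl]
    exact (m 6 14 (by decide))
  · change (xp x 2) * (xp x 6) ∈ T2a_F (F := F) _ T2a_w2 16
    rw [T.XX 2 6 8 (by norm_num) (by norm_num) rfl, T.X8 _ (by norm_num)]
    exact zero_mem _
  · change (xp x 2) * (xp x 7) ∈ T2a_F (F := F) _ T2a_w2 18
    rw [T.XX 2 7 9 (by norm_num) (by norm_num) rfl, T.X8 _ (by norm_num)]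
    exact zero_mem _
  · change (xp x 2) * y ∈ T2a_F (F := F) _ T2a_w2 6
    rw [T.y2]
    exact (add_mem (m 8 6 (by decide)) (Submodule.smul_mem _ _ (m 6 6 (by decide))))
  · change (xp x 2) * q1 ∈ T2a_F (F := F) _ T2a_w2 10
    rw [T.p2]
    exact (add_mem (m 9 10 (by decide)) (Submodule.smul_mem _ _ (m 6 10 (by decide))))
  · change (xp x 2) * q2 ∈ T2a_F (F := F) _ T2a_w2 14
    rw [T.r2]
    exact (Submodule.smul_mem _ _ (m 6 14 (by decide)))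
  · change (xp x 2) * z ∈ T2a_F (F := F) _ T2a_w2 9
    rw [T.z2]
    exact (add_mem (Submodule.smul_mem _ _ (m 6 9 (by decide))) (Submodule.smul_mem _ _ (m 5 9 (by decide))))

theorem T2a_m2_2 {x y q1 q2 z : J} {α f1 f2 f3 f4 c2 c4 c5 c6 c7 μ ν d5 d6 d7 ρ s e5 e6 e7 σ : F}
    (T : T2a_Tab F x y q1 q2 z α f1 f2 f3 f4 c2 c4 c5 c6 c7 μ ν d5 d6 d7 ρ s e5 e6 e7 σ)
    (j : Fin 11) (hij : (2 : Fin 11) ≤ j) :
    T2a_B x y q1 q2 z 2 * T2a_B x y q1 q2 z j ∈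
      T2a_F (F := F) (T2a_B x y q1 q2 z) T2a_w2 (T2a_w2 2 + T2a_w2 j) := by
  have m := fun (k : Fin 11) (s : ℕ) (h : s ≤ T2a_w2 k) =>
    T2a_mem (F := F) (T2a_B x y q1 q2 z) T2a_w2 k h
  fin_cases j
  · exact absurd hij (by decide)
  · exact absurd hij (by decide)
  · change (xp x 3) * (xp x 3) ∈ T2a_F (F := F) _ T2a_w2 12
    rw [T.XX 3 3 6 (by norm_num) (by norm_num) rfl]
    exact (m 5 12 (by decide))
  · change (xp x 3) * (xp x 4) ∈ T2a_F (F := F) _ T2a_w2 14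
    rw [T.XX 3 4 7 (by norm_num) (by norm_num) rfl]
    exact (m 6 14 (by decide))
  · change (xp x 3) * (xp x 5) ∈ T2a_F (F := F) _ T2a_w2 16
    rw [T.XX 3 5 8 (by norm_num) (by norm_num) rfl, T.X8 _ (by norm_num)]
    exact zero_mem _
  · change (xp x 3) * (xp x 6) ∈ T2a_F (F := F) _ T2a_w2 18
    rw [T.XX 3 6 9 (by norm_num) (by norm_num) rfl, T.X8 _ (by norm_num)]
    exact zero_mem _
  · change (xp x 3) * (xp x 7) ∈ T2a_F (F := F) _ T2a_w2 20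
    rw [T.XX 3 7 10 (by norm_num) (by norm_num) rfl, T.X8 _ (by norm_num)]
    exact zero_mem _
  · change (xp x 3) * y ∈ T2a_F (F := F) _ T2a_w2 8
    rw [T.y3]
    exact zero_mem _
  · change (xp x 3) * q1 ∈ T2a_F (F := F) _ T2a_w2 12
    rw [T.p3]
    exact zero_mem _
  · change (xp x 3) * q2 ∈ T2a_F (F := F) _ T2a_w2 16
    rw [T.r3]
    exact zero_mem _
  · change (xp x 3) * z ∈ T2a_F (F := F) _ T2a_w2 11
    rw [T.z3]
    exact (Submodule.smul_mem _ _ (m 6 11 (by decide)))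

theorem T2a_m2_3 {x y q1 q2 z : J} {α f1 f2 f3 f4 c2 c4 c5 c6 c7 μ ν d5 d6 d7 ρ s e5 e6 e7 σ : F}
    (T : T2a_Tab F x y q1 q2 z α f1 f2 f3 f4 c2 c4 c5 c6 c7 μ ν d5 d6 d7 ρ s e5 e6 e7 σ)
    (j : Fin 11) (hij : (3 : Fin 11) ≤ j) :
    T2a_B x y q1 q2 z 3 * T2a_B x y q1 q2 z j ∈
      T2a_F (F := F) (T2a_B x y q1 q2 z) T2a_w2 (T2a_w2 3 + T2a_w2 j) := by
  have m := fun (k : Fin 11) (s : ℕ) (h : s ≤ T2a_w2 k) =>
    T2a_mem (F := F) (T2a_B x y q1 q2 z) T2a_w2 k h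
  fin_cases j
  · exact absurd hij (by decide)
  · exact absurd hij (by decide)
  · exact absurd hij (by decide)
  · change (xp x 4) * (xp x 4) ∈ T2a_F (F := F) _ T2a_w2 16
    rw [T.XX 4 4 8 (by norm_num) (by norm_num) rfl, T.X8 _ (by norm_num)]
    exact zero_mem _
  · change (xp x 4) * (xp x 5) ∈ T2a_F (F := F) _ T2a_w2 18
    rw [T.XX 4 5 9 (by norm_num) (by norm_num) rfl, T.X8 _ (by norm_num)]
    exact zero_mem _
  · change (xp x 4) * (xp x 6) ∈ T2a_F (F := F) _ T2a_w2 20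
    rw [T.XX 4 6 10 (by norm_num) (by norm_num) rfl, T.X8 _ (by norm_num)]
    exact zero_mem _
  · change (xp x 4) * (xp x 7) ∈ T2a_F (F := F) _ T2a_w2 22
    rw [T.XX 4 7 11 (by norm_num) (by norm_num) rfl, T.X8 _ (by norm_num)]
    exact zero_mem _
  · change (xp x 4) * y ∈ T2a_F (F := F) _ T2a_w2 10
    rw [T.y4]
    exact (add_mem (m 9 10 (by decide)) (Submodule.smul_mem _ _ (m 6 10 (by decide))))
  · change (xp x 4) * q1 ∈ T2a_F (F := F) _ T2a_w2 14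
    rw [T.p4]
    exact (Submodule.smul_mem _ _ (m 6 14 (by decide)))
  · change (xp x 4) * q2 ∈ T2a_F (F := F) _ T2a_w2 18
    rw [T.r4]
    exact zero_mem _
  · change (xp x 4) * z ∈ T2a_F (F := F) _ T2a_w2 13
    rw [T.z4]
    exact zero_mem _

theorem T2a_m2_4 {x y q1 q2 z : J} {α f1 f2 f3 f4 c2 c4 c5 c6 c7 μ ν d5 d6 d7 ρ s e5 e6 e7 σ : F}
    (T : T2a_Tab F x y q1 q2 z α f1 f2 f3 f4 c2 c4 c5 c6 c7 μ ν d5 d6 d7 ρ s e5 e6 e7 σ)
    (j : Fin 11) (hij : (4 : Fin 11) ≤ j) :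
    T2a_B x y q1 q2 z 4 * T2a_B x y q1 q2 z j ∈
      T2a_F (F := F) (T2a_B x y q1 q2 z) T2a_w2 (T2a_w2 4 + T2a_w2 j) := by
  have m := fun (k : Fin 11) (s : ℕ) (h : s ≤ T2a_w2 k) =>
    T2a_mem (F := F) (T2a_B x y q1 q2 z) T2a_w2 k h
  fin_cases j
  · exact absurd hij (by decide)
  · exact absurd hij (by decide)
  · exact absurd hij (by decide)
  · exact absurd hij (by decide)
  · change (xp x 5) * (xp x 5) ∈ T2a_F (F := F) _ T2a_w2 20
    rw [T.XX 5 5 10 (by norm_num) (by norm_num) rfl, T.X8 _ (by norm_num)]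
    exact zero_mem _
  · change (xp x 5) * (xp x 6) ∈ T2a_F (F := F) _ T2a_w2 22
    rw [T.XX 5 6 11 (by norm_num) (by norm_num) rfl, T.X8 _ (by norm_num)]
    exact zero_mem _
  · change (xp x 5) * (xp x 7) ∈ T2a_F (F := F) _ T2a_w2 24
    rw [T.XX 5 7 12 (by norm_num) (by norm_num) rfl, T.X8 _ (by norm_num)]
    exact zero_mem _
  · change (xp x 5) * y ∈ T2a_F (F := F) _ T2a_w2 12
    rw [T.y5]
    exact zero_mem _
  · change (xp x 5) * q1 ∈ T2a_F (F := F) _ T2a_w2 16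
    rw [T.p5]
    exact zero_mem _
  · change (xp x 5) * q2 ∈ T2a_F (F := F) _ T2a_w2 20
    rw [T.r5]
    exact zero_mem _
  · change (xp x 5) * z ∈ T2a_F (F := F) _ T2a_w2 15
    rw [T.z5]
    exact zero_mem _

theorem T2a_m2_5 {x y q1 q2 z : J} {α f1 f2 f3 f4 c2 c4 c5 c6 c7 μ ν d5 d6 d7 ρ s e5 e6 e7 σ : F}
    (T : T2a_Tab F x y q1 q2 z α f1 f2 f3 f4 c2 c4 c5 c6 c7 μ ν d5 d6 d7 ρ s e5 e6 e7 σ)
    (j : Fin 11) (hij : (5 : Fin 11) ≤ j) :
    T2a_B x y q1 q2 z 5 * T2a_B x y q1 q2 z j ∈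
      T2a_F (F := F) (T2a_B x y q1 q2 z) T2a_w2 (T2a_w2 5 + T2a_w2 j) := by
  have m := fun (k : Fin 11) (s : ℕ) (h : s ≤ T2a_w2 k) =>
    T2a_mem (F := F) (T2a_B x y q1 q2 z) T2a_w2 k h
  fin_cases j
  · exact absurd hij (by decide)
  · exact absurd hij (by decide)
  · exact absurd hij (by decide)
  · exact absurd hij (by decide)
  · exact absurd hij (by decide)
  · change (xp x 6) * (xp x 6) ∈ T2a_F (F := F) _ T2a_w2 24
    rw [T.XX 6 6 12 (by norm_num) (by norm_num) rfl, T.X8 _ (by norm_num)]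
    exact zero_mem _
  · change (xp x 6) * (xp x 7) ∈ T2a_F (F := F) _ T2a_w2 26
    rw [T.XX 6 7 13 (by norm_num) (by norm_num) rfl, T.X8 _ (by norm_num)]
    exact zero_mem _
  · change (xp x 6) * y ∈ T2a_F (F := F) _ T2a_w2 14
    rw [T.y6]
    exact (Submodule.smul_mem _ _ (m 6 14 (by decide)))
  · change (xp x 6) * q1 ∈ T2a_F (F := F) _ T2a_w2 18
    rw [T.p6]
    exact zero_mem _
  · change (xp x 6) * q2 ∈ T2a_F (F := F) _ T2a_w2 22
    rw [T.r6]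
    exact zero_mem _
  · change (xp x 6) * z ∈ T2a_F (F := F) _ T2a_w2 17
    rw [T.z6]
    exact zero_mem _

theorem T2a_m2_6 {x y q1 q2 z : J} {α f1 f2 f3 f4 c2 c4 c5 c6 c7 μ ν d5 d6 d7 ρ s e5 e6 e7 σ : F}
    (T : T2a_Tab F x y q1 q2 z α f1 f2 f3 f4 c2 c4 c5 c6 c7 μ ν d5 d6 d7 ρ s e5 e6 e7 σ)
    (j : Fin 11) (hij : (6 : Fin 11) ≤ j) :
    T2a_B x y q1 q2 z 6 * T2a_B x y q1 q2 z j ∈
      T2a_F (F := F) (T2a_B x y q1 q2 z) T2a_w2 (T2a_w2 6 + T2a_w2 j) := by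
  have m := fun (k : Fin 11) (s : ℕ) (h : s ≤ T2a_w2 k) =>
    T2a_mem (F := F) (T2a_B x y q1 q2 z) T2a_w2 k h
  fin_cases j
  · exact absurd hij (by decide)
  · exact absurd hij (by decide)
  · exact absurd hij (by decide)
  · exact absurd hij (by decide)
  · exact absurd hij (by decide)
  · exact absurd hij (by decide)
  · change (xp x 7) * (xp x 7) ∈ T2a_F (F := F) _ T2a_w2 28
    rw [T.XX 7 7 14 (by norm_num) (by norm_num) rfl, T.X8 _ (by norm_num)]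
    exact zero_mem _
  · change (xp x 7) * y ∈ T2a_F (F := F) _ T2a_w2 16
    rw [T.y7]
    exact zero_mem _
  · change (xp x 7) * q1 ∈ T2a_F (F := F) _ T2a_w2 20
    rw [T.p7]
    exact zero_mem _
  · change (xp x 7) * q2 ∈ T2a_F (F := F) _ T2a_w2 24
    rw [T.r7]
    exact zero_mem _
  · change (xp x 7) * z ∈ T2a_F (F := F) _ T2a_w2 19
    rw [T.z7]
    exact zero_mem _

theorem T2a_m2_7 {x y q1 q2 z : J} {α f1 f2 f3 f4 c2 c4 c5 c6 c7 μ ν d5 d6 d7 ρ s e5 e6 e7 σ : F}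
    (T : T2a_Tab F x y q1 q2 z α f1 f2 f3 f4 c2 c4 c5 c6 c7 μ ν d5 d6 d7 ρ s e5 e6 e7 σ)
    (j : Fin 11) (hij : (7 : Fin 11) ≤ j) :
    T2a_B x y q1 q2 z 7 * T2a_B x y q1 q2 z j ∈
      T2a_F (F := F) (T2a_B x y q1 q2 z) T2a_w2 (T2a_w2 7 + T2a_w2 j) := by
  have m := fun (k : Fin 11) (s : ℕ) (h : s ≤ T2a_w2 k) =>
    T2a_mem (F := F) (T2a_B x y q1 q2 z) T2a_w2 k h
  fin_cases j
  · exact absurd hij (by decide)
  · exact absurd hij (by decide)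
  · exact absurd hij (by decide)
  · exact absurd hij (by decide)
  · exact absurd hij (by decide)
  · exact absurd hij (by decide)
  · exact absurd hij (by decide)
  · change y * y ∈ T2a_F (F := F) _ T2a_w2 4
    rw [T.yy]
    exact (add_mem (add_mem (add_mem (add_mem (add_mem (add_mem (Submodule.smul_mem _ _ (m 1 4 (by decide))) (Submodule.smul_mem _ _ (m 3 4 (by decide)))) (Submodule.smul_mem _ _ (m 4 4 (by decide)))) (Submodule.smul_mem _ _ (m 5 4 (by decide)))) (Submodule.smul_mem _ _ (m 6 4 (by decide)))) (Submodule.smul_mem _ _ (m 8 4 (by decide)))) (Submodule.smul_mem _ _ (m 9 4 (by decide))))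
  · change y * q1 ∈ T2a_F (F := F) _ T2a_w2 8
    rw [T.yp]
    exact (add_mem (add_mem (add_mem (Submodule.smul_mem _ _ (m 3 8 (by decide))) (Submodule.smul_mem _ _ (m 5 8 (by decide)))) (Submodule.smul_mem _ _ (m 6 8 (by decide)))) (Submodule.smul_mem _ _ (m 9 8 (by decide))))
  · change y * q2 ∈ T2a_F (F := F) _ T2a_w2 12
    rw [T.yr]
    exact (add_mem (Submodule.smul_mem _ _ (m 5 12 (by decide))) (Submodule.smul_mem _ _ (m 6 12 (by decide))))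
  · change y * z ∈ T2a_F (F := F) _ T2a_w2 7
    rw [T.yz]
    exact (add_mem (add_mem (add_mem (Submodule.smul_mem _ _ (m 4 7 (by decide))) (Submodule.smul_mem _ _ (m 5 7 (by decide)))) (Submodule.smul_mem _ _ (m 6 7 (by decide)))) (Submodule.smul_mem _ _ (m 9 7 (by decide))))

theorem T2a_m2_8 {x y q1 q2 z : J} {α f1 f2 f3 f4 c2 c4 c5 c6 c7 μ ν d5 d6 d7 ρ s e5 e6 e7 σ : F}
    (T : T2a_Tab F x y q1 q2 z α f1 f2 f3 f4 c2 c4 c5 c6 c7 μ ν d5 d6 d7 ρ s e5 e6 e7 σ)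
    (j : Fin 11) (hij : (8 : Fin 11) ≤ j) :
    T2a_B x y q1 q2 z 8 * T2a_B x y q1 q2 z j ∈
      T2a_F (F := F) (T2a_B x y q1 q2 z) T2a_w2 (T2a_w2 8 + T2a_w2 j) := by
  have m := fun (k : Fin 11) (s : ℕ) (h : s ≤ T2a_w2 k) =>
    T2a_mem (F := F) (T2a_B x y q1 q2 z) T2a_w2 k h
  fin_cases j
  · exact absurd hij (by decide)
  · exact absurd hij (by decide)
  · exact absurd hij (by decide)
  · exact absurd hij (by decide)
  · exact absurd hij (by decide)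
  · exact absurd hij (by decide)
  · exact absurd hij (by decide)
  · exact absurd hij (by decide)
  · change q1 * q1 ∈ T2a_F (F := F) _ T2a_w2 12
    rw [T.pp]
    exact (add_mem (Submodule.smul_mem _ _ (m 5 12 (by decide))) (Submodule.smul_mem _ _ (m 6 12 (by decide))))
  · change q1 * q2 ∈ T2a_F (F := F) _ T2a_w2 16
    rw [T.pr]
    exact zero_mem _
  · change q1 * z ∈ T2a_F (F := F) _ T2a_w2 11
    rw [T.pz]
    exact (Submodule.smul_mem _ _ (m 6 11 (by decide)))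

theorem T2a_m2_9 {x y q1 q2 z : J} {α f1 f2 f3 f4 c2 c4 c5 c6 c7 μ ν d5 d6 d7 ρ s e5 e6 e7 σ : F}
    (T : T2a_Tab F x y q1 q2 z α f1 f2 f3 f4 c2 c4 c5 c6 c7 μ ν d5 d6 d7 ρ s e5 e6 e7 σ)
    (j : Fin 11) (hij : (9 : Fin 11) ≤ j) :
    T2a_B x y q1 q2 z 9 * T2a_B x y q1 q2 z j ∈
      T2a_F (F := F) (T2a_B x y q1 q2 z) T2a_w2 (T2a_w2 9 + T2a_w2 j) := by
  have m := fun (k : Fin 11) (s : ℕ) (h : s ≤ T2a_w2 k) =>
    T2a_mem (F := F) (T2a_B x y q1 q2 z) T2a_w2 k h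
  fin_cases j
  · exact absurd hij (by decide)
  · exact absurd hij (by decide)
  · exact absurd hij (by decide)
  · exact absurd hij (by decide)
  · exact absurd hij (by decide)
  · exact absurd hij (by decide)
  · exact absurd hij (by decide)
  · exact absurd hij (by decide)
  · exact absurd hij (by decide)
  · change q2 * q2 ∈ T2a_F (F := F) _ T2a_w2 20
    rw [T.rr]
    exact zero_mem _
  · change q2 * z ∈ T2a_F (F := F) _ T2a_w2 15
    rw [T.rz]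
    exact zero_mem _

theorem T2a_m2_10 {x y q1 q2 z : J} {α f1 f2 f3 f4 c2 c4 c5 c6 c7 μ ν d5 d6 d7 ρ s e5 e6 e7 σ : F}
    (T : T2a_Tab F x y q1 q2 z α f1 f2 f3 f4 c2 c4 c5 c6 c7 μ ν d5 d6 d7 ρ s e5 e6 e7 σ)
    (j : Fin 11) (hij : (10 : Fin 11) ≤ j) :
    T2a_B x y q1 q2 z 10 * T2a_B x y q1 q2 z j ∈
      T2a_F (F := F) (T2a_B x y q1 q2 z) T2a_w2 (T2a_w2 10 + T2a_w2 j) := by
  have m := fun (k : Fin 11) (s : ℕ) (h : s ≤ T2a_w2 k) =>
    T2a_mem (F := F) (T2a_B x y q1 q2 z) T2a_w2 k h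
  fin_cases j
  · exact absurd hij (by decide)
  · exact absurd hij (by decide)
  · exact absurd hij (by decide)
  · exact absurd hij (by decide)
  · exact absurd hij (by decide)
  · exact absurd hij (by decide)
  · exact absurd hij (by decide)
  · exact absurd hij (by decide)
  · exact absurd hij (by decide)
  · exact absurd hij (by decide)
  · change z * z ∈ T2a_F (F := F) _ T2a_w2 10
    rw [T.zz]
    exact (add_mem (add_mem (add_mem (Submodule.smul_mem _ _ (m 4 10 (by decide))) (Submodule.smul_mem _ _ (m 5 10 (by decide)))) (Submodule.smul_mem _ _ (m 6 10 (by decide)))) (Submodule.smul_mem _ _ (m 9 10 (by decide))))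

theorem T2a_mul2 {x y q1 q2 z : J} {α f1 f2 f3 f4 c2 c4 c5 c6 c7 μ ν d5 d6 d7 ρ s e5 e6 e7 σ : F}
    (T : T2a_Tab F x y q1 q2 z α f1 f2 f3 f4 c2 c4 c5 c6 c7 μ ν d5 d6 d7 ρ s e5 e6 e7 σ)
    (i j : Fin 11) (hij : i ≤ j) :
    T2a_B x y q1 q2 z i * T2a_B x y q1 q2 z j ∈
      T2a_F (F := F) (T2a_B x y q1 q2 z) T2a_w2 (T2a_w2 i + T2a_w2 j) := by
  fin_cases i
  · exact T2a_m2_0 T j hij
  · exact T2a_m2_1 T j hij
  · exact T2a_m2_2 T j hij
  · exact T2a_m2_3 T j hij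
  · exact T2a_m2_4 T j hij
  · exact T2a_m2_5 T j hij
  · exact T2a_m2_6 T j hij
  · exact T2a_m2_7 T j hij
  · exact T2a_m2_8 T j hij
  · exact T2a_m2_9 T j hij
  · exact T2a_m2_10 T j hij

/-- span of the S-system -/
theorem T2a_gen (hn : IsNilpotentAlg F J) {x y z : J}
    (hspan : Submodule.span F (Set.range ![x, y, z]) ⊔ jpow F J 2 = ⊤) (v : Fin 3 → J)
    (hv : Submodule.span F (Set.range ![x, y, z]) ≤ Submodule.span F (Set.range v))
    (T : Submodule F J) (hT : ∀ i, v i ∈ T) (hmul : ∀ a ∈ T, ∀ b ∈ T, a * b ∈ T) : T = ⊤ := by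
  refine gen_of_span hn v ?_ T hT hmul
  rw [eq_top_iff, ← hspan]
  exact sup_le_sup_right hv _

theorem T2a_case1 {e : J} (h : Crit F J 7 e) {x y q1 q2 z : J} {α f1 f2 f3 f4 : F}
    {c2 c4 c5 c6 c7 μ ν d5 d6 d7 ρ s e5 e6 e7 σ : F}
    (T : T2a_Tab F x y q1 q2 z α f1 f2 f3 f4 c2 c4 c5 c6 c7 μ ν d5 d6 d7 ρ s e5 e6 e7 σ)
    (hc2 : c2 = 0)
    (hB : ∀ c : Fin 11 → F, ∑ k, c k • T2a_B x y q1 q2 z k = 0 → ∀ k, c k = 0)
    (hspan : Submodule.span F (Set.range ![x, y, z]) ⊔ jpow F J 2 = ⊤) : False := by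
  obtain ⟨S, hS, -, -, hSs⟩ := exists_SSys7 h.two h.jordan h.bot ![x, y, z]
  have hSspan := hSs (T2a_gen ⟨8, by norm_num, h.bot⟩ hspan _ le_rfl)
  have hΦ : Filt F ![x, y, z] ![2, 4, 5] (T2a_F (F := F) (T2a_B x y q1 q2 z) T2a_w1) := by
    refine T2a_filt _ _ _ _ ?_ (T2a_mul1 T hc2)
    intro i
    fin_cases i
    · exact T2a_mem _ _ 0 (by decide)
    · exact T2a_mem _ _ 7 (by decide)
    · exact T2a_mem _ _ 10 (by decide)
  refine finish ![2, 4, 5] h hS hSspan hΦ (N := 16) (m := 2) (by decide)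
    (Fam_eq_bot (by decide)) ?_
  intro E _ _ P t ht1 ht2 hr
  have ht3 : t = 2 ∨ t = 3 ∨ t = 4 ∨ t = 5 := by
    have : t + 11 ≤ 16 := ht2
    omega
  have hs : ∀ i j k : Fin 3, t < (![2, 4, 5] : Fin 3 → ℕ) i + (![2, 4, 5] : Fin 3 → ℕ) j +
      (![2, 4, 5] : Fin 3 → ℕ) k := by
    have h6 : ∀ i j k : Fin 3, 6 ≤ (![2, 4, 5] : Fin 3 → ℕ) i + (![2, 4, 5] : Fin 3 → ℕ) j +
      (![2, 4, 5] : Fin 3 → ℕ) k := by decide
    intro i j k
    have := h6 i j k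
    omega
  refine step2 P ![2, 4, 5] h.two hS hΦ (by omega) hs ?_ hr
  intro k1 k2 hk
  rcases ht3 with rfl | rfl | rfl | rfl
  · have hk' : ∑ k, (![k1 0, 0, 0, 0, 0, 0, 0, 0, 0, 0, 0] : Fin 11 → F) k •
        T2a_B x y q1 q2 z k ∈ T2a_F (F := F) (T2a_B x y q1 q2 z) T2a_w1 3 := by
      simpa [Fin.sum_univ_succ, T2a_B] using hk
    have h0 : k1 0 = 0 := T2a_coord hB _ hk' 0 (by decide)
    refine ⟨fun i hi => ?_, fun i j hij hw => ?_⟩
    · fin_cases i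
      · exact h0
      · exact absurd hi (by decide)
      · exact absurd hi (by decide)
    · exact absurd hw (by revert i j; decide)
  · refine ⟨fun i hi => ?_, fun i j hij hw => ?_⟩
    · exact absurd hi (by revert i; decide)
    · exact absurd hw (by revert i j; decide)
  · have hk' : ∑ k, (![0, k2 0 0, 0, 0, 0, 0, 0, k1 1, 0, 0, 0] : Fin 11 → F) k •
        T2a_B x y q1 q2 z k ∈ T2a_F (F := F) (T2a_B x y q1 q2 z) T2a_w1 5 := by
      simp [Fin.sum_univ_succ, T2a_B] at hk ⊢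
      rw [add_comm]
      exact hk
    have h0 : k2 0 0 = 0 := T2a_coord hB _ hk' 1 (by decide)
    have h1 : k1 1 = 0 := T2a_coord hB _ hk' 7 (by decide)
    refine ⟨fun i hi => ?_, fun i j hij hw => ?_⟩
    · fin_cases i
      · exact absurd hi (by decide)
      · exact h1
      · exact absurd hi (by decide)
    · left
      fin_cases i <;> fin_cases j <;> first | exact h0 | exact absurd hw (by decide)
  · have hk' : ∑ k, (![0, 0, 0, 0, 0, 0, 0, 0, 0, 0, k1 2] : Fin 11 → F) k •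
        T2a_B x y q1 q2 z k ∈ T2a_F (F := F) (T2a_B x y q1 q2 z) T2a_w1 6 := by
      simpa [Fin.sum_univ_succ, T2a_B] using hk
    have h0 : k1 2 = 0 := T2a_coord hB _ hk' 10 (by decide)
    refine ⟨fun i hi => ?_, fun i j hij hw => ?_⟩
    · fin_cases i
      · exact absurd hi (by decide)
      · exact absurd hi (by decide)
      · exact h0
    · exact absurd hw (by revert i j; decide)

theorem T2a_case2 [IsAlgClosed F] {e : J} (h : Crit F J 7 e) {x y q1 q2 z : J}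
    {α f1 f2 f3 f4 : F} {c2 c4 c5 c6 c7 μ ν d5 d6 d7 ρ s e5 e6 e7 σ : F}
    (T : T2a_Tab F x y q1 q2 z α f1 f2 f3 f4 c2 c4 c5 c6 c7 μ ν d5 d6 d7 ρ s e5 e6 e7 σ)
    (hc2 : c2 ≠ 0)
    (hB : ∀ c : Fin 11 → F, ∑ k, c k • T2a_B x y q1 q2 z k = 0 → ∀ k, c k = 0)
    (hspan : Submodule.span F (Set.range ![x, y, z]) ⊔ jpow F J 2 = ⊤) : False := by
  obtain ⟨κ, hκ⟩ := IsAlgClosed.exists_pow_nat_eq (-c2) (n := 2) (by norm_num)
  have hκ0 : κ ≠ 0 := by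
    rintro rfl
    apply hc2
    linear_combination hκ
  have h22 : (2 : F) ≠ 0 := h.two
  obtain ⟨L, hL⟩ : ∃ L : Fin 3 → J, L = ![y + κ • x, y - κ • x, z] := ⟨_, rfl⟩
  have hL0 : L 0 = y + κ • x := by rw [hL]; rfl
  have hL1 : L 1 = y - κ • x := by rw [hL]; rfl
  have hL2 : L 2 = z := by rw [hL]; rfl
  obtain ⟨S, hS, -, -, hSs⟩ := exists_SSys7 h.two h.jordan h.bot L
  have hle : Submodule.span F (Set.range ![x, y, z]) ≤ Submodule.span F (Set.range L) := by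
    have m : ∀ i, L i ∈ Submodule.span F (Set.range L) := fun i => Submodule.subset_span ⟨i, rfl⟩
    rw [Submodule.span_le]
    rintro _ ⟨i, rfl⟩
    fin_cases i
    · have e1 : x = (2 * κ)⁻¹ • (L 0 - L 1) := by
        rw [hL0, hL1, show y + κ • x - (y - κ • x) = (2 * κ) • x by module, smul_smul,
          inv_mul_cancel₀ (mul_ne_zero h22 hκ0), one_smul]
      change x ∈ _
      rw [SetLike.mem_coe, e1]
      exact Submodule.smul_mem _ _ (sub_mem (m 0) (m 1))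
    · have e1 : y = (2 : F)⁻¹ • (L 0 + L 1) := by
        rw [hL0, hL1, show y + κ • x + (y - κ • x) = (2 : F) • y by module, smul_smul,
          inv_mul_cancel₀ h22, one_smul]
      change y ∈ _
      rw [SetLike.mem_coe, e1]
      exact Submodule.smul_mem _ _ (add_mem (m 0) (m 1))
    · change z ∈ _
      rw [SetLike.mem_coe, ← hL2]
      exact m 2
  have hSspan := hSs (T2a_gen ⟨8, by norm_num, h.bot⟩ hspan _ hle)
  have hΦ : Filt F L ![2, 2, 5] (T2a_F (F := F) (T2a_B x y q1 q2 z) T2a_w2) := by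
    refine T2a_filt _ _ _ _ ?_ (T2a_mul2 T)
    have hx : x ∈ T2a_F (F := F) (T2a_B x y q1 q2 z) T2a_w2 2 := T2a_mem _ _ 0 (by decide)
    have hy : y ∈ T2a_F (F := F) (T2a_B x y q1 q2 z) T2a_w2 2 := T2a_mem _ _ 7 (by decide)
    intro i
    fin_cases i
    · change L 0 ∈ T2a_F _ _ 2
      rw [hL0]
      exact add_mem hy (Submodule.smul_mem _ _ hx)
    · change L 1 ∈ T2a_F _ _ 2
      rw [hL1]
      exact sub_mem hy (Submodule.smul_mem _ _ hx)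
    · change L 2 ∈ T2a_F _ _ 5
      rw [hL2]
      exact T2a_mem _ _ 10 (by decide)
  -- products of the letters
  have hxy : x * y = 0 := T.y1
  have hyx : y * x = 0 := by rw [mul_comm]; exact hxy
  have hxx : x * x = xp x 2 := rfl
  obtain ⟨R, hR⟩ : ∃ R : J, R = c4 • xp x 4 + c5 • xp x 5 + c6 • xp x 6 + c7 • xp x 7 + μ • q1 +
    ν • q2 := ⟨_, rfl⟩
  have hκ' : κ * κ = - c2 := by rw [← hκ]; ring
  have hk2x : (κ * κ) • xp x 2 = (-c2) • xp x 2 := by rw [hκ']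
  have e00 : L 0 * L 0 = R := by
    rw [hL0]
    simp only [mul_add, add_mul, mul_smul_comm, smul_mul_assoc, hxy, hyx, smul_zero,
      hxx, T.yy, hR]
    linear_combination (norm := module) hk2x
  have e11 : L 1 * L 1 = R := by
    rw [hL1]
    simp only [mul_sub, sub_mul, mul_smul_comm, smul_mul_assoc, hxy, hyx, smul_zero,
      hxx, T.yy, hR]
    linear_combination (norm := module) hk2x
  have e01 : L 0 * L 1 = R + (2 * c2) • xp x 2 := by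
    rw [hL0, hL1]
    simp only [mul_sub, add_mul, mul_smul_comm, smul_mul_assoc, hxy, hyx, smul_zero,
      hxx, T.yy, hR]
    linear_combination (norm := module) - hk2x
  have hR3 : R ∈ jpow F J 3 := by
    have hX : ∀ n, 3 ≤ n → xp x n ∈ jpow F J 3 := fun n hn => jpow_anti hn (xp_mem x n)
    have hq1 : q1 ∈ jpow F J 3 := by
      have e1 : q1 = (x * x) * y - f1 • xp x 7 := by
        rw [hxx, T.y2]; abel
      rw [e1]
      exact sub_mem (bmul_mem (k := 1) (by norm_num) x (mem_one y))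
        (Submodule.smul_mem _ _ (hX 7 (by norm_num)))
    have hq2 : q2 ∈ jpow F J 3 := by
      have e1 : q2 = (x * x) * q1 - f2 • xp x 7 := by
        rw [hxx, T.p2]; abel
      rw [e1]
      exact sub_mem (bmul_mem (k := 1) (by norm_num) x (mem_one q1))
        (Submodule.smul_mem _ _ (hX 7 (by norm_num)))
    rw [hR]
    exact add_mem (add_mem (add_mem (add_mem (add_mem (Submodule.smul_mem _ _ (hX 4 (by norm_num)))
      (Submodule.smul_mem _ _ (hX 5 (by norm_num)))) (Submodule.smul_mem _ _ (hX 6 (by norm_num))))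
      (Submodule.smul_mem _ _ (hX 7 (by norm_num)))) (Submodule.smul_mem _ _ hq1))
      (Submodule.smul_mem _ _ hq2)
  have hRΦ : R ∈ T2a_F (F := F) (T2a_B x y q1 q2 z) T2a_w2 5 := by
    have m := fun (k : Fin 11) (h : 5 ≤ T2a_w2 k) =>
      T2a_mem (F := F) (T2a_B x y q1 q2 z) T2a_w2 k h
    rw [hR]
    exact add_mem (add_mem (add_mem (add_mem (add_mem (Submodule.smul_mem _ _ (m 3 (by decide)))
      (Submodule.smul_mem _ _ (m 4 (by decide)))) (Submodule.smul_mem _ _ (m 5 (by decide))))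
      (Submodule.smul_mem _ _ (m 6 (by decide)))) (Submodule.smul_mem _ _ (m 8 (by decide))))
      (Submodule.smul_mem _ _ (m 9 (by decide)))
  refine finish ![2, 2, 5] h hS hSspan hΦ (N := 14) (m := 2) (by decide)
    (Fam_eq_bot (by decide)) ?_
  intro E _ _ P t ht1 ht2 hr
  have ht3 : t = 2 ∨ t = 3 ∨ t = 4 ∨ t = 5 := by
    have : t + 9 ≤ 14 := ht2
    omega
  have hs : ∀ i j k : Fin 3, t < (![2, 2, 5] : Fin 3 → ℕ) i + (![2, 2, 5] : Fin 3 → ℕ) j +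
      (![2, 2, 5] : Fin 3 → ℕ) k := by
    have h6 : ∀ i j k : Fin 3, 6 ≤ (![2, 2, 5] : Fin 3 → ℕ) i + (![2, 2, 5] : Fin 3 → ℕ) j +
      (![2, 2, 5] : Fin 3 → ℕ) k := by decide
    intro i j k
    have := h6 i j k
    omega
  have hsq : ∀ i, L i * L i ∈ jpow F J 3 → P.X i * P.X i + P.X i * P.X i ∈ P.ge ![2, 2, 5] 5 := by
    intro i hi
    have := sq_mem P ![2, 2, 5] h.two hS h.ne hSspan hΦ (m := 2) (n := 3) (by decide)
      (by norm_num) (Fam_eq_bot (by decide)) hi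
    exact P.ge_anti _ (by norm_num) (add_mem this this)
  refine step2 P ![2, 2, 5] h.two hS hΦ (by omega) hs ?_ hr
  intro k1 k2 hk
  rcases ht3 with rfl | rfl | rfl | rfl
  · have hk' : ∑ k, (![κ * (k1 0 - k1 1), 0, 0, 0, 0, 0, 0, k1 0 + k1 1, 0, 0, 0] : Fin 11 → F) k •
        T2a_B x y q1 q2 z k ∈ T2a_F (F := F) (T2a_B x y q1 q2 z) T2a_w2 3 := by
      simp [Fin.sum_univ_succ, T2a_B] at hk ⊢
      rw [hL0, hL1] at hk
      refine (congrArg (· ∈ T2a_F (F := F) (T2a_B x y q1 q2 z) T2a_w2 3) ?_).mp hk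
      module
    have h0 : κ * (k1 0 - k1 1) = 0 := T2a_coord hB _ hk' 0 (by decide)
    have h1 : k1 0 + k1 1 = 0 := T2a_coord hB _ hk' 7 (by decide)
    have h2 : k1 0 - k1 1 = 0 := (mul_eq_zero.mp h0).resolve_left hκ0
    have h3 : k1 0 = 0 := by
      have : 2 * k1 0 = 0 := by linear_combination h1 + h2
      exact (mul_eq_zero.mp this).resolve_left h22
    have h4 : k1 1 = 0 := by linear_combination h1 - h3
    refine ⟨fun i hi => ?_, fun i j hij hw => ?_⟩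
    · fin_cases i
      · exact h3
      · exact h4
      · exact absurd hi (by decide)
    · exact absurd hw (by revert i j; decide)
  · refine ⟨fun i hi => ?_, fun i j hij hw => ?_⟩
    · exact absurd hi (by revert i; decide)
    · exact absurd hw (by revert i j; decide)
  · have hk2 : k2 0 0 • (L 0 * L 0) + k2 0 1 • (L 0 * L 1) + k2 1 1 • (L 1 * L 1) ∈
        T2a_F (F := F) (T2a_B x y q1 q2 z) T2a_w2 5 := by
      simp [Fin.sum_univ_succ] at hk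
      refine (congrArg (· ∈ T2a_F (F := F) (T2a_B x y q1 q2 z) T2a_w2 5) ?_).mp hk
      module
    have hk3 : (k2 0 1 * (2 * c2)) • xp x 2 ∈ T2a_F (F := F) (T2a_B x y q1 q2 z) T2a_w2 5 := by
      rw [e00, e01, e11] at hk2
      have := sub_mem hk2 (Submodule.smul_mem _ (k2 0 0 + k2 0 1 + k2 1 1) hRΦ)
      refine (congrArg (· ∈ T2a_F (F := F) (T2a_B x y q1 q2 z) T2a_w2 5) ?_).mp this
      module
    have hk' : ∑ k, (![0, k2 0 1 * (2 * c2), 0, 0, 0, 0, 0, 0, 0, 0, 0] : Fin 11 → F) k •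
        T2a_B x y q1 q2 z k ∈ T2a_F (F := F) (T2a_B x y q1 q2 z) T2a_w2 5 := by
      simpa [Fin.sum_univ_succ, T2a_B] using hk3
    have h0 : k2 0 1 * (2 * c2) = 0 := T2a_coord hB _ hk' 1 (by decide)
    have h1 : k2 0 1 = 0 := (mul_eq_zero.mp h0).resolve_right (mul_ne_zero h22 hc2)
    refine ⟨fun i hi => ?_, fun i j hij hw => ?_⟩
    · exact absurd hi (by revert i; decide)
    · fin_cases i <;> fin_cases j
      · exact Or.inr (hsq 0 (by rw [e00]; exact hR3))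
      · exact Or.inl h1
      · exact absurd hw (by decide)
      · exact absurd hij (by decide)
      · exact Or.inr (hsq 1 (by rw [e11]; exact hR3))
      · exact absurd hw (by decide)
      · exact absurd hw (by decide)
      · exact absurd hw (by decide)
      · exact absurd hw (by decide)
  · have hk' : ∑ k, (![0, 0, 0, 0, 0, 0, 0, 0, 0, 0, k1 2] : Fin 11 → F) k •
        T2a_B x y q1 q2 z k ∈ T2a_F (F := F) (T2a_B x y q1 q2 z) T2a_w2 6 := by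
      simpa [Fin.sum_univ_succ, T2a_B, hL2] using hk
    have h0 : k1 2 = 0 := T2a_coord hB _ hk' 10 (by decide)
    refine ⟨fun i hi => ?_, fun i j hij hw => ?_⟩
    · fin_cases i
      · exact absurd hi (by decide)
      · exact absurd hi (by decide)
      · exact h0
    · exact absurd hw (by revert i j; decide)

theorem t2a [IsAlgClosed F] {e : J} (h : Crit F J 7 e) {x y q1 q2 z : J} {α f1 f2 f3 f4 : F}
    (hxy : x * y = 0) (hxq1 : x * q1 = 0) (hxq2 : x * q2 = 0) (hxz : x * z = α • q2)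
    (hby : (x * x) * y = q1 + f1 • xp x 7) (hbq1 : (x * x) * q1 = q2 + f2 • xp x 7)
    (hbq2 : (x * x) * q2 = f3 • xp x 7) (hbz : (x * x) * z = f4 • xp x 7 + (α * f3) • xp x 6)
    (hind : ∀ c : Fin 11 → F,
      c 0 • x + c 1 • xp x 2 + c 2 • xp x 3 + c 3 • xp x 4 + c 4 • xp x 5 + c 5 • xp x 6
        + c 6 • xp x 7 + c 7 • y + c 8 • q1 + c 9 • q2 + c 10 • z = 0 → ∀ i, c i = 0)
    (hJ2 : ∀ p ∈ jpow F J 2, ∃ c2 c3 c4 c5 c6 c7 μ ν : F,
      p = c2 • xp x 2 + c3 • xp x 3 + c4 • xp x 4 + c5 • xp x 5 + c6 • xp x 6 + c7 • xp x 7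
        + μ • q1 + ν • q2)
    (hspan : Submodule.span F (Set.range ![x, y, z]) ⊔ jpow F J 2 = ⊤) : False := by
  obtain ⟨c2, c4, c5, c6, c7, μ, ν, d5, d6, d7, ρ, s, e5, e6, e7, σ, T⟩ :=
    T2a_tab h.two h.jordan h.bot hxy hxq1 hxq2 hxz hby hbq1 hbq2 hbz hind hJ2
  have hB : ∀ c : Fin 11 → F, ∑ k, c k • T2a_B x y q1 q2 z k = 0 → ∀ k, c k = 0 := by
    intro c hc
    refine hind c ?_
    rw [← hc]
    simp only [Fin.sum_univ_succ, T2a_B]
    simp [add_assoc]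
  by_cases hc2 : c2 = 0
  · exact T2a_case1 h T hc2 hB hspan
  · exact T2a_case2 h T hc2 hB hspan


end L2
end JD
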