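import Pool.Agent.H78.L2.NonA
import Pool.Agent.H78.L2.T2a

set_option autoImplicit false
set_option linter.unusedSectionVars false
set_option linter.unusedVariables false

/-!
# JD L2: the case `b b M ⊄ C`, conclusion from `t2a`

`h : Spl F x 7 φ M`, `y ∈ M`, `x y = 0`, `b b y ∉ C`. `J⁷ = F x⁷ ⊆ C = Cg F x 1` (`J⁷ = F e`, `xp x 7 ∈ J⁷` is nonzero since `φ (xp x 7) = 1`).
`nonA` gives `q1, q2, z0`. (`π v = v - cp v ∈ M`, `C ∩ M = 0`: `Spl.inter`.)
* `x q1 ∈ M` (`Spl.M_mul`), `q1 = b y - c1`, `c1 ∈ C_{≥3}`, `x q1 = b (x y) - x c1 = - x c1 ∈ C`, so `x q1 = 0`. `q2 = b q1 - c2`: `x q2 = b (x q1) - x c2 ∈ C ∩ M = 0`.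
* `b y = q1 + f1 x⁷`: `c1 = b y - q1 ∈ C` has `kap i c1 = kap i (b y) - kap i q1 = kap i (b y) = 0` for `i ≥ 1` (`kap (j+1) (b y) = kap j (b (x y)) = 0`: `kap_succ`, `comm1`),
  so `c1 ∈ C_{≥ 7} = F x⁷` (`Spl.Cg_of_kap` with `k = 1`, `Spl.Cg_c`). The same for `b q1 = q2 + f2 x⁷`. `b q2 ∈ J⁷ ⊆ F x⁷`: `b q2 = f3 x⁷`.
* `z`: `b z0 - cp (b z0) ∈ M ∩ J²` (`b z0 ∈ J³`, `cp (b z0) ∈ C_{≥3}`), `= r q1 + s q2`. `z = z0 - r y - s q1`: `b z ∈ C` (`b z = r q1 + s q2 + C - r (q1 + f1 x⁷) - s (q2 + f2 x⁷)`).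
* `x z ∈ M ∩ J²`, `x z = a q1 + α q2`. `b (x z) = x (b z) ∈ C`, and `b (x z) = a (q2 + f2 x⁷) + α f3 x⁷`, so `a q2 ∈ C ∩ M = 0`; `q2 ≠ 0` so `a = 0`: `x z = α q2`.
* `b z ∈ C`: `kap i (b z) = 0` for `i ≥ 2` (`x (x z) = α x q2 = 0`), `kap 1 (b z) = kap 0 (b (x z)) = α φ (b q2) = α f3`, so `b z = φ (b z) x⁷ + α f3 x⁶`
  (`v = cp v` for `v ∈ C`: `Spl.cp_of_Cg`, `cp_apply`).
* `hind`: apply `cp` and `kap`: `c 0 = … = c 6 = 0` (`Spl.cp_of_M`, or `kap i` of the relation directly: `kap i` vanishes on `M`, `Spl.kap_xp'`), then the last statement of `nonA`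
  (with `z0 = z + r y + s q1`).
* `hJ2`: `p ∈ J²`: `cp p` is a combination of `x², …, x⁷` (`cp_apply`; `kap 6 p = 0` by `Spl.kap_zero_of_mem`), `p - cp p ∈ M ∩ J²`.
* `hspan`: `J = C + M`, `x^i ∈ J²` for `i ≥ 2`, `M = <y, z, q1, q2>`, `q1, q2 ∈ J²`.
Then `t2a`.
-/

namespace JD
namespace L2

universe u

variable {F : Type u} [Field F] {J : Type u} [NonUnitalNonAssocCommRing J] [Module F J]
  [IsScalarTower F J J] [SMulCommClass F J J]

theorem jpow_top_le {c : ℕ} {e : J} (hcr : Crit F J c e) {x : J} (hx : xp x c ≠ 0) (hc : 1 ≤ c) :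
    jpow F J c ≤ Cg F x 1 := by
  rw [hcr.top, Submodule.span_singleton_le_iff_mem]
  have h1 := xp_mem (F := F) x c
  rw [hcr.top] at h1
  obtain ⟨r, hr⟩ := Submodule.mem_span_singleton.mp h1
  have hr0 : r ≠ 0 := by
    rintro rfl
    rw [zero_smul] at hr
    exact hx hr.symm
  have : e = r⁻¹ • xp x c := by
    rw [← hr, smul_smul, inv_mul_cancel₀ hr0, one_smul]
  rw [this]
  exact Submodule.smul_mem _ _ (xp_mem_Cg x hc)

theorem nonC [IsAlgClosed F] {e : J} (hcr : Crit F J 7 e) (hn : ngen F J = 3) {x : J}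
    {φ : J →ₗ[F] F} {M : Submodule F J} (h : Spl F x 7 φ M) {y : J} (hy : y ∈ M)
    (hxy : x * y = 0) (hyy : (x * x) * ((x * x) * y) ∉ Cg F x 1) : False := by
  have hx7 : xp x 7 ≠ 0 := by
    intro h0
    have := h.top
    rw [h0, map_zero] at this
    exact zero_ne_one this
  have hJc := jpow_top_le hcr hx7 (by omega)
  have hJ7 : ∀ v ∈ jpow F J 7, v = φ v • xp x 7 := by
    intro v hv
    refine h.Cg_c (h.Cg_of_kap (k := 1) (hJc hv) (by omega) ?_)
    intro i hi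
    exact h.kap_zero_of_mem (n := 7) (by omega) hv
  obtain ⟨_, q1, q2, z0, hq1, hq2, hz0, hq13, hq25, hc1, hc2, hQ, hM, hindM⟩ :=
    nonA h hcr.fin hcr.dim hn hJc hy hyy
  have hkM : ∀ i, ∀ m ∈ M, kap F x φ i m = 0 := fun i m hm => (h.mem m).mp hm i
  -- `x q1 = 0`
  have hC1 : (x * x) * y - q1 ∈ Cg F x 1 := Cg_anti x (by omega) hc1
  have hC2 : (x * x) * q1 - q2 ∈ Cg F x 1 := Cg_anti x (by omega) hc2
  have hxq1 : x * q1 = 0 := by
    refine h.inter ?_ (h.M_mul hq1)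
    have e1 : x * q1 = -(x * ((x * x) * y - q1)) := by
      rw [mul_sub, ← comm1 F h.two h.jordan, hxy, mul_zero, zero_sub, neg_neg]
    rw [e1]
    exact neg_mem (h.x_Cg le_rfl (by omega) hC1)
  have hxq2 : x * q2 = 0 := by
    refine h.inter ?_ (h.M_mul hq2)
    have e1 : x * q2 = -(x * ((x * x) * q1 - q2)) := by
      rw [mul_sub, ← comm1 F h.two h.jordan, hxq1, mul_zero, zero_sub, neg_neg]
    rw [e1]
    exact neg_mem (h.x_Cg le_rfl (by omega) hC2)
  have hkb : ∀ i v, x * v = 0 → 1 ≤ i → kap F x φ i ((x * x) * v) = 0 := by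
    intro i v hv hi
    obtain ⟨j, rfl⟩ : ∃ j, i = j + 1 := ⟨i - 1, by omega⟩
    rw [kap_succ, ← comm1 F h.two h.jordan, hv, mul_zero, map_zero]
  have hby : (x * x) * y = q1 + φ ((x * x) * y - q1) • xp x 7 := by
    have := h.Cg_c (h.Cg_of_kap (k := 1) hC1 (by omega) (fun i hi => by
      rw [map_sub, hkb i y hxy hi, hkM i q1 hq1, sub_zero]))
    rw [← this]
    abel
  have hbq1 : (x * x) * q1 = q2 + φ ((x * x) * q1 - q2) • xp x 7 := by
    have := h.Cg_c (h.Cg_of_kap (k := 1) hC2 (by omega) (fun i hi => by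
      rw [map_sub, hkb i q1 hxq1 hi, hkM i q2 hq2, sub_zero]))
    rw [← this]
    abel
  have hbq2 : (x * x) * q2 = φ ((x * x) * q2) • xp x 7 :=
    hJ7 _ (bmul_mem (by omega) x hq25)
  set f1 := φ ((x * x) * y - q1) with hf1
  set f2 := φ ((x * x) * q1 - q2) with hf2
  set f3 := φ ((x * x) * q2) with hf3
  have h7C : xp x 7 ∈ Cg F x 1 := xp_mem_Cg x (by omega)
  -- the element `z`
  have hbz0 : (x * x) * z0 ∈ jpow F J 3 := bmul_mem (by omega) x (mem_one z0)
  have hcp3 : cp F x 7 φ ((x * x) * z0) ∈ Cg F x 3 :=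
    cp_mem_of (k := 5) (by omega) fun i hi => h.kap_zero_of_mem (n := 3) (by omega) hbz0
  obtain ⟨r, s, hrs⟩ := hQ _ (h.pi_mem ((x * x) * z0)) (sub_mem (jpow_anti (by omega) hbz0)
    (jpow_anti (by omega) (Cg_le_jpow x _ hcp3)))
  obtain ⟨z, hzdef⟩ : ∃ z, z = z0 - r • y - s • q1 := ⟨_, rfl⟩
  have hz : z ∈ M := by
    rw [hzdef]
    exact sub_mem (sub_mem hz0 (Submodule.smul_mem _ _ hy)) (Submodule.smul_mem _ _ hq1)
  have hz0' : z0 = z + r • y + s • q1 := by rw [hzdef]; abel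
  have hbzC : (x * x) * z ∈ Cg F x 1 := by
    have e1 : (x * x) * z = cp F x 7 φ ((x * x) * z0) - (r * f1) • xp x 7 -
        (s * f2) • xp x 7 := by
      rw [hzdef, mul_sub, mul_sub, mul_smul_comm, mul_smul_comm, hby, hbq1]
      obtain ⟨w0, hw0⟩ : ∃ w0, w0 = cp F x 7 φ ((x * x) * z0) := ⟨_, rfl⟩
      rw [← hw0] at hrs ⊢
      rw [sub_eq_iff_eq_add] at hrs
      rw [hrs]
      module
    rw [e1]
    exact sub_mem (sub_mem (cp_mem _ _ _ _) (Submodule.smul_mem _ _ h7C))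
      (Submodule.smul_mem _ _ h7C)
  obtain ⟨a, α, hxz⟩ := hQ (x * z) (h.M_mul hz) (mul_mem_two x z)
  have ha : a = 0 := by
    have e1 : a • q2 = x * ((x * x) * z) - (a * f2) • xp x 7 - (α * f3) • xp x 7 := by
      rw [← comm1 F h.two h.jordan, hxz, mul_add, mul_smul_comm, mul_smul_comm, hbq1, hbq2]
      module
    have e3 : a • q2 = 0 := by
      refine h.inter ?_ (Submodule.smul_mem _ _ hq2)
      rw [e1]
      exact sub_mem (sub_mem (h.x_Cg le_rfl (by omega) hbzC) (Submodule.smul_mem _ _ h7C))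
        (Submodule.smul_mem _ _ h7C)
    have := (hindM 0 0 0 a (by rw [e3]; simp)).2.2.2
    exact this
  rw [ha, zero_smul, zero_add] at hxz
  have hbz : (x * x) * z = φ ((x * x) * z) • xp x 7 + (α * f3) • xp x 6 := by
    have h0 : ∀ i, 2 ≤ i → kap F x φ i ((x * x) * z) = 0 := by
      intro i hi
      obtain ⟨j, rfl⟩ : ∃ j, i = j + 1 + 1 := ⟨i - 2, by omega⟩
      rw [kap_succ, kap_succ, ← comm1 F h.two h.jordan, ← comm1 F h.two h.jordan, hxz,
        mul_smul_comm, hxq2, smul_zero, mul_zero, map_zero]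
    have h1 : kap F x φ 1 ((x * x) * z) = α * f3 := by
      rw [kap_succ, kap_zero, ← comm1 F h.two h.jordan, hxz, mul_smul_comm, map_smul,
        smul_eq_mul]
    have e := h.cp_of_Cg hbzC
    rw [cp_apply, ← Finset.sum_subset (Finset.range_subset_range.mpr (show 2 ≤ 7 by omega))
      (fun i _ hi => by
        rw [Finset.mem_range, not_lt] at hi
        rw [h0 i hi, zero_smul]),
      Finset.sum_range_succ, Finset.sum_range_one, h1, kap_zero] at e
    exact e.symm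
  refine t2a hcr hxy hxq1 hxq2 hxz hby hbq1 hbq2 hbz ?_ ?_ ?_
  · -- independence
    intro c hc
    have hk := fun k : ℕ => congrArg (kap F x φ k) hc
    have hkx : ∀ k j, 1 ≤ j → kap F x φ k (xp x j) = if k + j = 7 then 1 else 0 :=
      fun k j hj => h.kap_xp' k j hj
    have hkx1 : ∀ k, kap F x φ k x = if k + 1 = 7 then 1 else 0 := fun k => hkx k 1 le_rfl
    simp only [map_add, map_smul, hkM _ y hy, hkM _ q1 hq1, hkM _ q2 hq2, hkM _ z hz,
      smul_zero, add_zero, map_zero, smul_eq_mul, hkx1, hkx _ 2 (by omega), hkx _ 3 (by omega),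
      hkx _ 4 (by omega), hkx _ 5 (by omega), hkx _ 6 (by omega), hkx _ 7 (by omega)] at hk
    have c0 : c 0 = 0 := by simpa using hk 6
    have c1 : c 1 = 0 := by simpa using hk 5
    have c2 : c 2 = 0 := by simpa using hk 4
    have c3 : c 3 = 0 := by simpa using hk 3
    have c4 : c 4 = 0 := by simpa using hk 2
    have c5 : c 5 = 0 := by simpa using hk 1
    have c6 : c 6 = 0 := by simpa using hk 0
    rw [c0, c1, c2, c3, c4, c5, c6, hzdef] at hc
    obtain ⟨d1, d2, d3, d4⟩ := hindM (c 7 - c 10 * r) (c 10) (c 8 - c 10 * s) (c 9) (by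
      rw [← hc]
      module)
    rw [d2, zero_mul, sub_zero] at d1 d3
    intro i
    fin_cases i
    · exact c0
    · exact c1
    · exact c2
    · exact c3
    · exact c4
    · exact c5
    · exact c6
    · exact d1
    · exact d3
    · exact d4
    · exact d2
  · intro p hp
    have hcp2 : cp F x 7 φ p ∈ Cg F x 2 :=
      cp_mem_of (k := 6) (by omega) fun i hi => h.kap_zero_of_mem (n := 2) (by omega) hp
    obtain ⟨r', s', hrs'⟩ := hQ _ (h.pi_mem p) (sub_mem hp (Cg_le_jpow x _ hcp2))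
    have h6 : kap F x φ 6 p = 0 := h.kap_zero_of_mem (n := 2) (by omega) hp
    refine ⟨kap F x φ 5 p, kap F x φ 4 p, kap F x φ 3 p, kap F x φ 2 p, kap F x φ 1 p,
      kap F x φ 0 p, r', s', ?_⟩
    have ecp : cp F x 7 φ p = kap F x φ 0 p • xp x 7 + kap F x φ 1 p • xp x 6 +
        kap F x φ 2 p • xp x 5 + kap F x φ 3 p • xp x 4 + kap F x φ 4 p • xp x 3 +
        kap F x φ 5 p • xp x 2 := by
      rw [cp_apply]
      simp only [Finset.sum_range_succ, Finset.sum_range_zero, h6, zero_smul, add_zero,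
        zero_add, Nat.sub_zero, Nat.reduceSub]
    have ep : p = (r' • q1 + s' • q2) + cp F x 7 φ p := by rw [← hrs']; abel
    conv_lhs => rw [ep, ecp]
    abel
  · rw [eq_top_iff]
    intro v _
    obtain ⟨m, hm, ev⟩ := h.exists_dec v
    obtain ⟨a', b', r', s', em⟩ := hM m hm
    have hsx : x ∈ Submodule.span F (Set.range ![x, y, z]) ⊔ jpow F J 2 :=
      Submodule.mem_sup_left (Submodule.subset_span ⟨0, rfl⟩)
    have hsy : y ∈ Submodule.span F (Set.range ![x, y, z]) ⊔ jpow F J 2 :=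
      Submodule.mem_sup_left (Submodule.subset_span ⟨1, rfl⟩)
    have hsz : z ∈ Submodule.span F (Set.range ![x, y, z]) ⊔ jpow F J 2 :=
      Submodule.mem_sup_left (Submodule.subset_span ⟨2, rfl⟩)
    have hsq1 : q1 ∈ Submodule.span F (Set.range ![x, y, z]) ⊔ jpow F J 2 :=
      Submodule.mem_sup_right (jpow_anti (by omega) hq13)
    have hsq2 : q2 ∈ Submodule.span F (Set.range ![x, y, z]) ⊔ jpow F J 2 :=
      Submodule.mem_sup_right (jpow_anti (by omega) hq25)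
    have hC : Cg F x 1 ≤ Submodule.span F (Set.range ![x, y, z]) ⊔ jpow F J 2 := by
      refine Cg_le x fun i hi => ?_
      rcases (by omega : i = 1 ∨ 2 ≤ i) with rfl | h2
      · exact hsx
      · exact Submodule.mem_sup_right (jpow_anti h2 (xp_mem x i))
    rw [ev, em, hz0']
    refine add_mem (hC (cp_mem _ _ _ _)) (add_mem (add_mem (add_mem ?_ ?_) ?_) ?_)
    · exact Submodule.smul_mem _ _ hsy
    · exact Submodule.smul_mem _ _ (add_mem (add_mem hsz (Submodule.smul_mem _ _ hsy))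
        (Submodule.smul_mem _ _ hsq1))
    · exact Submodule.smul_mem _ _ hsq1
    · exact Submodule.smul_mem _ _ hsq2

end L2
end JD
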