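import Pool.Agent.H78.L2.Fin

set_option autoImplicit false
set_option linter.unusedSectionVars false
set_option linter.unusedVariables false

/-!
# JD L2, class 6, rank 1

`b = L_(x x)`, `β(v,w) = χ (v w)`, `K0 = {v | β(v, ·) = 0} ⊇ J²`, `K1 = b K0 + J⁴`, `K2 = b b K0 + J⁶`; `J⁷ = 0`.
Filtration `Fam G w` (`G`, `w` over `Fin 9`), a descending chain:
`(⊤,2), (K0,3), (J²,4), (J³,6), (K1,7), (J⁴,8), (J⁵,10), (K2,11), (J⁶,12)`.
Products (`Chi.mul_b`, `mul_bb`, `b_mul_b`, `x4_mul`, `Lay.exists_b`, `Lay.mem_even`; `J³ = b J`, `J⁵ = b J³ = b b J`):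
* `⊤ ⊤ ⊆ J²` (4); `⊤ K0 ⊆ J³` (`Chi.mem_iff`), `K0 K0 ⊆ J³` (6); `⊤ J² ⊆ J³`;
* `K0 J² ⊆ K1` (7): `J² = F x x + J³`, `k (x x) = b k`, `k J³ ⊆ J⁴`; `J² J² ⊆ J⁴` (8); `⊤ J³ ⊆ J⁴`;
* `K0 J³ ⊆ J⁵` (9): `k (b v) ≡ β(k,v) x⁴ = 0 mod J⁵`; `J² J³ ⊆ J⁵` (10); `J³ J³ ⊆ J⁶` (12);
* `⊤ K1, K0 K1 ⊆ J⁵` (9, 10): `v (b k) ≡ β(v,k) x⁴ = 0`, `v J⁴ ⊆ J⁵`; `J² K1 ⊆ K2` (11): `(x x) (b k) = b b k`,
  `J³ (b k) ⊆ J⁶`, `J² J⁴ ⊆ J⁶`; `J³ K1 = 0` (13): `(b v)(b k) = β(v,k) x⁶ = 0`, `J³ J⁴ ⊆ J⁷ = 0`; `K1 K1 = 0`;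
* `⊤ J⁴ ⊆ J⁵` (10); `K0 J⁴ ⊆ K2` (11): `J⁴ = F x⁴ + J⁵`, `x⁴ k ≡ b b k mod J⁶`, `k J⁵ ⊆ J⁶`; `J² J⁴ ⊆ J⁶` (12);
* `⊤ J⁵ ⊆ J⁶` (12); `K0 J⁵ = 0` (13): `k (b b v) = β(k,v) x⁶ = 0`; `⊤ K2 = 0` (13): `v (b b k) = β(v,k) x⁶ = 0`;
  everything of higher degree is in `J⁷ = 0`.
Letters `x, y, z` with weights `2, 3, 3`; `N = 12`, sum of the weights 8, so steps `s = 2, 3, 4` (`finish` with `m = 2`, `step2`):
* `s = 2`: `r • x ∈ Φ 3 = K0` implies `r = 0` (`χ (x x) = 1`);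
* `s = 3`: `r • y + t • z ∈ Φ 4 = J²` implies `r = t = 0` (`hind`);
* `s = 4`: `r • (x x) ∈ Φ 5 = J³` implies `r = 0`.
`S`: `exists_SSys7` (`J⁷ = 0`).
-/

namespace JD
namespace L2

universe u

variable {F : Type u} [Field F] {J : Type u} [NonUnitalNonAssocCommRing J] [Module F J]
  [IsScalarTower F J J] [SMulCommClass F J J]

/-- the radical of `β` -/
def Six1_K0 (χ : J →ₗ[F] F) : Submodule F J where
  carrier := {v | ∀ u, χ (v * u) = 0}
  add_mem' := by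
    intro a b ha hb u
    rw [add_mul, map_add, ha u, hb u, add_zero]
  zero_mem' := by
    intro u
    rw [zero_mul, map_zero]
  smul_mem' := by
    intro r a ha u
    rw [smul_mul_assoc, map_smul, ha u, smul_zero]

/-- `K1 = b K0 + J⁴` -/
noncomputable def Six1_K1 (x : J) (χ : J →ₗ[F] F) : Submodule F J :=
  (Six1_K0 χ).map (LinearMap.mulLeft F (x * x)) ⊔ jpow F J 4

/-- `K2 = b b K0 + J⁶` -/
noncomputable def Six1_K2 (x : J) (χ : J →ₗ[F] F) : Submodule F J :=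
  (Six1_K0 χ).map ((LinearMap.mulLeft F (x * x)) ∘ₗ (LinearMap.mulLeft F (x * x))) ⊔ jpow F J 6

/-- the chain -/
noncomputable def Six1_G (x : J) (χ : J →ₗ[F] F) : Fin 9 → Submodule F J :=
  ![⊤, Six1_K0 χ, jpow F J 2, jpow F J 3, Six1_K1 x χ, jpow F J 4, jpow F J 5, Six1_K2 x χ,
    jpow F J 6]

/-- the weights -/
def Six1_w : Fin 9 → ℕ := ![2, 3, 4, 6, 7, 8, 10, 11, 12]

/-- the levels -/
def Six1_lev : Fin 9 → ℕ := ![1, 1, 2, 3, 3, 4, 5, 5, 6]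

section
variable {x : J} {χ : J →ₗ[F] F} (h : Chi F x χ)
include h

theorem Six1_J2_le_K0 : jpow F J 2 ≤ Six1_K0 (F := F) χ := by
  intro p hp u
  exact h.zero _ (mul_mem_j (i := 2) (j := 1) rfl hp (mem_one u))

theorem Six1_K1_elim {p : J} (hp : p ∈ Six1_K1 (F := F) x χ) :
    ∃ k ∈ Six1_K0 (F := F) χ, ∃ q ∈ jpow F J 4, p = (x * x) * k + q := by
  obtain ⟨y, ⟨k, hk, rfl⟩, q, hq, rfl⟩ := Submodule.mem_sup.mp hp
  exact ⟨k, hk, q, hq, rfl⟩

theorem Six1_K2_elim {p : J} (hp : p ∈ Six1_K2 (F := F) x χ) :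
    ∃ k ∈ Six1_K0 (F := F) χ, ∃ q ∈ jpow F J 6, p = (x * x) * ((x * x) * k) + q := by
  obtain ⟨y, ⟨k, hk, rfl⟩, q, hq, rfl⟩ := Submodule.mem_sup.mp hp
  exact ⟨k, hk, q, hq, rfl⟩

theorem Six1_K1_intro {k q : J} (hk : k ∈ Six1_K0 (F := F) χ) (hq : q ∈ jpow F J 4) :
    (x * x) * k + q ∈ Six1_K1 (F := F) x χ :=
  Submodule.add_mem_sup ⟨k, hk, rfl⟩ hq

theorem Six1_K2_intro {k q : J} (hk : k ∈ Six1_K0 (F := F) χ) (hq : q ∈ jpow F J 6) :
    (x * x) * ((x * x) * k) + q ∈ Six1_K2 (F := F) x χ :=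
  Submodule.add_mem_sup ⟨k, hk, rfl⟩ hq

theorem Six1_J4_le_K1 : jpow F J 4 ≤ Six1_K1 (F := F) x χ := le_sup_right

theorem Six1_J6_le_K2 : jpow F J 6 ≤ Six1_K2 (F := F) x χ := le_sup_right

theorem Six1_K1_le : Six1_K1 (F := F) x χ ≤ jpow F J 3 := by
  intro p hp
  obtain ⟨k, hk, q, hq, rfl⟩ := Six1_K1_elim h hp
  exact add_mem (bmul_mem (k := 1) rfl x (mem_one k)) (jpow_anti (by omega) hq)

theorem Six1_K2_le : Six1_K2 (F := F) x χ ≤ jpow F J 5 := by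
  intro p hp
  obtain ⟨k, hk, q, hq, rfl⟩ := Six1_K2_elim h hp
  exact add_mem (bmul_mem (k := 3) rfl x (bmul_mem (k := 1) rfl x (mem_one k)))
    (jpow_anti (by omega) hq)

/-- `⊤ K0 ⊆ J³` -/
theorem Six1_A (v : J) {k : J} (hk : k ∈ Six1_K0 (F := F) χ) : v * k ∈ jpow F J 3 := by
  rw [h.mem_iff (mul_mem_two v k), mul_comm]
  exact hk v

/-- `K0 J² ⊆ K1` -/
theorem Six1_B {k p : J} (hk : k ∈ Six1_K0 (F := F) χ) (hp : p ∈ jpow F J 2) :
    k * p ∈ Six1_K1 (F := F) x χ := by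
  obtain ⟨r, q, hq, rfl⟩ := h.mem_two hp
  have e : k * (r • (x * x) + q) = (x * x) * (r • k) + k * q := by
    rw [mul_add, mul_smul_comm, mul_smul_comm, mul_comm k (x * x)]
  rw [e]
  exact Six1_K1_intro h (Submodule.smul_mem _ _ hk) (lmul_mem (j := 3) rfl k hq)

/-- `K0 J³ ⊆ J⁵` -/
theorem Six1_C {k p : J} (hk : k ∈ Six1_K0 (F := F) χ) (hp : p ∈ jpow F J 3) :
    k * p ∈ jpow F J 5 := by
  obtain ⟨w, _, rfl⟩ := h.exists_b (le_refl 3) hp
  have := h.mul_b k w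
  rwa [hk w, zero_smul, sub_zero] at this

/-- `⊤ K1 ⊆ J⁵` -/
theorem Six1_D (v : J) {p : J} (hp : p ∈ Six1_K1 (F := F) x χ) : v * p ∈ jpow F J 5 := by
  obtain ⟨k, hk, q, hq, rfl⟩ := Six1_K1_elim h hp
  rw [mul_add]
  refine add_mem ?_ (lmul_mem (j := 4) rfl v hq)
  have := h.mul_b v k
  rwa [mul_comm v k, hk v, zero_smul, sub_zero] at this

/-- `J² K1 ⊆ K2` -/
theorem Six1_E {p q : J} (hp : p ∈ jpow F J 2) (hq : q ∈ Six1_K1 (F := F) x χ) :
    p * q ∈ Six1_K2 (F := F) x χ := by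
  obtain ⟨k, hk, q, hq', rfl⟩ := Six1_K1_elim h hq
  obtain ⟨r, p, hp', rfl⟩ := h.mem_two hp
  have e : (r • (x * x) + p) * ((x * x) * k + q) = (x * x) * ((x * x) * (r • k)) +
      (r • ((x * x) * q) + (p * ((x * x) * k) + p * q)) := by
    simp only [add_mul, mul_add, smul_mul_assoc, mul_smul_comm]
    abel
  rw [e]
  refine Six1_K2_intro h (Submodule.smul_mem _ _ hk) (add_mem (Submodule.smul_mem _ _ ?_)
    (add_mem ?_ ?_))
  · exact bmul_mem (k := 4) rfl x hq'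
  · exact mul_mem_j (i := 3) (j := 3) rfl hp' (bmul_mem (k := 1) rfl x (mem_one k))
  · exact jpow_anti (by omega : 6 ≤ 7) (mul_mem_j (i := 3) (j := 4) rfl hp' hq')

/-- `K0 J⁴ ⊆ K2` -/
theorem Six1_Gg {k p : J} (hk : k ∈ Six1_K0 (F := F) χ) (hp : p ∈ jpow F J 4) :
    k * p ∈ Six1_K2 (F := F) x χ := by
  obtain ⟨r, q, hq, rfl⟩ := h.mem_even' 2 (by omega) (n := 4) (by omega) hp
  have e : k * (r • xp x 4 + q) = (x * x) * ((x * x) * (r • k)) +
      (r • (xp x 4 * k - (x * x) * ((x * x) * k)) + k * q) := by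
    rw [mul_add, mul_smul_comm, mul_comm k (xp x 4)]
    simp only [mul_smul_comm]
    rw [smul_sub]
    abel
  rw [e]
  exact Six1_K2_intro h (Submodule.smul_mem _ _ hk) (add_mem (Submodule.smul_mem _ _ (h.x4_mul k))
    (lmul_mem (j := 5) rfl k hq))

variable (h7 : jpow F J 7 = ⊥)
include h7

theorem Six1_zero {p : J} (hp : p ∈ jpow F J 7) : p = 0 := by
  rwa [h7, Submodule.mem_bot] at hp

/-- `J³ K1 = 0` -/
theorem Six1_F {p q : J} (hp : p ∈ jpow F J 3) (hq : q ∈ Six1_K1 (F := F) x χ) : p * q = 0 := by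
  obtain ⟨k, hk, q, hq', rfl⟩ := Six1_K1_elim h hq
  obtain ⟨v, _, rfl⟩ := h.exists_b (le_refl 3) hp
  apply Six1_zero h h7
  rw [mul_add]
  refine add_mem ?_ (mul_mem_j (i := 3) (j := 4) rfl hp hq')
  have := h.b_mul_b v k
  rwa [mul_comm v k, hk v, zero_smul, sub_zero] at this

/-- `K0 J⁵ = 0` -/
theorem Six1_H {k p : J} (hk : k ∈ Six1_K0 (F := F) χ) (hp : p ∈ jpow F J 5) : k * p = 0 := by
  obtain ⟨w', hw', rfl⟩ := h.exists_b (by omega) hp
  obtain ⟨w, _, rfl⟩ := h.exists_b (le_refl 3) hw'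
  apply Six1_zero h h7
  have := h.mul_bb k w
  rwa [hk w, zero_smul, sub_zero] at this

/-- `⊤ K2 = 0` -/
theorem Six1_I (v : J) {p : J} (hp : p ∈ Six1_K2 (F := F) x χ) : v * p = 0 := by
  obtain ⟨k, hk, q, hq, rfl⟩ := Six1_K2_elim h hp
  apply Six1_zero h h7
  rw [mul_add]
  refine add_mem ?_ (lmul_mem (j := 6) rfl v hq)
  have := h.mul_bb v k
  rwa [mul_comm v k, hk v, zero_smul, sub_zero] at this

omit h7 in
theorem Six1_G_le_lev (k : Fin 9) : Six1_G (F := F) x χ k ≤ jpow F J (Six1_lev k) := by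
  fin_cases k
  · change ⊤ ≤ jpow F J 1
    rw [jpow_one]
  · change _ ≤ jpow F J 1
    rw [jpow_one]; exact le_top
  · exact le_rfl
  · exact le_rfl
  · exact Six1_K1_le h
  · exact le_rfl
  · exact le_rfl
  · exact Six1_K2_le h
  · exact le_rfl

/-- `J^n` has weight `2 n` -/
theorem Six1_pow {n s : ℕ} (hn : 1 ≤ n) (hs : s ≤ 2 * n) {p : J} (hp : p ∈ jpow F J n) :
    p ∈ Fam (Six1_G (F := F) x χ) Six1_w s := by
  rcases Nat.lt_or_ge n 7 with hn7 | hn7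
  · interval_cases n
    · exact mem_Fam (G := Six1_G (F := F) x χ) (w := Six1_w) 0 hs Submodule.mem_top
    · exact mem_Fam (G := Six1_G (F := F) x χ) (w := Six1_w) 2 hs hp
    · exact mem_Fam (G := Six1_G (F := F) x χ) (w := Six1_w) 3 hs hp
    · exact mem_Fam (G := Six1_G (F := F) x χ) (w := Six1_w) 5 hs hp
    · exact mem_Fam (G := Six1_G (F := F) x χ) (w := Six1_w) 6 hs hp
    · exact mem_Fam (G := Six1_G (F := F) x χ) (w := Six1_w) 8 hs hp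
  · rw [Six1_zero h h7 (jpow_anti hn7 hp)]
    exact zero_mem _

theorem Six1_mul' (k l : Fin 9) (hkl : k ≤ l) (p : J) (hp : p ∈ Six1_G (F := F) x χ k) (q : J)
    (hq : q ∈ Six1_G (F := F) x χ l) :
    p * q ∈ Fam (Six1_G (F := F) x χ) Six1_w (Six1_w k + Six1_w l) := by
  have hp' := Six1_G_le_lev h k hp
  have hq' := Six1_G_le_lev h l hq
  have hpq := mul_mem_jpow hp' hq'
  have hl1 : ∀ k : Fin 9, 1 ≤ Six1_lev k := by decide
  by_cases hw : Six1_w k + Six1_w l ≤ 2 * (Six1_lev k + Six1_lev l)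
  · exact Six1_pow h h7 (by have := hl1 k; omega) hw hpq
  by_cases h7' : 7 ≤ Six1_lev k + Six1_lev l
  · rw [Six1_zero h h7 (jpow_anti h7' hpq)]
    exact zero_mem _
  have hz : ∀ {s : ℕ} {a : J}, a = 0 → a ∈ Fam (Six1_G (F := F) x χ) Six1_w s := by
    intro s a ha; rw [ha]; exact zero_mem _
  have cases : (k, l) ∈ ({(0, 1), (1, 1), (1, 2), (1, 3), (0, 4), (1, 4), (2, 4), (3, 4), (4, 4),
      (1, 5), (1, 6), (0, 7), (1, 7)} : Finset (Fin 9 × Fin 9)) := by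
    revert hw h7' hkl
    clear hp hq hp' hq' hpq
    revert k l
    decide
  simp only [Finset.mem_insert, Finset.mem_singleton, Prod.mk.injEq] at cases
  rcases cases with ⟨rfl, rfl⟩ | ⟨rfl, rfl⟩ | ⟨rfl, rfl⟩ | ⟨rfl, rfl⟩ | ⟨rfl, rfl⟩ | ⟨rfl, rfl⟩ |
    ⟨rfl, rfl⟩ | ⟨rfl, rfl⟩ | ⟨rfl, rfl⟩ | ⟨rfl, rfl⟩ | ⟨rfl, rfl⟩ | ⟨rfl, rfl⟩ | ⟨rfl, rfl⟩
  · exact mem_Fam 3 (by decide) (Six1_A h p hq)
  · exact mem_Fam 3 (by decide) (Six1_A h p hq)
  · exact mem_Fam 4 (by decide) (Six1_B h hp hq)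
  · exact mem_Fam 6 (by decide) (Six1_C h hp hq)
  · exact mem_Fam 6 (by decide) (Six1_D h p hq)
  · exact mem_Fam 6 (by decide) (Six1_D h p hq)
  · exact mem_Fam 7 (by decide) (Six1_E h hp hq)
  · exact hz (Six1_F h h7 hp hq)
  · exact hz (Six1_F h h7 (Six1_K1_le h hp) hq)
  · exact mem_Fam 7 (by decide) (Six1_Gg h hp hq)
  · exact hz (Six1_H h h7 hp hq)
  · exact hz (Six1_I h h7 p hq)
  · exact hz (Six1_I h h7 p hq)

theorem Six1_mul (k l : Fin 9) (p : J) (hp : p ∈ Six1_G (F := F) x χ k) (q : J)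
    (hq : q ∈ Six1_G (F := F) x χ l) :
    p * q ∈ Fam (Six1_G (F := F) x χ) Six1_w (Six1_w k + Six1_w l) := by
  rcases le_total k l with hkl | hkl
  · exact Six1_mul' h h7 k l hkl p hp q hq
  · rw [mul_comm, add_comm]
    exact Six1_mul' h h7 l k hkl q hq p hp

omit h7 in
theorem Six1_le3 : Fam (Six1_G (F := F) x χ) Six1_w 3 ≤ Six1_K0 (F := F) χ := by
  have h2 := Six1_J2_le_K0 h
  have hle : ∀ n, 2 ≤ n → jpow F J n ≤ Six1_K0 (F := F) χ := fun n hn => (jpow_anti hn).trans h2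
  refine Fam_le fun k hk => ?_
  fin_cases k
  · exact absurd hk (by decide)
  · exact le_rfl
  · exact h2
  · exact hle 3 (by omega)
  · exact (Six1_K1_le h).trans (hle 3 (by omega))
  · exact hle 4 (by omega)
  · exact hle 5 (by omega)
  · exact (Six1_K2_le h).trans (hle 5 (by omega))
  · exact hle 6 (by omega)

omit h7 in
theorem Six1_le4 : Fam (Six1_G (F := F) x χ) Six1_w 4 ≤ jpow F J 2 := by
  refine Fam_le fun k hk => ?_
  fin_cases k
  · exact absurd hk (by decide)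
  · exact absurd hk (by decide)
  · exact le_rfl
  · exact jpow_anti (by omega)
  · exact (Six1_K1_le h).trans (jpow_anti (by omega))
  · exact jpow_anti (by omega)
  · exact jpow_anti (by omega)
  · exact (Six1_K2_le h).trans (jpow_anti (by omega))
  · exact jpow_anti (by omega)

omit h7 in
theorem Six1_le5 : Fam (Six1_G (F := F) x χ) Six1_w 5 ≤ jpow F J 3 := by
  refine Fam_le fun k hk => ?_
  fin_cases k
  · exact absurd hk (by decide)
  · exact absurd hk (by decide)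
  · exact absurd hk (by decide)
  · exact le_rfl
  · exact Six1_K1_le h
  · exact jpow_anti (by omega)
  · exact jpow_anti (by omega)
  · exact (Six1_K2_le h).trans (jpow_anti (by omega))
  · exact jpow_anti (by omega)

end

theorem six1 {e : J} (h : Crit F J 6 e) {x : J} {χ : J →ₗ[F] F} (hχ : Chi F x χ) {y z : J}
    (hy : ∀ v, χ (y * v) = 0) (hz : ∀ v, χ (z * v) = 0)
    (hind : ∀ r s t : F, r • x + s • y + t • z ∈ jpow F J 2 → r = 0 ∧ s = 0 ∧ t = 0)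
    (hspan : Submodule.span F (Set.range ![x, y, z]) ⊔ jpow F J 2 = ⊤) : False := by
  have h7 : jpow F J 7 = ⊥ := h.bot
  have h8 : jpow F J 8 = ⊥ := by
    rw [eq_bot_iff, ← h7]
    exact jpow_anti (by omega)
  have hnil : IsNilpotentAlg F J := ⟨7, by omega, h7⟩
  obtain ⟨S, hS, _, _, hgen⟩ := exists_SSys7 h.two h.jordan h8 ![x, y, z]
  have hspanS := hgen (gen_of_span hnil ![x, y, z] hspan)
  have hΦ : Filt F ![x, y, z] ![2, 3, 3] (Fam (Six1_G (F := F) x χ) Six1_w) := by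
    refine filt_Fam _ _ ?_ fun k l p hp q hq => Six1_mul hχ h7 k l p hp q hq
    intro i
    fin_cases i
    · exact mem_Fam 0 (by decide) Submodule.mem_top
    · exact mem_Fam 1 (by decide) hy
    · exact mem_Fam 1 (by decide) hz
  refine finish ![2, 3, 3] h hS hspanS hΦ (N := 12) (m := 2) (by decide)
    (Fam_eq_bot (by decide)) ?_
  intro E _ _ P s hs1 hs2 hr
  have hs3 : s ≤ 4 := by
    have : s + (2 + 3 + 3) ≤ 12 := hs2
    omega
  have key : ∀ r : F, r • (x * x) ∈ jpow F J 3 → r = 0 := by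
    intro r hr
    have := hχ.zero _ hr
    rwa [map_smul, hχ.one, smul_eq_mul, mul_one] at this
  refine step2 P _ h.two hS hΦ (by omega) ?_ ?_ hr
  · have : ∀ i : Fin 3, 2 ≤ (![2, 3, 3] : Fin 3 → ℕ) i := by decide
    intro i j k
    have h1 := this i
    have h2 := this j
    have h3 := this k
    omega
  intro c1 c2 hsum
  interval_cases s
  · -- s = 2
    have e1 : (∑ i, (if (![2, 3, 3] : Fin 3 → ℕ) i = 2 then c1 i else 0) • (![x, y, z] : Fin 3 → J) i) +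
        (∑ i, ∑ j, (if i ≤ j ∧ (![2, 3, 3] : Fin 3 → ℕ) i + (![2, 3, 3] : Fin 3 → ℕ) j = 2
          then c2 i j else 0) • ((![x, y, z] : Fin 3 → J) i * (![x, y, z] : Fin 3 → J) j)) =
        c1 0 • x := by
      simp [Fin.sum_univ_three]
    rw [e1] at hsum
    have h0 := Six1_le3 hχ hsum
    have h1 : c1 0 = 0 := by
      have := h0 x
      rwa [smul_mul_assoc, map_smul, hχ.one, smul_eq_mul, mul_one] at this
    refine ⟨?_, ?_⟩
    · intro i hi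
      fin_cases i
      · exact h1
      · exact absurd hi (by decide)
      · exact absurd hi (by decide)
    · intro i j _ hij
      exfalso
      revert hij
      revert i j
      decide
  · -- s = 3
    have e1 : (∑ i, (if (![2, 3, 3] : Fin 3 → ℕ) i = 3 then c1 i else 0) • (![x, y, z] : Fin 3 → J) i) +
        (∑ i, ∑ j, (if i ≤ j ∧ (![2, 3, 3] : Fin 3 → ℕ) i + (![2, 3, 3] : Fin 3 → ℕ) j = 3
          then c2 i j else 0) • ((![x, y, z] : Fin 3 → J) i * (![x, y, z] : Fin 3 → J) j)) =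
        (0 : F) • x + c1 1 • y + c1 2 • z := by
      simp [Fin.sum_univ_three]
    rw [e1] at hsum
    obtain ⟨_, h1, h2⟩ := hind _ _ _ (Six1_le4 hχ hsum)
    refine ⟨?_, ?_⟩
    · intro i hi
      fin_cases i
      · exact absurd hi (by decide)
      · exact h1
      · exact h2
    · intro i j _ hij
      exfalso
      revert hij
      revert i j
      decide
  · -- s = 4
    have e1 : (∑ i, (if (![2, 3, 3] : Fin 3 → ℕ) i = 4 then c1 i else 0) • (![x, y, z] : Fin 3 → J) i) +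
        (∑ i, ∑ j, (if i ≤ j ∧ (![2, 3, 3] : Fin 3 → ℕ) i + (![2, 3, 3] : Fin 3 → ℕ) j = 4
          then c2 i j else 0) • ((![x, y, z] : Fin 3 → J) i * (![x, y, z] : Fin 3 → J) j)) =
        c2 0 0 • (x * x) := by
      simp [Fin.sum_univ_three]
    rw [e1] at hsum
    have h1 := key _ (Six1_le5 hχ hsum)
    refine ⟨?_, ?_⟩
    · intro i hi
      exfalso
      revert hi
      revert i
      decide
    · intro i j _ hij
      have : i = 0 ∧ j = 0 := by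
        revert hij
        revert i j
        decide
      obtain ⟨rfl, rfl⟩ := this
      exact Or.inl h1

end L2
end JD
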