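import Pool.Agent.H78.L2.Fin

set_option autoImplicit false
set_option linter.unusedSectionVars false
set_option linter.unusedVariables false

/-!
# JD L2, class 6, rank 2

`b = L_(x x)`, `β(v,w) = χ (v w)`, `K0 = {v | β(v, ·) = 0} = F z + J²` (follows: for `v = r e + s f + t z + p`, `p ∈ J²`,
`β(v,f) = r β(e,f)`, `β(v,e) = s β(e,f)`), `K1 = b K0 + J⁴`; `J⁷ = 0`; `b b z ∈ J⁶` (hypothesis), so `b b K0 ⊆ J⁶`.

1. `z z ∈ K1`. `z z ∈ J³` (`β(z,z) = 0`), so `z z = b w` (`Lay.exists_b`), and for all `v`: `(z z) v ≡ β(v,w) x⁴ mod J⁵`.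
   `J3` with `a = b = z`: `((z z) c) d = 2 (z c)(z d) + (z z)(c d) - 2 z (c (z d))`. Here `(z c)(z d) ∈ J⁶`;
   `z (c (z d)) ∈ J⁶`: `z d ∈ J³`, `= b w'`, `c (b w') ≡ β(c,w') x⁴ mod J⁵`, and `z x⁴ ≡ b b z ∈ J⁶` (`Chi.x4_mul`), `z J⁵ ⊆ J⁶`;
   `(z z)(c d) ≡ β(c,d) b (b w) mod J⁶` (`c d ≡ β(c,d) x x mod J³`, `(z z) J³ ⊆ J⁶`);
   `((z z) c) d ≡ β(c,w) x⁴ d ≡ β(c,w) b b d mod J⁶`.
   So `β(c,w) b b d ≡ β(c,d) b b w mod J⁶` for all `c, d`. (*)
   Hence `w ∈ K0`: multiply (*) by `g ∈ J`: `g (b b d) = β(g,d) x⁶` (`Chi.mul_bb`, `J⁷ = 0`), `g J⁶ = 0`: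
   `(β(c,w) β(g,d) - β(c,d) β(g,w)) x⁶ = 0` for all `c,d,g`. [`x⁶ ≠ 0` (also to be shown: `J⁶ ≠ 0` and `J⁶ = F x⁶ + J⁷` by `Lay.mem_even`.)]
   With `c = d = e`: `β(e,w) β(g,e) = 0`; `g = f`: `β(e,w) = 0`. With `c = d = f`, `g = e`: `β(f,w) = 0`. And `β(z,w) = 0`. So `w ∈ K0`.
2. `z (b z) ∈ J⁶`: `comm2`: `b (z z) - z (b z) = 2 (x ((x z) z) - (x z)(x z))`; `b (z z) ∈ b K1 ⊆ b b K0 + J⁶ ⊆ J⁶`;
   `(x z)(x z) ∈ J⁶` (`x z ∈ J³`); `z (x z)`: `x z = b w`, `z (b w) ≡ β(z,w) x⁴ = 0 mod J⁵`, so `x (z (x z)) ∈ J⁶`.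

Filtration `Fam G w` (over `Fin 6`), a descending chain: `(⊤,1), (K0,2), (J³,3), (K1,4), (J⁵,5), (J⁶,6)` (`J² ⊆ K0`, `J⁴ ⊆ K1`).
Products:
* `⊤ ⊤ ⊆ J² ⊆ K0` (2); `⊤ K0 ⊆ J³` (3); `K0 K0 ⊆ K1` (4): `z z ∈ K1`, `z J² ⊆ K1` (`z (x x) = b z`, `z J³ ⊆ J⁴`), `J² J² ⊆ J⁴`;
* `⊤ J³ ⊆ J⁴ ⊆ K1` (4); `K0 J³ ⊆ J⁵` (5): `k (b v) ≡ β(k,v) x⁴ = 0`; `J³ J³ ⊆ J⁶` (6);
* `⊤ K1 ⊆ J⁵` (5): `v (b k) ≡ β(v,k) x⁴ = 0`; `K0 K1 ⊆ J⁶` (6): `z (b z) ∈ J⁶`; `z (b p)`, `p ∈ J²`: `b p ∈ J⁴ = F x⁴ + J⁵`,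
  `z x⁴ ∈ J⁶`; `z J⁴ ⊆ J⁶` the same; `p (b z)`, `p ∈ J²`: `(x x)(b z) = b b z ∈ J⁶`, `J³ (b z) ⊆ J⁶`; `J² J⁴ ⊆ J⁶`;
  `J³ K1 = 0` (7): `(b v)(b k) = β(v,k) x⁶ = 0` (`Chi.b_mul_b`), `J³ J⁴ ⊆ J⁷ = 0`; `K1 K1 = 0` (8): same;
* `⊤ J⁵ ⊆ J⁶` (6); `K0 J⁵ = 0` (7): `k (b b v) = β(k,v) x⁶ = 0` (`J⁵ = b J³ = b b J`); the rest is in `J⁷ = 0`.
Letters `e, f, z` with weights `1, 1, 2`; `N = 6`, sum of the weights 4, so steps `s = 1, 2` (`finish` with `m = 1`, `step2`):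
* `s = 1`: `r • e + t • f ∈ Φ 2 = K0` implies `r = t = 0`;
* `s = 2`: letters `z`; words `e e, e f, f f`: `c • z + c11 • e e + c12 • e f + c22 • f f ∈ Φ 3 = J³`: `e e, f f ∈ J³`; modulo `J²`: `c = 0`
  (`hind`), then `c12 χ(e f) = 0`, `c12 = 0`; for `e e`, `f f`: `X_e X_e ∈ ge 3` by `sq_mem` (`m = 1`, `n = 3`, `Φ (3 + 4) = ⊥`).
`S`: `exists_SSys7`.
-/

namespace JD
namespace L2

universe u

variable {F : Type u} [Field F] {J : Type u} [NonUnitalNonAssocCommRing J] [Module F J]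
  [IsScalarTower F J J] [SMulCommClass F J J]

/-- the radical of `β (v, w) = χ (v w)` -/
def Six2_K0 (χ : J →ₗ[F] F) : Submodule F J where
  carrier := {v | ∀ w, χ (v * w) = 0}
  add_mem' := by
    intro a b ha hb w
    rw [add_mul, map_add, ha w, hb w, add_zero]
  zero_mem' := by
    intro w
    rw [zero_mul, map_zero]
  smul_mem' := by
    intro c a ha w
    rw [smul_mul_assoc, map_smul, ha w, smul_zero]

/-- `K1 = b K0 + J⁴` -/
noncomputable def Six2_K1 (x : J) (χ : J →ₗ[F] F) : Submodule F J :=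
  (Six2_K0 χ).map (LinearMap.mulLeft F (x * x)) ⊔ jpow F J 4

theorem Six2_mem_K1 {x : J} {χ : J →ₗ[F] F} {p : J} (hp : p ∈ Six2_K1 x χ) :
    ∃ k ∈ Six2_K0 χ, ∃ q ∈ jpow F J 4, p = (x * x) * k + q := by
  obtain ⟨y, ⟨k, hk, rfl⟩, q, hq, rfl⟩ := Submodule.mem_sup.mp hp
  exact ⟨k, hk, q, hq, rfl⟩

theorem Six2_b_mem_K1 {x : J} {χ : J →ₗ[F] F} {k : J} (hk : k ∈ Six2_K0 χ) :
    (x * x) * k ∈ Six2_K1 x χ :=
  Submodule.mem_sup_left ⟨k, hk, rfl⟩

theorem Six2_j4_le {x : J} {χ : J →ₗ[F] F} : jpow F J 4 ≤ Six2_K1 x χ := le_sup_right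

/-- the hypotheses -/
structure Six2_H (F : Type u) [Field F] {J : Type u} [NonUnitalNonAssocCommRing J] [Module F J]
    [IsScalarTower F J J] [SMulCommClass F J J] (x : J) (χ : J →ₗ[F] F) (e f z : J) : Prop
    extends Chi F x χ where
  z0 : ∀ v, χ (z * v) = 0
  ee : χ (e * e) = 0
  ff : χ (f * f) = 0
  ef : χ (e * f) ≠ 0
  bbz : (x * x) * ((x * x) * z) ∈ jpow F J 6
  ind : ∀ r s t : F, r • e + s • f + t • z ∈ jpow F J 2 → r = 0 ∧ s = 0 ∧ t = 0
  span : Submodule.span F (Set.range ![e, f, z]) ⊔ jpow F J 2 = ⊤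
  seven : jpow F J 7 = ⊥
  x6 : xp x 6 ≠ 0

namespace Six2_H

variable {x : J} {χ : J →ₗ[F] F} {e f z : J} (H : Six2_H F x χ e f z)
include H

theorem zero7 {n : ℕ} (hn : 7 ≤ n) {p : J} (hp : p ∈ jpow F J n) : p = 0 := by
  have := jpow_anti (F := F) (J := J) hn hp
  rwa [H.seven, Submodule.mem_bot] at this

theorem dec (v : J) : ∃ r s t : F, ∃ p ∈ jpow F J 2, v = r • e + s • f + t • z + p := by
  have hv : v ∈ Submodule.span F (Set.range ![e, f, z]) ⊔ jpow F J 2 := by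
    rw [H.span]; exact Submodule.mem_top
  obtain ⟨y, hy, p, hp, rfl⟩ := Submodule.mem_sup.mp hv
  obtain ⟨c, rfl⟩ := (Submodule.mem_span_range_iff_exists_fun F).mp hy
  refine ⟨c 0, c 1, c 2, p, hp, ?_⟩
  simp [Fin.sum_univ_three]

theorem two_le : jpow F J 2 ≤ Six2_K0 χ := fun p hp w =>
  H.zero _ (mul_mem_j (by omega) hp (mem_one w))

theorem z_mem : z ∈ Six2_K0 χ := H.z0

/-- coefficients of an element of `K0` -/
theorem coeff0 {r s t : F} {p : J} (hp : p ∈ jpow F J 2)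
    (hv : r • e + s • f + t • z + p ∈ Six2_K0 χ) : r = 0 ∧ s = 0 := by
  have hpf : ∀ w, χ (p * w) = 0 := H.two_le hp
  have h1 : χ ((r • e + s • f + t • z + p) * f) = 0 := hv f
  have h2 : χ ((r • e + s • f + t • z + p) * e) = 0 := hv e
  have hfe : f * e = e * f := mul_comm f e
  simp only [add_mul, smul_mul_assoc, map_add, map_smul, smul_eq_mul, H.ee, H.ff, H.z0, hpf,
    mul_zero, add_zero, zero_add, hfe] at h1 h2
  constructor
  · rcases mul_eq_zero.mp h1 with h | h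
    · exact h
    · exact absurd h H.ef
  · rcases mul_eq_zero.mp h2 with h | h
    · exact h
    · exact absurd h H.ef

theorem dec0 {v : J} (hv : v ∈ Six2_K0 χ) : ∃ t : F, ∃ p ∈ jpow F J 2, v = t • z + p := by
  obtain ⟨r, s, t, p, hp, rfl⟩ := H.dec v
  obtain ⟨rfl, rfl⟩ := H.coeff0 hp hv
  exact ⟨t, p, hp, by rw [zero_smul, zero_smul, zero_add, zero_add]⟩

/-- `J K0 ⊆ J³` -/
theorem top_K0 (v : J) {k : J} (hk : k ∈ Six2_K0 χ) : v * k ∈ jpow F J 3 := by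
  rw [H.toChi.mem_iff (mul_mem_two v k), mul_comm]
  exact hk v

/-- `b b K0 ⊆ J⁶` -/
theorem bbK0 {k : J} (hk : k ∈ Six2_K0 χ) : (x * x) * ((x * x) * k) ∈ jpow F J 6 := by
  obtain ⟨t, p, hp, rfl⟩ := H.dec0 hk
  rw [mul_add, mul_add, mul_smul_comm, mul_smul_comm]
  exact add_mem (Submodule.smul_mem _ _ H.bbz)
    (bmul_mem (by omega) x (bmul_mem (k := 2) (n := 4) (by omega) x hp))

/-- `b K1 ⊆ J⁶` -/
theorem bK1 {k : J} (hk : k ∈ Six2_K1 x χ) : (x * x) * k ∈ jpow F J 6 := by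
  obtain ⟨k', hk', q, hq, rfl⟩ := Six2_mem_K1 hk
  rw [mul_add]
  exact add_mem (H.bbK0 hk') (bmul_mem (by omega) x hq)

/-- `k (b w) ∈ J⁵` -/
theorem K0_b {k : J} (hk : k ∈ Six2_K0 χ) (w : J) : k * ((x * x) * w) ∈ jpow F J 5 := by
  have h1 := H.toChi.mul_b k w
  rwa [hk w, zero_smul, sub_zero] at h1

/-- `K0 J³ ⊆ J⁵` -/
theorem K0_three {k : J} (hk : k ∈ Six2_K0 χ) {q : J} (hq : q ∈ jpow F J 3) :
    k * q ∈ jpow F J 5 := by
  obtain ⟨w, _, rfl⟩ := H.toLay.exists_b (by omega) hq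
  exact H.K0_b hk w

/-- `v (b k) ∈ J⁵` -/
theorem top_bK0 (v : J) {k : J} (hk : k ∈ Six2_K0 χ) : v * ((x * x) * k) ∈ jpow F J 5 := by
  have h1 := H.toChi.mul_b v k
  have h2 : χ (v * k) = 0 := by rw [mul_comm]; exact hk v
  rwa [h2, zero_smul, sub_zero] at h1

/-- `J K1 ⊆ J⁵` -/
theorem top_K1 (v : J) {k : J} (hk : k ∈ Six2_K1 x χ) : v * k ∈ jpow F J 5 := by
  obtain ⟨k', hk', q, hq, rfl⟩ := Six2_mem_K1 hk
  rw [mul_add]
  exact add_mem (H.top_bK0 v hk') (lmul_mem (by omega) v hq)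

/-- `K0 J⁴ ⊆ J⁶` -/
theorem K0_four {k : J} (hk : k ∈ Six2_K0 χ) {q : J} (hq : q ∈ jpow F J 4) :
    k * q ∈ jpow F J 6 := by
  obtain ⟨r, q', hq', rfl⟩ := H.toLay.mem_even' 2 (by omega) (n := 4) (by omega) hq
  have h1 := add_mem (H.toChi.x4_mul k) (H.bbK0 hk)
  rw [sub_add_cancel] at h1
  rw [mul_add, mul_smul_comm, mul_comm k (xp x 4)]
  exact add_mem (Submodule.smul_mem _ _ h1) (lmul_mem (by omega) k hq')

/-- `K0 J⁵ = 0` -/
theorem K0_five {k : J} (hk : k ∈ Six2_K0 χ) {q : J} (hq : q ∈ jpow F J 5) : k * q = 0 := by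
  obtain ⟨w, hw, rfl⟩ := H.toLay.exists_b (by omega) hq
  obtain ⟨w', _, rfl⟩ := H.toLay.exists_b (n := 3) (by omega) hw
  have h1 := H.toChi.mul_bb k w'
  rw [hk w', zero_smul, sub_zero] at h1
  exact H.zero7 le_rfl h1

/-- `g (b b d) = χ (g d) x⁶` -/
theorem mul_bb' (g d : J) : g * ((x * x) * ((x * x) * d)) = χ (g * d) • xp x 6 :=
  sub_eq_zero.mp (H.zero7 le_rfl (H.toChi.mul_bb g d))

/-- the relation (*) -/
theorem star {w : J} (hw : z * z = (x * x) * w) (c d : J) :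
    χ (c * w) • ((x * x) * ((x * x) * d)) - χ (c * d) • ((x * x) * ((x * x) * w)) ∈
      jpow F J 6 := by
  have hzc : z * c ∈ jpow F J 3 := by rw [mul_comm]; exact H.top_K0 c H.z_mem
  have hzd : z * d ∈ jpow F J 3 := by rw [mul_comm]; exact H.top_K0 d H.z_mem
  have hzz : z * z ∈ jpow F J 3 := H.top_K0 z H.z_mem
  have h := J3 F H.two H.jordan z z c d
  have t1 : (z * c) * (z * d) ∈ jpow F J 6 := mul_mem_j (by omega) hzc hzd
  have t2 : z * (c * (z * d)) ∈ jpow F J 6 :=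
    H.K0_four H.z_mem (lmul_mem (by omega) c hzd)
  have t3 : (z * z) * (c * d) - χ (c * d) • ((x * x) * ((x * x) * w)) ∈ jpow F J 6 := by
    have h3 : (z * z) * (c * d - χ (c * d) • (x * x)) ∈ jpow F J 6 :=
      mul_mem_j (by omega) hzz (H.toChi.pr c d)
    rw [mul_sub, mul_smul_comm, mul_comm (z * z) (x * x)] at h3
    rw [hw] at h3 ⊢
    exact h3
  have t4 : ((z * z) * c) * d - χ (c * w) • ((x * x) * ((x * x) * d)) ∈ jpow F J 6 := by
    have h4 : (c * ((x * x) * w) - χ (c * w) • xp x 4) * d ∈ jpow F J 6 :=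
      mul_mem_j (by omega) (H.toChi.mul_b c w) (mem_one d)
    rw [sub_mul, smul_mul_assoc, ← hw, mul_comm c (z * z)] at h4
    have h5 := Submodule.smul_mem _ (χ (c * w)) (H.toChi.x4_mul d)
    rw [smul_sub] at h5
    have := add_mem h4 h5
    rwa [sub_add_sub_cancel] at this
  have t5 : χ (c * w) • ((x * x) * ((x * x) * d)) - χ (c * d) • ((x * x) * ((x * x) * w)) =
      ((z * z) * (c * d) - χ (c * d) • ((x * x) * ((x * x) * w)))
        - (((z * z) * c) * d - χ (c * w) • ((x * x) * ((x * x) * d)))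
        + ((z * c) * (z * d) + (z * c) * (z * d) - z * (c * (z * d)) - z * (c * (z * d))) := by
    rw [h]
    abel
  rw [t5]
  exact add_mem (sub_mem t3 t4) (sub_mem (sub_mem (add_mem t1 t1) t2) t2)

theorem zz_mem : z * z ∈ Six2_K1 x χ := by
  obtain ⟨w, _, hw⟩ := H.toLay.exists_b (n := 3) (by omega) (H.top_K0 z H.z_mem)
  have key : ∀ c d g : J, χ (c * w) * χ (g * d) = χ (c * d) * χ (g * w) := by
    intro c d g
    have h1 : g * (χ (c * w) • ((x * x) * ((x * x) * d)) -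
        χ (c * d) • ((x * x) * ((x * x) * w))) = 0 :=
      H.zero7 le_rfl (lmul_mem (by omega) g (H.star hw c d))
    rw [mul_sub, mul_smul_comm, mul_smul_comm, H.mul_bb', H.mul_bb', smul_smul, smul_smul,
      ← sub_smul, smul_eq_zero] at h1
    rcases h1 with h1 | h1
    · exact sub_eq_zero.mp h1
    · exact absurd h1 H.x6
  have hfe : χ (f * e) ≠ 0 := by rw [mul_comm]; exact H.ef
  have h1 : χ (e * w) = 0 := by
    have := key e e f
    rw [H.ee, zero_mul] at this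
    exact (mul_eq_zero.mp this).resolve_right hfe
  have h2 : χ (f * w) = 0 := by
    have := key f f e
    rw [H.ff, zero_mul] at this
    exact (mul_eq_zero.mp this).resolve_right H.ef
  have hwK : w ∈ Six2_K0 χ := by
    intro v
    obtain ⟨r, s, t, p, hp, rfl⟩ := H.dec v
    have h3 : χ (p * w) = 0 := H.two_le hp w
    rw [mul_comm]
    simp only [add_mul, smul_mul_assoc, map_add, map_smul, smul_eq_mul, h1, h2, h3, H.z0,
      mul_zero, add_zero]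
  rw [hw]
  exact Six2_b_mem_K1 hwK

/-- `z (b z) ∈ J⁶` -/
theorem zbz_mem : z * ((x * x) * z) ∈ jpow F J 6 := by
  have h := comm2 F H.two H.jordan x z z
  have hxz : x * z ∈ jpow F J 3 := H.top_K0 x H.z_mem
  have t1 : (x * x) * (z * z) ∈ jpow F J 6 := H.bK1 H.zz_mem
  have t2 : (x * z) * (x * z) ∈ jpow F J 6 := mul_mem_j (by omega) hxz hxz
  have t3 : x * ((x * z) * z) ∈ jpow F J 6 := by
    rw [mul_comm (x * z) z]
    exact lmul_mem (by omega) x (H.K0_three H.z_mem hxz)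
  have e1 : z * ((x * x) * z) = (x * x) * (z * z) -
      (2 : F) • (x * ((x * z) * z) - (x * z) * (x * z)) := by
    rw [← h]; abel
  rw [e1]
  exact sub_mem t1 (Submodule.smul_mem _ _ (sub_mem t3 t2))

/-- `K0 J² ⊆ K1` -/
theorem z_two {q : J} (hq : q ∈ jpow F J 2) : z * q ∈ Six2_K1 x χ := by
  obtain ⟨r, q', hq', rfl⟩ := H.toLay.mem_two hq
  rw [mul_add, mul_smul_comm, mul_comm z (x * x)]
  exact add_mem (Submodule.smul_mem _ _ (Six2_b_mem_K1 H.z_mem))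
    (Six2_j4_le (lmul_mem (by omega) z hq'))

/-- `K0 K0 ⊆ K1` -/
theorem K0_K0 {p q : J} (hp : p ∈ Six2_K0 χ) (hq : q ∈ Six2_K0 χ) : p * q ∈ Six2_K1 x χ := by
  obtain ⟨t, p', hp', rfl⟩ := H.dec0 hp
  obtain ⟨s, q', hq', rfl⟩ := H.dec0 hq
  rw [add_mul, mul_add, mul_add, smul_mul_assoc, smul_mul_assoc, mul_smul_comm, mul_smul_comm]
  refine add_mem (add_mem ?_ ?_) (add_mem ?_ ?_)
  · exact Submodule.smul_mem _ _ (Submodule.smul_mem _ _ H.zz_mem)
  · exact Submodule.smul_mem _ _ (H.z_two hq')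
  · rw [mul_comm p' z]
    exact Submodule.smul_mem _ _ (H.z_two hp')
  · exact Six2_j4_le (mul_mem_j (by omega) hp' hq')

/-- `K0 K1 ⊆ J⁶` -/
theorem K0_K1 {p q : J} (hp : p ∈ Six2_K0 χ) (hq : q ∈ Six2_K1 x χ) : p * q ∈ jpow F J 6 := by
  obtain ⟨k, hk, q', hq', rfl⟩ := Six2_mem_K1 hq
  rw [mul_add]
  refine add_mem ?_ (H.K0_four hp hq')
  obtain ⟨t', p', hp', rfl⟩ := H.dec0 hk
  rw [mul_add, mul_add, mul_smul_comm, mul_smul_comm]
  refine add_mem (Submodule.smul_mem _ _ ?_)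
    (H.K0_four hp (bmul_mem (k := 2) (by omega) x hp'))
  obtain ⟨t, p'', hp'', rfl⟩ := H.dec0 hp
  rw [add_mul, smul_mul_assoc]
  refine add_mem (Submodule.smul_mem _ _ H.zbz_mem) ?_
  obtain ⟨r, q'', hq'', rfl⟩ := H.toLay.mem_two hp''
  rw [add_mul, smul_mul_assoc]
  exact add_mem (Submodule.smul_mem _ _ H.bbz)
    (mul_mem_j (by omega) hq'' (bmul_mem (k := 1) (n := 3) (by omega) x (mem_one z)))

theorem K1_le_three : Six2_K1 x χ ≤ jpow F J 3 := by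
  intro p hp
  obtain ⟨k, hk, q, hq, rfl⟩ := Six2_mem_K1 hp
  exact add_mem (bmul_mem (k := 1) (by omega) x (mem_one k)) (jpow_anti (by omega) hq)

/-- `J³ K1 = 0` -/
theorem three_K1 {p q : J} (hp : p ∈ jpow F J 3) (hq : q ∈ Six2_K1 x χ) : p * q = 0 := by
  obtain ⟨v, _, rfl⟩ := H.toLay.exists_b (by omega) hp
  obtain ⟨k, hk, q', hq', rfl⟩ := Six2_mem_K1 hq
  rw [mul_add]
  have h1 := H.toChi.b_mul_b v k
  have h2 : χ (v * k) = 0 := by rw [mul_comm]; exact hk v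
  rw [h2, zero_smul, sub_zero] at h1
  rw [H.zero7 le_rfl h1, H.zero7 (n := 7) le_rfl (mul_mem_j (by omega) hp hq'), add_zero]

/-- the filtration -/
theorem hmul : ∀ k l : Fin 6, ∀ p ∈ (![⊤, Six2_K0 χ, jpow F J 3, Six2_K1 x χ, jpow F J 5,
      jpow F J 6] : Fin 6 → Submodule F J) k,
    ∀ q ∈ (![⊤, Six2_K0 χ, jpow F J 3, Six2_K1 x χ, jpow F J 5,
      jpow F J 6] : Fin 6 → Submodule F J) l,
    p * q ∈ Fam (![⊤, Six2_K0 χ, jpow F J 3, Six2_K1 x χ, jpow F J 5,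
      jpow F J 6] : Fin 6 → Submodule F J) (![1, 2, 3, 4, 5, 6] : Fin 6 → ℕ)
      ((![1, 2, 3, 4, 5, 6] : Fin 6 → ℕ) k + (![1, 2, 3, 4, 5, 6] : Fin 6 → ℕ) l) := by
  set G : Fin 6 → Submodule F J := ![⊤, Six2_K0 χ, jpow F J 3, Six2_K1 x χ, jpow F J 5,
      jpow F J 6] with hG
  set w : Fin 6 → ℕ := ![1, 2, 3, 4, 5, 6] with hw
  -- reduction to `k ≤ l`
  suffices main : ∀ k l : Fin 6, k ≤ l → ∀ p ∈ G k, ∀ q ∈ G l, p * q ∈ Fam G w (w k + w l) by
    intro k l p hp q hq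
    rcases le_total k l with hkl | hkl
    · exact main k l hkl p hp q hq
    · rw [mul_comm p q, add_comm (w k)]
      exact main l k hkl q hq p hp
  have f2 : ∀ {p : J}, p ∈ Six2_K0 χ → p ∈ Fam G w 2 := fun hp => mem_Fam 1 (by simp [hw]) hp
  have f3 : ∀ {p : J}, p ∈ jpow F J 3 → p ∈ Fam G w 3 := fun hp => mem_Fam 2 (by simp [hw]) hp
  have f4 : ∀ {p : J}, p ∈ Six2_K1 x χ → p ∈ Fam G w 4 := fun hp => mem_Fam 3 (by simp [hw]) hp
  have f5 : ∀ {p : J}, p ∈ jpow F J 5 → p ∈ Fam G w 5 := fun hp => mem_Fam 4 (by simp [hw]) hp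
  have f6 : ∀ {p : J}, p ∈ jpow F J 6 → p ∈ Fam G w 6 := fun hp => mem_Fam 5 (by simp [hw]) hp
  have f0 : ∀ {p : J} {n : ℕ}, p = 0 → p ∈ Fam G w n := fun hp => by rw [hp]; exact zero_mem _
  intro k l hkl p hp q hq
  fin_cases k <;> fin_cases l <;> first | exact absurd hkl (by decide) | skip
  · -- 1 1
    exact f2 (H.two_le (mul_mem_two p q))
  · exact f3 (H.top_K0 p hq)
  · exact f4 (Six2_j4_le (lmul_mem (by omega) p hq))
  · exact f5 (H.top_K1 p hq)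
  · exact f6 (lmul_mem (by omega) p hq)
  · exact f0 (H.zero7 (n := 7) le_rfl (lmul_mem (by omega) p hq))
  · -- 2 2
    exact f4 (H.K0_K0 hp hq)
  · exact f5 (H.K0_three hp hq)
  · exact f6 (H.K0_K1 hp hq)
  · exact f0 (H.K0_five hp hq)
  · exact f0 (H.zero7 (n := 7) le_rfl (lmul_mem (by omega) p hq))
  · -- 3 3
    exact f6 (mul_mem_j (by omega) hp hq)
  · exact f0 (H.three_K1 hp hq)
  · exact f0 (H.zero7 (n := 8) (by omega) (mul_mem_j (by omega) hp hq))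
  · exact f0 (H.zero7 (n := 7) le_rfl (lmul_mem (by omega) p hq))
  · -- 4 4
    exact f0 (H.three_K1 (H.K1_le_three hp) hq)
  · exact f0 (H.zero7 (n := 8) (by omega) (mul_mem_j (i := 3) (by omega) (H.K1_le_three hp) hq))
  · exact f0 (H.zero7 (n := 7) le_rfl (lmul_mem (by omega) p hq))
  · exact f0 (H.zero7 (n := 10) (by omega) (mul_mem_j (by omega) hp hq))
  · exact f0 (H.zero7 (n := 7) le_rfl (lmul_mem (by omega) p hq))
  · exact f0 (H.zero7 (n := 7) le_rfl (lmul_mem (by omega) p hq))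

theorem fam_two : Fam (![⊤, Six2_K0 χ, jpow F J 3, Six2_K1 x χ, jpow F J 5,
      jpow F J 6] : Fin 6 → Submodule F J) (![1, 2, 3, 4, 5, 6] : Fin 6 → ℕ) 2 ≤ Six2_K0 χ := by
  refine Fam_le fun k hk => ?_
  fin_cases k
  · exact absurd hk (by simp)
  · exact le_rfl
  · exact (jpow_anti (by omega)).trans H.two_le
  · exact (H.K1_le_three.trans (jpow_anti (by omega))).trans H.two_le
  · exact (jpow_anti (by omega)).trans H.two_le
  · exact (jpow_anti (by omega)).trans H.two_le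

theorem fam_three : Fam (![⊤, Six2_K0 χ, jpow F J 3, Six2_K1 x χ, jpow F J 5,
      jpow F J 6] : Fin 6 → Submodule F J) (![1, 2, 3, 4, 5, 6] : Fin 6 → ℕ) 3 ≤ jpow F J 3 := by
  refine Fam_le fun k hk => ?_
  fin_cases k
  · exact absurd hk (by simp)
  · exact absurd hk (by simp)
  · exact le_rfl
  · exact H.K1_le_three
  · exact jpow_anti (by omega)
  · exact jpow_anti (by omega)

end Six2_H

theorem six2 {u : J} (h : Crit F J 6 u) {x : J} {χ : J →ₗ[F] F} (hχ : Chi F x χ) {e f z : J}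
    (hz : ∀ v, χ (z * v) = 0) (hee : χ (e * e) = 0) (hff : χ (f * f) = 0) (hef : χ (e * f) ≠ 0)
    (hbbz : (x * x) * ((x * x) * z) ∈ jpow F J 6)
    (hind : ∀ r s t : F, r • e + s • f + t • z ∈ jpow F J 2 → r = 0 ∧ s = 0 ∧ t = 0)
    (hspan : Submodule.span F (Set.range ![e, f, z]) ⊔ jpow F J 2 = ⊤) : False := by
  have h7 : jpow F J 7 = ⊥ := h.bot
  have h8 : jpow F J 8 = ⊥ := by
    rw [eq_bot_iff, ← h7]
    exact jpow_anti (by omega)
  have hx6 : xp x 6 ≠ 0 := by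
    intro h0
    have hu : u ∈ jpow F J 6 := by
      rw [h.top]; exact Submodule.mem_span_singleton_self u
    obtain ⟨r, q, hq, he⟩ := hχ.toLay.mem_even' 3 (by omega) (n := 6) (by omega) hu
    have hq' : q ∈ jpow F J 7 := hq
    rw [h7, Submodule.mem_bot] at hq'
    rw [h0, smul_zero, hq', add_zero] at he
    exact h.ne he
  have H : Six2_H F x χ e f z :=
    { toChi := hχ, z0 := hz, ee := hee, ff := hff, ef := hef, bbz := hbbz, ind := hind,
      span := hspan, seven := h7, x6 := hx6 }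
  obtain ⟨S, hS, _, _, hSspan⟩ := exists_SSys7 h.two h.jordan h8 ![e, f, z]
  have hnil : IsNilpotentAlg F J := ⟨7, by omega, h7⟩
  have hspanS : Submodule.span F (Set.range S) = ⊤ :=
    hSspan (gen_of_span hnil ![e, f, z] hspan)
  set G : Fin 6 → Submodule F J := ![⊤, Six2_K0 χ, jpow F J 3, Six2_K1 x χ, jpow F J 5,
      jpow F J 6] with hG
  set w : Fin 6 → ℕ := ![1, 2, 3, 4, 5, 6] with hw
  have hw7 : ∀ k, w k < 7 := by
    intro k
    fin_cases k <;> simp [hw]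
  have hbot : Fam G w 7 = ⊥ := Fam_eq_bot hw7
  have hΦ : Filt F ![e, f, z] ![1, 1, 2] (Fam G w) := by
    refine filt_Fam _ _ ?_ H.hmul
    intro i
    fin_cases i
    · exact mem_Fam 0 (by simp [hw]) Submodule.mem_top
    · exact mem_Fam 0 (by simp [hw]) Submodule.mem_top
    · exact mem_Fam 1 (by simp [hw]) H.z_mem
  have hm : ∀ i, 1 ≤ (![1, 1, 2] : Fin 3 → ℕ) i := by
    intro i
    fin_cases i <;> simp
  refine finish (a := ![1, 1, 2]) h hS hspanS hΦ (N := 6) (m := 1) hm hbot ?_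
  intro E _ _ P s hs1 hs2 hr
  have hs3 : s ≤ 2 := by
    simp at hs2
    omega
  have hsq : ∀ i : Fin 3, (![e, f, z] : Fin 3 → J) i * (![e, f, z] : Fin 3 → J) i ∈ jpow F J 3 →
      P.X i * P.X i ∈ P.ge ![1, 1, 2] 3 := by
    intro i hi
    exact sq_mem P ![1, 1, 2] h.two hS h.ne hspanS hΦ (m := 1) (n := 3) hm (by omega) hbot hi
  have he3 : e * e ∈ jpow F J 3 := (hχ.mem_iff (mul_mem_two e e)).mpr hee
  have hf3 : f * f ∈ jpow F J 3 := (hχ.mem_iff (mul_mem_two f f)).mpr hff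
  rcases (by omega : s = 1 ∨ s = 2) with rfl | rfl
  · refine step2 P ![1, 1, 2] h.two hS hΦ (s := 1) le_rfl ?_ ?_ hr
    · intro i j k
      have := hm i
      have := hm j
      have := hm k
      omega
    · intro c1 c2 hc
      have hc' : c1 0 • e + c1 1 • f + (0 : F) • z + 0 ∈ Six2_K0 χ := by
        have := H.fam_two hc
        simpa [Fin.sum_univ_three] using this
      obtain ⟨h0, h1⟩ := H.coeff0 (zero_mem _) hc'
      refine ⟨?_, ?_⟩
      · intro i hi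
        fin_cases i
        · exact h0
        · exact h1
        · simp at hi
      · intro i j _ hij
        have := hm i
        have := hm j
        omega
  · refine step2 P ![1, 1, 2] h.two hS hΦ (s := 2) (by omega) ?_ ?_ hr
    · intro i j k
      have := hm i
      have := hm j
      have := hm k
      omega
    · intro c1 c2 hc
      have hc' : c1 2 • z + (c2 0 0 • (e * e) + c2 0 1 • (e * f) + c2 1 1 • (f * f)) ∈
          jpow F J 3 := by
        have := H.fam_three hc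
        simpa [Fin.sum_univ_three, add_assoc] using this
      have h3 : c2 0 0 • (e * e) + c2 0 1 • (e * f) + c2 1 1 • (f * f) ∈ jpow F J 2 :=
        add_mem (add_mem (Submodule.smul_mem _ _ (mul_mem_two e e))
          (Submodule.smul_mem _ _ (mul_mem_two e f))) (Submodule.smul_mem _ _ (mul_mem_two f f))
      have h4 : c1 2 = 0 := by
        have h5 := sub_mem (jpow_anti (by omega : 2 ≤ 3) hc') h3
        rw [add_sub_cancel_right] at h5
        have h6 := hind 0 0 (c1 2) (by simpa using h5)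
        exact h6.2.2
      have h5 : c2 0 1 = 0 := by
        have h6 := hχ.zero _ hc'
        rw [h4] at h6
        simp only [zero_smul, zero_add, map_add, map_smul, smul_eq_mul, hee, hff, mul_zero,
          add_zero] at h6
        exact (mul_eq_zero.mp h6).resolve_right hef
      refine ⟨?_, ?_⟩
      · intro i hi
        fin_cases i
        · simp at hi
        · simp at hi
        · exact h4
      · intro i j hij hw2
        fin_cases i <;> fin_cases j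
        · exact Or.inr (add_mem (hsq 0 he3) (hsq 0 he3))
        · exact Or.inl h5
        · simp at hw2
        · simp at hij
        · exact Or.inr (add_mem (hsq 1 hf3) (hsq 1 hf3))
        · simp at hw2
        · simp at hij
        · simp at hij
        · simp at hw2

end L2
end JD
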