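import Pool.Agent.H78.L2.Six0a
import Pool.Agent.H78.L2.Six1
import Pool.Agent.H78.L2.Six2

set_option autoImplicit false
set_option linter.unusedSectionVars false
set_option linter.unusedVariables false

/-!
# JD L2, class 6: reduction to the ranks 1 and 2

`b = L_(x x)`, `β(v,w) = χ (v w)` (`Lay.exists_chi`; `Chi`), `x⁶ ≠ 0` (`e ∈ J⁶ = F x⁶ + J⁷`, `J⁷ = 0`), `x⁴ ∉ J⁵` (`b x⁴ = x⁶`, `b J⁵ ⊆ J⁷ = 0`).

`six_count`: if `b (b v) ∈ J⁶` implies `v ∈ J²`, then `dim J ≥ 12`, contradiction. `dim J = 3 + dim J²` (`ngen = 3`), `dim J² ≥ 1 + dim J³`,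
`dim J³ ≥ 3 + dim J⁴` (the map `v ↦ b v mod J⁴` has kernel `⊆ J²`, because `b v ∈ J⁴` implies `b b v ∈ J⁶`; rank-nullity),
`dim J⁴ ≥ 1 + dim J⁵`, `dim J⁵ ≥ 3 + dim J⁶` (the same with `v ↦ b b v mod J⁶`), `dim J⁶ ≥ 1`.

`six`. `K0 = {v | χ (v w) = 0 for all w} ⊇ J²` (`J² J ⊆ J³`), `x ∉ K0`. Let `k = dim K0 - dim J² ∈ {0, 1, 2}`.
* `b (b v) ∈ J⁶` implies `v ∈ K0`: `w (b (b v)) = χ(w v) x⁶` (`Chi.mul_bb`, `J⁷ = 0`), and `w J⁶ = 0`.
* `k = 0`: `K0 = J²`, `six_count`.
* `k = 1`: `K0 = F z + J²`. If `b (b z) ∉ J⁶` then `b (b v) ∈ J⁶` implies `v = t z + p`, `p ∈ J²`, `t b (b z) ∈ J⁶`, `t = 0`, `v ∈ J²`: `six_count`.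
  So `b (b z) ∈ J⁶`. Take `v` with `J = F x + F v + K0` (dimensions), replace `v` by `v - χ(x v) x`, so `χ(x v) = 0`; `χ(v v) ≠ 0` since
  otherwise `v ∈ K0`. Let `κ² = - χ(v v)` (`F` algebraically closed), `e = v + κ x`, `f = v - κ x`: `χ(e e) = χ(f f) = 0`,
  `χ(e f) = χ(v v) - κ² = 2 χ(v v) ≠ 0`. `six2` (independence of `e, f, z` modulo `J²`: `χ(e ·)`, `χ(f ·)`, then `z ∉ J²`;
  spanning by dimensions, `ngen = 3`).
* `k = 2`: `y, z ∈ K0` a basis modulo `J²`; `six1` (if `r x + s y + t z ∈ J²`, apply `χ(x ·)`: `r = 0`).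
-/

namespace JD
namespace L2

universe u

variable {F : Type u} [Field F] {J : Type u} [NonUnitalNonAssocCommRing J] [Module F J]
  [IsScalarTower F J J] [SMulCommClass F J J]

/-- three elements independent modulo `J²` generate `J` modulo `J²` -/
theorem Six0_span [Module.Finite F J] (hn : ngen F J = 3) (a b c : J)
    (hind : ∀ r s t : F, r • a + s • b + t • c ∈ jpow F J 2 → r = 0 ∧ s = 0 ∧ t = 0) :
    Submodule.span F (Set.range ![a, b, c]) ⊔ jpow F J 2 = ⊤ := by
  have hli : LinearIndependent F (fun i => (jpow F J 2).mkQ ((![a, b, c] : Fin 3 → J) i)) := by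
    rw [Fintype.linearIndependent_iff]
    intro g hg
    rw [Fin.sum_univ_three, ← map_smul, ← map_smul, ← map_smul, ← map_add, ← map_add,
      Submodule.mkQ_apply, Submodule.Quotient.mk_eq_zero] at hg
    obtain ⟨h0, h1, h2⟩ := hind (g 0) (g 1) (g 2) hg
    intro i
    fin_cases i
    · exact h0
    · exact h1
    · exact h2
  have hcard : Fintype.card (Fin 3) = Module.finrank F (J ⧸ jpow F J 2) := by
    rw [Fintype.card_fin]
    exact hn.symm
  have htop := hli.span_eq_top_of_card_eq_finrank' hcard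
  rw [eq_top_iff]
  intro w _
  have hw : (jpow F J 2).mkQ w ∈ Submodule.span F
      (Set.range fun i => (jpow F J 2).mkQ ((![a, b, c] : Fin 3 → J) i)) := by
    rw [htop]; exact Submodule.mem_top
  have hr : (Set.range fun i => (jpow F J 2).mkQ ((![a, b, c] : Fin 3 → J) i)) =
      (jpow F J 2).mkQ '' (Set.range ![a, b, c]) := by
    rw [← Set.range_comp]
    rfl
  rw [hr, ← Submodule.map_span] at hw
  obtain ⟨y, hy, hyw⟩ := hw
  have hd : w - y ∈ jpow F J 2 := by
    rw [← Submodule.Quotient.mk_eq_zero, ← Submodule.mkQ_apply, map_sub, hyw, sub_self]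
  have : w = y + (w - y) := by abel
  rw [this]
  exact Submodule.add_mem_sup hy hd

/-- two elements do not generate `J` modulo `J²` -/
theorem Six0_exists (hn : ngen F J = 3) (a b : J) :
    ∃ v : J, v ∉ Submodule.span F {a, b} ⊔ jpow F J 2 := by
  by_contra hcon
  push Not at hcon
  have htop : Submodule.span F ({(jpow F J 2).mkQ a, (jpow F J 2).mkQ b} :
      Set (J ⧸ jpow F J 2)) = ⊤ := by
    rw [eq_top_iff]
    intro w _
    obtain ⟨v, rfl⟩ := Submodule.mkQ_surjective _ w
    obtain ⟨y, hy, p, hp, rfl⟩ := Submodule.mem_sup.mp (hcon v)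
    rw [map_add]
    have hp0 : (jpow F J 2).mkQ p = 0 := by
      rw [Submodule.mkQ_apply, Submodule.Quotient.mk_eq_zero]; exact hp
    rw [hp0, add_zero]
    have := Submodule.mem_map_of_mem (f := (jpow F J 2).mkQ) hy
    rwa [Submodule.map_span, Set.image_pair] at this
  have h1 : Module.finrank F (J ⧸ jpow F J 2) ≤ 2 := by
    rw [← finrank_top, ← htop]
    classical
    have h2 := finrank_span_finset_le_card (R := F)
      ({(jpow F J 2).mkQ a, (jpow F J 2).mkQ b} : Finset (J ⧸ jpow F J 2))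
    rw [Finset.coe_insert, Finset.coe_singleton] at h2
    exact h2.trans (Finset.card_le_two)
  have h3 : Module.finrank F (J ⧸ jpow F J 2) = 3 := hn
  omega

theorem six [IsAlgClosed F] {e : J} (h : Crit F J 6 e) (hn : ngen F J = 3) {x : J} (hx : Lay F x)
    (hx3 : x * x ∉ jpow F J 3) : False := by
  obtain ⟨χ, hχ1, hχ3⟩ := hx.exists_chi hx3
  have hχ : Chi F x χ := { toLay := hx, one := hχ1, zero := hχ3 }
  have h2 := h.two
  have hfin := h.fin
  have h7 : jpow F J 7 = ⊥ := h.bot
  have z7 : ∀ p ∈ jpow F J 7, p = 0 := fun p hp => by rwa [h7, Submodule.mem_bot] at hp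
  -- `x⁶ ≠ 0`
  have hx6 : xp x 6 ≠ 0 := by
    intro h0
    have he : e ∈ jpow F J 6 := by
      rw [h.top]; exact Submodule.mem_span_singleton_self e
    obtain ⟨r, q, hq, hr⟩ := hx.mem_even' 3 (by omega) (n := 6) (by omega) he
    rw [h0, smul_zero, zero_add, z7 q hq] at hr
    exact h.ne hr
  have hJ2 : ∀ p ∈ jpow F J 2, ∀ w : J, χ (p * w) = 0 := fun p hp w => Six1_J2_le_K0 hχ hp w
  -- `b (b v) ∈ J⁶` implies `v ∈ K0`
  have hA : ∀ v : J, (x * x) * ((x * x) * v) ∈ jpow F J 6 → ∀ w, χ (v * w) = 0 := by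
    intro v hv w
    have h3 := z7 _ (hχ.mul_bb w v)
    rw [z7 _ (lmul_mem (j := 6) rfl w hv), zero_sub, neg_eq_zero, mul_comm w v] at h3
    exact (smul_eq_zero.mp h3).resolve_right hx6
  have hbb : ∀ p ∈ jpow F J 2, (x * x) * ((x * x) * p) ∈ jpow F J 6 := fun p hp =>
    bmul_mem (k := 4) rfl x (bmul_mem (k := 2) rfl x hp)
  by_cases hK : ∀ v : J, (∀ w, χ (v * w) = 0) → v ∈ jpow F J 2
  · exact six_count h hn hx hx3 fun v hv => hK v (hA v hv)
  push Not at hK
  obtain ⟨z, hz, hz2⟩ := hK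
  have hzz : ∀ t : F, t • z ∈ jpow F J 2 → t = 0 := by
    intro t ht
    by_contra h0
    apply hz2
    have := Submodule.smul_mem _ t⁻¹ ht
    rwa [smul_smul, inv_mul_cancel₀ h0, one_smul] at this
  by_cases hK2 : ∀ v : J, (∀ w, χ (v * w) = 0) → ∃ t : F, v - t • z ∈ jpow F J 2
  swap
  · -- rank 1
    push Not at hK2
    obtain ⟨y, hy, hy2⟩ := hK2
    have hind : ∀ r s t : F, r • x + s • y + t • z ∈ jpow F J 2 → r = 0 ∧ s = 0 ∧ t = 0 := by
      intro r s t hr
      have h3 := hJ2 _ hr x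
      simp only [add_mul, smul_mul_assoc, map_add, map_smul, hy x, hz x, hχ1, smul_eq_mul,
        mul_one, mul_zero, add_zero] at h3
      subst h3
      rw [zero_smul, zero_add] at hr
      have hs : s = 0 := by
        by_contra h0
        apply hy2 (-(s⁻¹ * t))
        have := Submodule.smul_mem _ s⁻¹ hr
        rw [smul_add, smul_smul, inv_mul_cancel₀ h0, one_smul, smul_smul] at this
        rwa [neg_smul, sub_neg_eq_add]
      subst hs
      rw [zero_smul, zero_add] at hr
      exact ⟨rfl, rfl, hzz t hr⟩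
    exact six1 h hχ hy hz hind (Six0_span hn x y z hind)
  -- rank 2
  by_cases hbbz : (x * x) * ((x * x) * z) ∈ jpow F J 6
  swap
  · refine six_count h hn hx hx3 fun v hv => ?_
    obtain ⟨t, ht⟩ := hK2 v (hA v hv)
    have h3 : t • ((x * x) * ((x * x) * z)) ∈ jpow F J 6 := by
      have h4 := hbb _ ht
      have h5 := sub_mem hv h4
      simp only [mul_sub, mul_smul_comm] at h5
      rwa [sub_sub_cancel] at h5
    have ht0 : t = 0 := by
      by_contra h0
      apply hbbz
      have := Submodule.smul_mem _ t⁻¹ h3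
      rwa [smul_smul, inv_mul_cancel₀ h0, one_smul] at this
    rwa [ht0, zero_smul, sub_zero] at ht
  obtain ⟨v0, hv0⟩ := Six0_exists hn x z
  set v := v0 - χ (x * v0) • x with hv
  have hxv : χ (x * v) = 0 := by
    rw [hv, mul_sub, mul_smul_comm, map_sub, map_smul, hχ1, smul_eq_mul, mul_one, sub_self]
  have hvx : χ (v * x) = 0 := by rw [mul_comm]; exact hxv
  have hv' : v ∉ Submodule.span F {x, z} ⊔ jpow F J 2 := by
    intro hmem
    apply hv0
    have hxm : x ∈ Submodule.span F {x, z} ⊔ jpow F J 2 :=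
      Submodule.mem_sup_left (Submodule.subset_span (by simp))
    have := add_mem hmem (Submodule.smul_mem _ (χ (x * v0)) hxm)
    rwa [hv, sub_add_cancel] at this
  have hzm : ∀ t : F, t • z ∈ Submodule.span F {x, z} ⊔ jpow F J 2 := fun t =>
    Submodule.mem_sup_left (Submodule.smul_mem _ _ (Submodule.subset_span (by simp)))
  have hxm : ∀ t : F, t • x ∈ Submodule.span F {x, z} ⊔ jpow F J 2 := fun t =>
    Submodule.mem_sup_left (Submodule.smul_mem _ _ (Submodule.subset_span (by simp)))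
  have hzv : ∀ w, χ (w * z) = 0 := fun w => by rw [mul_comm]; exact hz w
  -- `x, v, z` independent
  have hind0 : ∀ r s t : F, r • x + s • v + t • z ∈ jpow F J 2 → r = 0 ∧ s = 0 ∧ t = 0 := by
    intro r s t hr
    have hs : s = 0 := by
      by_contra h0
      apply hv'
      have h3 : s • v ∈ Submodule.span F {x, z} ⊔ jpow F J 2 := by
        have h4 := sub_mem (sub_mem (Submodule.mem_sup_right (S := Submodule.span F {x, z}) hr)
          (hxm r)) (hzm t)
        have e4 : r • x + s • v + t • z - r • x - t • z = s • v := by abel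
        rwa [e4] at h4
      have := Submodule.smul_mem _ s⁻¹ h3
      rwa [smul_smul, inv_mul_cancel₀ h0, one_smul] at this
    subst hs
    have h3 := hJ2 _ hr x
    simp only [add_mul, smul_mul_assoc, map_add, map_smul, hvx, hz x, hχ1, smul_eq_mul,
      mul_one, mul_zero, add_zero] at h3
    subst h3
    rw [zero_smul, zero_smul, zero_add, zero_add] at hr
    exact ⟨rfl, rfl, hzz t hr⟩
  have htop := Six0_span hn x v z hind0
  have hvv : χ (v * v) ≠ 0 := by
    intro h0
    have hvK : ∀ w, χ (v * w) = 0 := by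
      intro w
      have hw : w ∈ Submodule.span F (Set.range ![x, v, z]) ⊔ jpow F J 2 := by
        rw [htop]; exact Submodule.mem_top
      have hle : Submodule.span F (Set.range ![x, v, z]) ⊔ jpow F J 2 ≤
          LinearMap.ker (χ ∘ₗ LinearMap.mulLeft F v) := by
        refine sup_le ?_ ?_
        · rw [Submodule.span_le]
          rintro _ ⟨i, rfl⟩
          fin_cases i
          · exact hvx
          · exact h0
          · exact hzv v
        · intro p hp
          change χ (v * p) = 0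
          rw [mul_comm]
          exact hJ2 p hp v
      exact hle hw
    obtain ⟨t, ht⟩ := hK2 v hvK
    apply hv'
    have := add_mem (Submodule.mem_sup_right (S := Submodule.span F {x, z}) ht) (hzm t)
    rwa [sub_add_cancel] at this
  obtain ⟨κ, hκ⟩ := IsAlgClosed.exists_pow_nat_eq (-χ (v * v)) (n := 2) (by norm_num)
  have hκ0 : κ ≠ 0 := by
    intro h0
    rw [h0] at hκ
    apply hvv
    linear_combination hκ
  set e' := v + κ • x with he'
  set f' := v - κ • x with hf'
  have hee : χ (e' * e') = 0 := by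
    rw [he']
    simp only [add_mul, mul_add, smul_mul_assoc, mul_smul_comm, map_add, map_smul, hxv, hvx, hχ1,
      smul_eq_mul]
    linear_combination hκ
  have hff : χ (f' * f') = 0 := by
    rw [hf']
    simp only [sub_mul, mul_sub, smul_mul_assoc, mul_smul_comm, map_sub, map_smul, hxv, hvx, hχ1,
      smul_eq_mul]
    linear_combination hκ
  have hef : χ (e' * f') = 2 * χ (v * v) := by
    rw [he', hf']
    simp only [add_mul, mul_sub, smul_mul_assoc, mul_smul_comm, map_add, map_sub, map_smul, hxv,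
      hvx, hχ1, smul_eq_mul]
    linear_combination -hκ
  have hef0 : χ (e' * f') ≠ 0 := by
    rw [hef]; exact mul_ne_zero h2 hvv
  have hind : ∀ r s t : F, r • e' + s • f' + t • z ∈ jpow F J 2 → r = 0 ∧ s = 0 ∧ t = 0 := by
    intro r s t hr
    have e1 : r • e' + s • f' + t • z = (r * κ - s * κ) • x + (r + s) • v + t • z := by
      rw [he', hf']
      module
    rw [e1] at hr
    obtain ⟨h3, h4, h5⟩ := hind0 _ _ _ hr
    have h6 : r = s := by
      have : (r - s) * κ = 0 := by linear_combination h3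
      rcases mul_eq_zero.mp this with h7 | h7
      · exact sub_eq_zero.mp h7
      · exact absurd h7 hκ0
    subst h6
    have h7 : r = 0 := by
      have : (2 : F) * r = 0 := by linear_combination h4
      exact (mul_eq_zero.mp this).resolve_left h2
    exact ⟨h7, h7, h5⟩
  exact six2 h hχ hz hee hff hef0 hbbz hind (Six0_span hn e' f' z hind)

end L2
end JD
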