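import Pool.Agent.H78.L2.LA
import Pool.Agent.H8.JD.CritPic
import Pool.Agent.H8.JD.SSysEx
import Pool.Agent.H74.JD.Weight

set_option autoImplicit false
set_option linter.unusedSectionVars false
set_option linter.unusedVariables false
set_option maxHeartbeats 400000

/-!
# JD L2: tools for the associative picture

* `Fam G w s`: the filtration defined by a family of subspaces with weights; `mem_Fam`, `Fam_le`,
  `filt_Fam`.
* `r_mem_ge`: `r ∈ ge a m` if all weights are `≥ m ≥ 1`.
* `exists_G`: `J^n ⊆ ρ (symmetric elements of ge a (n m))`.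
* `sq_mem`: `x i * x i ∈ J^n` implies `X i * X i ∈ ge a (n m)` if `Φ (n m + a 0 + a 1 + a 2) = ⊥`.
* `step2`: one step if all words of weight `s` have length at most 2.
* `finish`: the final contradiction.
-/

namespace JD
namespace L2

universe u

variable {F : Type u} [Field F] {J : Type u} [NonUnitalNonAssocCommRing J] [Module F J]

/-- filtration given by a family -/
def Fam {κ : Type} (G : κ → Submodule F J) (w : κ → ℕ) (s : ℕ) : Submodule F J :=
  ⨆ (k : κ) (_ : s ≤ w k), G k

section
variable {κ : Type} {G : κ → Submodule F J} {w : κ → ℕ}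

theorem mem_Fam {s : ℕ} (k : κ) (h : s ≤ w k) {p : J} (hp : p ∈ G k) : p ∈ Fam G w s :=
  Submodule.mem_iSup_of_mem k (Submodule.mem_iSup_of_mem h hp)

theorem Fam_le {s : ℕ} {T : Submodule F J} (h : ∀ k, s ≤ w k → G k ≤ T) : Fam G w s ≤ T :=
  iSup_le fun k => iSup_le fun hk => h k hk

theorem Fam_anti (m n : ℕ) (h : m ≤ n) : Fam G w n ≤ Fam G w m :=
  Fam_le fun k hk _ hp => mem_Fam k (h.trans hk) hp

theorem Fam_eq_bot {s : ℕ} (h : ∀ k, w k < s) : Fam G w s = ⊥ := by
  rw [eq_bot_iff]
  exact Fam_le fun k hk => absurd hk (by have := h k; omega)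

variable [IsScalarTower F J J] [SMulCommClass F J J]

theorem filt_Fam {ι : Type} (x : ι → J) (a : ι → ℕ) (hx : ∀ i, x i ∈ Fam G w (a i))
    (hmul : ∀ k l, ∀ p ∈ G k, ∀ q ∈ G l, p * q ∈ Fam G w (w k + w l)) :
    Filt F x a (Fam G w) := by
  refine ⟨Fam_anti, ?_, hx⟩
  intro m n p hp q hq
  have h1 : Fam G w m ≤ (Fam G w (m + n)).comap (LinearMap.mulRight F q) := by
    refine Fam_le fun k hk p hp => ?_
    have h3 : Fam G w n ≤ (Fam G w (m + n)).comap (LinearMap.mulLeft F p) := by
      refine Fam_le fun l hl q hq => ?_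
      exact Fam_anti _ _ (by omega) (hmul k l p hp q hq)
    exact h3 hq
  exact h1 hp

end

section
variable [IsScalarTower F J J] [SMulCommClass F J J]
variable {x : Fin 3 → J} {S : List (Fin 3) → J} {u : J} {E : Type u} [Ring E] [Algebra F E]
  (P : EPic F J x S u E) (a : Fin 3 → ℕ)

theorem r_mem_ge (h2 : (2 : F) ≠ 0) (hS : SSys F x S) (hu0 : u ≠ 0) {m : ℕ}
    (hm : ∀ i, m ≤ a i) : P.r ∈ P.ge a m := by
  obtain ⟨N, hN⟩ := hS.bdd
  set o : Fin 3 → ℕ := fun _ => 1 with ho
  have hwo : ∀ w : List (Fin 3), wt o w = w.length := wt_one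
  have hbig : P.ge o N = ⊥ := by
    rw [eq_bot_iff]
    unfold EPic.ge
    rw [Submodule.span_le]
    rintro _ ⟨w, hw, rfl⟩
    rw [SetLike.mem_coe, Submodule.mem_bot]
    apply P.nondeg
    intro p q
    rw [← word_append, ← word_append, P.ρ_word]
    apply hN
    have : N ≤ w.length := by rw [← hwo]; exact hw
    simp only [List.length_append]
    omega
  have hdec : ∀ b : E, ∃ c : F, ∃ n ∈ P.ge o 1, b = c • (1 : E) + n := by
    intro b
    have hb : b ∈ Submodule.span F (Set.range (word P.X)) := by rw [P.span]; trivial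
    induction hb using Submodule.span_induction with
    | mem y hy =>
      obtain ⟨w, rfl⟩ := hy
      rcases eq_or_ne w [] with h | h
      · subst h
        exact ⟨1, 0, zero_mem _, by rw [word_nil]; simp⟩
      · refine ⟨0, word P.X w, P.word_mem_ge o ?_, by simp⟩
        rw [hwo]
        exact List.length_pos_iff.mpr h
    | zero => exact ⟨0, 0, zero_mem _, by simp⟩
    | add y z _ _ hy hz =>
      obtain ⟨c, n, hn, rfl⟩ := hy
      obtain ⟨d, n', hn', rfl⟩ := hz
      exact ⟨c + d, n + n', add_mem hn hn', by rw [add_smul]; abel⟩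
    | smul t y _ hy =>
      obtain ⟨c, n, hn, rfl⟩ := hy
      exact ⟨t * c, t • n, Submodule.smul_mem _ _ hn, by rw [smul_add, mul_smul]⟩
  obtain ⟨c, n, hn, hr⟩ := hdec P.r
  have hcase : c = 0 := by
    by_contra hc
    have hX : ∀ i, P.X i ∈ P.ge o (1 + 1) := by
      intro i
      have h1 := P.X_mul_r i
      rw [hr] at h1
      have hX1 : P.X i ∈ P.ge o 1 := P.X_mem_ge o i
      have h3 : P.X i * n + n * P.X i ∈ P.ge o (1 + 1) :=
        add_mem (P.mul_mem_ge o hX1 hn) (P.mul_mem_ge o hn hX1)
      have h4 : (2 * c) • P.X i = - (P.X i * n + n * P.X i) := by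
        rw [mul_add, add_mul, mul_smul_comm, smul_mul_assoc, mul_one, one_mul] at h1
        rw [eq_neg_iff_add_eq_zero, mul_smul, two_smul]
        rw [eq_neg_iff_add_eq_zero] at h1
        rw [← h1]
        abel
      have h5 : (2 * c) • P.X i ∈ P.ge o (1 + 1) := by rw [h4]; exact neg_mem h3
      have h6 := Submodule.smul_mem _ (2 * c)⁻¹ h5
      rwa [smul_smul, inv_mul_cancel₀ (mul_ne_zero h2 hc), one_smul] at h6
    have hstep : ∀ k, 1 ≤ k → P.ge o k ≤ P.ge o (k + 1) := by
      intro k hk
      conv_lhs => unfold EPic.ge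
      rw [Submodule.span_le]
      rintro _ ⟨w, hw, rfl⟩
      rw [Set.mem_setOf_eq, hwo] at hw
      match w, hw with
      | [], hw => simp at hw; omega
      | i :: w, hw =>
        rw [SetLike.mem_coe, word_cons]
        have h7 := P.mul_mem_ge o (hX i) (P.word_mem_ge o (s := w.length) (w := w)
          (by rw [hwo]))
        have h8 : w.length + 1 = (i :: w).length := rfl
        exact P.ge_anti o (by omega) h7
    have hall : ∀ k, P.ge o 1 ≤ P.ge o (k + 1) := by
      intro k
      induction k with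
      | zero => exact le_rfl
      | succ k ih => exact ih.trans (hstep (k + 1) (by omega))
    have hw0 : word P.X [0, 1, 2] = 0 := by
      have h1 : word P.X [0, 1, 2] ∈ P.ge o 1 := P.word_mem_ge o (by rw [hwo]; simp)
      have h3 := P.ge_anti o (show N ≤ N + 1 by omega) (hall N h1)
      rwa [hbig, Submodule.mem_bot] at h3
    have h8 := P.rho_r_word [0, 1, 2]
    rw [hw0, mul_zero, map_zero] at h8
    have h9 : det3 F [0, 1, 2] = 1 := by simp [det3]
    rw [h9, one_smul] at h8
    exact hu0 h8.symm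
  rw [hcase, zero_smul, zero_add] at hr
  rw [hr]
  have hle : P.ge o 1 ≤ P.ge a m := by
    unfold EPic.ge
    refine Submodule.span_mono ?_
    rintro _ ⟨w, hw, rfl⟩
    rw [Set.mem_setOf_eq, hwo] at hw
    refine ⟨w, ?_, rfl⟩
    match w, hw with
    | [], hw => simp at hw
    | i :: w, _ =>
      have := hm i
      rw [Set.mem_setOf_eq, SM.wt_cons]
      omega
  exact hle hn

theorem four_ne (h2 : (2 : F) ≠ 0) : (4 : F) ≠ 0 := by
  have : (4 : F) = 2 * 2 := by norm_num
  rw [this]; exact mul_ne_zero h2 h2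

theorem S_two (h2 : (2 : F) ≠ 0) (hS : SSys F x S) (i j : Fin 3) : S [i, j] = x i * x j := by
  have h := hS.mul [i] [j] (by simp) (by simp)
  rw [hS.single, hS.single] at h
  have hr := hS.rev [i, j]
  simp only [List.reverse_singleton, List.singleton_append, List.reverse_cons,
    List.reverse_nil, List.nil_append, List.cons_append] at h hr
  rw [hr] at h
  have h3 : (4 : F) • (x i * x j) = (4 : F) • S [i, j] := by
    rw [h]
    module
  have := congrArg (fun t => (4 : F)⁻¹ • t) h3
  simp only [smul_smul, inv_mul_cancel₀ (four_ne h2), one_smul] at this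
  exact this.symm

theorem jpow_le_S (h2 : (2 : F) ≠ 0) (hS : SSys F x S)
    (hspan : Submodule.span F (Set.range S) = ⊤) (n : ℕ) (hn : 1 ≤ n) :
    jpow F J n ≤ Submodule.span F (S '' {w | n ≤ w.length ∧ w ≠ []}) := by
  induction n using Nat.strong_induction_on with
  | _ n ih =>
    rcases Nat.lt_or_ge n 2 with h | h
    · obtain rfl : n = 1 := by omega
      rw [jpow_one, ← hspan, Submodule.span_le]
      rintro _ ⟨w, rfl⟩
      rcases eq_or_ne w [] with h | h
      · subst h
        rw [hS.nil]
        exact zero_mem _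
      · exact Submodule.subset_span ⟨w, ⟨List.length_pos_iff.mpr h, h⟩, rfl⟩
    · refine jpow_le_of h _ fun i j hi hj hij p hp q hq => ?_
      have hp' := ih i (by omega) hi hp
      have hq' := ih j (by omega) hj hq
      clear hp hq
      induction hp' using Submodule.span_induction with
      | mem p hp =>
        obtain ⟨v, ⟨hv, hv0⟩, rfl⟩ := hp
        induction hq' using Submodule.span_induction with
        | mem q hq =>
          obtain ⟨w, ⟨hw, hw0⟩, rfl⟩ := hq
          have e : S v * S w = (4 : F)⁻¹ • (S (v ++ w) + S (v ++ w.reverse) +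
                S (v.reverse ++ w) + S (w ++ v)) := by
            rw [← hS.mul v w hv0 hw0, smul_smul, inv_mul_cancel₀ (four_ne h2), one_smul]
          rw [e]
          have hm : ∀ t : List (Fin 3), n ≤ t.length →
              S t ∈ Submodule.span F (S '' {w | n ≤ w.length ∧ w ≠ []}) := by
            intro t ht
            refine Submodule.subset_span ⟨t, ⟨ht, ?_⟩, rfl⟩
            rintro rfl
            simp at ht
            omega
          refine Submodule.smul_mem _ _ (add_mem (add_mem (add_mem (hm _ ?_) (hm _ ?_))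
            (hm _ ?_)) (hm _ ?_)) <;> simp <;> omega
        | zero => rw [mul_zero]; exact zero_mem _
        | add b c _ _ hb hc => rw [mul_add]; exact add_mem hb hc
        | smul r b _ hb => rw [mul_smul_comm]; exact Submodule.smul_mem _ _ hb
      | zero => rw [zero_mul]; exact zero_mem _
      | add a c _ _ ha hc => rw [add_mul]; exact add_mem ha hc
      | smul r a _ ha => rw [smul_mul_assoc]; exact Submodule.smul_mem _ _ ha

theorem exists_G (h2 : (2 : F) ≠ 0) (hS : SSys F x S) {m : ℕ} (hm : ∀ i, m ≤ a i) (n : ℕ)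
    (hn : 1 ≤ n) {p : J} (hp : p ∈ jpow F J n)
    (hspan : Submodule.span F (Set.range S) = ⊤) :
    ∃ G ∈ P.ge a (n * m), P.star G = G ∧ P.ρ G = p ∧
      G ∈ Submodule.span F (word P.X '' {w | w ≠ []}) := by
  have hp' := jpow_le_S h2 hS hspan n hn hp
  clear hp
  have hlen : ∀ w : List (Fin 3), w.length * m ≤ wt a w := by
    intro w
    induction w with
    | nil => simp
    | cons i w ih =>
      rw [SM.wt_cons, List.length_cons, add_mul, one_mul]
      have := hm i
      omega
  induction hp' using Submodule.span_induction with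
  | mem p hp =>
    obtain ⟨w, ⟨hw, hw0⟩, rfl⟩ := hp
    have hle : n * m ≤ wt a w := (Nat.mul_le_mul_right m hw).trans (hlen w)
    have hw0' : w.reverse ≠ [] := by simpa using hw0
    refine ⟨(2 : F)⁻¹ • (word P.X w + word P.X w.reverse), ?_, ?_, ?_, ?_⟩
    · refine Submodule.smul_mem _ _ (add_mem (P.word_mem_ge a hle) (P.word_mem_ge a ?_))
      rw [SM.wt_reverse]; exact hle
    · rw [map_smul, map_add, P.star_word, P.star_word, List.reverse_reverse, add_comm]
    · rw [map_smul, map_add, P.ρ_word, P.ρ_word, hS.rev, ← two_smul F, smul_smul,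
        inv_mul_cancel₀ h2, one_smul]
    · exact Submodule.smul_mem _ _ (add_mem (Submodule.subset_span ⟨w, hw0, rfl⟩)
        (Submodule.subset_span ⟨_, hw0', rfl⟩))
  | zero => exact ⟨0, zero_mem _, map_zero _, map_zero _, zero_mem _⟩
  | add p q _ _ hp hq =>
    obtain ⟨G, h1, h3, h4, h5⟩ := hp
    obtain ⟨G', h1', h3', h4', h5'⟩ := hq
    exact ⟨G + G', add_mem h1 h1', by rw [map_add, h3, h3'], by rw [map_add, h4, h4'],
      add_mem h5 h5'⟩
  | smul r p _ hp =>
    obtain ⟨G, h1, h3, h4, h5⟩ := hp
    exact ⟨r • G, Submodule.smul_mem _ _ h1, by rw [map_smul, h3], by rw [map_smul, h4],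
      Submodule.smul_mem _ _ h5⟩

theorem sq_mem (h2 : (2 : F) ≠ 0) (hS : SSys F x S) (hu0 : u ≠ 0)
    (hspan : Submodule.span F (Set.range S) = ⊤) {Φ : ℕ → Submodule F J}
    (hΦ : Filt F x a Φ) {m n : ℕ} (hm : ∀ i, m ≤ a i) (hn : 1 ≤ n)
    (hg0 : Φ (n * m + (a 0 + a 1 + a 2)) = ⊥) {i : Fin 3} (hi : x i * x i ∈ jpow F J n) :
    P.X i * P.X i ∈ P.ge a (n * m) := by
  obtain ⟨G, h1, h3, h4, h5⟩ := exists_G P a h2 hS hm n hn hi hspan
  have hw : P.X i * P.X i = word P.X [i, i] := by
    rw [word_cons, word_cons, word_nil, mul_one]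
  obtain ⟨c, hc⟩ := P.ker (P.X i * P.X i - G) (by
    rw [map_sub, P.star_mul, P.star_X, h3]) (sub_mem (by
      rw [hw]
      exact Submodule.subset_span ⟨_, by simp, rfl⟩) h5) (by
    rw [map_sub, h4, hw, P.ρ_word, S_two h2 hS, sub_self])
  have h0 := P.sq_zero a h2 hS hu0 hΦ hg0 h1 hc
  rw [h0, zero_smul, sub_eq_zero] at hc
  rw [hc]
  exact h1

/-- one step if all words of weight `s` have length at most 2 -/
theorem step2 (h2 : (2 : F) ≠ 0) (hS : SSys F x S) {Φ : ℕ → Submodule F J}
    (hΦ : Filt F x a Φ) {s : ℕ} (hs0 : 1 ≤ s) (hs : ∀ i j k, s < a i + a j + a k)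
    (hgood : ∀ (c1 : Fin 3 → F) (c2 : Fin 3 → Fin 3 → F),
      (∑ i, (if a i = s then c1 i else 0) • x i) +
        (∑ i, ∑ j, (if i ≤ j ∧ a i + a j = s then c2 i j else 0) • (x i * x j)) ∈ Φ (s + 1) →
      (∀ i, a i = s → c1 i = 0) ∧
      ∀ i j, i ≤ j → a i + a j = s →
        c2 i j = 0 ∨ P.X i * P.X j + P.X j * P.X i ∈ P.ge a (s + 1))
    (hr : P.r ∈ P.ge a s) : P.r ∈ P.ge a (s + 1) := by
  classical
  let f1 : Fin 3 ↪ List (Fin 3) := ⟨fun i => [i], fun i j h => by simpa using h⟩
  let f2 : Fin 3 × Fin 3 ↪ List (Fin 3) :=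
    ⟨fun p => [p.1, p.2], fun p q h => by
      simp only [List.cons.injEq, and_true] at h
      exact Prod.ext h.1 h.2⟩
  let A : Finset (List (Fin 3)) := (Finset.univ.filter fun i => a i = s).map f1
  let B : Finset (List (Fin 3)) :=
    ((Finset.univ ×ˢ Finset.univ).filter fun p : Fin 3 × Fin 3 =>
      p.1 ≤ p.2 ∧ a p.1 + a p.2 = s).map f2
  have hdisj : Disjoint A B := by
    rw [Finset.disjoint_left]
    intro w hA hB
    simp only [A, B, Finset.mem_map] at hA hB
    obtain ⟨i, _, hi⟩ := hA
    obtain ⟨p, _, hp⟩ := hB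
    rw [← hi] at hp
    simp [f1, f2] at hp
  refine P.step a h2 hS hΦ (A ∪ B) ?_ ?_ hr P.star_r (by rw [P.rho_r]; exact zero_mem _)
  · intro w hw
    match w, hw with
    | [], hw => simp at hw; omega
    | [i], hw =>
      left
      rw [Finset.mem_union]
      left
      simp only [A, Finset.mem_map, Finset.mem_filter, Finset.mem_univ, true_and]
      exact ⟨i, by simpa using hw, rfl⟩
    | [i, j], hw =>
      have hw' : a i + a j = s := by simpa using hw
      rcases le_total i j with hij | hij
      · left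
        rw [Finset.mem_union]
        right
        simp only [B, Finset.mem_map, Finset.mem_filter, Finset.mem_product, Finset.mem_univ,
          true_and]
        exact ⟨(i, j), ⟨hij, hw'⟩, rfl⟩
      · right
        rw [Finset.mem_union]
        right
        simp only [B, Finset.mem_map, Finset.mem_filter, Finset.mem_product, Finset.mem_univ,
          true_and]
        exact ⟨(j, i), ⟨hij, by change a j + a i = s; omega⟩, rfl⟩
    | i :: j :: k :: w, hw =>
      exfalso
      have := hs i j k
      simp only [SM.wt_cons] at hw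
      omega
  · intro c hc
    have e1 : ∑ w ∈ A ∪ B, c w • S w =
        (∑ i, (if a i = s then c [i] else 0) • x i) +
        (∑ i, ∑ j, (if i ≤ j ∧ a i + a j = s then c [i, j] else 0) • (x i * x j)) := by
      rw [Finset.sum_union hdisj]
      congr 1
      · rw [Finset.sum_map, Finset.sum_filter]
        refine Finset.sum_congr rfl fun i _ => ?_
        by_cases h : a i = s
        · rw [if_pos h, if_pos h]
          change c [i] • S [i] = _
          rw [hS.single]
        · rw [if_neg h, if_neg h, zero_smul]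
      · rw [Finset.sum_map, Finset.sum_filter, Finset.sum_product]
        refine Finset.sum_congr rfl fun i _ => Finset.sum_congr rfl fun j _ => ?_
        by_cases h : i ≤ j ∧ a i + a j = s
        · rw [if_pos h, if_pos h]
          change c [i, j] • S [i, j] = _
          rw [S_two h2 hS]
        · rw [if_neg h, if_neg h, zero_smul]
    rw [e1] at hc
    obtain ⟨h3, h4⟩ := hgood (fun i => c [i]) (fun i j => c [i, j]) hc
    refine Submodule.sum_mem _ fun w hw => ?_
    rw [Finset.mem_union] at hw
    rcases hw with hw | hw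
    · simp only [A, Finset.mem_map, Finset.mem_filter, Finset.mem_univ, true_and] at hw
      obtain ⟨i, hi, rfl⟩ := hw
      change c [i] • _ ∈ _
      rw [h3 i hi, zero_smul]
      exact zero_mem _
    · simp only [B, Finset.mem_map, Finset.mem_filter, Finset.mem_product, Finset.mem_univ,
        true_and] at hw
      obtain ⟨⟨i, j⟩, ⟨hij, hs'⟩, rfl⟩ := hw
      change c [i, j] • (word P.X [i, j] + word P.X [j, i]) ∈ _
      rcases h4 i j hij hs' with h5 | h5
      · rw [h5, zero_smul]; exact zero_mem _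
      · refine Submodule.smul_mem _ _ ?_
        rw [word_cons, word_cons, word_nil, mul_one, word_cons, word_cons, word_nil, mul_one]
        exact h5

/-- the final contradiction -/
theorem finish {c : ℕ} {e : J} (h : Crit F J c e) (hS : SSys F x S)
    (hspan : Submodule.span F (Set.range S) = ⊤) {Φ : ℕ → Submodule F J}
    (hΦ : Filt F x a Φ) {N m : ℕ} (hm : ∀ i, m ≤ a i) (hN : Φ (N + 1) = ⊥)
    (hsteps : ∀ (E : Type u) (_ : Ring E) (_ : Algebra F E) (P : EPic F J x S e E),
      ∀ s, m ≤ s → s + (a 0 + a 1 + a 2) ≤ N → P.r ∈ P.ge a s → P.r ∈ P.ge a (s + 1)) :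
    False := by
  obtain ⟨E, i1, i2, ⟨P⟩⟩ := crit_EPic h x S hS hspan
  refine P.false_of_steps a h.two hS h.ne hΦ hN fun s hs hr => ?_
  rcases Nat.lt_or_ge s m with h1 | h1
  · exact P.ge_anti a (by omega) (r_mem_ge P a h.two hS h.ne hm)
  · exact hsteps E i1 i2 P s h1 hs hr

end

end L2
end JD
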