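import Pool.Agent.H78.L2.UniA
import Pool.Agent.H78.L2.SExt
import Pool.Agent.H78.L2.Fin

set_option autoImplicit false
set_option linter.unusedSectionVars false
set_option linter.unusedVariables false
set_option maxHeartbeats 1000000

/-!
# JD L2: the uniform case, filtration and conclusion
-/

namespace JD
namespace L2

universe u

variable {F : Type u} [Field F] {J : Type u} [NonUnitalNonAssocCommRing J] [Module F J]
  [IsScalarTower F J J] [SMulCommClass F J J]

/-- the family of subspaces -/
noncomputable def UG (F : Type u) [Field F] {J : Type u} [NonUnitalNonAssocCommRing J] [Module F J]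
    [IsScalarTower F J J] [SMulCommClass F J J] (x : J) (M : Submodule F J) :
    ℕ ⊕ Bool → Submodule F J
  | .inl i => Submodule.span F {xp x i}
  | .inr true => M
  | .inr false => M ⊓ jpow F J 2

/-- the weights -/
def Uw (c : ℕ) : ℕ ⊕ Bool → ℕ
  | .inl i => 4 * i
  | .inr true => c + 1
  | .inr false => 2 * (c + 1)

section
variable {x : J} {c : ℕ} {φ : J →ₗ[F] F} {M : Submodule F J}

theorem UniB_x {s i : ℕ} (h : s ≤ 4 * i) : xp x i ∈ Fam (UG F x M) (Uw c) s :=
  mem_Fam (.inl i) h (Submodule.mem_span_singleton_self _)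

theorem UniB_C {s j : ℕ} (h : s ≤ 4 * j) {v : J} (hv : v ∈ Cg F x j) :
    v ∈ Fam (UG F x M) (Uw c) s :=
  Cg_le x (fun i hi => UniB_x (by omega)) hv

theorem UniB_M {s : ℕ} (h : s ≤ c + 1) {v : J} (hv : v ∈ M) :
    v ∈ Fam (UG F x M) (Uw c) s :=
  mem_Fam (G := UG F x M) (w := Uw c) (.inr true) h (show v ∈ UG F x M (.inr true) from hv)

theorem UniB_Q {s : ℕ} (h : s ≤ 2 * (c + 1)) {v : J} (hv : v ∈ M) (hv2 : v ∈ jpow F J 2) :
    v ∈ Fam (UG F x M) (Uw c) s :=
  mem_Fam (G := UG F x M) (w := Uw c) (.inr false) h
    (show v ∈ M ⊓ jpow F J 2 from ⟨hv, hv2⟩)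

theorem UniB_xM (h : Uni F x c φ M) (i : ℕ) {m : J} (hm : m ∈ M) :
    xp x i * m ∈ Fam (UG F x M) (Uw c) (4 * i + (c + 1)) := by
  have hc := h.hc
  rcases (by omega : i = 0 ∨ i = 1 ∨ i = 2 ∨ i = 3 ∨ i = 4 ∨ 5 ≤ i) with
    rfl | rfl | rfl | rfl | rfl | h5
  · rw [xp_zero, zero_mul]; exact zero_mem _
  · exact UniB_Q (by omega) (h.M_mul hm) (mul_mem_two x m)
  · obtain ⟨q, hq, hq2, hqc⟩ := h.bM hm
    have e : xp x 2 * m = q + ((x * x) * m - q) := by rw [xp_two]; abel
    rw [e]
    exact add_mem (UniB_Q (by omega) hq hq2) (UniB_C (by omega) hqc)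
  · exact UniB_C (by omega) (h.x3M hm)
  · exact UniB_C (by omega) (h.x4M hm)
  · rw [h.x5M i h5 m hm]; exact zero_mem _

theorem UniB_xQ (h : Uni F x c φ M) (i : ℕ) {q : J} (hq : q ∈ M) (hq2 : q ∈ jpow F J 2) :
    xp x i * q ∈ Fam (UG F x M) (Uw c) (4 * i + 2 * (c + 1)) := by
  have hc := h.hc
  rcases (by omega : i = 0 ∨ i = 1 ∨ i = 2 ∨ i = 3 ∨ i = 4 ∨ 5 ≤ i) with
    rfl | rfl | rfl | rfl | rfl | h5
  · rw [xp_zero, zero_mul]; exact zero_mem _
  · rw [xp_one, h.xQ hq hq2]; exact zero_mem _
  · exact UniB_C (by omega) (h.bQ hq hq2)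
  · exact UniB_C (by omega) (h.x3M hq)
  · have : xp x 4 * q = 0 := by
      rw [x4m F h.two h.jordan, h.xxM hq]
      simp only [mul_zero, smul_zero, add_zero, sub_zero]
      exact h.b_c (h.bQ hq hq2)
    rw [this]; exact zero_mem _
  · rw [h.x5M i h5 q hq]; exact zero_mem _

theorem UniB_MM (h : Uni F x c φ M) {m m' : J} (hm : m ∈ M) (hm' : m' ∈ M) :
    m * m' ∈ Fam (UG F x M) (Uw c) ((c + 1) + (c + 1)) := by
  have hc := h.hc
  obtain ⟨q, hq, hq2, hqc⟩ := h.MM hm hm'
  have e : m * m' = q + (m * m' - q) := by abel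
  rw [e]
  exact add_mem (UniB_Q (by omega) hq hq2) (UniB_C (by omega) hqc)

theorem UniB_MQ (h : Uni F x c φ M) {m q : J} (hm : m ∈ M) (hq : q ∈ M)
    (hq2 : q ∈ jpow F J 2) :
    m * q ∈ Fam (UG F x M) (Uw c) ((c + 1) + 2 * (c + 1)) := by
  have hc := h.hc
  exact UniB_C (by omega) (h.MQ hm hq hq2)

theorem UniB_mul (h : Uni F x c φ M) (k l : ℕ ⊕ Bool) (p : J) (hp : p ∈ UG F x M k) (q : J)
    (hq : q ∈ UG F x M l) : p * q ∈ Fam (UG F x M) (Uw c) (Uw c k + Uw c l) := by
  have hc := h.hc
  match k, l, hp, hq with
  | .inl i, .inl j, hp, hq =>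
    obtain ⟨a, rfl⟩ := Submodule.mem_span_singleton.mp hp
    obtain ⟨b, rfl⟩ := Submodule.mem_span_singleton.mp hq
    rw [smul_mul_smul_comm]
    refine Submodule.smul_mem _ _ ?_
    rcases Nat.eq_zero_or_pos i with rfl | hi
    · rw [xp_zero, zero_mul]; exact zero_mem _
    rcases Nat.eq_zero_or_pos j with rfl | hj
    · rw [xp_zero, mul_zero]; exact zero_mem _
    rw [xp_mul F h.two h.jordan x hi hj]
    exact UniB_x (by simp only [Uw]; omega)
  | .inl i, .inr true, hp, hq =>
    obtain ⟨a, rfl⟩ := Submodule.mem_span_singleton.mp hp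
    rw [smul_mul_assoc]
    exact Submodule.smul_mem _ _ (UniB_xM h i hq)
  | .inl i, .inr false, hp, hq =>
    obtain ⟨a, rfl⟩ := Submodule.mem_span_singleton.mp hp
    rw [smul_mul_assoc]
    exact Submodule.smul_mem _ _ (UniB_xQ h i hq.1 hq.2)
  | .inr true, .inl j, hp, hq =>
    obtain ⟨b, rfl⟩ := Submodule.mem_span_singleton.mp hq
    rw [mul_smul_comm, mul_comm]
    refine Submodule.smul_mem _ _ ?_
    have := UniB_xM h j hp
    rwa [add_comm] at this
  | .inr true, .inr true, hp, hq => exact UniB_MM h hp hq
  | .inr true, .inr false, hp, hq => exact UniB_MQ h hp hq.1 hq.2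
  | .inr false, .inl j, hp, hq =>
    obtain ⟨b, rfl⟩ := Submodule.mem_span_singleton.mp hq
    rw [mul_smul_comm, mul_comm]
    refine Submodule.smul_mem _ _ ?_
    have := UniB_xQ h j hp.1 hp.2
    rwa [add_comm] at this
  | .inr false, .inr true, hp, hq =>
    rw [mul_comm]
    have := UniB_MQ h hq hp.1 hp.2
    rwa [add_comm] at this
  | .inr false, .inr false, hp, hq =>
    rw [h.QQ hp.1 hp.2 hq.1 hq.2]; exact zero_mem _

theorem UniB_top (h : Uni F x c φ M) {s : ℕ} (hs : 4 * c + 1 ≤ s) :
    Fam (UG F x M) (Uw c) s = ⊥ := by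
  have hc := h.hc
  rw [eq_bot_iff]
  refine Fam_le fun k hk => ?_
  match k, hk with
  | .inl i, hk =>
    simp only [Uw] at hk
    simp only [UG]
    rw [h.xp_zero' (by omega)]
    simp
  | .inr true, hk => simp only [Uw] at hk; omega
  | .inr false, hk => simp only [Uw] at hk; omega

/-- functionals detecting the powers of `x` -/
theorem UniB_kap (h : Uni F x c φ M) {j s : ℕ} (hj : 1 ≤ j) (hs : 4 * j + 1 ≤ s) {v : J}
    (hv : v ∈ Fam (UG F x M) (Uw c) s) : kap F x φ (c - j) v = 0 := by
  have hle : Fam (UG F x M) (Uw c) s ≤ LinearMap.ker (kap F x φ (c - j)) := by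
    refine Fam_le fun k hk => ?_
    match k, hk with
    | .inl i, hk =>
      simp only [Uw] at hk
      simp only [UG]
      rw [Submodule.span_singleton_le_iff_mem, LinearMap.mem_ker, h.kap_xp' _ _ (by omega),
        if_neg (by omega)]
    | .inr true, hk => exact fun m hm => (h.mem m).mp hm _
    | .inr false, hk => exact fun m hm => (h.mem m).mp hm.1 _
  exact hle hv

theorem UniB_two (h : Uni F x c φ M) {s : ℕ} (hs : c + 2 ≤ s) {v : J}
    (hv : v ∈ Fam (UG F x M) (Uw c) s) : v ∈ Submodule.span F {x} ⊔ jpow F J 2 := by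
  have hle : Fam (UG F x M) (Uw c) s ≤ Submodule.span F {x} ⊔ jpow F J 2 := by
    refine Fam_le fun k hk => ?_
    match k, hk with
    | .inl i, hk =>
      simp only [UG]
      rw [Submodule.span_singleton_le_iff_mem]
      rcases (by omega : i = 0 ∨ i = 1 ∨ 2 ≤ i) with rfl | rfl | h2
      · rw [xp_zero]; exact zero_mem _
      · exact Submodule.mem_sup_left (Submodule.mem_span_singleton_self _)
      · exact Submodule.mem_sup_right (jpow_anti h2 (xp_mem x i))
    | .inr true, hk => simp only [Uw] at hk; omega
    | .inr false, hk => exact fun m hm => Submodule.mem_sup_right hm.2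
  exact hle hv

/-- generators in `M` -/
theorem Spl.exists_yz (h : Spl F x c φ M) [Module.Finite F J] (hn : ngen F J = 3) :
    ∃ y ∈ M, ∃ z ∈ M, (∀ r s t : F, r • x + s • y + t • z ∈ jpow F J 2 →
      r = 0 ∧ s = 0 ∧ t = 0) ∧
      Submodule.span F (Set.range ![x, y, z]) ⊔ jpow F J 2 = ⊤ := by
  have hc := h.hc
  set π := (jpow F J 2).mkQ with hπ
  have hπ0 : ∀ v, π v = 0 ↔ v ∈ jpow F J 2 := fun v => Submodule.Quotient.mk_eq_zero _
  set W := M.map π with hW
  have hkap : ∀ v ∈ jpow F J 2, kap F x φ (c - 1) v = 0 := fun v hv =>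
    h.kap_zero_of_mem (n := 2) (by omega) hv
  have hkx : kap F x φ (c - 1) x = 1 := by
    have := h.kap_xp' (c - 1) 1 le_rfl
    rw [xp_one, if_pos (by omega)] at this
    exact this
  have htop : Submodule.span F {π x} ⊔ W = ⊤ := by
    rw [eq_top_iff]
    intro v _
    obtain ⟨v, rfl⟩ := (jpow F J 2).mkQ_surjective v
    obtain ⟨m, hm, e⟩ := h.exists_dec v
    have hC : Cg F x 1 ≤ Submodule.span F {x} ⊔ jpow F J 2 := by
      refine Cg_le x fun i hi => ?_
      rcases (by omega : i = 1 ∨ 2 ≤ i) with rfl | h2
      · exact Submodule.mem_sup_left (Submodule.mem_span_singleton_self _)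
      · exact Submodule.mem_sup_right (jpow_anti h2 (xp_mem x i))
    obtain ⟨a, ha, b, hb, e2⟩ := Submodule.mem_sup.mp (hC (cp_mem x c φ v))
    obtain ⟨r, rfl⟩ := Submodule.mem_span_singleton.mp ha
    change π v ∈ _
    rw [e, ← e2, map_add, map_add, (hπ0 b).mpr hb, add_zero, map_smul]
    exact Submodule.add_mem_sup (Submodule.smul_mem _ _ (Submodule.mem_span_singleton_self _))
      (Submodule.mem_map_of_mem hm)
  have hV : Module.finrank F (J ⧸ jpow F J 2) = 3 := hn
  have hW2 : 2 ≤ Module.finrank F W := by
    have h1 := Submodule.finrank_add_le_finrank_add_finrank (Submodule.span F {π x}) W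
    rw [htop, finrank_top, hV] at h1
    have hx0 : π x ≠ 0 := by
      intro h0
      have := hkap x ((hπ0 x).mp h0)
      rw [hkx] at this
      exact one_ne_zero this
    have h3 := finrank_span_singleton (K := F) hx0
    omega
  let bW := Module.finBasis F W
  have hli := bW.linearIndependent
  have h0 : (0 : ℕ) < Module.finrank F W := by omega
  have h1 : (1 : ℕ) < Module.finrank F W := by omega
  obtain ⟨y, hy, hy'⟩ := (bW ⟨0, h0⟩).2
  obtain ⟨z, hz, hz'⟩ := (bW ⟨1, h1⟩).2
  have hyz : ∀ s t : F, s • y + t • z ∈ jpow F J 2 → s = 0 ∧ t = 0 := by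
    intro s t hst
    have h3 := (hπ0 _).mpr hst
    rw [map_add, map_smul, map_smul, hy', hz'] at h3
    have h4 : s • bW ⟨0, h0⟩ + t • bW ⟨1, h1⟩ = 0 := by
      apply Subtype.ext
      simpa using h3
    have hli2 : LinearIndependent F ![bW ⟨0, h0⟩, bW ⟨1, h1⟩] := by
      have h6 := hli.comp ![(⟨0, h0⟩ : Fin (Module.finrank F W)), ⟨1, h1⟩] (by
        intro i j hij
        fin_cases i <;> fin_cases j <;> simp at hij ⊢)
      convert h6 using 1
      funext i
      fin_cases i <;> rfl
    exact LinearIndependent.pair_iff.mp hli2 s t h4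
  have hind : ∀ r s t : F, r • x + s • y + t • z ∈ jpow F J 2 → r = 0 ∧ s = 0 ∧ t = 0 := by
    intro r s t hrst
    have h3 := hkap _ hrst
    rw [map_add, map_add, map_smul, map_smul, map_smul, hkx, (h.mem y).mp hy, (h.mem z).mp hz] at h3
    have hr : r = 0 := by simpa using h3
    subst hr
    rw [zero_smul, zero_add] at hrst
    exact ⟨rfl, hyz s t hrst⟩
  refine ⟨y, hy, z, hz, hind, ?_⟩
  have hlin : LinearIndependent F ![π x, π y, π z] := by
    rw [Fintype.linearIndependent_iff]
    intro g hg
    rw [Fin.sum_univ_three] at hg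
    have h3 : g 0 • x + g 1 • y + g 2 • z ∈ jpow F J 2 := by
      rw [← hπ0, map_add, map_add, map_smul, map_smul, map_smul]
      exact hg
    obtain ⟨a1, a2, a3⟩ := hind _ _ _ h3
    intro i
    fin_cases i
    · exact a1
    · exact a2
    · exact a3
  have hsp := hlin.span_eq_top_of_card_eq_finrank' (by rw [hV]; rfl)
  rw [eq_top_iff]
  intro v _
  have hv : π v ∈ Submodule.span F (Set.range ![π x, π y, π z]) := by rw [hsp]; trivial
  have hr : Set.range ![π x, π y, π z] = π '' (Set.range ![x, y, z]) := by
    rw [← Set.range_comp]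
    congr 1
    funext i
    fin_cases i <;> rfl
  rw [hr, ← Submodule.map_span] at hv
  obtain ⟨w, hw, hwv⟩ := hv
  have hd : v - w ∈ jpow F J 2 := by
    rw [← hπ0, map_sub, hwv, sub_self]
  have e : v = w + (v - w) := by abel
  rw [e]
  exact Submodule.add_mem_sup hw hd

/-- `dim J = c + dim M` -/
theorem Spl.finrank_eq (h : Spl F x c φ M) [Module.Finite F J] :
    Module.finrank F J = c + Module.finrank F M := by
  have hc := h.hc
  let K : J →ₗ[F] (Fin c → F) := LinearMap.pi fun i => kap F x φ i
  have hker : LinearMap.ker K = M := by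
    ext v
    rw [LinearMap.mem_ker, h.mem]
    constructor
    · intro hv i
      rcases Nat.lt_or_ge i c with h1 | h1
      · exact congrFun hv ⟨i, h1⟩
      · exact h.kap_big h1 v
    · intro hv
      funext i
      exact hv i
  have hsurj : LinearMap.range K = ⊤ := by
    rw [eq_top_iff]
    intro f _
    refine ⟨∑ i : Fin c, f i • xp x (c - i), ?_⟩
    funext j
    change kap F x φ j (∑ i : Fin c, f i • xp x (c - i)) = f j
    rw [map_sum, Finset.sum_eq_single j]
    · rw [map_smul, h.kap_xp' _ _ (by omega), if_pos (by omega), smul_eq_mul, mul_one]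
    · intro i _ hij
      have : (i : ℕ) ≠ j := fun h => hij (Fin.ext h)
      rw [map_smul, h.kap_xp' _ _ (by omega), if_neg (by omega), smul_zero]
    · intro h0
      exact absurd (Finset.mem_univ _) h0
  have h1 := LinearMap.finrank_range_add_finrank_ker K
  rw [hsurj, hker, finrank_top, Module.finrank_fin_fun] at h1
  exact h1.symm

theorem UniB_wt (c : ℕ) (hc : 7 ≤ c) (w : List (Fin 3)) :
    4 * w.length ≤ wt ![4, c + 1, c + 1] w ∧
    ((∃ i ∈ w, i ≠ 0) → 4 * w.length + (c - 3) ≤ wt ![4, c + 1, c + 1] w) := by
  induction w with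
  | nil => simp
  | cons i w ih =>
    rw [SM.wt_cons, List.length_cons]
    have hi : (i = 0 ∧ (![4, c + 1, c + 1] : Fin 3 → ℕ) i = 4) ∨
        (i ≠ 0 ∧ (![4, c + 1, c + 1] : Fin 3 → ℕ) i = c + 1) := by
      fin_cases i
      · left; exact ⟨rfl, rfl⟩
      · right; exact ⟨by simp, rfl⟩
      · right; exact ⟨by simp, rfl⟩
    rcases hi with ⟨hi0, hi⟩ | ⟨hi0, hi⟩
    · refine ⟨by omega, ?_⟩
      rintro ⟨j, hj, hj0⟩
      rw [List.mem_cons] at hj
      rcases hj with rfl | hj
      · exact absurd hi0 hj0
      · have := ih.2 ⟨j, hj, hj0⟩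
        omega
    · exact ⟨by omega, fun _ => by omega⟩

theorem UniB_S3 {x : Fin 3 → J} {S : List (Fin 3) → J} (h2 : (2 : F) ≠ 0) (hS : SSys F x S)
    (i : Fin 3) : S [i, i, i] = x i * (x i * x i) := by
  have h := hS.mul [i] [i, i] (by simp) (by simp)
  rw [hS.single, S_two h2 hS] at h
  simp only [List.reverse_singleton, List.singleton_append, List.reverse_cons,
    List.reverse_nil, List.nil_append, List.cons_append] at h
  have h3 : (4 : F) • (x i * (x i * x i)) = (4 : F) • S [i, i, i] := by
    rw [h]
    module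
  have := congrArg (fun t => (4 : F)⁻¹ • t) h3
  simp only [smul_smul, inv_mul_cancel₀ (four_ne h2), one_smul] at this
  exact this.symm

theorem uniB {e : J} (hcr : Crit F J c e) (hn : ngen F J = 3) (h : Uni F x c φ M) : False := by
  have hc := h.hc
  haveI := hcr.fin
  have h2 := h.two
  obtain ⟨y, hy, z, hz, hind, hsp⟩ := h.toSpl.exists_yz hn
  have hc9 : c ≤ 9 := by
    have h1 := h.toSpl.finrank_eq
    have h3 := hcr.dim
    have h4 : 2 ≤ Module.finrank F M := by
      have hli : LinearIndependent F ![(⟨y, hy⟩ : M), ⟨z, hz⟩] := by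
        rw [LinearIndependent.pair_iff]
        intro s t hst
        have h5 := congrArg Subtype.val hst
        simp only [Submodule.coe_add, Submodule.coe_smul, Submodule.coe_zero] at h5
        have h6 := hind 0 s t (by rw [zero_smul, zero_add, h5]; exact zero_mem _)
        exact h6.2
      have := hli.fintype_card_le_finrank
      simpa using this
    omega
  have hyz : ∀ s t : F, ∀ k, c + 2 ≤ k → s • y + t • z ∈ Fam (UG F x M) (Uw c) k →
      s = 0 ∧ t = 0 := by
    intro s t k hk hst
    obtain ⟨a, ha, b, hb, e2⟩ := Submodule.mem_sup.mp (UniB_two h hk hst)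
    obtain ⟨r, rfl⟩ := Submodule.mem_span_singleton.mp ha
    have := hind (-r) s t (by
      have : (-r) • x + s • y + t • z = b := by
        rw [neg_smul, add_assoc, ← e2]
        abel
      rw [this]
      exact hb)
    exact this.2
  have hkM : ∀ i, ∀ m ∈ M, kap F x φ i m = 0 := fun i m hm => (h.mem m).mp hm i
  set X : Fin 3 → J := ![x, y, z] with hX
  set a : Fin 3 → ℕ := ![4, c + 1, c + 1] with ha
  have hΦ : Filt F X a (Fam (UG F x M) (Uw c)) := by
    refine filt_Fam X a ?_ (fun k l p hp q hq => UniB_mul h k l p hp q hq)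
    intro i
    fin_cases i
    · exact UniB_x (i := 1) le_rfl
    · exact UniB_M le_rfl hy
    · exact UniB_M le_rfl hz
  have hwt := UniB_wt c hc
  rw [← ha] at hwt
  obtain ⟨S, hS, hgen⟩ := exists_SSysExt h2 h.jordan h.bot X a _ hΦ (by
    intro w hw8 hw
    have := (hwt w).2 hw
    exact UniB_top h (by omega))
  have hnil : IsNilpotentAlg F J := ⟨c + 1, by omega, h.bot⟩
  have hspan : Submodule.span F (Set.range S) = ⊤ :=
    hgen fun T hT hmul => gen_of_span hnil X hsp T hT hmul
  have ha0 : a 0 = 4 := rfl
  have ha1 : a 1 = c + 1 := rfl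
  have ha2 : a 2 = c + 1 := rfl
  have hX0 : X 0 = x := rfl
  have hX1 : X 1 = y := rfl
  have hX2 : X 2 = z := rfl
  refine finish (x := X) a hcr hS hspan hΦ (m := 4) (N := 4 * c) ?_ (UniB_top h le_rfl) ?_
  · intro i
    fin_cases i
    · exact le_rfl
    · change 4 ≤ c + 1; omega
    · change 4 ≤ c + 1; omega
  · intro E i1 i2 P s hs4 hsN hr
    rw [ha0, ha1, ha2] at hsN
    -- detection of the powers of `x`
    have hk1 : ∀ r : F, ∀ k, 5 ≤ k → r • x ∈ Fam (UG F x M) (Uw c) k → r = 0 := by
      intro r k hk hr
      have := UniB_kap h (j := 1) le_rfl (by omega) hr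
      have h3 := h.kap_xp' (c - 1) 1 le_rfl
      rw [xp_one, if_pos (by omega)] at h3
      rw [map_smul, h3, smul_eq_mul, mul_one] at this
      exact this
    have hk2 : ∀ r s t : F, ∀ k, 9 ≤ k → s • y + t • z + r • (x * x) ∈
        Fam (UG F x M) (Uw c) k → r = 0 := by
      intro r s t k hk hr
      have := UniB_kap h (j := 2) (by omega) (by omega) hr
      have h3 := h.kap_xp' (c - 2) 2 (by omega)
      rw [xp_two, if_pos (by omega)] at h3
      rw [map_add, map_add, map_smul, map_smul, map_smul, h3, hkM _ y hy, hkM _ z hz] at this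
      simpa using this
    by_cases hs12 : s < 12
    · refine step2 P a h2 hS hΦ (by omega) ?_ ?_ hr
      · intro i j k
        have hi : ∀ i, 4 ≤ a i := by
          intro i
          fin_cases i
          · exact le_rfl
          · change 4 ≤ c + 1; omega
          · change 4 ≤ c + 1; omega
        have := hi i
        have := hi j
        have := hi k
        omega
      · intro c1 c2 hmem
        have e1 : (∑ i, (if a i = s then c1 i else 0) • X i) =
            (if 4 = s then c1 0 else 0) • x + (if c + 1 = s then c1 1 else 0) • y +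
              (if c + 1 = s then c1 2 else 0) • z := by
          rw [Fin.sum_univ_three, ha0, ha1, ha2, hX0, hX1, hX2]
        have e2 : (∑ i, ∑ j, (if i ≤ j ∧ a i + a j = s then c2 i j else 0) • (X i * X j)) =
            (if 8 = s then c2 0 0 else 0) • (x * x) := by
          have hz : ∀ i j : Fin 3, (i ≠ 0 ∨ j ≠ 0) →
              (if i ≤ j ∧ a i + a j = s then c2 i j else 0) = 0 := by
            intro i j hij
            rw [if_neg]
            rintro ⟨_, hs⟩
            fin_cases i <;> fin_cases j <;> simp [ha] at hij hs <;> omega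
          rw [Fin.sum_univ_three, Fin.sum_univ_three, Fin.sum_univ_three, Fin.sum_univ_three,
            hz 0 1 (by simp), hz 0 2 (by simp), hz 1 0 (by simp), hz 1 1 (by simp),
            hz 1 2 (by simp), hz 2 0 (by simp), hz 2 1 (by simp), hz 2 2 (by simp)]
          simp only [zero_smul, add_zero, hX0, ha0, le_refl, true_and]
        rw [e1, e2] at hmem
        have hpair : ∀ i j : Fin 3, i ≤ j → a i + a j = s → i = 0 ∧ j = 0 := by
          intro i j _ hs
          fin_cases i <;> fin_cases j <;> simp [ha] at hs ⊢ <;> omega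
        by_cases h4 : s = 4
        · rw [if_pos h4.symm, if_neg (by omega), if_neg (by omega), if_neg (by omega)] at hmem
          simp only [zero_smul, add_zero] at hmem
          have h0 := hk1 _ _ (by omega) hmem
          refine ⟨?_, ?_⟩
          · intro i hi
            fin_cases i
            · exact h0
            · exfalso; change c + 1 = s at hi; omega
            · exfalso; change c + 1 = s at hi; omega
          · intro i j hij hs
            obtain ⟨rfl, rfl⟩ := hpair i j hij hs
            exfalso
            rw [ha0] at hs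
            omega
        · rw [if_neg (fun h => h4 h.symm), zero_smul, zero_add] at hmem
          by_cases h8 : s = 8
          · rw [if_pos h8.symm] at hmem
            have h0 := hk2 _ _ _ _ (by omega) hmem
            rw [h0, zero_smul, add_zero] at hmem
            refine ⟨?_, ?_⟩
            · intro i hi
              have hc1 : c + 1 = s := by
                fin_cases i
                · exfalso; change 4 = s at hi; omega
                · exact hi
                · exact hi
              rw [if_pos hc1, if_pos hc1] at hmem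
              obtain ⟨h5, h6⟩ := hyz _ _ _ (by omega) hmem
              fin_cases i
              · exfalso; change 4 = s at hi; omega
              · exact h5
              · exact h6
            · intro i j hij hs
              obtain ⟨rfl, rfl⟩ := hpair i j hij hs
              exact Or.inl h0
          · have h8' : ¬ (8 = s) := fun h => h8 h.symm
            rw [if_neg h8', zero_smul, add_zero] at hmem
            refine ⟨?_, ?_⟩
            · intro i hi
              have hc1 : c + 1 = s := by
                fin_cases i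
                · exfalso; change 4 = s at hi; omega
                · exact hi
                · exact hi
              rw [if_pos hc1, if_pos hc1] at hmem
              obtain ⟨h5, h6⟩ := hyz _ _ _ (by omega) hmem
              fin_cases i
              · exfalso; change 4 = s at hi; omega
              · exact h5
              · exact h6
            · intro i j hij hs
              obtain ⟨rfl, rfl⟩ := hpair i j hij hs
              exfalso
              rw [ha0] at hs
              omega
    · -- `c = 9`, `s = 12`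
      obtain rfl : c = 9 := by omega
      obtain rfl : s = 12 := by omega
      refine P.step a h2 hS hΦ {[0, 0, 0]} ?_ ?_ hr P.star_r (by rw [P.rho_r]; exact zero_mem _)
      · intro w hw
        left
        rw [Finset.mem_singleton]
        by_cases hex : ∃ i ∈ w, i ≠ 0
        · exfalso
          have := (hwt w).2 hex
          match w, hw, hex with
          | [], hw, hex => simp at hw
          | [i], hw, hex =>
            fin_cases i <;> simp [ha] at hw
          | [i, j], hw, hex =>
            fin_cases i <;> fin_cases j <;> simp [ha] at hw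
          | i :: j :: k :: w, hw, hex =>
            simp only [List.length_cons] at this
            omega
        · have hall : ∀ i ∈ w, i = 0 := by
            intro i hi
            by_contra h0
            exact hex ⟨i, hi, h0⟩
          have hrep : w = List.replicate w.length 0 := List.eq_replicate_of_mem hall
          have hlen : w.length = 3 := by
            have hw' : ∀ n, wt a (List.replicate n (0 : Fin 3)) = 4 * n := by
              intro n
              induction n with
              | zero => simp
              | succ n ih => rw [List.replicate_succ, SM.wt_cons, ih, ha0]; ring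
            rw [hrep, hw'] at hw
            omega
          rw [hrep, hlen]
          rfl
      · intro cc hcc
        rw [Finset.sum_singleton, UniB_S3 h2 hS, hX0] at hcc
        have h3 := UniB_kap h (j := 3) (by omega) (by omega) hcc
        have h4 := h.kap_xp' (9 - 3) 3 (by omega)
        rw [if_pos (by omega)] at h4
        have h5 : kap F x φ (9 - 3) (x * (x * x)) = 1 := h4
        rw [map_smul, h5, smul_eq_mul, mul_one] at h3
        rw [Finset.sum_singleton, h3, zero_smul]
        exact zero_mem _

end

end L2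
end JD
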