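import Pool.Agent.H78.L2.ExC
import Pool.Agent.H78.L2.Six0
import Pool.Agent.H78.L2.UniB
import Pool.Agent.H78.L2.NonB
import Pool.Agent.H78.L2.NonC

set_option autoImplicit false
set_option linter.unusedSectionVars false
set_option linter.unusedVariables false

/-!
# JD L2: `d_2 ≥ 2` for critical algebras with three generators and class at least 6
-/

namespace JD

universe u

variable {F : Type u} [Field F] {J : Type u} [NonUnitalNonAssocCommRing J] [Module F J]
  [IsScalarTower F J J] [SMulCommClass F J J]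

namespace L2

theorem big [IsAlgClosed F] {c : ℕ} {e : J} (hcr : Crit F J c e) (hn : ngen F J = 3)
    (hc : 7 ≤ c) {x : J} (hx : Lay F x) (hx3 : x * x ∉ jpow F J 3) (hxc : xp x c ≠ 0) : False := by
  haveI := hcr.fin
  obtain ⟨φ, M, h⟩ := exists_Spl hx hc hcr.bot hxc
  by_cases hU : ∀ v, (x * x) * ((x * x) * v) ∈ Cg F x 1
  · exact uniB hcr hn ⟨h, hU⟩
  · push Not at hU
    obtain ⟨v, hv⟩ := hU
    obtain ⟨y, hy, e1⟩ := h.exists_dec v
    have hyy : (x * x) * ((x * x) * y) ∉ Cg F x 1 := by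
      intro hyy
      apply hv
      rw [e1, mul_add, mul_add]
      refine add_mem (h.b_Cg le_rfl (by omega) (h.b_Cg le_rfl (by omega) (cp_mem x c φ v))) hyy
    have hJc := jpow_top_le hcr hxc (by omega)
    obtain ⟨rfl, q1, q2, z, hq1, hq2, hz, hq13, hq25, hby, hbq, hQ, _⟩ :=
      nonA h hcr.fin hcr.dim hn hJc hy hyy
    obtain ⟨a1, a2, e2⟩ := hQ (x * y) (h.M_mul hy) (mul_mem_two x y)
    have hxy : x * y - a1 • ((x * x) * y) - a2 • ((x * x) * ((x * x) * y)) ∈ Cg F x 1 := by
      have h3 : (x * x) * y - q1 ∈ Cg F x 1 := Cg_anti x (by omega) hby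
      have h4 : (x * x) * q1 - q2 ∈ Cg F x 1 := Cg_anti x (by omega) hbq
      have h5 : (x * x) * ((x * x) * y - q1) ∈ Cg F x 1 := h.b_Cg le_rfl (by omega) h3
      have e : x * y - a1 • ((x * x) * y) - a2 • ((x * x) * ((x * x) * y)) =
          -(a1 • ((x * x) * y - q1)) - a2 • ((x * x) * ((x * x) * y - q1)) -
            a2 • ((x * x) * q1 - q2) := by
        rw [e2, mul_sub]
        module
      rw [e]
      exact sub_mem (sub_mem (neg_mem (Submodule.smul_mem _ _ h3)) (Submodule.smul_mem _ _ h5))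
        (Submodule.smul_mem _ _ h4)
    obtain ⟨x', hx', hx3', hxc', hxy', hyy'⟩ := nonB hcr h hx3 hxy hyy
    obtain ⟨φ', M', h'⟩ := exists_Spl hx' (by omega) hcr.bot hxc'
    have hy' := h'.pi_mem y
    refine nonC hcr hn h' hy' ?_ ?_
    · refine h'.inter ?_ (h'.M_mul hy')
      rw [mul_sub]
      exact sub_mem hxy' (h'.x_Cg le_rfl (by omega) (cp_mem x' 7 φ' y))
    · intro h6
      apply hyy'
      rw [mul_sub, mul_sub] at h6
      have h7 := add_mem h6 (h'.b_Cg (j := 1) le_rfl (by omega)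
        (h'.b_Cg (j := 1) le_rfl (by omega) (cp_mem x' 7 φ' y)))
      rwa [sub_add_cancel] at h7

end L2

/-- A critical algebra with three generators and class at least 6 has `d_2 ≥ 2`. -/
theorem crit_dlay_two [IsAlgClosed F] {c : ℕ} {e : J} (h : Crit F J c e) (hn : ngen F J = 3)
    (hc : 6 ≤ c) : 2 ≤ dlay F J 2 := by
  by_contra hd
  obtain ⟨x, hx, hx3⟩ := L2.exists_Lay h (by omega) (by omega)
  rcases (by omega : c = 6 ∨ 7 ≤ c) with rfl | h7
  · exact L2.six h hn hx hx3
  · obtain ⟨x', hx', hx3', hxc'⟩ := L2.exists_xc h (by omega) hx hx3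
    exact L2.big h hn h7 hx' hx3' hxc'

end JD
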