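import Pool.Agent.H8.JD.Pow

set_option autoImplicit false
set_option linter.unusedSectionVars false
set_option linter.unusedVariables false

/-!
# JD L2: powers of one element

* `xp x n`: the `n`-th power of `x` (`n ≥ 1`; `xp x 0 = 0`).
* `xp_mul`: `x^i x^j = x^(i+j)`.
* `J3`, `comm3`: linearised Jordan identities.
* `xp_rec`: `x^(i+2) m = 2 x^(i+1) (x m) + x² (x^i m) - x (x (x^i m)) - x^i (x (x m))`.
* `L2_xm3`, ...: the action of `x^3, x^4` in terms of `x` and `x*x`.
-/

namespace JD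
namespace L2

universe u v w

variable {F : Type u} [Field F] {J : Type v} [NonUnitalNonAssocCommRing J] [Module F J]

/-- powers of one element -/
def xp (x : J) : ℕ → J
  | 0 => 0
  | 1 => x
  | (n + 2) => x * xp x (n + 1)

@[simp] theorem xp_zero (x : J) : xp x 0 = 0 := rfl
@[simp] theorem xp_one (x : J) : xp x 1 = x := rfl
theorem xp_two (x : J) : xp x 2 = x * x := rfl
theorem xp_succ (x : J) {n : ℕ} (hn : 1 ≤ n) : xp x (n + 1) = x * xp x n := by
  obtain ⟨m, rfl⟩ : ∃ m, n = m + 1 := ⟨n - 1, by omega⟩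
  rfl

theorem two_ne {F : Type u} [Field F] [Module F J] (h2 : (2 : F) ≠ 0) {a : J}
    (h : (2 : F) • a = 0) : a = 0 := by
  have := congrArg (fun t => (2 : F)⁻¹ • t) h
  simpa [smul_smul, inv_mul_cancel₀ h2] using this

section
variable (F)
include F

/-- linearised Jordan identity, one product expanded -/
theorem J3 (h2 : (2 : F) ≠ 0) (hJ : IsJordan J) (a b c d : J) :
    ((a * b) * c) * d = (b * c) * (a * d) + (a * c) * (b * d) + (a * b) * (c * d)
      - a * (c * (b * d)) - b * (c * (a * d)) := by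
  have h := lin3 F h2 hJ a b d c
  have e1 : b * d * c * a = a * (c * (b * d)) := by
    rw [mul_comm (b * d) c, mul_comm]
  have e2 : d * a * c * b = b * (c * (a * d)) := by
    rw [mul_comm d a, mul_comm (a * d) c, mul_comm]
  have e3 : b * d * (a * c) = (a * c) * (b * d) := mul_comm _ _
  have e4 : d * a * (b * c) = (b * c) * (a * d) := by
    rw [mul_comm d a, mul_comm]
  have e5 : d * c = c * d := mul_comm _ _
  rw [e1, e2, e3, e4, e5] at h
  rw [← sub_eq_zero] at h ⊢
  rw [← h]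
  abel

/-- `[L_(ab), L_c] + [L_(bc), L_a] + [L_(ca), L_b] = 0` -/
theorem comm3 (h2 : (2 : F) ≠ 0) (hJ : IsJordan J) (a b c d : J) :
    ((a * b) * (c * d) - c * ((a * b) * d)) + ((b * c) * (a * d) - a * ((b * c) * d))
      + ((c * a) * (b * d) - b * ((c * a) * d)) = 0 := by
  have h := lin3 F h2 hJ a b c d
  rw [mul_comm c (a * b * d), mul_comm a (b * c * d), mul_comm b (c * a * d)]
  rw [← sub_eq_zero] at h
  rw [← neg_eq_zero, ← h]
  abel

/-- `[L_(xx), L_v] = - 2 [L_(xv), L_x]` -/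
theorem comm2 (h2 : (2 : F) ≠ 0) (hJ : IsJordan J) (x v w : J) :
    (x * x) * (v * w) - v * ((x * x) * w) =
      (2 : F) • (x * ((x * v) * w) - (x * v) * (x * w)) := by
  have h := comm3 F h2 hJ x x v w
  rw [mul_comm v x] at h
  rw [two_smul, ← sub_eq_zero, ← h]
  abel

/-- `[L_(xx), L_x] = 0` -/
theorem comm1 (h2 : (2 : F) ≠ 0) (hJ : IsJordan J) (x w : J) :
    (x * x) * (x * w) = x * ((x * x) * w) := by
  have h := hJ x w
  rw [mul_comm x w, ← h, mul_comm]

theorem xp_rec (h2 : (2 : F) ≠ 0) (hJ : IsJordan J) (x : J) {i : ℕ} (hi : 1 ≤ i) (m : J) :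
    xp x (i + 2) * m = (2 : F) • (xp x (i + 1) * (x * m)) + (x * x) * (xp x i * m)
      - x * (x * (xp x i * m)) - xp x i * (x * (x * m)) := by
  have h := J3 F h2 hJ x (xp x i) x m
  have e1 : (x * xp x i) * x = xp x (i + 2) := by
    rw [← xp_succ x hi, mul_comm, ← xp_succ x (by omega)]
  have e2 : xp x i * x = xp x (i + 1) := by rw [mul_comm, xp_succ x hi]
  rw [e1, e2, ← xp_succ x hi] at h
  rw [h, two_smul]
  abel

/-- `L_(x^n)` commutes with `L_x` and `L_(x^2)`. -/
theorem xp_comm (h2 : (2 : F) ≠ 0) (hJ : IsJordan J) (x : J) (n : ℕ) :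
    (∀ m, xp x n * (x * m) = x * (xp x n * m)) ∧
    (∀ m, xp x n * ((x * x) * m) = (x * x) * (xp x n * m)) := by
  induction n using Nat.strong_induction_on with
  | _ n ih =>
    match n with
    | 0 => simp
    | 1 => exact ⟨fun _ => rfl, fun m => (comm1 F h2 hJ x m).symm⟩
    | 2 => exact ⟨fun m => comm1 F h2 hJ x m, fun _ => rfl⟩
    | (n + 3) =>
      have h1 := ih (n + 1) (by omega)
      have h3 := ih (n + 2) (by omega)
      have e : ∀ m, xp x (n + 3) * m = (2 : F) • (xp x (n + 2) * (x * m))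
          + (x * x) * (xp x (n + 1) * m)
          - x * (x * (xp x (n + 1) * m)) - xp x (n + 1) * (x * (x * m)) :=
        fun m => xp_rec F h2 hJ x (by omega) m
      have c := comm1 F h2 hJ x
      have tw : ∀ a b : J, a * ((2 : F) • b) = (2 : F) • (a * b) := by
        intro a b; rw [two_smul, two_smul, mul_add]
      constructor
      · intro m
        rw [e, e, mul_sub, mul_sub, mul_add, tw]
        simp only [h1.1, h3.1, c]
      · intro m
        rw [e, e, mul_sub, mul_sub, mul_add, tw]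
        simp only [h1.1, h3.1, h1.2, h3.2, c]

/-- power associativity -/
theorem xp_mul (h2 : (2 : F) ≠ 0) (hJ : IsJordan J) (x : J) {i j : ℕ} (hi : 1 ≤ i)
    (hj : 1 ≤ j) : xp x i * xp x j = xp x (i + j) := by
  induction j, hj using Nat.le_induction with
  | base => rw [xp_one, mul_comm, xp_succ x hi]
  | succ j hj ih =>
    rw [xp_succ x hj, (xp_comm F h2 hJ x i).1, ih, ← xp_succ x (by omega)]
    rfl

theorem xp_mul' (h2 : (2 : F) ≠ 0) (hJ : IsJordan J) (x : J) {i j k : ℕ} (hi : 1 ≤ i)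
    (hj : 1 ≤ j) (hk : i + j = k) : xp x i * xp x j = xp x k := by
  rw [xp_mul F h2 hJ x hi hj, hk]

theorem b_xp (h2 : (2 : F) ≠ 0) (hJ : IsJordan J) (x : J) {n k : ℕ} (hn : 1 ≤ n)
    (hk : n + 2 = k) : (x * x) * xp x n = xp x k := by
  have := xp_mul' F h2 hJ x (i := 2) (j := n) (k := k) (by omega) hn (by omega)
  rwa [xp_two] at this

theorem bb_xp (h2 : (2 : F) ≠ 0) (hJ : IsJordan J) (x : J) : (x * x) * (x * x) = xp x 4 :=
  b_xp F h2 hJ x (n := 2) (by omega) rfl

theorem xp_xp (h2 : (2 : F) ≠ 0) (hJ : IsJordan J) (x : J) {i j : ℕ} (hi : 1 ≤ i)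
    (hj : 1 ≤ j) : xp (xp x i) j = xp x (i * j) := by
  induction j, hj using Nat.le_induction with
  | base => rw [xp_one, mul_one]
  | succ j hj ih =>
    rw [xp_succ _ hj, ih, xp_mul F h2 hJ x hi (Nat.mul_pos hi hj)]
    congr 1
    ring

theorem x3m (h2 : (2 : F) ≠ 0) (hJ : IsJordan J) (x m : J) :
    xp x 3 * m = (3 : F) • ((x * x) * (x * m)) - (2 : F) • (x * (x * (x * m))) := by
  have h := xp_rec F h2 hJ x (i := 1) le_rfl m
  rw [xp_one, xp_two] at h
  rw [h, comm1 F h2 hJ]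
  module

theorem x4m (h2 : (2 : F) ≠ 0) (hJ : IsJordan J) (x m : J) :
    xp x 4 * m = (x * x) * ((x * x) * m) + (4 : F) • ((x * x) * (x * (x * m)))
      - (4 : F) • (x * (x * (x * (x * m)))) := by
  have h := xp_rec F h2 hJ x (i := 2) (by omega) m
  have c := comm1 F h2 hJ x
  rw [xp_two, x3m F h2 hJ] at h
  rw [h, ← c m, ← c (x * m)]
  module

end

end L2
end JD
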