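import Pool.Agent.H78.L2.LA
import Pool.Agent.H8.JD.Crit

set_option autoImplicit false
set_option linter.unusedSectionVars false
set_option linter.unusedVariables false

/-!
# JD L2: choice of `x`

`exists_Lay`. 1. There is `x` with `x x ∉ J³`: otherwise all squares are in `J³`, so all products (`2 a b = (a+b)² - a² - b²`), so
`J² ⊆ J³`, hence `J² ⊆ J^n` for all `n ≥ 2` by induction (`jpow_le_rec` for `n = 3`: `J³ ⊆ T` if `v w ∈ T` for `w ∈ J²`, `v ∈ J`, and
`p w ∈ T` for `p ∈ J²`, `w ∈ J`; so `J² ⊆ J³ ⊆ J J² ⊆ J J^n ⊆ J^(n+1)`), so `J² ⊆ J^(c+1) = 0`, and `e ∈ J^c ⊆ J² = 0`.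
2. For such `x`: `J³ < F x x + J³ ≤ J²`, and `dim J² ≤ dim J³ + 1`, so `F x x + J³ = J²`.

`exists_xc`. `e ∈ J^c`, `e ≠ 0`, `J^(c+1) = 0`.
* `c = 2 k`: `Lay.mem_even`: `e = r x^c + q`, `q ∈ J^(c+1) = 0`, so `x^c ≠ 0`.
* `c = 2 k + 1`, `k ≥ 1`. Let `b = L_(x x)`. By `Lay.exists_b` (induction on `k`) `e = b^k v` for some `v`. Also `b^k x = x^c` (`b_xp`).
  If `x^c ≠ 0`: done. Let `x^c = 0`, i.e. `b^k x = 0`. Let `χ` be as in `Lay.exists_chi`, and `γ(t) = χ ((x + t v)(x + t v)) = 1 + 2 t χ(x v) + t² χ(v v)`.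
  Choose `t ≠ 0` with `γ(t) ≠ 0` (`F` is infinite, being algebraically closed; `γ` is a nonzero polynomial in `t`). Put `x' = x + t v`,
  `γ = γ(t)`, `b' = L_(x' x')`. `x' x' = γ x x + q`, `q ∈ J³` (`Chi.mem_three`). So `x' x' ∉ J³`, and `J² ⊆ F x' x' + J³`.
  For all `j` and all `w`: `b'^j w - γ^j b^j w ∈ J^(2 j + 2)` (induction on `j`: `b' = γ b + L_q`, `b J^n ⊆ J^(n+2)`, `q J^n ⊆ J^(n+3)`, `b^j w ∈ J^(2j+1)`).
  So `x'^c = b'^k x' = γ^k b^k x' = γ^k (b^k x + t b^k v) = γ^k t e ≠ 0` (`J^(2k+2) = J^(c+1) = 0`).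
-/

namespace JD
namespace L2

universe u

variable {F : Type u} [Field F] {J : Type u} [NonUnitalNonAssocCommRing J] [Module F J]
  [IsScalarTower F J J] [SMulCommClass F J J]

theorem exists_Lay {c : ℕ} {e : J} (h : Crit F J c e) (hc : 2 ≤ c) (hd : dlay F J 2 ≤ 1) :
    ∃ x : J, Lay F x ∧ x * x ∉ jpow F J 3 := by
  haveI := h.fin
  have h1 : ∃ x : J, x * x ∉ jpow F J 3 := by
    by_contra hcon
    push Not at hcon
    have hp : ∀ a b : J, a * b ∈ jpow F J 3 := by
      intro a b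
      have h3 : (2 : F) • (a * b) ∈ jpow F J 3 := by
        have := sub_mem (sub_mem (hcon (a + b)) (hcon a)) (hcon b)
        refine (congrArg (· ∈ jpow F J 3) ?_).mp this
        rw [add_mul, mul_add, mul_add, mul_comm b a, two_smul]
        abel
      have h4 := Submodule.smul_mem (jpow F J 3) (2 : F)⁻¹ h3
      rwa [smul_smul, inv_mul_cancel₀ h.two, one_smul] at h4
    have h23 : jpow F J 2 ≤ jpow F J 3 :=
      jpow_le_of le_rfl _ fun i j _ _ _ a _ b _ => hp a b
    have hall : ∀ n, 2 ≤ n → jpow F J 2 ≤ jpow F J n := by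
      intro n hn
      induction n, hn using Nat.le_induction with
      | base => exact le_rfl
      | succ n hn ih =>
        refine h23.trans (jpow_le_rec h.two h.jordan le_rfl _ ?_ ?_)
        · intro v w hw
          exact lmul_mem (by omega) v (ih hw)
        · intro p hp w hw
          exact mul_mem_j (i := n) (j := 1) rfl (ih hp) (mem_one w)
    have he : e ∈ jpow F J c := by
      rw [h.top]; exact Submodule.mem_span_singleton_self e
    have he2 := hall (c + 1) (by omega) (jpow_anti hc he)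
    rw [h.bot, Submodule.mem_bot] at he2
    exact h.ne he2
  obtain ⟨x, hx⟩ := h1
  refine ⟨x, ⟨h.two, h.jordan, ⟨c + 1, h.bot⟩, ?_⟩, hx⟩
  have hle : Submodule.span F {x * x} ⊔ jpow F J 3 ≤ jpow F J 2 := by
    refine sup_le ?_ (jpow_anti (by omega))
    rw [Submodule.span_le, Set.singleton_subset_iff]
    exact mul_mem_two x x
  have hlt : jpow F J 3 < Submodule.span F {x * x} ⊔ jpow F J 3 := by
    refine lt_of_le_of_ne le_sup_right fun he => hx ?_
    rw [he]
    exact Submodule.mem_sup_left (Submodule.mem_span_singleton_self _)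
  have hf := Submodule.finrank_lt_finrank_of_lt hlt
  have hd' : Module.finrank F (jpow F J 2) - Module.finrank F (jpow F J 3) ≤ 1 := hd
  exact (Submodule.eq_of_le_of_finrank_le hle (by omega)).ge

/-- iterated multiplication by `y` -/
def ExC_b (y : J) : ℕ → J → J
  | 0, w => w
  | j + 1, w => y * ExC_b y j w

theorem ExC_add (y : J) (j : ℕ) (w w' : J) : ExC_b y j (w + w') = ExC_b y j w + ExC_b y j w' := by
  induction j with
  | zero => rfl
  | succ j ih => change y * _ = y * _ + y * _; rw [ih, mul_add]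

theorem ExC_smul (y : J) (j : ℕ) (t : F) (w : J) : ExC_b y j (t • w) = t • ExC_b y j w := by
  induction j with
  | zero => rfl
  | succ j ih => change y * _ = t • (y * _); rw [ih, mul_smul_comm]

theorem ExC_mem (x : J) (j : ℕ) (w : J) : ExC_b (x * x) j w ∈ jpow F J (2 * j + 1) := by
  induction j with
  | zero => exact mem_one w
  | succ j ih => exact bmul_mem (by omega) x ih

theorem ExC_surj {x : J} (hx : Lay F x) (k : ℕ) :
    ∀ p ∈ jpow F J (2 * k + 1), ∃ v, p = ExC_b (x * x) k v := by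
  induction k with
  | zero => exact fun p _ => ⟨p, rfl⟩
  | succ k ih =>
    intro p hp
    obtain ⟨w, hw, rfl⟩ := hx.exists_b (by omega) hp
    obtain ⟨v, rfl⟩ := ih w (mem_jpow_of_eq (by omega) hw)
    exact ⟨v, rfl⟩

theorem ExC_xp (h2 : (2 : F) ≠ 0) (hJ : IsJordan J) (x : J) (k : ℕ) :
    ExC_b (x * x) k x = xp x (2 * k + 1) := by
  induction k with
  | zero => rfl
  | succ k ih =>
    change (x * x) * ExC_b (x * x) k x = _
    rw [ih]
    exact b_xp F h2 hJ x (by omega) (by omega)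

theorem ExC_diff {x y : J} {γ : F} (hq : y * y - γ • (x * x) ∈ jpow F J 3) (w : J) (j : ℕ) :
    ExC_b (y * y) j w - γ ^ j • ExC_b (x * x) j w ∈ jpow F J (2 * j + 2) := by
  induction j with
  | zero =>
    have e : ExC_b (y * y) 0 w - γ ^ 0 • ExC_b (x * x) 0 w = 0 := by
      change w - γ ^ 0 • w = 0
      rw [pow_zero, one_smul, sub_self]
    rw [e]
    exact zero_mem _
  | succ j ih =>
    have h1 : (x * x) * (ExC_b (y * y) j w - γ ^ j • ExC_b (x * x) j w) ∈
        jpow F J (2 * (j + 1) + 2) := bmul_mem (by omega) x ih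
    have h2 : (y * y - γ • (x * x)) * ExC_b (y * y) j w ∈ jpow F J (2 * (j + 1) + 2) :=
      mul_mem_j (by omega) hq (ExC_mem y j w)
    have h3 := add_mem (Submodule.smul_mem _ γ h1) h2
    refine (congrArg (· ∈ jpow F J (2 * (j + 1) + 2)) ?_).mp h3
    change _ = (y * y) * ExC_b (y * y) j w - γ ^ (j + 1) • ((x * x) * ExC_b (x * x) j w)
    rw [mul_sub, sub_mul, mul_smul_comm, smul_mul_assoc, pow_succ]
    module

theorem exists_xc [IsAlgClosed F] {c : ℕ} {e : J} (h : Crit F J c e) (hc : 3 ≤ c) {x : J}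
    (hx : Lay F x) (hx3 : x * x ∉ jpow F J 3) :
    ∃ x' : J, Lay F x' ∧ x' * x' ∉ jpow F J 3 ∧ xp x' c ≠ 0 := by
  have he : e ∈ jpow F J c := by
    rw [h.top]; exact Submodule.mem_span_singleton_self e
  obtain ⟨k, hk | hk⟩ := Nat.even_or_odd' c
  · refine ⟨x, hx, hx3, fun h0 => ?_⟩
    subst hk
    obtain ⟨r, q, hq, e1⟩ := hx.mem_even (by omega) e he
    rw [h.bot, Submodule.mem_bot] at hq
    rw [h0, smul_zero, hq, add_zero] at e1
    exact h.ne e1
  · by_cases h0 : xp x c ≠ 0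
    · exact ⟨x, hx, hx3, h0⟩
    rw [not_not] at h0
    subst hk
    obtain ⟨v, hv⟩ := ExC_surj hx k e he
    obtain ⟨χ, hχ1, hχ0⟩ := hx.exists_chi hx3
    have hχ : Chi F x χ := { toLay := hx, one := hχ1, zero := hχ0 }
    have hγ : ∀ t : F, χ ((x + t • v) * (x + t • v)) =
        1 + 2 * t * χ (x * v) + t ^ 2 * χ (v * v) := by
      intro t
      have e1 : (x + t • v) * (x + t • v) = x * x + (2 * t) • (x * v) + (t ^ 2) • (v * v) := by
        simp only [add_mul, mul_add, smul_mul_assoc, mul_smul_comm, mul_comm v x]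
        module
      rw [e1, map_add, map_add, map_smul, map_smul, hχ1, smul_eq_mul, smul_eq_mul]
    obtain ⟨t, ht0, ht⟩ : ∃ t : F, t ≠ 0 ∧ 1 + 2 * t * χ (x * v) + t ^ 2 * χ (v * v) ≠ 0 := by
      by_contra hcon
      push Not at hcon
      have hp : (Polynomial.X * (1 + Polynomial.C (2 * χ (x * v)) * Polynomial.X +
          Polynomial.C (χ (v * v)) * Polynomial.X ^ 2) : Polynomial F) = 0 := by
        refine Polynomial.funext fun t => ?_
        rw [Polynomial.eval_zero]
        by_cases ht : t = 0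
        · simp [ht]
        · have := hcon t ht
          simp only [Polynomial.eval_mul, Polynomial.eval_add, Polynomial.eval_X,
            Polynomial.eval_C, Polynomial.eval_one, Polynomial.eval_pow]
          rw [← mul_zero t, ← this]
          ring
      have h1 := congrArg (fun p => Polynomial.coeff p 1) hp
      simp [Polynomial.coeff_X_mul, Polynomial.coeff_one] at h1
    obtain ⟨y, hy⟩ : ∃ y : J, y = x + t • v := ⟨_, rfl⟩
    obtain ⟨γ, hγ'⟩ : ∃ γ : F, γ = χ (y * y) := ⟨_, rfl⟩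
    have hγ0 : γ ≠ 0 := by rw [hγ', hy, hγ]; exact ht
    have hq : y * y - γ • (x * x) ∈ jpow F J 3 := by
      rw [hγ']; exact hχ.pr y y
    refine ⟨y, ⟨hx.two, hx.jordan, hx.nil, ?_⟩, ?_, ?_⟩
    · intro p hp
      obtain ⟨r, q, hq', rfl⟩ := hx.mem_two hp
      have e1 : r • (x * x) + q = (r * γ⁻¹) • (y * y) +
          (q - (r * γ⁻¹) • (y * y - γ • (x * x))) := by
        have e2 : r • (x * x) = (r * γ⁻¹) • (γ • (x * x)) := by
          rw [smul_smul, mul_assoc, inv_mul_cancel₀ hγ0, mul_one]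
        rw [e2, smul_sub]
        abel
      rw [e1]
      exact Submodule.add_mem_sup (Submodule.smul_mem _ _ (Submodule.mem_span_singleton_self _))
        (sub_mem hq' (Submodule.smul_mem _ _ hq))
    · intro hy3
      exact hγ0 (by rw [hγ']; exact hχ0 _ hy3)
    · have h1 := ExC_diff hq y k
      rw [show 2 * k + 2 = 2 * k + 1 + 1 from rfl, h.bot, Submodule.mem_bot, sub_eq_zero,
        ExC_xp hx.two hx.jordan] at h1
      rw [h1]
      have h2 : ExC_b (x * x) k y = t • e := by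
        rw [hy, ExC_add, ExC_smul, ExC_xp hx.two hx.jordan, h0, zero_add, ← hv]
      rw [h2]
      exact smul_ne_zero (pow_ne_zero _ hγ0) (smul_ne_zero ht0 h.ne)

end L2
end JD
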