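import Pool.Agent.H78.L2.Pw

set_option autoImplicit false
set_option linter.unusedSectionVars false
set_option linter.unusedVariables false

/-!
# JD L2: algebras with `J² = F x² + J³`

* `jpow_le_rec`: `J^n ⊆ J J^(n-1) + J² J^(n-2)` for `n ≥ 3` (all Jordan algebras).
* `Lay F x`: standing hypothesis (`J` nilpotent Jordan, `J² ⊆ F x² + J³`).
* `Lay.comm_mem`: `[L_(xx), L_v] J^k ⊆ J^(k+4)`.
* `Lay.exists_b`: `J^n = x² J^(n-2)` for `n ≥ 3`.
* `Lay.mem_even`: `J^(2k) = F x^(2k) + J^(2k+1)` for `k ≥ 1`.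
* `Chi`: the functional `χ` with `χ (x x) = 1`, `χ (J³) = 0`, and the products
  `w (x² v)`, `w (x² (x² v))`, `(x² v) (x² w)`, `x⁴ v`.
-/

namespace JD
namespace L2

universe u v w

variable {F : Type u} [Field F] {J : Type v} [NonUnitalNonAssocCommRing J] [Module F J]
  [IsScalarTower F J J] [SMulCommClass F J J]

theorem mem_one (v : J) : v ∈ jpow F J 1 := by rw [jpow_one]; exact Submodule.mem_top

theorem mem_jpow_of_eq {m n : ℕ} (h : m = n) {a : J} (ha : a ∈ jpow F J m) : a ∈ jpow F J n :=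
  h ▸ ha

theorem mul_mem_j {i j k : ℕ} (hk : i + j = k) {a b : J}
    (ha : a ∈ jpow F J i) (hb : b ∈ jpow F J j) : a * b ∈ jpow F J k :=
  hk ▸ mul_mem_jpow ha hb

theorem lmul_mem {j k : ℕ} (hk : 1 + j = k) (a : J) {b : J}
    (hb : b ∈ jpow F J j) : a * b ∈ jpow F J k :=
  mul_mem_j hk (mem_one a) hb

theorem mul_mem_two (a b : J) : a * b ∈ jpow F J 2 :=
  mul_mem_j rfl (mem_one a) (mem_one b)

theorem bmul_mem {k n : ℕ} (hn : k + 2 = n) (x : J) {w : J} (hw : w ∈ jpow F J k) :
    (x * x) * w ∈ jpow F J n :=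
  mul_mem_j (by omega) (mul_mem_two x x) hw

theorem xp_mem (x : J) (n : ℕ) : xp x n ∈ jpow F J n := by
  rcases Nat.eq_zero_or_pos n with rfl | hn
  · rw [xp_zero]; exact zero_mem _
  induction n, hn using Nat.le_induction with
  | base => exact mem_one x
  | succ n hn ih => rw [xp_succ x hn]; exact lmul_mem (by omega) x ih

/-- `J^n ⊆ J J^(n-1) + J² J^(n-2)` -/
theorem jpow_le_rec (h2 : (2 : F) ≠ 0) (hJ : IsJordan J) {n : ℕ} (hn : 3 ≤ n)
    (T : Submodule F J) (hT1 : ∀ v : J, ∀ w ∈ jpow F J (n - 1), v * w ∈ T)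
    (hT2 : ∀ p ∈ jpow F J 2, ∀ w ∈ jpow F J (n - 2), p * w ∈ T) : jpow F J n ≤ T := by
  have key : ∀ i, ∀ j, 1 ≤ i → 1 ≤ j → i + j = n → ∀ a ∈ jpow F J i, ∀ b ∈ jpow F J j,
      a * b ∈ T := by
    intro i
    induction i using Nat.strong_induction_on with
    | _ i ih =>
      intro j hi hj hij a ha b hb
      rcases Nat.lt_or_ge i 3 with h | h
      · rcases (by omega : i = 1 ∨ i = 2) with rfl | rfl
        · exact hT1 a b (mem_jpow_of_eq (by omega) hb)
        · exact hT2 a ha b (mem_jpow_of_eq (by omega) hb)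
      · -- the expansion for a long first factor
        have exp : ∀ s t, 2 ≤ s → 1 ≤ t → s + t = i → ∀ a1 ∈ jpow F J s, ∀ a2 ∈ jpow F J t,
            (a1 * a2) * b ∈ T := by
          intro s t hs ht hst a1 ha1 a2 ha2
          have hle : jpow F J s ≤
              T.comap ((LinearMap.mulRight F b) ∘ₗ (LinearMap.mulRight F a2)) := by
            refine jpow_le_of hs _ fun s1 s2 hs1 hs2 hs12 p hp q hq => ?_
            rw [Submodule.mem_comap]
            change ((p * q) * a2) * b ∈ T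
            rw [J3 F h2 hJ]
            refine Submodule.sub_mem _ (Submodule.sub_mem _ (Submodule.add_mem _
              (Submodule.add_mem _ ?_ ?_) ?_) ?_) ?_
            · exact ih (s2 + t) (by omega) (s1 + j) (by omega) (by omega) (by omega) _
                (mul_mem_j rfl hq ha2) _ (mul_mem_j rfl hp hb)
            · exact ih (s1 + t) (by omega) (s2 + j) (by omega) (by omega) (by omega) _
                (mul_mem_j rfl hp ha2) _ (mul_mem_j rfl hq hb)
            · exact ih s (by omega) (t + j) (by omega) (by omega) (by omega) _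
                (mul_mem_j hs12 hp hq) _ (mul_mem_j rfl ha2 hb)
            · exact ih s1 (by omega) (t + (s2 + j)) (by omega) (by omega) (by omega) _
                hp _ (mul_mem_j rfl ha2 (mul_mem_j rfl hq hb))
            · exact ih s2 (by omega) (t + (s1 + j)) (by omega) (by omega) (by omega) _
                hq _ (mul_mem_j rfl ha2 (mul_mem_j rfl hp hb))
          exact hle ha1
        have hle : jpow F J i ≤ T.comap (LinearMap.mulRight F b) := by
          refine jpow_le_of (by omega) _ fun s t hs ht hst a1 ha1 a2 ha2 => ?_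
          rw [Submodule.mem_comap]
          change (a1 * a2) * b ∈ T
          rcases Nat.lt_or_ge s 2 with h' | h'
          · rw [mul_comm a1 a2]
            exact exp t s (by omega) hs (by omega) a2 ha2 a1 ha1
          · exact exp s t h' ht hst a1 ha1 a2 ha2
        exact hle ha
  exact jpow_le_of (by omega) T fun i j hi hj hij a ha b hb => key i j hi hj hij a ha b hb

/-- standing hypothesis -/
structure Lay (F : Type u) [Field F] {J : Type v} [NonUnitalNonAssocCommRing J] [Module F J]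
    [IsScalarTower F J J] [SMulCommClass F J J] (x : J) : Prop where
  two : (2 : F) ≠ 0
  jordan : IsJordan J
  nil : ∃ N, jpow F J N = ⊥
  gen : jpow F J 2 ≤ Submodule.span F {x * x} ⊔ jpow F J 3

namespace Lay

variable {x : J} (h : Lay F x)
include h

theorem mem_two {p : J} (hp : p ∈ jpow F J 2) :
    ∃ r : F, ∃ q ∈ jpow F J 3, p = r • (x * x) + q := by
  obtain ⟨y, hy, q, hq, rfl⟩ := Submodule.mem_sup.mp (h.gen hp)
  obtain ⟨r, rfl⟩ := Submodule.mem_span_singleton.mp hy
  exact ⟨r, q, hq, rfl⟩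

theorem comm_mem (v : J) {k n : ℕ} (hn : k + 4 = n) {w : J} (hw : w ∈ jpow F J k) :
    (x * x) * (v * w) - v * ((x * x) * w) ∈ jpow F J n := by
  rw [comm2 F h.two h.jordan]
  obtain ⟨r, q, hq, e⟩ := h.mem_two (mul_mem_two x v)
  rw [e]
  have e2 : x * ((r • (x * x) + q) * w) - (r • (x * x) + q) * (x * w) =
      x * (q * w) - q * (x * w) := by
    simp only [add_mul, mul_add, smul_mul_assoc, mul_smul_comm]
    rw [comm1 F h.two h.jordan]
    abel
  rw [e2]
  refine Submodule.smul_mem _ _ (Submodule.sub_mem _ ?_ ?_)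
  · exact lmul_mem (j := 3 + k) (by omega) x (mul_mem_j rfl hq hw)
  · exact mul_mem_j (j := 1 + k) (by omega) hq (lmul_mem rfl x hw)

theorem step {n : ℕ} (hn : 3 ≤ n) :
    ∀ p ∈ jpow F J n, ∃ w ∈ jpow F J (n - 2), ∃ q ∈ jpow F J (n + 1), p = (x * x) * w + q := by
  induction n, hn using Nat.le_induction with
  | base =>
    intro p hp
    have hle : jpow F J 3 ≤ (jpow F J 1).map (LinearMap.mulLeft F (x * x)) ⊔ jpow F J 4 := by
      refine jpow_le_rec h.two h.jordan le_rfl _ ?_ ?_
      · intro v w hw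
        obtain ⟨r, q, hq, rfl⟩ := h.mem_two hw
        rw [mul_add]
        refine Submodule.add_mem_sup ⟨r • v, mem_one _, ?_⟩ (lmul_mem (by omega) v hq)
        change (x * x) * (r • v) = _
        rw [mul_smul_comm, mul_smul_comm, mul_comm v]
      · intro p hp w _
        obtain ⟨r, q, hq, rfl⟩ := h.mem_two hp
        rw [add_mul]
        refine Submodule.add_mem_sup ⟨r • w, mem_one _, ?_⟩
          (mul_mem_j (by omega) hq (mem_one w))
        change (x * x) * (r • w) = _
        rw [mul_smul_comm, smul_mul_assoc]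
    obtain ⟨y, ⟨w, hw, rfl⟩, q, hq, rfl⟩ := Submodule.mem_sup.mp (hle hp)
    exact ⟨w, hw, q, hq, rfl⟩
  | succ n hn ih =>
    intro p hp
    have hle : jpow F J (n + 1) ≤
        (jpow F J (n + 1 - 2)).map (LinearMap.mulLeft F (x * x)) ⊔ jpow F J (n + 1 + 1) := by
      refine jpow_le_rec h.two h.jordan (by omega) _ ?_ ?_
      · intro v w hw
        obtain ⟨w', hw', q, hq, rfl⟩ := ih w (mem_jpow_of_eq (by omega) hw)
        have e : v * ((x * x) * w' + q) = (x * x) * (v * w') +
            (v * q - ((x * x) * (v * w') - v * ((x * x) * w'))) := by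
          rw [mul_add]; abel
        rw [e]
        refine Submodule.add_mem_sup ⟨v * w', lmul_mem (by omega) v hw', rfl⟩
          (Submodule.sub_mem _ (lmul_mem (by omega) v hq) (h.comm_mem v (by omega) hw'))
      · intro p hp w hw
        obtain ⟨r, q, hq, rfl⟩ := h.mem_two hp
        rw [add_mul]
        refine Submodule.add_mem_sup ⟨r • w, Submodule.smul_mem _ _ hw, ?_⟩
          (mul_mem_j (by omega) hq hw)
        change (x * x) * (r • w) = _
        rw [mul_smul_comm, smul_mul_assoc]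
    obtain ⟨y, ⟨w, hw, rfl⟩, q, hq, rfl⟩ := Submodule.mem_sup.mp (hle hp)
    exact ⟨w, hw, q, hq, rfl⟩

theorem exists_b {n : ℕ} (hn : 3 ≤ n) {p : J} (hp : p ∈ jpow F J n) :
    ∃ w ∈ jpow F J (n - 2), p = (x * x) * w := by
  obtain ⟨N, hN⟩ := h.nil
  have key : ∀ d n, 3 ≤ n → N ≤ n + d → ∀ p ∈ jpow F J n, ∃ w ∈ jpow F J (n - 2),
      p = (x * x) * w := by
    intro d
    induction d with
    | zero =>
      intro n hn hd p hp
      have h0 : p = 0 := by
        have := jpow_anti (F := F) (J := J) (by omega : N ≤ n) hp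
        rwa [hN, Submodule.mem_bot] at this
      exact ⟨0, zero_mem _, by rw [h0, mul_zero]⟩
    | succ d ih =>
      intro n hn hd p hp
      obtain ⟨w, hw, q, hq, rfl⟩ := h.step hn p hp
      obtain ⟨w', hw', rfl⟩ := ih (n + 1) (by omega) (by omega) q hq
      refine ⟨w + w', add_mem hw (jpow_anti (by omega) hw'), ?_⟩
      rw [mul_add]
  exact key N n hn (by omega) p hp

theorem mem_even {k : ℕ} (hk : 1 ≤ k) :
    ∀ p ∈ jpow F J (2 * k), ∃ r : F, ∃ q ∈ jpow F J (2 * k + 1), p = r • xp x (2 * k) + q := by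
  induction k, hk using Nat.le_induction with
  | base =>
    intro p hp
    exact h.mem_two hp
  | succ k hk ih =>
    intro p hp
    obtain ⟨w, hw, rfl⟩ := h.exists_b (by omega) hp
    obtain ⟨r, q, hq, rfl⟩ := ih w (mem_jpow_of_eq (by omega) hw)
    refine ⟨r, (x * x) * q, bmul_mem (by omega) x hq, ?_⟩
    rw [mul_add, mul_smul_comm, ← xp_two, xp_mul' F h.two h.jordan x (by omega) (by omega)
      (show 2 + 2 * k = 2 * (k + 1) by ring)]

/-- `x^2 J^(2k) ⊆ F x^(2k+2) + ...`: `mem_even` with an explicit exponent -/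
theorem mem_even' {n : ℕ} (k : ℕ) (hk : 1 ≤ k) (hn : n = 2 * k) {p : J}
    (hp : p ∈ jpow F J n) : ∃ r : F, ∃ q ∈ jpow F J (n + 1), p = r • xp x n + q := by
  subst hn
  exact h.mem_even hk p hp

/-- the functional `χ` -/
theorem exists_chi (hx : x * x ∉ jpow F J 3) :
    ∃ χ : J →ₗ[F] F, χ (x * x) = 1 ∧ ∀ q ∈ jpow F J 3, χ q = 0 := by
  obtain ⟨g, hg, hg'⟩ := Submodule.exists_le_ker_of_notMem hx
  refine ⟨(g (x * x))⁻¹ • g, ?_, ?_⟩
  · simp [hg]
  · intro q hq
    have := hg' hq
    rw [LinearMap.mem_ker] at this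
    simp [this]

end Lay

/-- `χ (x x) = 1`, `χ (J³) = 0`. -/
structure Chi (F : Type u) [Field F] {J : Type v} [NonUnitalNonAssocCommRing J] [Module F J]
    [IsScalarTower F J J] [SMulCommClass F J J] (x : J) (χ : J →ₗ[F] F) : Prop
    extends Lay F x where
  one : χ (x * x) = 1
  zero : ∀ q ∈ jpow F J 3, χ q = 0

namespace Chi

variable {x : J} {χ : J →ₗ[F] F} (h : Chi F x χ)
include h

theorem mem_three {p : J} (hp : p ∈ jpow F J 2) : p - χ p • (x * x) ∈ jpow F J 3 := by
  obtain ⟨r, q, hq, rfl⟩ := h.mem_two hp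
  rw [map_add, map_smul, h.one, h.zero q hq, smul_eq_mul, mul_one, add_zero, add_sub_cancel_left]
  exact hq

theorem mem_iff {p : J} (hp : p ∈ jpow F J 2) : p ∈ jpow F J 3 ↔ χ p = 0 := by
  refine ⟨fun hq => h.zero p hq, fun h0 => ?_⟩
  have := h.mem_three hp
  rwa [h0, zero_smul, sub_zero] at this

theorem pr (v w : J) : v * w - χ (v * w) • (x * x) ∈ jpow F J 3 := h.mem_three (mul_mem_two v w)

/-- `w (x² v) ≡ χ(w v) x⁴` -/
theorem mul_b (w v : J) : w * ((x * x) * v) - χ (w * v) • xp x 4 ∈ jpow F J 5 := by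
  have h1 := h.comm_mem w (k := 1) (n := 5) (by omega) (mem_one v)
  have h3 := bmul_mem (F := F) (n := 5) (by omega) x (h.pr w v)
  have e : (x * x) * (x * x) = xp x 4 := bb_xp F h.two h.jordan x
  rw [mul_sub, mul_smul_comm, e] at h3
  have := sub_mem h3 h1
  refine (congrArg (· ∈ jpow F J 5) ?_).mp this
  abel

/-- `w (x² (x² v)) ≡ χ(w v) x⁶` -/
theorem mul_bb (w v : J) :
    w * ((x * x) * ((x * x) * v)) - χ (w * v) • xp x 6 ∈ jpow F J 7 := by
  have h1 := h.comm_mem w (k := 3) (n := 7) (by omega) (bmul_mem (by omega) x (mem_one v))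
  have h3 := bmul_mem (F := F) (n := 7) (by omega) x (h.mul_b w v)
  have e : (x * x) * xp x 4 = xp x 6 := by
    rw [← xp_two, xp_mul' F h.two h.jordan x (by omega) (by omega) (show 2 + 4 = 6 by norm_num)]
  rw [mul_sub, mul_smul_comm, e] at h3
  have := sub_mem h3 h1
  refine (congrArg (· ∈ jpow F J 7) ?_).mp this
  abel

/-- `(x² v) (x² w) ≡ χ(v w) x⁶` -/
theorem b_mul_b (v w : J) :
    ((x * x) * v) * ((x * x) * w) - χ (v * w) • xp x 6 ∈ jpow F J 7 := by
  set p := (x * x) * v with hp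
  have hcomm : (x * x) * (p * w) - p * ((x * x) * w) ∈ jpow F J 7 := by
    rw [comm2 F h.two h.jordan]
    have e1 : x * p = (x * x) * (x * v) := (comm1 F h.two h.jordan x v).symm
    obtain ⟨r, q, hq, e2⟩ := h.mem_two (mul_mem_two x v)
    have e : (x * x) * (x * x) = xp x 4 := bb_xp F h.two h.jordan x
    rw [e1, e2, mul_add, mul_smul_comm, e]
    have e3 : x * ((r • xp x 4 + (x * x) * q) * w) - (r • xp x 4 + (x * x) * q) * (x * w) =
        x * (((x * x) * q) * w) - ((x * x) * q) * (x * w) := by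
      simp only [add_mul, mul_add, smul_mul_assoc, mul_smul_comm]
      rw [(xp_comm F h.two h.jordan x 4).1 w]
      abel
    rw [e3]
    have hb : (x * x) * q ∈ jpow F J 5 := bmul_mem (by omega) x hq
    refine Submodule.smul_mem _ _ (Submodule.sub_mem _ ?_ ?_)
    · exact lmul_mem (j := 6) (by omega) x (mul_mem_j (by omega) hb (mem_one w))
    · exact mul_mem_j (j := 2) (by omega) hb (mul_mem_two x w)
  have h3 := bmul_mem (F := F) (n := 7) (by omega) x (h.mul_b w v)
  have e : (x * x) * xp x 4 = xp x 6 := by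
    rw [← xp_two, xp_mul' F h.two h.jordan x (by omega) (by omega) (show 2 + 4 = 6 by norm_num)]
  rw [mul_sub, mul_smul_comm, e, ← hp, mul_comm w p, mul_comm w v] at h3
  have := sub_mem h3 hcomm
  refine (congrArg (· ∈ jpow F J 7) ?_).mp this
  abel

/-- `x⁴ v ≡ x² (x² v)` -/
theorem x4_mul (v : J) : xp x 4 * v - (x * x) * ((x * x) * v) ∈ jpow F J 6 := by
  rw [x4m F h.two h.jordan]
  obtain ⟨r, q, hq, e2⟩ := h.mem_two (mul_mem_two x v)
  rw [e2]
  obtain ⟨s, q', hq', e3⟩ := h.mem_even' 2 (by omega) (n := 4) (by omega)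
    (lmul_mem (k := 4) (by omega) x hq)
  have e4 : x * (r • (x * x) + q) = r • xp x 3 + (s • xp x 4 + q') := by
    rw [mul_add, mul_smul_comm, e3]; rfl
  rw [e4]
  have p2 : ∀ i j k, 1 ≤ i → 1 ≤ j → i + j = k → xp x i * xp x j = xp x k := fun i j k hi hj hk =>
    xp_mul' F h.two h.jordan x hi hj hk
  have a1 : (x * x) * xp x 3 = xp x 5 := by rw [← xp_two]; exact p2 _ _ _ (by omega) (by omega) rfl
  have a2 : (x * x) * xp x 4 = xp x 6 := by rw [← xp_two]; exact p2 _ _ _ (by omega) (by omega) rfl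
  have a3 : x * (x * xp x 3) = xp x 5 := rfl
  have a4 : x * (x * xp x 4) = xp x 6 := rfl
  have e5 : (x * x) * ((x * x) * v) + (4 : F) • ((x * x) * (r • xp x 3 + (s • xp x 4 + q'))) -
      (4 : F) • (x * (x * (r • xp x 3 + (s • xp x 4 + q')))) - (x * x) * ((x * x) * v) =
      (4 : F) • ((x * x) * q') - (4 : F) • (x * (x * q')) := by
    simp only [mul_add, mul_smul_comm, a1, a2, a3, a4]
    module
  rw [e5]
  refine Submodule.sub_mem _ (Submodule.smul_mem _ _ ?_) (Submodule.smul_mem _ _ ?_)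
  · exact jpow_anti (by omega) (bmul_mem (n := 7) (by omega) x hq')
  · exact jpow_anti (by omega : 6 ≤ 7) (lmul_mem (j := 6) (by omega) x (lmul_mem (by omega) x hq'))

end Chi

end L2
end JD
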