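import Pool.Agent.H78.L2.Spl
import Pool.Agent.H8.JD.Crit

set_option autoImplicit false
set_option linter.unusedSectionVars false
set_option linter.unusedVariables false

/-!
# JD L2: the case `b b M ⊄ C`, dimensions

`Spl F x c φ M`, `b = L_(x x)`, `C = Cg F x 1`, `π v = v - cp v ∈ M` (`Spl.pi_mem`), `Q = M ∩ J²`.
* `v ∈ J^n` (`n ≥ 1`) implies `cp v ∈ C_{≥ n} ⊆ J^n` (`cp_mem_of` with `k = c + 1 - n`, `Spl.kap_zero_of_mem`), so `π v ∈ J^n`.
* `q1 = π (b y) ∈ J³`, `b y - q1 = cp (b y) ∈ C_{≥ 3}`; `q2 = π (b q1) ∈ J⁵`, `b q1 - q2 ∈ C_{≥ 5}`. `b (b y) = b q1 + b (C) ≡ q2 mod C`, so `q2 ∉ C`, `q2 ≠ 0`.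
* `q1, q2` are independent: if `r q1 + s q2 = 0`, `s ≠ 0`: `q2 = λ q1`. If `λ = 0`: `q2 = 0`, contradiction. If `λ ≠ 0`: `q1 = λ⁻¹ q2 = λ⁻¹ π (b q1)`; by
  induction `q1 ∈ J^n` for all `n` (`b J^n ⊆ J^(n+2)`), so `q1 = 0`, `q2 = 0`. If `s = 0`, `r ≠ 0`: `q1 = 0`, `q2 = 0`.
* `finrank C = c`, `finrank M = finrank J - c` (`C ⊓ M = ⊥`: `Spl.inter`; `C ⊔ M = ⊤`: `Spl.exists_dec`; `C` has the basis `x^1, …, x^c`: spanned by
  them as `x^i = 0` for `i > c`, independent by applying `kap`, `Spl.kap_xp'`).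
* `J² = C_{≥ 2} ⊕ Q`: for `p ∈ J²`, `cp p ∈ C_{≥ 2}`. `J² ⊔ F x ⊇ C`. So `M / Q ≅ J / (F x + J²)`; `x ∉ J²` (`x ∈ J²` implies, `x^(n) ∈ J^(2n)`..: or: `kap (c-1) x = 1`
  but `kap (c-1)` vanishes on `J²`), so `finrank M = finrank Q + 2`: e.g. `finrank J² = (c - 1) + finrank Q` or by choosing `m1, m2 ∈ M` such that `x, m1, m2` is a basis modulo `J²`.
* `finrank Q ≥ 2`, so `finrank M ≥ 4`, `11 ≥ finrank J = c + finrank M ≥ c + 4`, so `c = 7`, `finrank M = 4`, `Q = <q1, q2>`.
* `y` is not in `Q`: `y = r q1 + s q2` would give `b b y ∈ b b J³ ⊆ J⁷ = F x⁷ ⊆ C` (`J⁷ ⊆ C` for `c = 7`: `v ∈ J⁷`: `π v ∈ J⁷ ∩ M`. CAREFUL: to see `J⁷ = F x⁷`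
  use: `J⁷ ∩ M ⊆ Q = <q1,q2>`; hypothesis `hJc : jpow F J c ≤ Cg F x 1` is given for this).
  More precisely `(F y + Q)` has dimension 3, choose `z ∈ M` outside; then `y, z, q1, q2` is a basis of `M`.
-/

namespace JD
namespace L2

universe u

variable {F : Type u} [Field F] {J : Type u} [NonUnitalNonAssocCommRing J] [Module F J]
  [IsScalarTower F J J] [SMulCommClass F J J]

private theorem NonA_cp {x : J} {c : ℕ} {φ : J →ₗ[F] F} {M : Submodule F J}
    (h : Spl F x c φ M) {n : ℕ} (hn : n ≤ c + 1) {v : J} (hv : v ∈ jpow F J n) :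
    cp F x c φ v ∈ Cg F x n :=
  cp_mem_of (k := c + 1 - n) (by omega) fun i hi => h.kap_zero_of_mem (by omega) hv

private theorem NonA_pi {x : J} {c : ℕ} {φ : J →ₗ[F] F} {M : Submodule F J}
    (h : Spl F x c φ M) {n : ℕ} {v : J} (hv : v ∈ jpow F J n) :
    v - cp F x c φ v ∈ jpow F J n := by
  rcases Nat.lt_or_ge n (c + 2) with hn | hn
  · exact sub_mem hv (Cg_le_jpow x n (NonA_cp h (by omega) hv))
  · rw [h.zero_of_mem (by omega) hv, map_zero, sub_zero]
    exact zero_mem _

private theorem NonA_dimC {x : J} {c : ℕ} {φ : J →ₗ[F] F} {M : Submodule F J}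
    (h : Spl F x c φ M) [Module.Finite F J] : c ≤ Module.finrank F (Cg F x 1) := by
  have key : ∀ d, d ≤ c → d ≤ Module.finrank F (Cg F x (c + 1 - d)) := by
    intro d
    induction d with
    | zero => intro _; exact Nat.zero_le _
    | succ d ih =>
      intro hd
      have h1 := ih (by omega)
      have hlt : Cg F x (c + 1 - d) < Cg F x (c + 1 - (d + 1)) := by
        refine lt_of_le_of_ne (Cg_anti x (by omega)) fun he => ?_
        have h2 : xp x (c - d) ∈ Cg F x (c + 1 - d) := by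
          rw [he]
          exact xp_mem_Cg x (by omega)
        have h3 := h.kap_Cg (i := d) (j := c + 1 - d) (by omega) (by omega) h2
        rw [h.kap_xp' _ _ (by omega), if_pos (by omega)] at h3
        exact one_ne_zero h3
      have := Submodule.finrank_lt_finrank_of_lt hlt
      omega
  have := key c le_rfl
  rwa [show c + 1 - c = 1 by omega] at this

private theorem NonA_dimM {x : J} {c : ℕ} {φ : J →ₗ[F] F} {M : Submodule F J}
    (h : Spl F x c φ M) [Module.Finite F J] (hn : ngen F J = 3) :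
    c + Module.finrank F M ≤ Module.finrank F J ∧
      Module.finrank F M = Module.finrank F (M ⊓ jpow F J 2 : Submodule F J) + 2 := by
  have hc := h.hc
  constructor
  · have h1 := Submodule.finrank_sup_add_finrank_inf_eq (Cg F x 1) M
    have h2 : Cg F x 1 ⊓ M = ⊥ := by
      rw [eq_bot_iff]
      rintro v ⟨hv, hm⟩
      rw [Submodule.mem_bot]
      exact h.inter hv hm
    rw [h2, finrank_bot, add_zero] at h1
    have h3 := Submodule.finrank_le (Cg F x 1 ⊔ M)
    have h4 := NonA_dimC h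
    omega
  · have h1 := Submodule.finrank_sup_add_finrank_inf_eq M (jpow F J 2)
    have h2 := Submodule.finrank_quotient_add_finrank (jpow F J 2)
    have h3 : Module.finrank F (J ⧸ jpow F J 2) = 3 := hn
    have hx : x ∉ M ⊔ jpow F J 2 := by
      intro hx
      obtain ⟨m, hm, p, hp, e⟩ := Submodule.mem_sup.1 hx
      have h4 := congrArg (kap F x φ (c - 1)) e
      have h5 := h.kap_xp' (c - 1) 1 le_rfl
      rw [xp_one, if_pos (by omega)] at h5
      rw [map_add, (h.mem m).1 hm, h.kap_zero_of_mem (n := 2) (by omega) hp, h5, add_zero] at h4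
      exact zero_ne_one h4
    have h4 : Module.finrank F (M ⊔ jpow F J 2 : Submodule F J) < Module.finrank F J := by
      refine Submodule.finrank_lt (fun ht => hx ?_)
      rw [ht]
      exact Submodule.mem_top
    have h5 : (M ⊔ jpow F J 2) ⊔ Submodule.span F {x} = ⊤ := by
      rw [eq_top_iff]
      intro v _
      obtain ⟨m, hm, e⟩ := h.exists_dec v
      have h6 : Cg F x 1 ≤ (M ⊔ jpow F J 2) ⊔ Submodule.span F {x} := by
        refine Cg_le x fun i hi => ?_
        rcases Nat.lt_or_ge i 2 with h7 | h7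
        · have : i = 1 := by omega
          subst this
          exact Submodule.mem_sup_right (Submodule.mem_span_singleton_self x)
        · exact Submodule.mem_sup_left (Submodule.mem_sup_right (jpow_anti h7 (xp_mem x i)))
      rw [e]
      exact add_mem (h6 (cp_mem x c φ v)) (Submodule.mem_sup_left (Submodule.mem_sup_left hm))
    have h6 := Submodule.finrank_add_le_finrank_add_finrank (M ⊔ jpow F J 2)
      (Submodule.span F {x})
    rw [h5, finrank_top] at h6
    have h7 : Module.finrank F (Submodule.span F {x}) ≤ 1 := by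
      have := finrank_span_le_card (R := F) ({x} : Set J)
      simpa using this
    omega

theorem nonA {x : J} {c : ℕ} {φ : J →ₗ[F] F} {M : Submodule F J} (h : Spl F x c φ M)
    (hfin : Module.Finite F J) (hdim : Module.finrank F J ≤ 11) (hn : ngen F J = 3)
    (hJc : jpow F J c ≤ Cg F x 1)
    {y : J} (hy : y ∈ M) (hyy : (x * x) * ((x * x) * y) ∉ Cg F x 1) :
    c = 7 ∧ ∃ q1 q2 z : J, q1 ∈ M ∧ q2 ∈ M ∧ z ∈ M ∧ q1 ∈ jpow F J 3 ∧ q2 ∈ jpow F J 5 ∧
      (x * x) * y - q1 ∈ Cg F x 3 ∧ (x * x) * q1 - q2 ∈ Cg F x 5 ∧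
      (∀ q ∈ M, q ∈ jpow F J 2 → ∃ r s : F, q = r • q1 + s • q2) ∧
      (∀ m ∈ M, ∃ a b r s : F, m = a • y + b • z + r • q1 + s • q2) ∧
      (∀ a b r s : F, a • y + b • z + r • q1 + s • q2 = 0 → a = 0 ∧ b = 0 ∧ r = 0 ∧ s = 0) := by
  have hfin' := hfin
  have hc := h.hc
  let q1 : J := (x * x) * y - cp F x c φ ((x * x) * y)
  let q2 : J := (x * x) * q1 - cp F x c φ ((x * x) * q1)
  have hy1 : (x * x) * y ∈ jpow F J 3 := bmul_mem (k := 1) rfl x (mem_one y)
  have hq1M : q1 ∈ M := h.pi_mem _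
  have hq1J : q1 ∈ jpow F J 3 := NonA_pi h hy1
  have hq1b : (x * x) * q1 ∈ jpow F J 5 := bmul_mem rfl x hq1J
  have hq2M : q2 ∈ M := h.pi_mem _
  have hq2J : q2 ∈ jpow F J 5 := NonA_pi h hq1b
  have hd1 : (x * x) * y - q1 = cp F x c φ ((x * x) * y) := by
    simp only [q1]
    abel
  have hd2 : (x * x) * q1 - q2 = cp F x c φ ((x * x) * q1) := by
    simp only [q2]
    abel
  have hC1 : (x * x) * y - q1 ∈ Cg F x 3 := by
    rw [hd1]
    exact NonA_cp h (by omega) hy1
  have hC2 : (x * x) * q1 - q2 ∈ Cg F x 5 := by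
    rw [hd2]
    exact NonA_cp h (by omega) hq1b
  have hq2C : q2 ∉ Cg F x 1 := by
    intro hq
    apply hyy
    have e : (x * x) * ((x * x) * y) =
        (x * x) * ((x * x) * y - q1) + (((x * x) * q1 - q2) + q2) := by
      rw [mul_sub]
      abel
    rw [e]
    exact add_mem (h.b_Cg (i := 3) (by omega) (by omega) hC1)
      (add_mem (Cg_anti x (by omega) hC2) hq)
  have hq2 : q2 ≠ 0 := fun h0 => hq2C (by rw [h0]; exact zero_mem _)
  have hq1 : q1 ≠ 0 := by
    intro h0
    apply hq2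
    simp only [q2]
    rw [h0, mul_zero, map_zero, sub_zero]
  -- independence of `q1, q2`
  have hind : ∀ r s : F, r • q1 + s • q2 = 0 → r = 0 ∧ s = 0 := by
    intro r s hrs
    by_cases hs : s = 0
    · rw [hs, zero_smul, add_zero] at hrs
      exact ⟨(smul_eq_zero.1 hrs).resolve_right hq1, hs⟩
    exfalso
    have hr : r ≠ 0 := by
      intro hr
      rw [hr, zero_smul, zero_add] at hrs
      rcases smul_eq_zero.1 hrs with h1 | h1
      · exact hs h1
      · exact hq2 h1
    have e1 : q1 = (-(r⁻¹ * s)) • q2 := by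
      have h1 : r • q1 = -(s • q2) := eq_neg_of_add_eq_zero_left hrs
      have h3 := congrArg (fun v => r⁻¹ • v) h1
      simp only [smul_neg, smul_smul] at h3
      rw [inv_mul_cancel₀ hr, one_smul] at h3
      rw [h3, neg_smul]
    have key : ∀ n : ℕ, q1 ∈ jpow F J (2 * n) := by
      intro n
      induction n with
      | zero => rw [Nat.mul_zero, jpow_zero]; exact Submodule.mem_top
      | succ n ih =>
        have h3 : (x * x) * q1 ∈ jpow F J (2 * (n + 1)) := bmul_mem (by ring) x ih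
        have h4 : q2 ∈ jpow F J (2 * (n + 1)) := NonA_pi h h3
        rw [e1]
        exact Submodule.smul_mem _ _ h4
    exact hq1 (h.zero_of_mem (by omega) (key (c + 1)))
  have hli2 : LinearIndependent F ![q1, q2] := by
    rw [LinearIndependent.pair_iff]
    exact hind
  have hr2 := finrank_span_eq_card hli2
  rw [Fintype.card_fin] at hr2
  have hle2 : Submodule.span F (Set.range ![q1, q2]) ≤ M ⊓ jpow F J 2 := by
    rw [Submodule.span_le]
    rintro _ ⟨i, rfl⟩
    fin_cases i
    · exact ⟨hq1M, jpow_anti (by omega) hq1J⟩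
    · exact ⟨hq2M, jpow_anti (by omega) hq2J⟩
  obtain ⟨hd3, hd4⟩ := NonA_dimM h hn
  have hd5 := Submodule.finrank_mono hle2
  have hc7 : c = 7 := by omega
  have hQ : Module.finrank F (M ⊓ jpow F J 2 : Submodule F J) = 2 := by omega
  have hM : Module.finrank F M = 4 := by omega
  have hQe : Submodule.span F (Set.range ![q1, q2]) = M ⊓ jpow F J 2 :=
    Submodule.eq_of_le_of_finrank_eq hle2 (by rw [hr2, hQ])
  have hQm : ∀ q ∈ M, q ∈ jpow F J 2 → ∃ r s : F, q = r • q1 + s • q2 := by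
    intro q hq hq'
    have h1 : q ∈ Submodule.span F (Set.range ![q1, q2]) := by
      rw [hQe]
      exact ⟨hq, hq'⟩
    obtain ⟨a, ha⟩ := (Submodule.mem_span_range_iff_exists_fun F).1 h1
    refine ⟨a 0, a 1, ?_⟩
    rw [← ha, Fin.sum_univ_two]
    simp
  have hyQ : ∀ r s : F, y ≠ r • q1 + s • q2 := by
    intro r s hy'
    apply hyy
    have h1 : y ∈ jpow F J 3 := by
      rw [hy']
      exact add_mem (Submodule.smul_mem _ _ hq1J)
        (Submodule.smul_mem _ _ (jpow_anti (by omega) hq2J))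
    have h3 : (x * x) * ((x * x) * y) ∈ jpow F J 7 :=
      bmul_mem (k := 5) rfl x (bmul_mem (k := 3) rfl x h1)
    refine hJc ?_
    rw [hc7]
    exact h3
  -- the element `z`
  obtain ⟨z, hzM, hz⟩ : ∃ z ∈ M, z ∉ Submodule.span F {y} ⊔ (M ⊓ jpow F J 2) := by
    by_contra hcon
    push Not at hcon
    have h1 : M ≤ Submodule.span F {y} ⊔ (M ⊓ jpow F J 2) := hcon
    have h3 := Submodule.finrank_mono h1
    have h4 := Submodule.finrank_add_le_finrank_add_finrank (Submodule.span F {y})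
      (M ⊓ jpow F J 2)
    have h5 : Module.finrank F (Submodule.span F {y}) ≤ 1 := by
      have := finrank_span_le_card (R := F) ({y} : Set J)
      simpa using this
    omega
  have hind4 : ∀ a b r s : F, a • y + b • z + r • q1 + s • q2 = 0 →
      a = 0 ∧ b = 0 ∧ r = 0 ∧ s = 0 := by
    intro a b r s h0
    have hb : b = 0 := by
      by_contra hb
      apply hz
      have h1 : b • z = (-a) • y + (-(r • q1 + s • q2)) := by
        rw [← sub_eq_zero, neg_smul]
        rw [← h0]
        abel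
      have h3 : z = b⁻¹ • ((-a) • y + (-(r • q1 + s • q2))) := by
        rw [← h1, smul_smul, inv_mul_cancel₀ hb, one_smul]
      rw [h3]
      refine Submodule.smul_mem _ _ (add_mem (Submodule.mem_sup_left
        (Submodule.smul_mem _ _ (Submodule.mem_span_singleton_self y)))
        (Submodule.mem_sup_right (neg_mem ?_)))
      rw [← hQe]
      exact add_mem (Submodule.smul_mem _ _ (Submodule.subset_span ⟨0, rfl⟩))
        (Submodule.smul_mem _ _ (Submodule.subset_span ⟨1, rfl⟩))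
    rw [hb, zero_smul, add_zero] at h0
    have ha : a = 0 := by
      by_contra ha
      apply hyQ (-(a⁻¹ * r)) (-(a⁻¹ * s))
      have h1 : a • y = -(r • q1 + s • q2) := by
        rw [← sub_eq_zero]
        rw [← h0]
        abel
      have h3 : y = a⁻¹ • (-(r • q1 + s • q2)) := by
        rw [← h1, smul_smul, inv_mul_cancel₀ ha, one_smul]
      rw [h3, smul_neg, smul_add, smul_smul, smul_smul, neg_add, neg_smul, neg_smul]
    rw [ha, zero_smul, zero_add] at h0
    exact ⟨ha, hb, hind r s h0⟩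
  have hli4 : LinearIndependent F ![y, z, q1, q2] := by
    rw [Fintype.linearIndependent_iff]
    intro g hg
    rw [Fin.sum_univ_four] at hg
    have h1 := hind4 (g 0) (g 1) (g 2) (g 3) (by simpa using hg)
    intro i
    fin_cases i
    · exact h1.1
    · exact h1.2.1
    · exact h1.2.2.1
    · exact h1.2.2.2
  have hr4 := finrank_span_eq_card hli4
  rw [Fintype.card_fin] at hr4
  have hle4 : Submodule.span F (Set.range ![y, z, q1, q2]) ≤ M := by
    rw [Submodule.span_le]
    rintro _ ⟨i, rfl⟩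
    fin_cases i
    · exact hy
    · exact hzM
    · exact hq1M
    · exact hq2M
  have hMe : Submodule.span F (Set.range ![y, z, q1, q2]) = M :=
    Submodule.eq_of_le_of_finrank_eq hle4 (by rw [hr4, hM])
  refine ⟨hc7, q1, q2, z, hq1M, hq2M, hzM, hq1J, hq2J, hC1, hC2, hQm, ?_, hind4⟩
  intro m hm
  rw [← hMe] at hm
  obtain ⟨a, ha⟩ := (Submodule.mem_span_range_iff_exists_fun F).1 hm
  refine ⟨a 0, a 1, a 2, a 3, ?_⟩
  rw [← ha, Fin.sum_univ_four]
  simp

end L2
end JD
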