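import Pool.Agent.H78.L2.Spl

set_option autoImplicit false
set_option linter.unusedSectionVars false
set_option linter.unusedVariables false

/-!
# JD: `J = C ⊕ M` with `M ∩ J² = 0` is special

Representation on `Y = (ℕ → F) × J × J` (basis `y_i`, `w`, `w~`):
`x : y_i → y_(i+1)`, `w → w~ → p(w) y_c`; `w : y_0 → w`, `y_1 → - w~`, `y_2 → p(w) y_c`, `w' → s(w,w') y_c + r(w,w') y_(c-1)`,
`w'~ → - r(w,w') y_c`, where `x² w = p(w) x^c`, `w w' = s(w,w') x^c + r(w,w') x^(c-1)`.
-/

namespace JD
namespace L2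

universe u

variable {F : Type u} [Field F] {J : Type u} [NonUnitalNonAssocCommRing J] [Module F J]
  [IsScalarTower F J J] [SMulCommClass F J J]

/-- shift by `i`, truncated at `c` -/
def sh (F : Type u) [Field F] (c i : ℕ) : (ℕ → F) →ₗ[F] (ℕ → F) where
  toFun g := fun j => if i ≤ j ∧ j ≤ c then g (j - i) else 0
  map_add' g g' := by
    funext j
    by_cases h : i ≤ j ∧ j ≤ c
    · simp only [Pi.add_apply, if_pos h]
    · simp only [Pi.add_apply, if_neg h, add_zero]
  map_smul' r g := by
    funext j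
    by_cases h : i ≤ j ∧ j ≤ c
    · simp only [Pi.smul_apply, if_pos h, RingHom.id_apply]
    · simp only [Pi.smul_apply, if_neg h, RingHom.id_apply, smul_zero]

theorem sh_apply (c i : ℕ) (g : ℕ → F) (j : ℕ) :
    sh F c i g j = if i ≤ j ∧ j ≤ c then g (j - i) else 0 := rfl

theorem sh_sh (c i j : ℕ) (g : ℕ → F) : sh F c i (sh F c j g) = sh F c (i + j) g := by
  funext k
  simp only [sh_apply]
  by_cases h : i + j ≤ k ∧ k ≤ c
  · rw [if_pos h, if_pos (by omega), if_pos (by omega)]
    congr 1
    omega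
  · rw [if_neg h]
    by_cases h1 : i ≤ k ∧ k ≤ c
    · rw [if_pos h1, if_neg (by omega)]
    · rw [if_neg h1]

theorem sh_single {c i k : ℕ} (a : F) (h : c < k + i) : sh F c i (Pi.single k a) = 0 := by
  funext j
  rw [sh_apply, Pi.zero_apply]
  split_ifs with h1
  · rw [Pi.single_eq_of_ne (by omega)]
  · rfl

theorem sh_single' {c i k : ℕ} (a : F) (h : k + i ≤ c) :
    sh F c i (Pi.single k a) = Pi.single (k + i) a := by
  funext j
  rw [sh_apply]
  by_cases hj : j = k + i
  · subst hj
    rw [if_pos (by omega), Pi.single_eq_same, show k + i - i = k by omega, Pi.single_eq_same]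
  · rw [Pi.single_eq_of_ne hj]
    split_ifs with h1
    · rw [Pi.single_eq_of_ne (by omega)]
    · rfl

theorem sh_big {c i : ℕ} (g : ℕ → F) (h : c < i) : sh F c i g = 0 := by
  funext j
  rw [sh_apply, if_neg (by omega)]
  rfl

/-- the representation space -/
abbrev YY (F J : Type u) := (ℕ → F) × J × J

/-- the operator of `x^i` -/
def PP (F : Type u) [Field F] {J : Type u} [NonUnitalNonAssocCommRing J] [Module F J]
    [IsScalarTower F J J] [SMulCommClass F J J] (x : J) (c : ℕ) (φ : J →ₗ[F] F) (i : ℕ) :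
    YY F J →ₗ[F] YY F J where
  toFun y := (sh F c i y.1 + Pi.single c (if i = 1 then φ ((x * x) * y.2.2) else
      if i = 2 then φ ((x * x) * y.2.1) else 0), 0, if i = 1 then y.2.1 else 0)
  map_add' y y' := by
    refine Prod.ext ?_ (Prod.ext ?_ ?_)
    · simp only [Prod.fst_add, Prod.snd_add, map_add, mul_add]
      funext j
      simp only [Pi.add_apply, Pi.single_apply]
      split_ifs <;> ring
    · simp
    · simp only [Prod.fst_add, Prod.snd_add]
      split_ifs <;> simp
  map_smul' r y := by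
    refine Prod.ext ?_ (Prod.ext ?_ ?_)
    · simp only [Prod.smul_fst, Prod.smul_snd, map_smul, mul_smul_comm, RingHom.id_apply]
      funext j
      simp only [Pi.add_apply, Pi.single_apply, Pi.smul_apply, smul_eq_mul]
      split_ifs <;> ring
    · simp
    · simp only [Prod.smul_fst, Prod.smul_snd, RingHom.id_apply]
      split_ifs <;> simp

theorem PP_apply (x : J) (c : ℕ) (φ : J →ₗ[F] F) (i : ℕ) (g : ℕ → F) (a b : J) :
    PP F x c φ i (g, a, b) = (sh F c i g + Pi.single c (if i = 1 then φ ((x * x) * b) else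
      if i = 2 then φ ((x * x) * a) else 0), 0, if i = 1 then a else 0) := rfl

/-- the operator of `w` -/
def RR (F : Type u) [Field F] {J : Type u} [NonUnitalNonAssocCommRing J] [Module F J]
    [IsScalarTower F J J] [SMulCommClass F J J] (x : J) (c : ℕ) (φ : J →ₗ[F] F) :
    J →ₗ[F] Module.End F (YY F J) :=
  LinearMap.mk₂ F (fun v y => ((Pi.single c (φ ((x * x) * v) * y.1 2 + φ (v * y.2.1)
      - φ (x * (v * y.2.2))) + Pi.single (c - 1) (φ (x * (v * y.2.1))),
      y.1 0 • v, -(y.1 1 • v)) : YY F J))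
    (by
      intro v v' y
      refine Prod.ext ?_ (Prod.ext ?_ ?_)
      · simp only [Prod.fst_add, map_add, mul_add, add_mul]
        funext j
        simp only [Pi.add_apply, Pi.single_apply]
        split_ifs <;> ring
      · simp only [Prod.snd_add, Prod.fst_add, smul_add]
      · simp only [Prod.snd_add, Prod.fst_add, smul_add, neg_add])
    (by
      intro r v y
      refine Prod.ext ?_ (Prod.ext ?_ ?_)
      · simp only [Prod.smul_fst, map_smul, mul_smul_comm, smul_mul_assoc, smul_eq_mul]
        funext j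
        simp only [Pi.add_apply, Pi.single_apply, Pi.smul_apply, smul_eq_mul]
        split_ifs <;> ring
      · simp only [Prod.smul_snd, Prod.smul_fst]
        rw [smul_comm]
      · simp only [Prod.smul_snd, smul_neg]
        rw [smul_comm])
    (by
      intro v y y'
      refine Prod.ext ?_ (Prod.ext ?_ ?_)
      · simp only [Prod.fst_add, Prod.snd_add, map_add, mul_add, Pi.add_apply]
        funext j
        simp only [Pi.add_apply, Pi.single_apply]
        split_ifs <;> ring
      · simp only [Prod.snd_add, Prod.fst_add, Pi.add_apply, add_smul]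
      · simp only [Prod.snd_add, Prod.fst_add, Pi.add_apply, add_smul, neg_add])
    (by
      intro r v y
      refine Prod.ext ?_ (Prod.ext ?_ ?_)
      · simp only [Prod.smul_fst, Prod.smul_snd, map_smul, mul_smul_comm, Pi.smul_apply,
          smul_eq_mul]
        funext j
        simp only [Pi.add_apply, Pi.single_apply, Pi.smul_apply, smul_eq_mul]
        split_ifs <;> ring
      · simp only [Prod.smul_snd, Prod.smul_fst, Pi.smul_apply, smul_eq_mul, mul_smul]
      · simp only [Prod.smul_snd, Prod.smul_fst, Pi.smul_apply, smul_eq_mul, mul_smul, smul_neg])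

theorem RR_apply (x : J) (c : ℕ) (φ : J →ₗ[F] F) (v : J) (g : ℕ → F) (a b : J) :
    RR F x c φ v (g, a, b) = (Pi.single c (φ ((x * x) * v) * g 2 + φ (v * a)
      - φ (x * (v * b))) + Pi.single (c - 1) (φ (x * (v * a))), g 0 • v, -(g 1 • v)) := rfl

section
variable {x : J} {c : ℕ} {φ : J →ₗ[F] F} {M : Submodule F J}

theorem PP_PP {i j : ℕ} (hc : 7 ≤ c) (hi : 1 ≤ i) (hj : 1 ≤ j) (y : YY F J) :
    PP F x c φ i (PP F x c φ j y) = PP F x c φ (i + j) y := by
  obtain ⟨g, a, b⟩ := y
  rw [PP_apply, PP_apply, PP_apply, map_add, sh_sh, sh_single _ (by omega), add_zero, mul_zero,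
    map_zero, if_neg (show ¬ i + j = 1 by omega)]
  refine Prod.ext ?_ (Prod.ext rfl ?_)
  · simp only
    congr 1
    congr 1
    by_cases h1 : i = 1
    · by_cases h2 : j = 1
      · rw [if_pos h1, if_pos h2, if_pos (by omega)]
      · rw [if_pos h1, if_neg h2, mul_zero, map_zero, if_neg (by omega)]
    · rw [if_neg h1, if_neg (show ¬ i + j = 2 by omega)]
      split_ifs <;> rfl
  · simp only
    rw [if_neg (show ¬ i + j = 1 by omega)]
    split_ifs <;> rfl

/-- `x w = 0`: `P_1 R_w + R_w P_1 = 0` -/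
theorem PP_RR_one (hc : 7 ≤ c) (w : J) (y : YY F J) :
    PP F x c φ 1 (RR F x c φ w y) + RR F x c φ w (PP F x c φ 1 y) = 0 := by
  obtain ⟨g, a, b⟩ := y
  rw [RR_apply, PP_apply, PP_apply, RR_apply]
  have s1 : sh F c 1 (Pi.single c (φ ((x * x) * w) * g 2 + φ (w * a) - φ (x * (w * b))) +
      Pi.single (c - 1) (φ (x * (w * a)))) = Pi.single c (φ (x * (w * a))) := by
    rw [map_add, sh_single _ (by omega), sh_single' _ (by omega), zero_add,
      show c - 1 + 1 = c by omega]
  rw [s1]
  have e0 : ∀ r : F, (sh F c 1 g + Pi.single c r : ℕ → F) 0 = 0 := by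
    intro r
    rw [Pi.add_apply, sh_apply, if_neg (by omega), Pi.single_eq_of_ne (by omega), add_zero]
  have e1 : ∀ r : F, (sh F c 1 g + Pi.single c r : ℕ → F) 1 = g 0 := by
    intro r
    rw [Pi.add_apply, sh_apply, if_pos (by omega), Pi.single_eq_of_ne (by omega), add_zero]
  have e2 : ∀ r : F, (sh F c 1 g + Pi.single c r : ℕ → F) 2 = g 1 := by
    intro r
    rw [Pi.add_apply, sh_apply, if_pos (by omega), Pi.single_eq_of_ne (by omega), add_zero]
  simp only [if_true, e0, e1, e2, mul_zero, map_zero, add_zero, zero_smul, Pi.single_zero]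
  refine Prod.ext ?_ (Prod.ext ?_ ?_)
  · simp only [Prod.fst_add, Prod.fst_zero]
    rw [← Pi.single_add, ← Pi.single_add]
    have : φ (x * (w * a)) + φ (x * x * -(g 1 • w)) + (φ (x * x * w) * g 1 - φ (x * (w * a))) = 0 := by
      rw [mul_neg, mul_smul_comm, map_neg, map_smul, smul_eq_mul]
      ring
    rw [this, Pi.single_zero]
  · simp
  · simp

/-- `x² w = p(w) x^c` -/
theorem PP_RR_two (hc : 7 ≤ c) (w : J) (y : YY F J) :
    PP F x c φ 2 (RR F x c φ w y) + RR F x c φ w (PP F x c φ 2 y) =
      (2 * φ ((x * x) * w)) • PP F x c φ c y := by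
  obtain ⟨g, a, b⟩ := y
  rw [RR_apply, PP_apply, PP_apply, RR_apply, PP_apply]
  rw [map_add, sh_single _ (by omega), sh_single _ (by omega)]
  have e0 : ∀ r : F, (sh F c 2 g + Pi.single c r : ℕ → F) 0 = 0 := by
    intro r
    rw [Pi.add_apply, sh_apply, if_neg (by omega), Pi.single_eq_of_ne (by omega), add_zero]
  have e1 : ∀ r : F, (sh F c 2 g + Pi.single c r : ℕ → F) 1 = 0 := by
    intro r
    rw [Pi.add_apply, sh_apply, if_neg (by omega), Pi.single_eq_of_ne (by omega), add_zero]
  have e2 : ∀ r : F, (sh F c 2 g + Pi.single c r : ℕ → F) 2 = g 0 := by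
    intro r
    rw [Pi.add_apply, sh_apply, if_pos (by omega), Pi.single_eq_of_ne (by omega), add_zero]
  simp only [e0, e1, e2, if_neg (show ¬ (2 : ℕ) = 1 by omega), if_true,
    if_neg (show ¬ c = 1 by omega), if_neg (show ¬ c = 2 by omega), mul_zero, map_zero, add_zero,
    zero_smul, Pi.single_zero, zero_add, neg_zero, sub_zero]
  refine Prod.ext ?_ (Prod.ext ?_ ?_)
  · simp only [Prod.fst_add, Prod.smul_fst]
    rw [mul_smul_comm, map_smul, smul_eq_mul]
    funext j
    simp only [Pi.add_apply, Pi.smul_apply, sh_apply, smul_eq_mul, Pi.single_apply]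
    by_cases hj : j = c
    · subst hj
      simp only [if_true, le_refl, and_self, Nat.sub_self]
      ring
    · rw [if_neg hj, if_neg hj, if_neg (by omega)]
      ring
  · simp
  · simp

theorem PP_RR_three {i : ℕ} (hc : 7 ≤ c) (hi : 3 ≤ i) (w : J) (y : YY F J) :
    PP F x c φ i (RR F x c φ w y) + RR F x c φ w (PP F x c φ i y) = 0 := by
  obtain ⟨g, a, b⟩ := y
  rw [RR_apply, PP_apply, PP_apply, RR_apply]
  rw [map_add, sh_single _ (by omega), sh_single _ (by omega)]
  have e0 : ∀ k, k < 3 → sh F c i g k = 0 := by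
    intro k hk
    rw [sh_apply, if_neg (by omega)]
  simp only [if_neg (show ¬ i = 1 by omega), if_neg (show ¬ i = 2 by omega), Pi.single_zero,
    add_zero, e0 0 (by omega), e0 1 (by omega), e0 2 (by omega), mul_zero, map_zero,
    zero_smul, neg_zero, sub_zero]
  rw [Prod.mk_zero_zero, Prod.mk_zero_zero, add_zero]

/-- `w w' = s x^c + r x^(c-1)` -/
theorem RR_RR (hc : 7 ≤ c) (w w' : J) (y : YY F J) :
    RR F x c φ w (RR F x c φ w' y) + RR F x c φ w' (RR F x c φ w y) =
      (2 : F) • (φ (w * w') • PP F x c φ c y + φ (x * (w * w')) • PP F x c φ (c - 1) y) := by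
  obtain ⟨g, a, b⟩ := y
  have e0 : ∀ k, k < 3 → ∀ r s : F,
      ((Pi.single c r + Pi.single (c - 1) s : ℕ → F)) k = 0 := by
    intro k hk r s
    rw [Pi.add_apply, Pi.single_eq_of_ne (by omega), Pi.single_eq_of_ne (by omega), add_zero]
  rw [RR_apply, RR_apply, RR_apply, RR_apply, PP_apply, PP_apply]
  simp only [e0 0 (by omega), e0 1 (by omega), e0 2 (by omega),
    if_neg (show ¬ c = 1 by omega), if_neg (show ¬ c = 2 by omega),
    if_neg (show ¬ c - 1 = 1 by omega), if_neg (show ¬ c - 1 = 2 by omega),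
    mul_zero, map_zero, add_zero, zero_smul, Pi.single_zero, neg_zero, zero_add]
  have hcomm : w' * w = w * w' := mul_comm _ _
  refine Prod.ext ?_ (Prod.ext ?_ ?_)
  · simp only [Prod.fst_add, Prod.smul_fst]
    simp only [mul_smul_comm, mul_neg, map_smul, map_neg, smul_eq_mul, hcomm]
    funext j
    simp only [Pi.add_apply, Pi.smul_apply, sh_apply, smul_eq_mul, Pi.single_apply]
    by_cases hj : j = c
    · subst hj
      rw [if_pos rfl, if_neg (show ¬ j = j - 1 by omega),
        if_pos (show j ≤ j ∧ j ≤ j by omega), if_pos (show j - 1 ≤ j ∧ j ≤ j by omega),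
        Nat.sub_self, show j - (j - 1) = 1 by omega]
      ring
    · by_cases hj1 : j = c - 1
      · rw [if_neg hj, if_pos hj1, if_neg (show ¬ (c ≤ j ∧ j ≤ c) by omega),
          if_pos (show c - 1 ≤ j ∧ j ≤ c by omega), show j - (c - 1) = 0 by omega]
        ring
      · rw [if_neg hj, if_neg hj1, if_neg (show ¬ (c ≤ j ∧ j ≤ c) by omega),
          if_neg (show ¬ (c - 1 ≤ j ∧ j ≤ c) by omega)]
        ring
  · simp
  · simp

/-! ### products in `J` -/

variable (h : Spl F x c φ M) (hQ : ∀ m ∈ M, m ∈ jpow F J 2 → m = 0)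
include h hQ

theorem Q0_xM {m : J} (hm : m ∈ M) : x * m = 0 := hQ _ (h.M_mul hm) (mul_mem_two x m)

theorem Q0_C {p : J} (hp : p ∈ jpow F J 2) : p ∈ Cg F x 1 := by
  have hc := h.hc
  have hcp2 : cp F x c φ p ∈ Cg F x 2 :=
    cp_mem_of (k := c - 1) (by omega) fun i hi => h.kap_zero_of_mem (n := 2) (by omega) hp
  have h1 := hQ _ (h.pi_mem p) (sub_mem hp (Cg_le_jpow x _ hcp2))
  rw [sub_eq_zero] at h1
  rw [h1]
  exact cp_mem x c φ p

theorem Q0_bM {m : J} (hm : m ∈ M) : (x * x) * m = φ ((x * x) * m) • xp x c := by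
  refine h.Cg_c (h.Cg_of_kap (k := 1)
    (Q0_C h hQ (jpow_anti (by omega) (bmul_mem (n := 3) (by omega) x (mem_one m)))) le_rfl ?_)
  intro i hi
  obtain ⟨j, rfl⟩ : ∃ j, i = j + 1 := ⟨i - 1, by omega⟩
  rw [kap_succ, ← comm1 F h.two h.jordan, Q0_xM h hQ hm, mul_zero, map_zero]

theorem Q0_xpM (i : ℕ) (hi : 3 ≤ i) {m : J} (hm : m ∈ M) : xp x i * m = 0 := by
  have hc := h.hc
  have hb : (x * x) * ((x * x) * m) = 0 := by
    rw [Q0_bM h hQ hm, mul_smul_comm, b_xp F h.two h.jordan x (by omega) rfl,
      h.xp_zero' (by omega), smul_zero]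
  induction i using Nat.strong_induction_on with
  | _ i ih =>
    rcases (by omega : i = 3 ∨ i = 4 ∨ 5 ≤ i) with rfl | rfl | h5
    · rw [x3m F h.two h.jordan, Q0_xM h hQ hm]; simp
    · rw [x4m F h.two h.jordan, Q0_xM h hQ hm, hb]; simp
    · obtain ⟨j, rfl⟩ : ∃ j, i = j + 2 := ⟨i - 2, by omega⟩
      rw [xp_rec F h.two h.jordan x (by omega), Q0_xM h hQ hm, ih j (by omega) (by omega)]
      simp

theorem Q0_MM {m m' : J} (hm : m ∈ M) (hm' : m' ∈ M) :
    m * m' = φ (m * m') • xp x c + φ (x * (m * m')) • xp x (c - 1) := by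
  have hc := h.hc
  have hC : m * m' ∈ Cg F x 1 := Q0_C h hQ (mul_mem_two m m')
  have hb : (x * x) * (m * m') = 0 := by
    have e3 := comm2 F h.two h.jordan x m m'
    rw [Q0_xM h hQ hm, Q0_xM h hQ hm', Q0_bM h hQ hm', zero_mul, zero_mul, mul_zero, sub_zero,
      smul_zero, mul_smul_comm, mul_comm m (xp x c), Q0_xpM h hQ c (by omega) hm, smul_zero,
      sub_zero] at e3
    exact e3
  have h0 : ∀ i, 2 ≤ i → kap F x φ i (m * m') = 0 := by
    intro i hi
    obtain ⟨j, rfl⟩ : ∃ j, i = j + 2 := ⟨i - 2, by omega⟩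
    rw [← h.kap_b_Cg hC, hb, map_zero]
  have e := h.cp_of_Cg hC
  rw [cp_apply, ← Finset.sum_subset (Finset.range_subset_range.mpr (show 2 ≤ c by omega))
    (fun i _ hi => by
      rw [Finset.mem_range, not_lt] at hi
      rw [h0 i hi, zero_smul]),
    Finset.sum_range_succ, Finset.sum_range_one, kap_succ, kap_zero, kap_zero, Nat.sub_zero] at e
  exact e.symm

/-- the representation -/
theorem special_Q0 : IsSpecial.{u, u, u} F J := by
  classical
  have hc := h.hc
  have h2 := h.two
  obtain ⟨f, hf⟩ : ∃ f : J →ₗ[F] Module.End F (YY F J), ∀ v,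
      f v = (∑ i ∈ Finset.range c, kap F x φ i v • PP F x c φ (c - i)) +
      RR F x c φ (v - cp F x c φ v) := by
    refine ⟨(∑ i ∈ Finset.range c, (kap F x φ i).smulRight (PP F x c φ (c - i))) +
      (RR F x c φ) ∘ₗ (LinearMap.id - cp F x c φ), fun v => ?_⟩
    simp [LinearMap.sum_apply]
  have hPbig : ∀ i, c < i → PP F x c φ i = 0 := by
    intro i hi
    refine LinearMap.ext fun y => ?_
    obtain ⟨g, a, b⟩ := y
    rw [PP_apply, sh_big _ hi, if_neg (by omega), if_neg (by omega), if_neg (by omega),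
      Pi.single_zero, add_zero]
    rfl
  have hfx : ∀ j, 1 ≤ j → f (xp x j) = PP F x c φ j := by
    intro j hj
    rw [hf, h.cp_xp hj, sub_self, map_zero, add_zero]
    rcases Nat.lt_or_ge c j with h1 | h1
    · rw [hPbig j h1]
      refine Finset.sum_eq_zero fun i hi => ?_
      rw [h.kap_xp' _ _ hj, if_neg (by omega), zero_smul]
    · rw [Finset.sum_eq_single (c - j)]
      · rw [h.kap_xp' _ _ hj, if_pos (by omega), one_smul, show c - (c - j) = j by omega]
      · intro i _ hi
        rw [h.kap_xp' _ _ hj, if_neg (by omega), zero_smul]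
      · intro hi
        rw [Finset.mem_range] at hi
        omega
  have hfM : ∀ m ∈ M, f m = RR F x c φ m := by
    intro m hm
    rw [hf, h.cp_of_M hm, sub_zero]
    rw [Finset.sum_eq_zero fun i _ => by rw [(h.mem m).mp hm i, zero_smul], zero_add]
  -- the bilinear defect
  let D : J → J → Module.End F (YY F J) := fun a b => (2 : F) • f (a * b) - (f a * f b + f b * f a)
  have Dadd : ∀ a a' b, D (a + a') b = D a b + D a' b := by
    intro a a' b
    simp only [D, add_mul, map_add, smul_add, mul_add]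
    abel
  have Dsmul : ∀ (r : F) a b, D (r • a) b = r • D a b := by
    intro r a b
    simp only [D, smul_mul_assoc, map_smul, mul_smul_comm, smul_sub, smul_add]
    rw [smul_comm]
  have Dcomm : ∀ a b, D a b = D b a := by
    intro a b
    simp only [D]
    rw [mul_comm a b, add_comm (f a * f b)]
  -- reduction to generators
  have hspan : ∀ b : J, (∀ j, 1 ≤ j → D (xp x j) b = 0) → (∀ m ∈ M, D m b = 0) →
      ∀ a, D a b = 0 := by
    intro b hb1 hb2 a
    obtain ⟨m, hm, e⟩ := h.exists_dec a
    have hC : ∀ v ∈ Cg F x 1, D v b = 0 := by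
      intro v hv
      unfold Cg at hv
      induction hv using Submodule.span_induction with
      | mem v hv =>
        obtain ⟨i, hi, rfl⟩ := hv
        exact hb1 i hi
      | zero =>
        have := Dsmul 0 0 b
        rwa [zero_smul, zero_smul] at this
      | add v w _ _ hv hw => rw [Dadd, hv, hw, add_zero]
      | smul r v _ hv => rw [Dsmul, hv, smul_zero]
    rw [e, Dadd, hC _ (cp_mem x c φ a), hb2 m hm, add_zero]
  have Dxx : ∀ i j, 1 ≤ i → 1 ≤ j → D (xp x i) (xp x j) = 0 := by
    intro i j hi hj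
    simp only [D]
    rw [xp_mul F h2 h.jordan x hi hj, hfx _ (by omega), hfx i hi, hfx j hj]
    refine LinearMap.ext fun y => ?_
    rw [LinearMap.sub_apply, LinearMap.smul_apply, LinearMap.add_apply, Module.End.mul_apply,
      Module.End.mul_apply, PP_PP hc hi hj, PP_PP hc hj hi, add_comm j i, two_smul, sub_self]
    rfl
  have Dxm : ∀ i, 1 ≤ i → ∀ m ∈ M, D (xp x i) m = 0 := by
    intro i hi m hm
    simp only [D]
    rw [hfx i hi, hfM m hm]
    refine LinearMap.ext fun y => ?_
    rw [LinearMap.sub_apply, LinearMap.smul_apply, LinearMap.add_apply, Module.End.mul_apply,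
      Module.End.mul_apply]
    rcases (by omega : i = 1 ∨ i = 2 ∨ 3 ≤ i) with rfl | rfl | h3
    · rw [xp_one, Q0_xM h hQ hm, map_zero, PP_RR_one hc]
      simp
    · have e : f ((x * x) * m) = φ ((x * x) * m) • PP F x c φ c := by
        conv_lhs => rw [Q0_bM h hQ hm]
        rw [map_smul, hfx c (by omega)]
      rw [xp_two, e, PP_RR_two hc, LinearMap.smul_apply, smul_smul, sub_self]
      rfl
    · rw [Q0_xpM h hQ i h3 hm, map_zero, PP_RR_three hc h3]
      simp
  have Dmm : ∀ m ∈ M, ∀ m' ∈ M, D m m' = 0 := by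
    intro m hm m' hm'
    simp only [D]
    rw [hfM m hm, hfM m' hm']
    refine LinearMap.ext fun y => ?_
    rw [LinearMap.sub_apply, LinearMap.smul_apply, LinearMap.add_apply, Module.End.mul_apply,
      Module.End.mul_apply, RR_RR hc]
    have e : f (m * m') = φ (m * m') • PP F x c φ c + φ (x * (m * m')) • PP F x c φ (c - 1) := by
      conv_lhs => rw [Q0_MM h hQ hm hm']
      rw [map_add, map_smul, map_smul, hfx _ (by omega), hfx _ (by omega)]
    rw [e, LinearMap.add_apply, LinearMap.smul_apply, LinearMap.smul_apply, sub_self]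
    rfl
  have hD : ∀ a b, D a b = 0 := by
    intro a b
    refine hspan b ?_ ?_ a
    · intro j hj
      rw [Dcomm]
      refine hspan _ (fun i hi => Dxx i j hi hj) (fun m hm => ?_) b
      rw [Dcomm]
      exact Dxm j hj m hm
    · intro m hm
      rw [Dcomm]
      exact hspan _ (fun i hi => Dxm i hi m hm) (fun m' hm' => Dmm m' hm' m hm) b
  refine ⟨Module.End F (YY F J), inferInstance, inferInstance, inferInstance, inferInstance, f,
    ?_, ?_⟩
  · rw [injective_iff_map_eq_zero]
    intro v hv
    have e1 := hf v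
    rw [hv] at e1
    have p0 : ∀ i, 1 ≤ i → i ≤ c → PP F x c φ i (Pi.single 0 1, 0, 0) =
        (Pi.single i 1, 0, 0) := by
      intro i hi hic
      rw [PP_apply, sh_single' _ (by omega), zero_add, mul_zero, map_zero, ite_self, ite_self,
        Pi.single_zero, add_zero, ite_self]
    have r0 : ∀ w : J, RR F x c φ w (Pi.single 0 1, 0, 0) = (0, w, 0) := by
      intro w
      rw [RR_apply, Pi.single_eq_of_ne (show (2 : ℕ) ≠ 0 by omega),
        Pi.single_eq_of_ne (show (1 : ℕ) ≠ 0 by omega), Pi.single_eq_same]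
      simp
    have e3 := congrArg (fun T : Module.End F (YY F J) => T (Pi.single 0 1, 0, 0)) e1
    have e3' : (0 : YY F J) = (∑ i ∈ Finset.range c,
        kap F x φ i v • ((Pi.single (c - i) 1, 0, 0) : YY F J)) + (0, v - cp F x c φ v, 0) := by
      have : ∀ i ∈ Finset.range c, (kap F x φ i v • PP F x c φ (c - i)) (Pi.single 0 1, 0, 0) =
          kap F x φ i v • ((Pi.single (c - i) 1, 0, 0) : YY F J) := by
        intro i hi
        rw [Finset.mem_range] at hi
        rw [LinearMap.smul_apply, p0 _ (by omega) (by omega)]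
      rw [← Finset.sum_congr rfl this, ← r0 (v - cp F x c φ v), ← LinearMap.sum_apply,
        ← LinearMap.add_apply]
      exact e3
    have e4 := congrArg (fun y : YY F J => y.2.1) e3'
    simp only [Prod.snd_zero, Prod.fst_zero, Prod.snd_add, Prod.fst_add, Prod.snd_sum,
      Prod.fst_sum, Prod.smul_snd, Prod.smul_fst, smul_zero, Finset.sum_const_zero,
      zero_add] at e4
    have e5 := congrArg (fun y : YY F J => y.1) e3'
    simp only [Prod.fst_zero, Prod.fst_add, Prod.fst_sum, Prod.smul_fst, add_zero] at e5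
    have e6 : ∀ i, i < c → kap F x φ i v = 0 := by
      intro i hi
      have e7 := congrFun e5 (c - i)
      rw [Finset.sum_apply, Finset.sum_eq_single i] at e7
      · rw [Pi.smul_apply, Pi.single_eq_same, smul_eq_mul, mul_one] at e7
        exact e7.symm
      · intro j hj hji
        rw [Finset.mem_range] at hj
        rw [Pi.smul_apply, Pi.single_eq_of_ne (by omega), smul_zero]
      · intro h0
        rw [Finset.mem_range] at h0
        exact absurd hi h0
    have e8 : cp F x c φ v = 0 := by
      rw [cp_apply]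
      refine Finset.sum_eq_zero fun i hi => ?_
      rw [e6 i (Finset.mem_range.mp hi), zero_smul]
    rw [e8, sub_zero] at e4
    exact e4.symm
  · intro a b
    have := hD a b
    simp only [D, sub_eq_zero] at this
    rw [← this, smul_smul, inv_mul_cancel₀ h2, one_smul]

end

end L2
end JD
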