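import Pool.Agent.H78.L2.LA
import Pool.Agent.H8.JD.Crit

set_option autoImplicit false
set_option linter.unusedSectionVars false
set_option linter.unusedVariables false

/-!
# JD L2, class 6: the dimension count

`six_count`: if `b (b v) ∈ J⁶` implies `v ∈ J²`, then `dim J ≥ 12`, contradiction.
-/

namespace JD
namespace L2

universe u

variable {F : Type u} [Field F] {J : Type u} [NonUnitalNonAssocCommRing J] [Module F J]
  [IsScalarTower F J J] [SMulCommClass F J J]

private theorem Six0a_map [Module.Finite F J] (P Q : Submodule F J) (hPQ : P ≤ Q) :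
    Module.finrank F (Q.map P.mkQ) + Module.finrank F P = Module.finrank F Q := by
  have h := LinearMap.finrank_range_add_finrank_ker (P.mkQ ∘ₗ Q.subtype)
  rw [LinearMap.range_comp, Submodule.range_subtype, LinearMap.ker_comp, Submodule.ker_mkQ] at h
  rw [← h]
  congr 1
  exact (LinearEquiv.finrank_eq (Submodule.comapSubtypeEquivOfLe hPQ)).symm

private theorem Six0a_step [Module.Finite F J] (P Q T : Submodule F J) (hPQ : P ≤ Q)
    (g : J →ₗ[F] J) (hg : ∀ v, g v ∈ Q) (hT : ∀ v, g v ∈ P → v ∈ T) :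
    Module.finrank F J + Module.finrank F P ≤ Module.finrank F Q + Module.finrank F T := by
  have h := LinearMap.finrank_range_add_finrank_ker (P.mkQ ∘ₗ g)
  have h1 : LinearMap.range (P.mkQ ∘ₗ g) ≤ Q.map P.mkQ := by
    rintro _ ⟨v, rfl⟩
    exact ⟨g v, hg v, rfl⟩
  have h2 : LinearMap.ker (P.mkQ ∘ₗ g) ≤ T := by
    intro v hv
    rw [LinearMap.mem_ker, LinearMap.comp_apply, Submodule.mkQ_apply,
      Submodule.Quotient.mk_eq_zero] at hv
    exact hT v hv
  have h3 := Submodule.finrank_mono h1
  have h4 := Submodule.finrank_mono h2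
  have h5 := Six0a_map P Q hPQ
  omega

private theorem Six0a_lt [Module.Finite F J] (P Q : Submodule F J) (hPQ : P ≤ Q) (a : J)
    (ha : a ∈ Q) (ha' : a ∉ P) : Module.finrank F P + 1 ≤ Module.finrank F Q := by
  have : P < Q := lt_of_le_of_ne hPQ (by rintro rfl; exact ha' ha)
  exact Submodule.finrank_lt_finrank_of_lt this

theorem six_count {e : J} (h : Crit F J 6 e) (hn : ngen F J = 3) {x : J} (hx : Lay F x)
    (hx3 : x * x ∉ jpow F J 3)
    (hb : ∀ v : J, (x * x) * ((x * x) * v) ∈ jpow F J 6 → v ∈ jpow F J 2) : False := by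
  have hfin := h.fin
  have hdim := h.dim
  -- `x⁶ ≠ 0`
  have h7 : jpow F J 7 = ⊥ := h.bot
  have hx6 : xp x 6 ≠ 0 := by
    intro h0
    have he : e ∈ jpow F J 6 := by
      rw [h.top]
      exact Submodule.mem_span_singleton_self e
    obtain ⟨r, q, hq, h1⟩ := hx.mem_even' 3 (by omega) (n := 6) (by omega) he
    have hq' : q ∈ jpow F J 7 := hq
    rw [h7, Submodule.mem_bot] at hq'
    rw [h0, hq', smul_zero, add_zero] at h1
    exact h.ne h1
  have hb4 : (x * x) * xp x 4 = xp x 6 := b_xp F hx.two hx.jordan x (by omega) rfl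
  have hx4 : xp x 4 ∉ jpow F J 5 := by
    intro h5
    have h6 := bmul_mem (F := F) (n := 7) (by omega) x h5
    rw [hb4, h7, Submodule.mem_bot] at h6
    exact hx6 h6
  have l23 := Six0a_lt (jpow F J 3) (jpow F J 2) (jpow_anti (by omega)) (x * x)
    (mul_mem_two x x) hx3
  have l45 := Six0a_lt (jpow F J 5) (jpow F J 4) (jpow_anti (by omega)) (xp x 4)
    (xp_mem x 4) hx4
  have l67 := Six0a_lt (jpow F J 7) (jpow F J 6) (jpow_anti (by omega)) (xp x 6)
    (xp_mem x 6) (by rw [h7, Submodule.mem_bot]; exact hx6)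
  have l34 := Six0a_step (jpow F J 4) (jpow F J 3) (jpow F J 2) (jpow_anti (by omega))
    (LinearMap.mulLeft F (x * x)) (fun v => bmul_mem (by omega) x (mem_one v))
    (fun v hv => hb v (bmul_mem (by omega) x hv))
  have l56 := Six0a_step (jpow F J 6) (jpow F J 5) (jpow F J 2) (jpow_anti (by omega))
    (LinearMap.mulLeft F (x * x) ∘ₗ LinearMap.mulLeft F (x * x))
    (fun v => bmul_mem (n := 5) (by omega) x (bmul_mem (n := 3) (by omega) x (mem_one v)))
    (fun v hv => hb v hv)
  have l2 : Module.finrank F (J ⧸ jpow F J 2) + Module.finrank F (jpow F J 2) =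
      Module.finrank F J := Submodule.finrank_quotient_add_finrank _
  have hn' : Module.finrank F (J ⧸ jpow F J 2) = 3 := hn
  omega

end L2
end JD
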