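import Pool.Agent.H78.L2.Spl

set_option autoImplicit false
set_option linter.unusedSectionVars false
set_option linter.unusedVariables false

/-!
# JD L2: the uniform case, products

Setting `Spl F x c φ M`, hypothesis `U : ∀ v, b (b v) ∈ C` (`b = L_(x x)`, `C = Cg F x 1`), `Q = M ∩ J²`.
-/

namespace JD
namespace L2

universe u v w

variable {F : Type u} [Field F] {J : Type v} [NonUnitalNonAssocCommRing J] [Module F J]
  [IsScalarTower F J J] [SMulCommClass F J J]

/-- the uniform case -/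
structure Uni (F : Type u) [Field F] {J : Type v} [NonUnitalNonAssocCommRing J] [Module F J]
    [IsScalarTower F J J] [SMulCommClass F J J] (x : J) (c : ℕ) (φ : J →ₗ[F] F)
    (M : Submodule F J) : Prop extends Spl F x c φ M where
  U : ∀ v, (x * x) * ((x * x) * v) ∈ Cg F x 1

namespace Uni

variable {x : J} {c : ℕ} {φ : J →ₗ[F] F} {M : Submodule F J} (h : Uni F x c φ M)
include h

theorem b_two {p : J} (hp : p ∈ jpow F J 2) : (x * x) * p ∈ Cg F x 1 := by
  obtain ⟨r, q, hq, rfl⟩ := h.mem_two hp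
  obtain ⟨v, _, rfl⟩ := h.exists_b le_rfl hq
  rw [mul_add, mul_smul_comm, bb_xp F h.two h.jordan]
  exact add_mem (Submodule.smul_mem _ _ (xp_mem_Cg x (by omega))) (h.U v)

theorem x_three {p : J} (hp : p ∈ jpow F J 3) : x * p ∈ Cg F x 1 := by
  obtain ⟨v, _, rfl⟩ := h.exists_b le_rfl hp
  rw [← comm1 F h.two h.jordan]
  exact h.b_two (mul_mem_two x v)

theorem x_two {p : J} (hp : p ∈ jpow F J 2) : x * p ∈ Cg F x 1 := by
  obtain ⟨r, q, hq, rfl⟩ := h.mem_two hp
  rw [mul_add, mul_smul_comm]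
  exact add_mem (Submodule.smul_mem _ _ (xp_mem_Cg (F := F) x (i := 3) (by omega))) (h.x_three hq)

/-- `x Q = 0` -/
theorem xQ {q : J} (hq : q ∈ M) (hq2 : q ∈ jpow F J 2) : x * q = 0 :=
  h.inter (h.x_two hq2) (h.M_mul hq)

theorem xxM {m : J} (hm : m ∈ M) : x * (x * m) = 0 :=
  h.xQ (h.M_mul hm) (mul_mem_two x m)

/-- `b q ∈ F x^c` -/
theorem bQ {q : J} (hq : q ∈ M) (hq2 : q ∈ jpow F J 2) : (x * x) * q ∈ Cg F x c := by
  refine h.Cg_of_kap (k := 1) (h.b_two hq2) le_rfl ?_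
  intro i hi
  obtain ⟨j, rfl⟩ : ∃ j, i = j + 1 := ⟨i - 1, by omega⟩
  rw [kap_succ, ← comm1 F h.two h.jordan, h.xQ hq hq2, mul_zero, map_zero]

/-- `b m ∈ Q + C_{≥ c-1}` -/
theorem bM {m : J} (hm : m ∈ M) : ∃ q ∈ M, q ∈ jpow F J 2 ∧
    (x * x) * m - q ∈ Cg F x (c - 1) := by
  have hcp : cp F x c φ ((x * x) * m) ∈ Cg F x (c - 1) := by
    refine cp_mem_of (k := 2) (by have := h.hc; omega) ?_
    intro i hi
    obtain ⟨j, rfl⟩ : ∃ j, i = j + 1 + 1 := ⟨i - 2, by omega⟩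
    rw [kap_succ, kap_succ, ← comm1 F h.two h.jordan, ← comm1 F h.two h.jordan, h.xxM hm,
      mul_zero, map_zero]
  refine ⟨(x * x) * m - cp F x c φ ((x * x) * m), h.pi_mem _, ?_, ?_⟩
  · refine sub_mem (jpow_anti (by omega) (bmul_mem (n := 3) (by omega) x (mem_one m))) ?_
    exact jpow_anti (by have := h.hc; omega) (Cg_le_jpow x _ hcp)
  · rw [sub_sub_cancel]
    exact hcp

/-- `Q = π (b M)` -/
theorem Q_rep {q : J} (hq : q ∈ M) (hq2 : q ∈ jpow F J 2) : ∃ m ∈ M,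
    q - (x * x) * m ∈ Cg F x (c - 1) := by
  obtain ⟨r, p, hp, e⟩ := h.mem_two hq2
  obtain ⟨v, _, rfl⟩ := h.exists_b le_rfl hp
  obtain ⟨m, hm, e2⟩ := h.exists_dec v
  obtain ⟨q', hq', hq2', hc'⟩ := h.bM hm
  refine ⟨m, hm, ?_⟩
  have h1 : q - (x * x) * m ∈ Cg F x 1 := by
    rw [e]
    nth_rewrite 1 [e2]
    rw [mul_add]
    have e3 : r • (x * x) + ((x * x) * cp F x c φ v + (x * x) * m) - (x * x) * m =
        r • xp x 2 + (x * x) * cp F x c φ v := by
      rw [xp_two]; abel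
    rw [e3]
    exact add_mem (Submodule.smul_mem _ _ (xp_mem_Cg x (by omega)))
      (h.b_Cg le_rfl (by omega) (cp_mem x c φ v))
  have h3 : q - q' ∈ Cg F x 1 := by
    have e4 : q - q' = (q - (x * x) * m) + ((x * x) * m - q') := by abel
    rw [e4]
    exact add_mem h1 (Cg_anti x (by have := h.hc; omega) hc')
  have h4 : q = q' := sub_eq_zero.mp (h.inter h3 (sub_mem hq hq'))
  rw [h4]
  have := neg_mem hc'
  rwa [neg_sub] at this

theorem x3M {m : J} (hm : m ∈ M) : xp x 3 * m ∈ Cg F x c := by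
  rw [x3m F h.two h.jordan, h.xxM hm, mul_zero, smul_zero, sub_zero]
  exact Submodule.smul_mem _ _ (h.bQ (h.M_mul hm) (mul_mem_two x m))

theorem bbM {m : J} (hm : m ∈ M) : (x * x) * ((x * x) * m) ∈ Cg F x c := by
  obtain ⟨q, hq, hq2, hc⟩ := h.bM hm
  have e : (x * x) * m = q + ((x * x) * m - q) := by abel
  rw [e, mul_add]
  refine add_mem (h.bQ hq hq2) ?_
  exact h.b_Cg (by have := h.hc; omega) (by omega) hc

theorem x4M {m : J} (hm : m ∈ M) : xp x 4 * m ∈ Cg F x c := by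
  rw [x4m F h.two h.jordan, h.xxM hm]
  simp only [mul_zero, smul_zero, add_zero, sub_zero]
  exact h.bbM hm

theorem b_c {v : J} (hv : v ∈ Cg F x c) : (x * x) * v = 0 := by
  have := h.b_Cg (j := c + 1) (by have := h.hc; omega) (by omega) hv
  rwa [h.Cg_top, Submodule.mem_bot] at this

theorem x_c {v : J} (hv : v ∈ Cg F x c) : x * v = 0 := by
  have := h.x_Cg (j := c + 1) (by have := h.hc; omega) (by omega) hv
  rwa [h.Cg_top, Submodule.mem_bot] at this

/-- `x^i m = 0` for `i ≥ 5` -/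
theorem x5M (i : ℕ) (hi : 5 ≤ i) : ∀ m ∈ M, xp x i * m = 0 := by
  induction i using Nat.strong_induction_on with
  | _ i ih =>
    intro m hm
    obtain ⟨j, rfl⟩ : ∃ j, i = j + 2 := ⟨i - 2, by omega⟩
    rw [xp_rec F h.two h.jordan x (by omega), h.xxM hm, mul_zero, sub_zero]
    have h1 : xp x (j + 1) * (x * m) = 0 := by
      rcases (by omega : j = 3 ∨ 5 ≤ j + 1) with rfl | h5
      · rw [x4m F h.two h.jordan, h.xxM (h.M_mul hm)]
        simp only [mul_zero, smul_zero, add_zero, sub_zero]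
        exact h.b_c (h.bQ (h.M_mul hm) (mul_mem_two x m))
      · exact ih (j + 1) (by omega) h5 _ (h.M_mul hm)
    have h3 : (x * x) * (xp x j * m) = 0 ∧ x * (xp x j * m) = 0 := by
      rcases (by omega : j = 3 ∨ j = 4 ∨ 5 ≤ j) with rfl | rfl | h5
      · exact ⟨h.b_c (h.x3M hm), h.x_c (h.x3M hm)⟩
      · exact ⟨h.b_c (h.x4M hm), h.x_c (h.x4M hm)⟩
      · rw [ih j (by omega) h5 m hm, mul_zero, mul_zero]; exact ⟨rfl, rfl⟩
    rw [h1, h3.1, h3.2, mul_zero, smul_zero]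
    abel

/-- `C_{≥ 5} M = 0` -/
theorem Cg_M {v m : J} (hv : v ∈ Cg F x 5) (hm : m ∈ M) : v * m = 0 := by
  have hle : Cg F x 5 ≤ LinearMap.ker (LinearMap.mulRight F m) := by
    refine Cg_le x fun i hi => ?_
    rw [LinearMap.mem_ker, LinearMap.mulRight_apply]
    exact h.x5M i hi m hm
  have := hle hv
  rwa [LinearMap.mem_ker, LinearMap.mulRight_apply] at this

/-- `[b, L_q] = 0` -/
theorem bQw {q : J} (hq : q ∈ M) (hq2 : q ∈ jpow F J 2) (w : J) :
    (x * x) * (q * w) = q * ((x * x) * w) := by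
  have := comm2 F h.two h.jordan x q w
  rw [h.xQ hq hq2, zero_mul, zero_mul, mul_zero, sub_zero, smul_zero, sub_eq_zero] at this
  exact this

/-- `Q Q = 0` -/
theorem QQ {q q' : J} (hq : q ∈ M) (hq2 : q ∈ jpow F J 2) (hq' : q' ∈ M)
    (hq2' : q' ∈ jpow F J 2) : q * q' = 0 := by
  have key : ∀ k, ∀ q ∈ M, q ∈ jpow F J 2 → ∀ q' ∈ M, q' ∈ jpow F J 2 →
      q * q' ∈ jpow F J k := by
    intro k
    induction k with
    | zero => intro q _ _ q' _ _; rw [jpow_zero]; trivial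
    | succ k ih =>
      intro q hq hq2 q' hq' hq2'
      obtain ⟨m, hm, hc⟩ := h.Q_rep hq' hq2'
      have e1 : q * q' = q * ((x * x) * m) := by
        have e : q' = (x * x) * m + (q' - (x * x) * m) := by abel
        have h0 : q * (q' - (x * x) * m) = 0 := by
          rw [mul_comm]
          exact h.Cg_M (Cg_anti x (by have := h.hc; omega) hc) hq
        rw [e, mul_add, h0, add_zero]
      have e3 : (x * x) * (m * q) - m * ((x * x) * q) = (2 : F) • (x * ((x * m) * q)) := by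
        rw [comm2 F h.two h.jordan, h.xQ hq hq2, mul_zero, sub_zero]
      have e4 : m * ((x * x) * q) = 0 := by
        rw [mul_comm]
        exact h.Cg_M (Cg_anti x (by have := h.hc; omega) (h.bQ hq hq2)) hm
      rw [e4, sub_zero] at e3
      rw [e1, ← h.bQw hq hq2, mul_comm q m, e3]
      exact Submodule.smul_mem _ _ (lmul_mem (by omega) x
        (ih _ (h.M_mul hm) (mul_mem_two x m) q hq hq2))
  exact h.zero_of_mem le_rfl (key (c + 1) q hq hq2 q' hq' hq2')

/-- `M Q ⊆ C_{≥ c-1}` -/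
theorem MQ {m q : J} (hm : m ∈ M) (hq : q ∈ M) (hq2 : q ∈ jpow F J 2) :
    m * q ∈ Cg F x (c - 1) := by
  have hc7 := h.hc
  -- `b (m q) = 0`
  obtain ⟨q'', hq'', hq2'', hc''⟩ := h.bM hm
  have hb0 : (x * x) * (m * q) = 0 := by
    rw [mul_comm m q, h.bQw hq hq2]
    have e : (x * x) * m = q'' + ((x * x) * m - q'') := by abel
    have h0 : q * ((x * x) * m - q'') = 0 := by
      rw [mul_comm]
      exact h.Cg_M (Cg_anti x (by omega) hc'') hq
    rw [e, mul_add, h0, add_zero, h.QQ hq hq2 hq'' hq2'']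
  -- `m q ∈ C`
  obtain ⟨m', hm', hc'⟩ := h.Q_rep hq hq2
  have hC : m * q ∈ Cg F x 1 := by
    have e : q = (x * x) * m' + (q - (x * x) * m') := by abel
    have h0 : m * (q - (x * x) * m') = 0 := by
      rw [mul_comm]
      exact h.Cg_M (Cg_anti x (by omega) hc') hm
    rw [e, mul_add, h0, add_zero]
    have e3 := comm2 F h.two h.jordan x m m'
    have e5 : m * ((x * x) * m') = (x * x) * (m * m') -
        (2 : F) • (x * ((x * m) * m') - (x * m) * (x * m')) := by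
      rw [← e3]; abel
    rw [e5, h.QQ (h.M_mul hm) (mul_mem_two x m) (h.M_mul hm') (mul_mem_two x m'), sub_zero]
    refine sub_mem (h.b_two (mul_mem_two m m')) (Submodule.smul_mem _ _ (h.x_two ?_))
    exact mul_mem_two _ _
  refine h.Cg_of_kap (k := 2) hC (by omega) ?_
  intro i hi
  obtain ⟨j, rfl⟩ : ∃ j, i = j + 2 := ⟨i - 2, by omega⟩
  rw [← h.kap_b_Cg hC, hb0, map_zero]

/-- `M M ⊆ Q + C_{≥ c-3}` -/
theorem MM {m m' : J} (hm : m ∈ M) (hm' : m' ∈ M) : ∃ q ∈ M, q ∈ jpow F J 2 ∧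
    m * m' - q ∈ Cg F x (c - 3) := by
  have hc7 := h.hc
  have hq : m * m' - cp F x c φ (m * m') ∈ M := h.pi_mem _
  have hcp2 : cp F x c φ (m * m') ∈ Cg F x 2 := by
    refine cp_mem_of (k := c - 1) (by omega) ?_
    intro i hi
    exact h.kap_zero_of_mem (n := 2) (by omega) (mul_mem_two m m')
  have hq2 : m * m' - cp F x c φ (m * m') ∈ jpow F J 2 :=
    sub_mem (mul_mem_two m m') (Cg_le_jpow x _ hcp2)
  refine ⟨_, hq, hq2, ?_⟩
  rw [sub_sub_cancel]
  -- `b (m m') ∈ C_{≥ c-1}`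
  have hb : (x * x) * (m * m') ∈ Cg F x (c - 1) := by
    have e3 := comm2 F h.two h.jordan x m m'
    have e5 : (x * x) * (m * m') = m * ((x * x) * m') +
        (2 : F) • (x * ((x * m) * m') - (x * m) * (x * m')) := by
      rw [← e3]; abel
    rw [e5, h.QQ (h.M_mul hm) (mul_mem_two x m) (h.M_mul hm') (mul_mem_two x m'), sub_zero]
    obtain ⟨q', hq', hq2', hc'⟩ := h.bM hm'
    have e : (x * x) * m' = q' + ((x * x) * m' - q') := by abel
    have h0 : m * ((x * x) * m' - q') = 0 := by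
      rw [mul_comm]
      exact h.Cg_M (Cg_anti x (by omega) hc') hm
    rw [e, mul_add, h0, add_zero]
    refine add_mem (h.MQ hm hq' hq2') (Submodule.smul_mem _ _ ?_)
    refine h.x_Cg (i := c - 1) (by omega) (by omega) ?_
    rw [mul_comm]
    exact h.MQ hm' (h.M_mul hm) (mul_mem_two x m)
  have hb2 : (x * x) * cp F x c φ (m * m') ∈ Cg F x (c - 1) := by
    have e : (x * x) * cp F x c φ (m * m') = (x * x) * (m * m') -
        (x * x) * (m * m' - cp F x c φ (m * m')) := by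
      rw [mul_sub]; abel
    rw [e]
    exact sub_mem hb (Cg_anti x (by omega) (h.bQ hq hq2))
  refine h.Cg_of_kap (k := 4) (cp_mem x c φ _) (by omega) ?_
  intro i hi
  obtain ⟨j, rfl⟩ : ∃ j, i = j + 2 := ⟨i - 2, by omega⟩
  rw [← h.kap_b_Cg (cp_mem x c φ _)]
  exact h.kap_Cg (j := c - 1) (by omega) (by omega) hb2

end Uni

end L2
end JD
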